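import Pool.Agent.Lib.LOI.Defs
import Pool.Agent.Lib.WhtLI.ThmW
import Pool.Agent.Lib.GogLI.CExt

set_option autoImplicit false

/-!
# The absolute weight test (transfer 1/2): `WhtLI` with no groups `H b` and trivial heights
-/

namespace Pool.Agent.LOI

open Finset
open scoped Classical

section

variable {T E : Type} {m : E → ℕ} (a : ∀ e : E, Fin (m e + 1) → T × Bool)

/-- the end after the corner -/
def nxtN (κ : Σ e : E, Fin (m e + 1)) : T × Bool := a κ.1 κ.2

/-- the end before the corner -/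
def prvN (κ : Σ e : E, Fin (m e + 1)) : T × Bool :=
  ((a κ.1 (κ.2 - 1)).1, !(a κ.1 (κ.2 - 1)).2)

/-- the ends of the corners in `K` -/
noncomputable def endsN (K : Finset (Σ e : E, Fin (m e + 1))) : Finset (T × Bool) :=
  K.image (nxtN a) ∪ K.image (prvN a)

/-- no groups -/
private abbrev HT : Empty → Type := fun _ => PUnit

/-- the letters as letters of `WhtLI` -/
private def absA (e : E) (c : Fin (m e + 1)) : WhtLI.Ltr HT T × Bool :=
  (Sum.inr (a e c).1, (a e c).2)

private def absE (ε : T × Bool) : WhtLI.Ltr HT T × Bool := (Sum.inr ε.1, ε.2)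

private theorem absE_inj : Function.Injective (absE : T × Bool → _) := by
  rintro ⟨x, c⟩ ⟨y, d⟩ h
  have h1 := Prod.mk.inj h
  exact Prod.ext (Sum.inr.inj h1.1) h1.2

private theorem abs_alt (alt : ∀ κ, prvN a κ ≠ nxtN a κ) (e : E) (c : Fin (m e + 1)) :
    WhtLI.lec (LIA.linv (absA a e c)) ≠ WhtLI.lec (absA a e (c + 1)) := by
  intro h
  have h1 := alt ⟨e, c + 1⟩
  have h2 : ((a e c).1, !(a e c).2) = ((a e (c + 1)).1, (a e (c + 1)).2) := Sum.inr.inj h
  apply h1
  unfold prvN nxtN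
  simp only [add_sub_cancel_right]
  exact h2

private theorem abs_endK (alt : ∀ κ, prvN a κ ≠ nxtN a κ) (K : Finset (Σ e : E, Fin (m e + 1))) :
    (WhtLI.PW (absA a) (abs_alt a alt)).endK K = (endsN a K).image absE := by
  ext ε
  rw [WhtLI.OW.mem_endK, mem_image]
  unfold endsN
  constructor
  · rintro ⟨κ, hκ, rfl | rfl⟩
    · exact ⟨nxtN a κ, mem_union_left _ (mem_image_of_mem _ hκ), rfl⟩
    · exact ⟨prvN a κ, mem_union_right _ (mem_image_of_mem _ hκ), rfl⟩
  · rintro ⟨ε', h1, rfl⟩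
    rw [mem_union, mem_image, mem_image] at h1
    rcases h1 with ⟨κ, hκ, rfl⟩ | ⟨κ, hκ, rfl⟩
    · exact ⟨κ, hκ, Or.inl rfl⟩
    · exact ⟨κ, hκ, Or.inr rfl⟩

private theorem abs_bk (alt : ∀ κ, prvN a κ ≠ nxtN a κ) (K : Finset (Σ e : E, Fin (m e + 1))) :
    (WhtLI.PW (absA a) (abs_alt a alt)).Bk K = (endsN a K).image Sum.inr := by
  ext j
  rw [WhtLI.OW.mem_bk, mem_image]
  unfold endsN
  constructor
  · rintro ⟨κ, hκ, rfl | rfl⟩
    · exact ⟨nxtN a κ, mem_union_left _ (mem_image_of_mem _ hκ), rfl⟩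
    · exact ⟨prvN a κ, mem_union_right _ (mem_image_of_mem _ hκ), rfl⟩
  · rintro ⟨ε', h1, rfl⟩
    rw [mem_union, mem_image, mem_image] at h1
    rcases h1 with ⟨κ, hκ, rfl⟩ | ⟨κ, hκ, rfl⟩
    · exact ⟨κ, hκ, Or.inl rfl⟩
    · exact ⟨κ, hκ, Or.inr rfl⟩

private theorem li_punit : LIA.LocallyIndicable PUnit.{1} := by
  intro H _ hne
  exact (hne (Subsingleton.elim _ _)).elim

/-- `WhtLI` for words in free letters -/
private theorem abs_gt (alt : ∀ κ, prvN a κ ≠ nxtN a κ) (w : (Σ e : E, Fin (m e + 1)) → ℝ)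
    (hw : ∀ e, 1 ≤ ∑ c, w ⟨e, c⟩)
    (hK : ∀ K : Finset (Σ e : E, Fin (m e + 1)), K.Nonempty →
      (∀ U : Finset (T × Bool), U.Nonempty → U ⊂ endsN a K →
        2 ≤ (K.filter fun κ => ¬ (nxtN a κ ∈ U ↔ prvN a κ ∈ U)).card) →
      ∑ κ ∈ K, w κ + 1 ≤ ((endsN a K).card : ℝ) / 2) :
    LIA.LocallyIndicable (WhtLI.GT (absA a)) := by
  refine (WhtLI.thmW (absA a) (abs_alt a alt) (fun b => b.elim) li_punit
    (fun b => b.elim) (fun _ => PUnit.unit) (fun _ => rfl) (fun F S =>
      ⟨Empty, inferInstance, fun o => o.elim, fun κ _ => w κ, fun b => b.elim,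
        fun _ _ => 1 / 2, ?_⟩)).1
  refine ⟨fun b => b.elim, fun b => b.elim, fun b => b.elim, fun b => b.elim, ?_, ?_⟩
  · intro e _ _ _ _
    exact hw e
  · intro g _ K hK1 _
    rw [abs_endK a alt K, abs_bk a alt K, sum_image (fun _ _ _ _ h => Sum.inr.inj h),
      sum_image (fun _ _ _ _ h => absE_inj h), ← sum_add_distrib]
    have h1 : ∀ ε ∈ endsN a K, WhtLI.cval (absA a) (abs_alt a alt) (fun b : Empty => b.elim)
        (fun _ => PUnit.unit) K (fun o : Empty => o.elim) (fun b : Empty => b.elim) g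
        (Sum.inr ε) + WhtLI.sgn (absE ε) * (1 / 2) = 1 / 2 := by
      rintro ⟨x, c⟩ _
      cases c
      · simp only [WhtLI.cval, WhtLI.sgn, absE]
        norm_num
      · simp only [WhtLI.cval, WhtLI.sgn, absE]
        norm_num
    rw [sum_congr rfl h1, sum_const, nsmul_eq_mul, mul_one_div]
    refine hK K hK1.1 fun U hU hU' => ?_
    have h2 := hK1.2 (U.image Sum.inr) (hU.image _) (by
      rw [abs_bk a alt K]
      exact (image_ssubset_image Sum.inr_injective).2 hU')
    have h3 : (K.filter fun κ => (WhtLI.PW (absA a) (abs_alt a alt)).Cr κ (U.image Sum.inr)) =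
        K.filter fun κ => ¬ (nxtN a κ ∈ U ↔ prvN a κ ∈ U) := by
      refine filter_congr fun κ _ => ?_
      have h4 : ∀ ε : T × Bool, (Sum.inr ε : Empty ⊕ (T × Bool)) ∈ U.image Sum.inr ↔ ε ∈ U := by
        intro ε
        rw [mem_image]
        constructor
        · rintro ⟨ε', h5, h6⟩
          rw [← Sum.inr.inj h6]
          exact h5
        · exact fun h5 => ⟨ε, h5, rfl⟩
      exact not_congr (iff_congr (h4 _) (h4 _))
    rw [h3] at h2
    exact h2

/-- Special case of `Pool.Agent.Results.MP_cf50d6_gt.RelativeCurvature.result` (`I = Empty`, `L` trivial, `t = 1/2`); helper99 does this module. -/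
theorem abs_test (alt : ∀ κ, prvN a κ ≠ nxtN a κ) (w : (Σ e : E, Fin (m e + 1)) → ℝ)
    (hw : ∀ e, 1 ≤ ∑ c, w ⟨e, c⟩)
    (hK : ∀ K : Finset (Σ e : E, Fin (m e + 1)), K.Nonempty →
      (∀ U : Finset (T × Bool), U.Nonempty → U ⊂ endsN a K →
        2 ≤ (K.filter fun κ => ¬ (nxtN a κ ∈ U ↔ prvN a κ ∈ U)).card) →
      ∑ κ ∈ K, w κ + 1 ≤ ((endsN a K).card : ℝ) / 2) :
    LI (PresentedGroup (Set.range fun e : E =>
      (List.ofFn fun c => if (a e c).2 then FreeGroup.of (a e c).1
        else (FreeGroup.of (a e c).1)⁻¹).prod)) := by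
  set rels : Set (FreeGroup T) := Set.range fun e : E =>
      (List.ofFn fun c => if (a e c).2 then FreeGroup.of (a e c).1
        else (FreeGroup.of (a e c).1)⁻¹).prod with hrels
  -- values of the words
  have hval : ∀ {G : Type} [Group G] (θ : ∀ b, HT b →* G) (τ : T → G) (e : E),
      FreeGroup.lift τ ((List.ofFn fun c => if (a e c).2 then FreeGroup.of (a e c).1
        else (FreeGroup.of (a e c).1)⁻¹).prod) = WhtLI.wval θ τ (absA a e) := by
    intro G _ θ τ e
    unfold WhtLI.wval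
    rw [map_list_prod, List.map_ofFn]
    congr 2
    funext c
    change FreeGroup.lift τ (if (a e c).2 then FreeGroup.of (a e c).1
      else (FreeGroup.of (a e c).1)⁻¹) = WhtLI.sg (τ (a e c).1) (a e c).2
    unfold WhtLI.sg
    by_cases hc : (a e c).2 = true
    · rw [if_pos hc, if_pos hc, FreeGroup.lift_apply_of]
    · rw [if_neg hc, if_neg hc, map_inv, FreeGroup.lift_apply_of]
  let f : PresentedGroup rels →* WhtLI.GT (absA a) :=
    PresentedGroup.toGroup (f := WhtLI.gT (absA a)) (by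
      rintro _ ⟨e, rfl⟩
      rw [hval (WhtLI.gH (absA a)) (WhtLI.gT (absA a)) e]
      exact WhtLI.gt_rel (absA a) e)
  obtain ⟨Φ, _, hΦ⟩ := WhtLI.gt_univ (absA a) (K := PresentedGroup rels) (fun b => b.elim)
    (fun t => PresentedGroup.of t) (by
      intro e
      rw [← hval]
      have h1 : FreeGroup.lift (fun t : T => (PresentedGroup.of t : PresentedGroup rels)) =
          PresentedGroup.mk rels := by
        refine FreeGroup.ext_hom _ _ fun t => ?_
        rw [FreeGroup.lift_apply_of]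
        rfl
      rw [h1]
      exact PresentedGroup.one_of_mem ⟨e, rfl⟩)
  have hcomp : Φ.comp f = MonoidHom.id _ := by
    refine PresentedGroup.ext fun t => ?_
    rw [MonoidHom.comp_apply, MonoidHom.id_apply]
    have h1 : f (PresentedGroup.of t) = WhtLI.gT (absA a) t := PresentedGroup.toGroup.of _
    rw [h1, hΦ]
  have hinj : Function.Injective f := by
    intro x y hxy
    have h1 := congrArg Φ hxy
    have h2 := DFunLike.congr_fun hcomp x
    have h3 := DFunLike.congr_fun hcomp y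
    rw [MonoidHom.comp_apply, MonoidHom.id_apply] at h2 h3
    rw [← h2, ← h3, h1]
  exact LIA.LocallyIndicable.of_inj f hinj (abs_gt a alt w hw hK)

end

end Pool.Agent.LOI
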