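import Pool.Agent.Lib.LOI.PBase

set_option autoImplicit false

namespace Pool.Agent.LOI

open Finset
open scoped Classical

private theorem BLim_one (m n : ℕ) (δ : ℝ) (y : Fin (n + 1)) :
    Pb n (fun ω => δ * ((n : ℝ) + 1) < Lr m ω y) ≤
      Real.exp 3 / Real.exp (δ * ((n : ℝ) + 1)) := by
  have hx : (0 : ℝ) < (n : ℝ) + 1 := by positivity
  have hc : 0 < Real.exp (δ * ((n : ℝ) + 1)) := Real.exp_pos _
  have h := Pb_weight' (n := n) (fun ω => δ * ((n : ℝ) + 1) < Lr m ω y)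
    (Real.exp (δ * ((n : ℝ) + 1))) (fun _ v => if v.1 = y then 4 else 1)
    (fun j v => by split_ifs <;> norm_num) (fun ω hω => by
      have h1 : (∏ j, (if (ω j).1 = y then (4 : ℝ) else 1)) =
          4 ^ (univ.filter fun j => (ω j).1 = y).card := by
        rw [prod_ite, prod_const, prod_const, one_pow, mul_one]
      rw [h1]
      have h2 : Lr m ω y ≤ (univ.filter fun j => (ω j).1 = y).card :=
        card_le_card (filter_subset_filter _ (subset_univ _))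
      have h3 : Real.exp (δ * ((n : ℝ) + 1)) ≤ Real.exp ((Lr m ω y : ℕ) : ℝ) :=
        Real.exp_le_exp.2 hω.le
      have h4 : Real.exp ((Lr m ω y : ℕ) : ℝ) = Real.exp 1 ^ (Lr m ω y) := by
        rw [← Real.exp_nat_mul, mul_one]
      have h5 : Real.exp 1 ≤ 4 := by
        have := Real.exp_one_lt_d9
        linarith
      calc Real.exp (δ * ((n : ℝ) + 1)) ≤ Real.exp 1 ^ (Lr m ω y) := h4 ▸ h3
        _ ≤ 4 ^ (Lr m ω y) := pow_le_pow_left₀ (Real.exp_pos _).le h5 _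
        _ ≤ 4 ^ (univ.filter fun j => (ω j).1 = y).card :=
          pow_le_pow_right₀ (by norm_num) h2)
  have hsum : (∑ v : Fin (n + 1) × Bool, (if v.1 = y then (4 : ℝ) else 1)) =
      2 * ((n : ℝ) + 1) + 6 := by
    rw [Fintype.sum_prod_type]
    have h0 : ∀ x : Fin (n + 1), (∑ _b : Bool, (if x = y then (4 : ℝ) else 1)) =
        2 * (if x = y then (4 : ℝ) else 1) := by
      intro x
      rw [Fintype.sum_bool]
      ring
    rw [sum_congr rfl fun x _ => h0 x, ← mul_sum]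
    have h6 : (∑ x : Fin (n + 1), (if x = y then (4 : ℝ) else 1)) = ((n : ℝ) + 1) + 3 := by
      have h7 : ∀ x : Fin (n + 1), (if x = y then (4 : ℝ) else 1) = 1 + (if x = y then 3 else 0) := by
        intro x
        split_ifs <;> norm_num
      rw [sum_congr rfl fun x _ => h7 x, sum_add_distrib, sum_ite_eq' univ y]
      simp
    rw [h6]
    ring
  rw [hsum, prod_const, card_univ, Fintype.card_fin] at h
  have h8 : ((2 * ((n : ℝ) + 1) + 6) / (2 * ((n : ℝ) + 1))) ^ n ≤ Real.exp 3 := by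
    have h9 : (2 * ((n : ℝ) + 1) + 6) / (2 * ((n : ℝ) + 1)) = 3 / ((n : ℝ) + 1) + 1 := by
      field_simp
      ring
    rw [h9]
    have h10 : 3 / ((n : ℝ) + 1) + 1 ≤ Real.exp (3 / ((n : ℝ) + 1)) := Real.add_one_le_exp _
    calc (3 / ((n : ℝ) + 1) + 1) ^ n ≤ Real.exp (3 / ((n : ℝ) + 1)) ^ n :=
          pow_le_pow_left₀ (by positivity) h10 _
      _ = Real.exp (n * (3 / ((n : ℝ) + 1))) := by rw [Real.exp_nat_mul]
      _ ≤ Real.exp 3 := by
          apply Real.exp_le_exp.2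
          rw [← mul_div_assoc, div_le_iff₀ hx]
          nlinarith
  rw [le_div_iff₀ hc, mul_comm]
  exact h.trans h8

/-- Proof. Exponential moments: `exp (δ (n+1)) * Pb ≤ (1 + 3 / (n+1))^n ≤ exp 3` for each label, and a union bound. -/
theorem BL_lim (m : ℕ) (δ : ℝ) (hδ : 0 < δ) (ε : ℝ) (hε : 0 < ε) :
    ∃ n₀ : ℕ, ∀ n ≥ n₀, Pb n (BL m δ) ≤ ε := by
  obtain ⟨n₀, hn₀⟩ := exists_nat_ge (2 * Real.exp 3 / (δ ^ 2 * ε))
  refine ⟨n₀, fun n hn => ?_⟩
  have hx : (0 : ℝ) < (n : ℝ) + 1 := by positivity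
  have h1 : Pb n (BL m δ) ≤ ∑ y : Fin (n + 1), Pb n (fun ω => δ * ((n : ℝ) + 1) < Lr m ω y) := by
    refine le_trans (Pb_mono ?_)
      (Pb_exists univ (fun (y : Fin (n + 1)) ω => δ * ((n : ℝ) + 1) < Lr m ω y))
    rintro ω ⟨y, hy⟩
    exact ⟨y, mem_univ _, hy⟩
  have h2 : ∑ y : Fin (n + 1), Pb n (fun ω => δ * ((n : ℝ) + 1) < Lr m ω y) ≤
      ((n : ℝ) + 1) * (Real.exp 3 / Real.exp (δ * ((n : ℝ) + 1))) := by
    refine le_trans (sum_le_sum fun y _ => BLim_one m n δ y) ?_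
    rw [sum_const, card_univ, Fintype.card_fin, nsmul_eq_mul]
    push_cast
    exact le_rfl
  have h3 : (δ * ((n : ℝ) + 1)) ^ 2 / 2 ≤ Real.exp (δ * ((n : ℝ) + 1)) := by
    have hp : 0 ≤ δ * ((n : ℝ) + 1) := by positivity
    have := Real.quadratic_le_exp_of_nonneg hp
    linarith
  have h4 : ((n : ℝ) + 1) * (Real.exp 3 / Real.exp (δ * ((n : ℝ) + 1))) ≤ ε := by
    have h5 : 2 * Real.exp 3 / (δ ^ 2 * ε) ≤ (n : ℝ) + 1 := by
      have : (n₀ : ℝ) ≤ n := by exact_mod_cast hn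
      linarith
    rw [div_le_iff₀ (by positivity)] at h5
    rw [← mul_div_assoc, div_le_iff₀ (Real.exp_pos _)]
    calc ((n : ℝ) + 1) * Real.exp 3 ≤ ε * ((δ * ((n : ℝ) + 1)) ^ 2 / 2) := by nlinarith
      _ ≤ ε * Real.exp (δ * ((n : ℝ) + 1)) := by gcongr
  exact h1.trans (h2.trans h4)

end Pool.Agent.LOI
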