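import Mathlib

set_option autoImplicit false

/-!
# Transfer: sums over sequences with nearest neighbour interaction
-/

namespace Pool.Agent.LOI

open Finset

/-- the transfer vectors: `vec w g k s` is the sum over the sequences of length `k + 1` which end with `s` -/
noncomputable def vec {S : Type} [Fintype S] (w : ℕ → S → ℝ) (g : S → S → ℝ) : ℕ → S → ℝ
  | 0 => w 0
  | k + 1 => fun s' => w (k + 1) s' * ∑ s, vec w g k s * g s s'

private theorem chain_vec_nonneg {S : Type} [Fintype S] (w : ℕ → S → ℝ) (g : S → S → ℝ)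
    (hw : ∀ i s, 0 ≤ w i s) (hg : ∀ s s', 0 ≤ g s s') (k : ℕ) : ∀ s, 0 ≤ vec w g k s := by
  induction k with
  | zero => exact hw 0
  | succ k ih =>
    intro s'
    exact mul_nonneg (hw _ _) (Finset.sum_nonneg fun s _ => mul_nonneg (ih s) (hg _ _))

/-- Proof. Induction on `k` with `f` general: `Fin.snocEquiv`/`Fin.consEquiv` (split off the last entry; `Fin.prod_univ_castSucc`). First prove for every `s`
that the sum over the sequences with last entry `s` is `vec w g k s`. -/
theorem chain_sum {S : Type} [Fintype S] (w : ℕ → S → ℝ) (g : S → S → ℝ) (f : S → ℝ) (k : ℕ) :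
    ∑ σ : Fin (k + 1) → S, ((∏ i, w i.val (σ i)) * (∏ i : Fin k, g (σ i.castSucc) (σ i.succ))) *
      f (σ (Fin.last k)) = ∑ s, vec w g k s * f s := by
  induction k generalizing f with
  | zero =>
    rw [← (Equiv.funUnique (Fin 1) S).symm.sum_comp]
    refine Finset.sum_congr rfl fun s _ => ?_
    simp [vec]
  | succ k ih =>
    rw [← (Fin.snocEquiv (fun _ => S)).sum_comp, Fintype.sum_prod_type_right]
    have h1 : ∀ σ : Fin (k + 1) → S, ∑ s' : S,
        ((∏ i, w i.val ((Fin.snocEquiv (fun _ => S)) (s', σ) i)) *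
          (∏ i : Fin (k + 1), g ((Fin.snocEquiv (fun _ => S)) (s', σ) i.castSucc)
            ((Fin.snocEquiv (fun _ => S)) (s', σ) i.succ))) *
          f ((Fin.snocEquiv (fun _ => S)) (s', σ) (Fin.last (k + 1))) =
        ((∏ i, w i.val (σ i)) * (∏ i : Fin k, g (σ i.castSucc) (σ i.succ))) *
          (fun s => ∑ s', g s s' * w (k + 1) s' * f s') (σ (Fin.last k)) := by
      intro σ
      rw [Finset.mul_sum]
      refine Finset.sum_congr rfl fun s' _ => ?_
      have e1 : ∀ i : Fin (k + 1), (Fin.snocEquiv (fun _ => S)) (s', σ) i.castSucc = σ i := by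
        intro i
        simp [Fin.snocEquiv]
      have e2 : (Fin.snocEquiv (fun _ => S)) (s', σ) (Fin.last (k + 1)) = s' := by
        simp [Fin.snocEquiv]
      have e3 : ∏ i : Fin (k + 2), w i.val ((Fin.snocEquiv (fun _ => S)) (s', σ) i) =
          (∏ i : Fin (k + 1), w i.val (σ i)) * w (k + 1) s' := by
        rw [Fin.prod_univ_castSucc, e2]
        congr 1
        exact Finset.prod_congr rfl fun i _ => by rw [e1]; rfl
      have e4 : ∏ i : Fin (k + 1), g ((Fin.snocEquiv (fun _ => S)) (s', σ) i.castSucc)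
            ((Fin.snocEquiv (fun _ => S)) (s', σ) i.succ) =
          (∏ i : Fin k, g (σ i.castSucc) (σ i.succ)) * g (σ (Fin.last k)) s' := by
        rw [Fin.prod_univ_castSucc, Fin.succ_last, e1, e2]
        congr 1
        refine Finset.prod_congr rfl fun i _ => ?_
        rw [e1, show i.castSucc.succ = i.succ.castSucc from rfl, e1]
      rw [e2, e3, e4]
      ring
    refine (Finset.sum_congr rfl fun σ _ => h1 σ).trans
      ((ih (fun s => ∑ s', g s s' * w (k + 1) s' * f s')).trans ?_)
    simp only [vec, Finset.mul_sum, Finset.sum_mul]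
    rw [Finset.sum_comm]
    exact Finset.sum_congr rfl fun s' _ => Finset.sum_congr rfl fun s _ => by ring

/-- the potential bound. Proof. `∑ s, vec w g k s * φ s ≤ (∑ s, w 0 s * φ s) * ∏ i < k, l i` by induction on `k`:
`∑ s', vec (k+1) s' φ s' = ∑ s, vec k s * ∑ s', g s s' w (k+1) s' φ s' ≤ l k * ∑ s, vec k s φ s`; all `vec` are `≥ 0`. -/
theorem chain_bound {S : Type} [Fintype S] (w : ℕ → S → ℝ) (g : S → S → ℝ) (f φ : S → ℝ)
    (l : ℕ → ℝ) (hw : ∀ i s, 0 ≤ w i s) (hg : ∀ s s', 0 ≤ g s s') (hl : ∀ i, 0 ≤ l i)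
    (hf : ∀ s, f s ≤ φ s)
    (hφ : ∀ i s, ∑ s', g s s' * w (i + 1) s' * φ s' ≤ l i * φ s) (k : ℕ) :
    ∑ σ : Fin (k + 1) → S, ((∏ i, w i.val (σ i)) * (∏ i : Fin k, g (σ i.castSucc) (σ i.succ))) *
      f (σ (Fin.last k)) ≤ (∑ s, w 0 s * φ s) * ∏ i ∈ range k, l i := by
  rw [chain_sum]
  refine (Finset.sum_le_sum fun s _ => mul_le_mul_of_nonneg_left (hf s)
    (chain_vec_nonneg w g hw hg k s)).trans ?_
  induction k with
  | zero => simp [vec]
  | succ k ih =>
    have h1 : ∑ s', vec w g (k + 1) s' * φ s' =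
        ∑ s, vec w g k s * ∑ s', g s s' * w (k + 1) s' * φ s' := by
      simp only [vec, Finset.mul_sum, Finset.sum_mul]
      rw [Finset.sum_comm]
      exact Finset.sum_congr rfl fun s' _ => Finset.sum_congr rfl fun s _ => by ring
    rw [h1, Finset.prod_range_succ]
    have h2 : ∑ s, vec w g k s * ∑ s', g s s' * w (k + 1) s' * φ s' ≤
        l k * ∑ s, vec w g k s * φ s := by
      rw [Finset.mul_sum]
      refine Finset.sum_le_sum fun s _ => ?_
      have := mul_le_mul_of_nonneg_left (hφ k s) (chain_vec_nonneg w g hw hg k s)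
      linarith
    refine h2.trans ?_
    have := mul_le_mul_of_nonneg_left ih (hl k)
    linarith

end Pool.Agent.LOI
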