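import Pool.Agent.Lib.LOI.Half

set_option autoImplicit false

namespace Pool.Agent.LOI

open Finset
open scoped Classical

variable {n : ℕ}

/-- the nodes reached from `(r, s)` -/
private inductive Clos_Cl (m : ℕ) (ω : Om n) (U : Finset (Node n)) (r : Fin (n + 1)) (s : Bool) :
    Node n → Prop
  | base : Clos_Cl m ω U r s (r, s)
  | step (h : Half n) (t : Bool) (h1 : h.1 ∈ Mid n m) (h2 : Clos_Cl m ω U r s (hd ω h))
      (h3 : (bs h, t) ∉ U) : Clos_Cl m ω U r s (bs h, t)

/-- The closure of a node in the complement of `U`. Proof. `C` = the set of the nodes in the inductively defined predicate `Cl`: `Cl (r, s)`; if `h` is a mid half,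
`Cl (hd ω h)` and `(bs h, t) ∉ U` then `Cl (bs h, t)`. (Or: the intersection of all sets with these properties.) `r` is not the base of a mid half
(`hr`), so `(r, !s) ∉ C`. -/
theorem exists_closure (m : ℕ) (ω : Om n) (U : Finset (Node n)) (r : Fin (n + 1)) (s : Bool)
    (hrU : (r, s) ∉ U) (hr : ∀ h : Half n, h.1 ∈ Mid n m → bs h ≠ r) :
    ∃ C : Finset (Node n), (∀ ν ∈ C, ν ∉ U) ∧ (r, s) ∈ C ∧ (r, !s) ∉ C ∧
      (∀ x ∈ pr C, x ≠ r → x ∈ Cov m ω C) ∧
      ∀ h : Half n, h.1 ∈ Mid n m → hd ω h ∈ C → ∀ t, (bs h, t) ∉ U → (bs h, t) ∈ C := by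
  refine ⟨univ.filter fun ν => Clos_Cl m ω U r s ν, ?_, ?_, ?_, ?_, ?_⟩
  · intro ν hν
    have h1 := (mem_filter.1 hν).2
    cases h1 with
    | base => exact hrU
    | step h t h1 h2 h3 => exact h3
  · exact mem_filter.2 ⟨mem_univ _, Clos_Cl.base⟩
  · intro hν
    have h1 := (mem_filter.1 hν).2
    have key : ∀ ν : Node n, Clos_Cl m ω U r s ν → ν.1 = r → ν.2 = s := by
      intro ν hν hr1
      cases hν with
      | base => rfl
      | step h t h1 h2 h3 => exact (hr h h1 hr1).elim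
    have h2 := key _ h1 rfl
    cases s <;> simp at h2
  · intro x hx hxr
    obtain ⟨ν, hν, rfl⟩ := mem_image.1 hx
    have h1 := (mem_filter.1 hν).2
    cases h1 with
    | base => exact (hxr rfl).elim
    | step h t h1 h2 h3 =>
      refine mem_image.2 ⟨h, mem_filter.2 ⟨mem_univ _, h1, mem_filter.2 ⟨mem_univ _, h2⟩⟩, rfl⟩
  · intro h hh h1 t h3
    exact mem_filter.2 ⟨mem_univ _, Clos_Cl.step h t hh (mem_filter.1 h1).2 h3⟩

end Pool.Agent.LOI
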