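import Pool.Agent.Lib.LOI.Half

set_option autoImplicit false

/-!
# Decomposition over the vertices
-/

namespace Pool.Agent.LOI

open Finset
open scoped Classical

variable {n : ℕ}

private theorem LkSum_fib (U : Finset (Node n)) (g : Node n → ℤ) :
    ∑ ν ∈ U, g ν = ∑ x ∈ pr U, ∑ t : Bool, if (x, t) ∈ U then g (x, t) else 0 := by
  have h1 : ∑ x ∈ pr U, (∑ t : Bool, if (x, t) ∈ U then g (x, t) else 0) =
      ∑ x : Fin (n + 1), ∑ t : Bool, if (x, t) ∈ U then g (x, t) else 0 := by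
    refine Finset.sum_subset (Finset.subset_univ _) ?_
    intro x _ hx
    refine Finset.sum_eq_zero fun t _ => ?_
    rw [if_neg]
    intro h
    exact hx (mem_pr.2 ⟨t, h⟩)
  have h2 : ∑ x : Fin (n + 1), (∑ t : Bool, if (x, t) ∈ U then g (x, t) else 0) =
      ∑ ν : Node n, if ν ∈ U then g ν else 0 := by
    rw [Fintype.sum_prod_type]
  rw [h1, h2, Finset.sum_ite_mem, Finset.univ_inter]

private theorem LkSum_ins (ω : Om n) (U : Finset (Node n)) (v : Half n → Bool → ℤ) :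
    ∑ c ∈ ins ω U, v c.1 c.2 = ∑ ν ∈ U, ∑ h ∈ usedAt ω U ν.1, v h ν.2 := by
  have h1 : ∀ c ∈ ins ω U, (bs c.1, c.2) ∈ U := fun c hc => (mem_ins.1 hc).1
  rw [← Finset.sum_fiberwise_of_maps_to h1]
  refine Finset.sum_congr rfl ?_
  intro ν hν
  refine Finset.sum_bij' (fun c _ => c.1) (fun h _ => (h, ν.2)) ?_ ?_ ?_ ?_ ?_
  · intro c hc
    rw [Finset.mem_filter] at hc
    obtain ⟨hc1, hc2⟩ := hc
    rw [mem_ins] at hc1
    rw [mem_usedAt, mem_used]
    refine ⟨⟨mem_pr.2 ⟨c.2, hc1.1⟩, hc1.2⟩, ?_⟩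
    rw [← hc2]
  · intro h hh
    rw [mem_usedAt, mem_used] at hh
    rw [Finset.mem_filter, mem_ins]
    have h3 : (bs h, ν.2) = ν := by
      rw [hh.2]
    refine ⟨⟨?_, hh.1.2⟩, h3⟩
    change (bs h, ν.2) ∈ U
    rw [h3]
    exact hν
  · intro c hc
    rw [Finset.mem_filter] at hc
    have h3 : c.2 = ν.2 := by rw [← hc.2]
    exact Prod.ext rfl h3.symm
  · intro h _
    rfl
  · intro c hc
    rw [Finset.mem_filter] at hc
    have h3 : c.2 = ν.2 := by rw [← hc.2]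
    rw [h3]

private theorem LkSum_full {U : Finset (Node n)} {x : Fin (n + 1)} (hx : x ∈ full U) (k : ℤ) :
    (∑ t : Bool, if (x, t) ∈ U then k else 0) = 2 * k := by
  rw [mem_full] at hx
  rw [Fintype.sum_bool, if_pos hx.1, if_pos hx.2]
  ring

private theorem LkSum_half {U : Finset (Node n)} {x : Fin (n + 1)} (hx : x ∈ pr U \ full U)
    (k : ℤ) : (∑ t : Bool, if (x, t) ∈ U then k else 0) = k := by
  rw [Finset.mem_sdiff, mem_full, mem_pr] at hx
  obtain ⟨⟨t, ht⟩, h2⟩ := hx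
  rw [Fintype.sum_bool]
  cases t
  · have h3 : (x, true) ∉ U := fun h => h2 ⟨h, ht⟩
    rw [if_neg h3, if_pos ht, zero_add]
  · have h3 : (x, false) ∉ U := fun h => h2 ⟨ht, h⟩
    rw [if_neg h3, if_pos ht, add_zero]

/-- Proof. `U` is the disjoint union over `x ∈ pr U` of `{(x, t) ∈ U}`; a corner `(h, t)` is in `ins ω U` iff `h ∈ usedAt ω U (bs h)` and
`(bs h, t) ∈ U`. Write both sides as sums over `x : Fin (n + 1)`, `t : Bool` (for `x ∉ pr U` the term `lk` is `0`). -/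
theorem leak_eq (u : Half n → Bool → ℤ) (ω : Om n) (U : Finset (Node n)) :
    leak u ω U = ∑ x ∈ pr U, lk u ω U x := by
  unfold leak
  rw [LkSum_ins]
  have h1 : 2 * (U.card : ℤ) = ∑ ν ∈ U, (2 : ℤ) := by
    rw [Finset.sum_const, nsmul_eq_mul, mul_comm]
  rw [h1, ← Finset.sum_sub_distrib, LkSum_fib U (fun ν => 2 - ∑ h ∈ usedAt ω U ν.1, u h ν.2)]
  rfl

theorem card_eq (U : Finset (Node n)) :
    (U.card : ℤ) = 2 * (full U).card + (pr U \ full U).card := by
  have h1 : (U.card : ℤ) = ∑ ν ∈ U, (1 : ℤ) := by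
    rw [Finset.sum_const, nsmul_eq_mul, mul_one]
  rw [h1, LkSum_fib U (fun _ => 1), ← Finset.sum_sdiff (full_sub U)]
  rw [Finset.sum_congr rfl (fun x hx => LkSum_half hx 1),
    Finset.sum_congr rfl (fun x hx => LkSum_full hx 1), Finset.sum_const, Finset.sum_const,
    nsmul_eq_mul, nsmul_eq_mul]
  ring

theorem ins_card (ω : Om n) (U : Finset (Node n)) :
    ((ins ω U).card : ℤ) = ∑ x ∈ full U, 2 * ((usedAt ω U x).card : ℤ) +
      ∑ x ∈ pr U \ full U, ((usedAt ω U x).card : ℤ) := by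
  have h1 : ((ins ω U).card : ℤ) = ∑ c ∈ ins ω U, (1 : ℤ) := by
    rw [Finset.sum_const, nsmul_eq_mul, mul_one]
  rw [h1, LkSum_ins ω U (fun _ _ => 1),
    LkSum_fib U (fun ν => ∑ h ∈ usedAt ω U ν.1, (1 : ℤ)), ← Finset.sum_sdiff (full_sub U)]
  have h2 : ∀ x, (∑ h ∈ usedAt ω U x, (1 : ℤ)) = ((usedAt ω U x).card : ℤ) := by
    intro x
    rw [Finset.sum_const, nsmul_eq_mul, mul_one]
  simp only [h2]
  rw [Finset.sum_congr rfl (fun x hx => LkSum_half hx ((usedAt ω U x).card : ℤ)),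
    Finset.sum_congr rfl (fun x hx => LkSum_full hx ((usedAt ω U x).card : ℤ)), add_comm]

theorem used_card (ω : Om n) (U : Finset (Node n)) :
    ((used ω U).card : ℤ) = ∑ x ∈ pr U, ((usedAt ω U x).card : ℤ) := by
  have h1 : ∀ h ∈ used ω U, bs h ∈ pr U := fun h hh => (mem_used.1 hh).1
  have h2 := Finset.card_eq_sum_card_fiberwise h1
  rw [h2, Nat.cast_sum]
  rfl

/-- `at_card_le` -/
theorem usedAt_card_le (ω : Om n) (U : Finset (Node n)) (x : Fin (n + 1)) :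
    (usedAt ω U x).card ≤ 2 := by
  refine le_trans (Finset.card_le_card ?_) (at_card_le x)
  intro h hh
  rw [mem_usedAt] at hh
  rw [Finset.mem_filter]
  exact ⟨Finset.mem_univ _, hh.2⟩

end Pool.Agent.LOI
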