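import Pool.Agent.Lib.LOI.AbsT
import Pool.Agent.Lib.LOI.LkSum

set_option autoImplicit false

namespace Pool.Agent.LOI

open Finset
open scoped Classical

variable {n : ℕ}

/-- the words of the presentation -/
private def cuA (ω : Om n) (j : Fin n) (c : Fin (3 + 1)) : Fin (n + 1) × Bool :=
  match c with
  | 0 => (ini ω j, true)
  | 1 => ((ω j).1, true)
  | 2 => (ter ω j, false)
  | 3 => ((ω j).1, false)

/-- the corners of the words as pairs of a half and an end -/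
private def cuC (ω : Om n) (κ : Σ _ : Fin n, Fin (3 + 1)) : Half n × Bool :=
  match κ.2 with
  | 0 => ((κ.1, !(ω κ.1).2), true)
  | 1 => ((κ.1, !(ω κ.1).2), false)
  | 2 => ((κ.1, (ω κ.1).2), false)
  | 3 => ((κ.1, (ω κ.1).2), true)

private theorem cuC_inj (ω : Om n) : Function.Injective (cuC ω) := by
  rintro ⟨j, c⟩ ⟨j', c'⟩ h
  have h1 : j = j' := by
    have h2 := congrArg (fun x => x.1.1) h
    fin_cases c <;> fin_cases c' <;> exact h2
  subst h1
  have h3 : c = c' := by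
    have h2 := congrArg (fun x => x.1.2) h
    have h4 := congrArg (fun x => x.2) h
    cases ho : (ω j).2 <;> fin_cases c <;> fin_cases c' <;> simp [cuC, ho] at h2 h4 ⊢
  rw [h3]

private theorem cu_bsI (ω : Om n) (j : Fin n) : bs (j, !(ω j).2) = ini ω j := by
  unfold bs ini
  cases (ω j).2 <;> rfl

private theorem cu_bsT (ω : Om n) (j : Fin n) : bs (j, (ω j).2) = ter ω j := by
  unfold bs ter
  cases (ω j).2 <;> rfl

private theorem cu_hdI (ω : Om n) (j : Fin n) : hd ω (j, !(ω j).2) = ((ω j).1, true) := by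
  unfold hd
  cases (ω j).2 <;> simp

private theorem cu_hdT (ω : Om n) (j : Fin n) : hd ω (j, (ω j).2) = ((ω j).1, false) := by
  unfold hd
  cases (ω j).2 <;> simp

private theorem cu_prv (ω : Om n) (j : Fin n) (c d : Fin (3 + 1)) (h : c - 1 = d) :
    prvN (cuA ω) ⟨j, c⟩ = ((cuA ω j d).1, !(cuA ω j d).2) := by
  unfold prvN
  change ((cuA ω j (c - 1)).1, !(cuA ω j (c - 1)).2) = _
  rw [h]

/-- the ends of a corner -/
private theorem cu_ends (ω : Om n) (κ : Σ _ : Fin n, Fin (3 + 1)) :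
    (nxtN (cuA ω) κ = (bs (cuC ω κ).1, (cuC ω κ).2) ∧ prvN (cuA ω) κ = hd ω (cuC ω κ).1) ∨
      (prvN (cuA ω) κ = (bs (cuC ω κ).1, (cuC ω κ).2) ∧ nxtN (cuA ω) κ = hd ω (cuC ω κ).1) := by
  obtain ⟨j, c⟩ := κ
  have hc : c = 0 ∨ c = 1 ∨ c = 2 ∨ c = 3 := by
    revert c
    decide
  rcases hc with rfl | rfl | rfl | rfl
  · left
    rw [cu_prv ω j 0 3 rfl]
    exact ⟨by change (ini ω j, true) = (bs (j, !(ω j).2), true); rw [cu_bsI],
      by change ((ω j).1, true) = hd ω (j, !(ω j).2); rw [cu_hdI]⟩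
  · right
    rw [cu_prv ω j 1 0 rfl]
    exact ⟨by change (ini ω j, false) = (bs (j, !(ω j).2), false); rw [cu_bsI],
      by change ((ω j).1, true) = hd ω (j, !(ω j).2); rw [cu_hdI]⟩
  · left
    rw [cu_prv ω j 2 1 rfl]
    exact ⟨by change (ter ω j, false) = (bs (j, (ω j).2), false); rw [cu_bsT],
      by change ((ω j).1, false) = hd ω (j, (ω j).2); rw [cu_hdT]⟩
  · right
    rw [cu_prv ω j 3 2 rfl]
    exact ⟨by change (ter ω j, true) = (bs (j, (ω j).2), true); rw [cu_bsT],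
      by change ((ω j).1, false) = hd ω (j, (ω j).2); rw [cu_hdT]⟩

section gen

variable {T E : Type} {m : E → ℕ} {a : ∀ e : E, Fin (m e + 1) → T × Bool}

private theorem cu_mem {K : Finset (Σ e : E, Fin (m e + 1))} {ε : T × Bool} :
    ε ∈ endsN a K ↔ ∃ κ ∈ K, nxtN a κ = ε ∨ prvN a κ = ε := by
  unfold endsN
  rw [mem_union, mem_image, mem_image]
  constructor
  · rintro (⟨κ, h1, h2⟩ | ⟨κ, h1, h2⟩)
    · exact ⟨κ, h1, Or.inl h2⟩
    · exact ⟨κ, h1, Or.inr h2⟩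
  · rintro ⟨κ, h1, h2 | h2⟩
    · exact Or.inl ⟨κ, h1, h2⟩
    · exact Or.inr ⟨κ, h1, h2⟩

private theorem cu_two (alt : ∀ κ, prvN a κ ≠ nxtN a κ) {K : Finset (Σ e : E, Fin (m e + 1))}
    (hcut : ∀ U : Finset (T × Bool), U.Nonempty → U ⊂ endsN a K →
      2 ≤ (K.filter fun κ => ¬ (nxtN a κ ∈ U ↔ prvN a κ ∈ U)).card) {ν : T × Bool}
    (hν : ν ∈ endsN a K) :
    ∃ κ ∈ K, ∃ κ' ∈ K, κ ≠ κ' ∧ (nxtN a κ = ν ∨ prvN a κ = ν) ∧
      (nxtN a κ' = ν ∨ prvN a κ' = ν) := by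
  have hss : ({ν} : Finset (T × Bool)) ⊂ endsN a K := by
    rw [ssubset_iff_of_subset (singleton_subset_iff.2 hν)]
    obtain ⟨κ, hκ, h2 | h2⟩ := cu_mem.1 hν
    · refine ⟨prvN a κ, cu_mem.2 ⟨κ, hκ, Or.inr rfl⟩, ?_⟩
      rw [mem_singleton, ← h2]
      exact alt κ
    · refine ⟨nxtN a κ, cu_mem.2 ⟨κ, hκ, Or.inl rfl⟩, ?_⟩
      rw [mem_singleton, ← h2]
      exact (alt κ).symm
  obtain ⟨κ, h1, κ', h2, h3⟩ := one_lt_card.1 (hcut {ν} (singleton_nonempty ν) hss)
  have h4 : ∀ κ ∈ K.filter fun κ => ¬ (nxtN a κ ∈ ({ν} : Finset (T × Bool)) ↔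
      prvN a κ ∈ ({ν} : Finset (T × Bool))), nxtN a κ = ν ∨ prvN a κ = ν := by
    intro κ hκ
    rw [mem_filter, mem_singleton, mem_singleton] at hκ
    by_contra hcon
    push Not at hcon
    exact hκ.2 ⟨fun h => (hcon.1 h).elim, fun h => (hcon.2 h).elim⟩
  exact ⟨κ, (mem_filter.1 h1).1, κ', (mem_filter.1 h2).1, h3, h4 κ h1, h4 κ' h2⟩

end gen

/-- D10. Proof. `abs_test` with `E = Fin n`, `T = Fin (n + 1)`, `m = 3` and the words `(ini, true), (lab, true), (ter, false), (lab, false)`. With `o = (ω j).2` the corners are: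
`c = 0`: `(lab, true) - (ini, true)` = the corner `((j, !o), true)`; `c = 1`: `(ini, false) - (lab, true)` = `((j, !o), false)`; `c = 2`: `(lab, false) - (ter, false)` =
`((j, o), false)`; `c = 3`: `(ter, true) - (lab, false)` = `((j, o), true)`: indeed `bs (j, !o) = ini ω j`, `hd ω (j, !o) = (lab, true)`, `bs (j, o) = ter ω j`,
`hd ω (j, o) = (lab, false)`. Weight = `u / 4`. For `K` as in `abs_test` and `U = endsN K`: the corners in `K` are (injectively) corners in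
`ins ω U`; `U` has at least two elements (`alt`), so for `ν ∈ U` the cut `{ν}` gives two corners of `K` with exactly one end `ν`: `MinDeg`. So
`∑_K w ≤ (1/4) ∑_{ins} u = (2 |U| - leak) / 4 ≤ |U| / 2 - 1`. -/
theorem li_of_leak {ω : Om n} (hω : Red ω) (u : Half n → Bool → ℤ) (h0 : ∀ h t, 0 ≤ u h t)
    (h4 : ∀ j, u (j, false) true + u (j, false) false + (u (j, true) true + u (j, true) false) = 4)
    (hL : ∀ U : Finset (Node n), U.Nonempty → MinDeg ω U → 4 ≤ leak u ω U) : LI (Grp ω) := by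
  have halt : ∀ κ, prvN (cuA ω) κ ≠ nxtN (cuA ω) κ := by
    intro κ h
    rcases cu_ends ω κ with ⟨h1, h2⟩ | ⟨h1, h2⟩
    · rw [h1, h2] at h
      exact hω.1 (cuC ω κ).1 (congrArg Prod.fst h)
    · rw [h1, h2] at h
      exact hω.1 (cuC ω κ).1 (congrArg Prod.fst h).symm
  have key := abs_test (cuA ω) halt
    (fun κ => (u (cuC ω κ).1 (cuC ω κ).2 : ℝ) / 4) ?_ ?_
  · have h1 : (fun e : Fin n => (List.ofFn fun c : Fin (3 + 1) =>
        if (cuA ω e c).2 then FreeGroup.of (cuA ω e c).1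
          else (FreeGroup.of (cuA ω e c).1)⁻¹).prod) = fun j : Fin n =>
        FreeGroup.of (ini ω j) * FreeGroup.of (ω j).1 * (FreeGroup.of (ter ω j))⁻¹ *
          (FreeGroup.of (ω j).1)⁻¹ := by
      funext j
      have h2 : ∀ g : Fin (3 + 1) → FreeGroup (Fin (n + 1)),
          List.ofFn g = [g 0, g 1, g 2, g 3] := fun g => by
        simp [List.ofFn_succ]
      rw [h2]
      simp only [List.prod_cons, List.prod_nil, mul_one, mul_assoc]
      rfl
    rw [h1] at key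
    exact key
  · intro j
    have h1 := h4 j
    have h2 : (∑ c : Fin (3 + 1), (u (cuC ω ⟨j, c⟩).1 (cuC ω ⟨j, c⟩).2 : ℝ) / 4) =
        ((u (j, !(ω j).2) true : ℝ) + u (j, !(ω j).2) false + u (j, (ω j).2) false +
          u (j, (ω j).2) true) / 4 := by
      rw [Fin.sum_univ_four]
      simp only [cuC]
      ring
    rw [h2]
    have h3 : (u (j, false) true : ℝ) + u (j, false) false +
        (u (j, true) true + u (j, true) false) = 4 := by exact_mod_cast h1
    cases ho : (ω j).2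
    · simp only [Bool.not_false]
      linarith
    · simp only [Bool.not_true]
      linarith
  · intro K hK hcut
    set U := endsN (cuA ω) K with hU
    have hends : ∀ κ ∈ K, nxtN (cuA ω) κ ∈ U ∧ prvN (cuA ω) κ ∈ U := fun κ hκ =>
      ⟨cu_mem.2 ⟨κ, hκ, Or.inl rfl⟩, cu_mem.2 ⟨κ, hκ, Or.inr rfl⟩⟩
    have hins : ∀ κ ∈ K, cuC ω κ ∈ ins ω U := by
      intro κ hκ
      rw [mem_ins]
      obtain ⟨g1, g2⟩ := hends κ hκ
      rcases cu_ends ω κ with ⟨h1, h2⟩ | ⟨h1, h2⟩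
      · rw [h1] at g1
        rw [h2] at g2
        exact ⟨g1, g2⟩
      · rw [h2] at g1
        rw [h1] at g2
        exact ⟨g2, g1⟩
    have hUne : U.Nonempty := by
      obtain ⟨κ, hκ⟩ := hK
      exact ⟨_, (hends κ hκ).1⟩
    have hdeg : MinDeg ω U := by
      intro ν hν
      obtain ⟨κ, h1, κ', h2, h3, h4, h5⟩ := cu_two halt hcut hν
      have h6 : ∀ κ ∈ K, (nxtN (cuA ω) κ = ν ∨ prvN (cuA ω) κ = ν) → cuC ω κ ∈
          (ins ω U).filter fun c => (bs c.1, c.2) = ν ∨ hd ω c.1 = ν := by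
        intro κ hκ h7
        rw [mem_filter]
        refine ⟨hins κ hκ, ?_⟩
        rcases cu_ends ω κ with ⟨g1, g2⟩ | ⟨g1, g2⟩
        · rw [g1, g2] at h7
          exact h7
        · rw [g1, g2] at h7
          exact h7.symm
      unfold deg
      exact one_lt_card.2 ⟨_, h6 κ h1 h4, _, h6 κ' h2 h5, fun h => h3 (cuC_inj ω h)⟩
    have hl := hL U hUne hdeg
    unfold leak at hl
    have hsum : ∑ κ ∈ K, u (cuC ω κ).1 (cuC ω κ).2 ≤ ∑ c ∈ ins ω U, u c.1 c.2 := by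
      rw [← sum_image (f := fun c : Half n × Bool => u c.1 c.2)
        (g := cuC ω) (s := K) (fun _ _ _ _ h => cuC_inj ω h)]
      refine sum_le_sum_of_subset_of_nonneg ?_ fun c _ _ => h0 _ _
      intro c hc
      obtain ⟨κ, hκ, rfl⟩ := mem_image.1 hc
      exact hins κ hκ
    have h5 : (∑ κ ∈ K, (u (cuC ω κ).1 (cuC ω κ).2 : ℝ)) + 4 ≤ 2 * (U.card : ℝ) := by
      have h6 : (∑ κ ∈ K, u (cuC ω κ).1 (cuC ω κ).2) + 4 ≤ 2 * (U.card : ℤ) := by linarith
      exact_mod_cast h6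
    rw [← sum_div]
    linarith

end Pool.Agent.LOI
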