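import Mathlib

set_option autoImplicit false

/-!
# Random labelled oriented intervals (MP_cf50d6_gt): definitions

Paper: `/team-store/MP_cf50d6_gt_loi_paper.md`. A labelled oriented interval (LOI) with the vertices `0, ..., n`: the edge
`j : Fin n` joins `j.castSucc` and `j.succ`, its label is `(ω j).1`, it is oriented from `j.castSucc` to `j.succ` iff
`(ω j).2 = true`.
-/

namespace Pool.Agent.LOI

open Finset
open scoped Classical

/-- every nontrivial finitely generated subgroup maps onto `ℤ` -/
def LI (G : Type*) [Group G] : Prop :=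
  ∀ H : Subgroup G, H.FG → H ≠ ⊥ → ∃ f : H →* Multiplicative ℤ, Function.Surjective f

/-- labelled oriented intervals with `n` edges -/
abbrev Om (n : ℕ) : Type := Fin n → Fin (n + 1) × Bool

/-- halves: `(j, false)` has the base `j.castSucc`, `(j, true)` has the base `j.succ` -/
abbrev Half (n : ℕ) : Type := Fin n × Bool

/-- nodes: `(x, true)` is the initial end of the letter `x`, `(x, false)` its terminal end -/
abbrev Node (n : ℕ) : Type := Fin (n + 1) × Bool

variable {n : ℕ}

/-- the base of a half -/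
def bs (h : Half n) : Fin (n + 1) := if h.2 then h.1.succ else h.1.castSucc

/-- the label of a half -/
def lb (ω : Om n) (h : Half n) : Fin (n + 1) := (ω h.1).1

/-- the head of a half, a node of its label: the initial end iff the base is the initial vertex of the edge -/
def hd (ω : Om n) (h : Half n) : Node n := ((ω h.1).1, xor (ω h.1).2 h.2)

/-- initial vertex of an edge -/
def ini (ω : Om n) (j : Fin n) : Fin (n + 1) := if (ω j).2 then j.castSucc else j.succ

/-- terminal vertex of an edge -/
def ter (ω : Om n) (j : Fin n) : Fin (n + 1) := if (ω j).2 then j.succ else j.castSucc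

/-- the group `⟨x_v | x_i x_l = x_l x_t⟩` -/
abbrev Grp (ω : Om n) : Type :=
  PresentedGroup (Set.range fun j : Fin n =>
    FreeGroup.of (ini ω j) * FreeGroup.of (ω j).1 * (FreeGroup.of (ter ω j))⁻¹ *
      (FreeGroup.of (ω j).1)⁻¹)

/-- compressed and interior reduced -/
def Red (ω : Om n) : Prop :=
  (∀ h : Half n, lb ω h ≠ bs h) ∧ ∀ h h' : Half n, h ≠ h' → bs h = bs h' → hd ω h ≠ hd ω h'

/-- moreover boundary reduced: the vertices `0` and `n` are labels -/
def BRed (ω : Om n) : Prop :=
  Red ω ∧ (∃ j, (ω j).1 = 0) ∧ ∃ j, (ω j).1 = Fin.last n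

/-! ### sets of vertices -/

/-- the edges with label in `A` which have an endpoint in `A` -/
noncomputable def Mt (ω : Om n) (A : Finset (Fin (n + 1))) : Finset (Fin n) :=
  univ.filter fun j => (ω j).1 ∈ A ∧ (j.castSucc ∈ A ∨ j.succ ∈ A)

/-- the edges with both endpoints in `A` -/
noncomputable def adj (A : Finset (Fin (n + 1))) : Finset (Fin n) :=
  univ.filter fun j => j.castSucc ∈ A ∧ j.succ ∈ A

/-- `κ(A) = |Mt(A)| + |adj(A)| - |A|` -/
noncomputable def kap (ω : Om n) (A : Finset (Fin (n + 1))) : ℤ :=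
  (Mt ω A).card + (adj A).card - A.card

/-- the halves with base and label in `A` -/
noncomputable def loc (ω : Om n) (A : Finset (Fin (n + 1))) : Finset (Half n) :=
  univ.filter fun h => bs h ∈ A ∧ lb ω h ∈ A

/-! ### sets of nodes -/

/-- projection of a set of nodes to the vertices -/
noncomputable def pr (U : Finset (Node n)) : Finset (Fin (n + 1)) := U.image Prod.fst

/-- the vertices both ends of which are in `U` -/
noncomputable def full (U : Finset (Node n)) : Finset (Fin (n + 1)) :=
  univ.filter fun x => (x, true) ∈ U ∧ (x, false) ∈ U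

/-- the used halves -/
noncomputable def used (ω : Om n) (U : Finset (Node n)) : Finset (Half n) :=
  univ.filter fun h => bs h ∈ pr U ∧ hd ω h ∈ U

/-- the used halves at the vertex `x` -/
noncomputable def usedAt (ω : Om n) (U : Finset (Node n)) (x : Fin (n + 1)) : Finset (Half n) :=
  (used ω U).filter fun h => bs h = x

/-- the corners inside `U`: the corner `(h, t)` joins the nodes `(bs h, t)` and `hd ω h` -/
noncomputable def ins (ω : Om n) (U : Finset (Node n)) : Finset (Half n × Bool) :=
  univ.filter fun c => (bs c.1, c.2) ∈ U ∧ hd ω c.1 ∈ U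

/-- the degree of a node in the graph of the corners inside `U` -/
noncomputable def deg (ω : Om n) (U : Finset (Node n)) (ν : Node n) : ℕ :=
  ((ins ω U).filter fun c => (bs c.1, c.2) = ν ∨ hd ω c.1 = ν).card

/-- minimal degree at least two -/
def MinDeg (ω : Om n) (U : Finset (Node n)) : Prop := ∀ ν ∈ U, 2 ≤ deg ω U ν

/-- the leak of `U` for the units `u` -/
noncomputable def leak (u : Half n → Bool → ℤ) (ω : Om n) (U : Finset (Node n)) : ℤ :=
  2 * (U.card : ℤ) - ∑ c ∈ ins ω U, u c.1 c.2

/-- the part of the leak at the vertex `x` -/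
noncomputable def lk (u : Half n → Bool → ℤ) (ω : Om n) (U : Finset (Node n))
    (x : Fin (n + 1)) : ℤ :=
  ∑ t : Bool, if (x, t) ∈ U then 2 - ∑ h ∈ usedAt ω U x, u h t else 0

/-! ### requirements and units -/

/-- the corner `(h, t)` is required to have no units: double edges (D), triangles (C), (T) -/
def Req (ω : Om n) (t : Bool) (h : Half n) : Prop :=
  (∃ h', bs h' = lb ω h ∧ hd ω h' = (bs h, t)) ∨
  (∃ h2 h3, bs h2 = lb ω h ∧ bs h3 = lb ω h2 ∧ hd ω h3 = (bs h, t)) ∨
  (∃ g g', g ≠ g' ∧ bs g = bs g' ∧ hd ω g = (bs h, t) ∧ hd ω g' = hd ω h)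

/-- at most one requirement at each vertex -/
def UReq (ω : Om n) : Prop :=
  ∀ t h t' h', Req ω t h → Req ω t' h' → bs h = bs h' → t = t' ∧ h = h'

/-- the vertices with a requirement -/
noncomputable def Jset (ω : Om n) : Finset (Fin (n + 1)) :=
  univ.filter fun x => ∃ t h, bs h = x ∧ Req ω t h

/-- the units at a vertex strictly between the roots -/
noncomputable def unM (ω : Om n) (h : Half n) (t : Bool) : ℤ :=
  if Req ω t h ∨ ∃ h', h' ≠ h ∧ bs h' = bs h ∧ Req ω (!t) h' then 0
  else if ∃ t' h', bs h' = bs h ∧ Req ω t' h' then 2 else 1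

/-- the units for the roots `a < b` -/
noncomputable def un (a b : Fin (n + 1)) (ω : Om n) (h : Half n) (t : Bool) : ℤ :=
  if bs h < a then (if h.2 then 0 else 2)
  else if bs h = a then (if h.2 then 0 else 1)
  else if bs h < b then unM ω h t
  else if bs h = b then (if h.2 then 1 else 0)
  else (if h.2 then 2 else 0)

/-! ### the conditions -/

/-- the constant of the middle range -/
noncomputable def eta2 : ℝ := (1 / 54) ^ 8

def S1 (A1 : ℕ) (ω : Om n) : Prop := ∀ A : Finset (Fin (n + 1)), A.card ≤ A1 + 3 → kap ω A ≤ 0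

/-- the vertices near the ends -/
def Ends (n m : ℕ) (x : Fin (n + 1)) : Prop := x.val < m ∨ n < x.val + m

def S1E (m A1 : ℕ) (ω : Om n) : Prop :=
  ∀ A : Finset (Fin (n + 1)), A.card ≤ A1 → (∃ x ∈ A, Ends n m x) → kap ω A ≤ -1

def S2 (A1 : ℕ) (ω : Om n) : Prop :=
  ∀ A : Finset (Fin (n + 1)), A1 ≤ A.card → (A.card : ℝ) ≤ eta2 * ((n : ℝ) + 1) →
    8 * kap ω A ≤ A.card

/-- the mid edges -/
def Mid (n m : ℕ) : Finset (Fin n) := univ.filter fun j => m ≤ j.val ∧ j.val + m < n

/-- the number of mid edges with label `r` -/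
def Lr (m : ℕ) (ω : Om n) (r : Fin (n + 1)) : ℕ := ((Mid n m).filter fun j => (ω j).1 = r).card

/-- the bases of the mid halves with head in `C` -/
noncomputable def Cov (m : ℕ) (ω : Om n) (C : Finset (Node n)) : Finset (Fin (n + 1)) :=
  ((univ : Finset (Half n)).filter fun h => h.1 ∈ Mid n m ∧ hd ω h ∈ C).image bs

/-- the mid halves with head in `C` whose base has no end in `C` -/
noncomputable def missH (m : ℕ) (ω : Om n) (C : Finset (Node n)) : Finset (Half n) :=
  (univ : Finset (Half n)).filter fun h => h.1 ∈ Mid n m ∧ hd ω h ∈ C ∧ bs h ∉ pr C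

/-- `C` is an almost closed set around the node `(r, s)` -/
structure AClosed (m N1 : ℕ) (ω : Om n) (r : Fin (n + 1)) (s : Bool) (C : Finset (Node n)) :
    Prop where
  mem : (r, s) ∈ C
  nmem : (r, !s) ∉ C
  cov : ∀ x ∈ pr C, x ≠ r → x ∈ Cov m ω C
  sing : ((pr C \ full C).erase r).card ≤ N1
  miss : (missH m ω C).card ≤ N1

/-- almost closed sets around the ends of `r` are almost everything -/
def Good (m N1 : ℕ) (ω : Om n) (r : Fin (n + 1)) : Prop :=
  ∀ s C, AClosed m N1 ω r s C → (n : ℝ) + 1 - (pr C).card ≤ eta2 / 4 * ((n : ℝ) + 1)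

/-- regime 1: at least `K` mid edges have the label `r`, but there is a small almost closed set around `(r, s)` -/
def R1 (m N1 K : ℕ) (r : Fin (n + 1)) (s : Bool) (ω : Om n) : Prop :=
  K ≤ Lr m ω r ∧ ∃ C, AClosed m N1 ω r s C ∧ 200 * (pr C).card ≤ n + 1

/-- the mid edges with label in `P` -/
noncomputable def Rset (m : ℕ) (ω : Om n) (P : Finset (Fin (n + 1))) : Finset (Fin n) :=
  (Mid n m).filter fun j => (ω j).1 ∈ P

/-- the endpoints of the edges in `R` -/
noncomputable def covE (R : Finset (Fin n)) : Finset (Fin (n + 1)) :=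
  R.image Fin.castSucc ∪ R.image Fin.succ

/-- regime 2: a macroscopic set `P` which is almost `covE (Rset m ω P)` -/
def R2 (m : ℕ) (δ : ℝ) (ω : Om n) : Prop :=
  ∃ P : Finset (Fin (n + 1)), n + 1 < 200 * P.card ∧
    (P.card : ℝ) < (1 - eta2 / 4) * ((n : ℝ) + 1) ∧
    ((symmDiff P (covE (Rset m ω P))).card : ℝ) ≤ δ * ((n : ℝ) + 1)

/-- a label of many mid edges -/
def BL (m : ℕ) (δ : ℝ) (ω : Om n) : Prop := ∃ y : Fin (n + 1), δ * ((n : ℝ) + 1) < Lr m ω y

/-! ### probability -/

/-- the uniform probability -/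
noncomputable def Pb (n : ℕ) (P : Om n → Prop) : ℝ :=
  ((univ.filter P).card : ℝ) / (2 * ((n : ℝ) + 1)) ^ n

end Pool.Agent.LOI
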