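import Pool.Agent.Lib.LOI.Half

set_option autoImplicit false

namespace Pool.Agent.LOI

open Finset
open scoped Classical

variable {n : ℕ}

/-- Proof. Double counting: `∑_{ν ∈ U} deg ω U ν = 2 |ins ω U|`, because each corner `c ∈ ins ω U` is counted for its two ends
`(bs c.1, c.2)` and `hd ω c.1`, which are in `U` and different (`(hd ω c.1).1 = lb ω c.1 ≠ bs c.1`). So `2 |U| ≤ 2 |ins ω U|`. -/
theorem card_le_ins {ω : Om n} (hω : Red ω) {U : Finset (Node n)} (h : MinDeg ω U) :
    U.card ≤ (ins ω U).card := by
  have h1 : 2 * U.card ≤ ∑ ν ∈ U, deg ω U ν := by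
    have := Finset.sum_le_sum h
    simpa [mul_comm] using this
  have h2 : ∑ ν ∈ U, deg ω U ν ≤ 2 * (ins ω U).card := by
    unfold deg
    simp only [Finset.card_filter]
    rw [Finset.sum_comm]
    calc ∑ c ∈ ins ω U, ∑ ν ∈ U, (if (bs c.1, c.2) = ν ∨ hd ω c.1 = ν then 1 else 0)
        ≤ ∑ _c ∈ ins ω U, 2 := by
          apply Finset.sum_le_sum
          intro c _
          rw [← Finset.card_filter]
          have hsub : (U.filter fun ν => (bs c.1, c.2) = ν ∨ hd ω c.1 = ν) ⊆
              {((bs c.1, c.2) : Node n), hd ω c.1} := by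
            intro ν hν
            simp only [Finset.mem_filter] at hν
            simp only [Finset.mem_insert, Finset.mem_singleton]
            rcases hν.2 with h | h
            · exact Or.inl h.symm
            · exact Or.inr h.symm
          exact (Finset.card_le_card hsub).trans Finset.card_le_two
      _ = 2 * (ins ω U).card := by simp [mul_comm]
  omega

end Pool.Agent.LOI
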