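import Pool.Agent.Lib.LOI.LkSum

set_option autoImplicit false

namespace Pool.Agent.LOI

open Finset
open scoped Classical

variable {n : ℕ}

private theorem eq2_lb {ω : Om n} {U : Finset (Node n)} {h : Half n} (hh : h ∈ used ω U) :
    lb ω h ∈ pr U := mem_pr.2 ⟨(hd ω h).2, (mem_used.1 hh).2⟩

/-- a used half at `x` would have the label `x` -/
theorem eq_one {ω : Om n} (hω : Red ω) {U : Finset (Node n)} (h1 : (pr U).card = 1) :
    (used ω U).card = 0 := by
  rw [card_eq_zero, eq_empty_iff_forall_notMem]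
  intro h hh
  obtain ⟨x, hx⟩ := card_eq_one.1 h1
  have h2 := eq2_lb hh
  have h3 := (mem_used.1 hh).1
  rw [hx, mem_singleton] at h2 h3
  exact hω.1 h (by rw [h2, h3])

/-- D5, two vertices. Proof. `pr U = {v, w}`; `H_v + H_w = 2`, `H_v ≤ 1`. If `H_v = 0` then `H_w = 2`, both halves at `w` have the label `v` (RED) and different
heads (RED), so both ends of `v` are in `U`. If `H_v = 1`, `H_w = 1`: the used half `h` at `v` has the label `w`, the used half `h'` at `w` has the label
`v`, so `Req ω (hd ω h').2 h` (case D), `v ∈ Jset ω`. -/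
theorem eq_two {ω : Om n} (hω : Red ω) {U : Finset (Node n)} (h1 : (pr U).card = 2)
    (h2 : (used ω U).card = 2) {v : Fin (n + 1)} (hv : v ∈ pr U)
    (h3 : (usedAt ω U v).card < 2) : v ∈ full U ∨ v ∈ Jset ω := by
  obtain ⟨w, hwv, hpr⟩ : ∃ w, w ≠ v ∧ pr U = {v, w} := by
    obtain ⟨x, y, hxy, he⟩ := card_eq_two.1 h1
    rw [he, mem_insert, mem_singleton] at hv
    rcases hv with rfl | rfl
    · exact ⟨y, hxy.symm, he⟩
    · exact ⟨x, hxy, by rw [he, pair_comm]⟩
  have hother : ∀ h ∈ used ω U, (bs h = v ∧ lb ω h = w) ∨ (bs h = w ∧ lb ω h = v) := by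
    intro h hh
    have h4 := eq2_lb hh
    have h5 := (mem_used.1 hh).1
    have h6 := hω.1 h
    rw [hpr, mem_insert, mem_singleton] at h4 h5
    rcases h4 with h4 | h4 <;> rcases h5 with h5 | h5
    · exact (h6 (by rw [h4, h5])).elim
    · exact Or.inr ⟨h5, h4⟩
    · exact Or.inl ⟨h5, h4⟩
    · exact (h6 (by rw [h4, h5])).elim
  by_cases hex : ∃ h ∈ used ω U, bs h = v
  · -- a used half at `v`
    obtain ⟨h, hh, hb⟩ := hex
    have hl : lb ω h = w := by
      rcases hother h hh with ⟨_, h4⟩ | ⟨h4, _⟩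
      · exact h4
      · exact (hwv (h4.symm.trans hb)).elim
    -- the other used half is at `w`
    obtain ⟨h', hh', hne⟩ : ∃ h' ∈ used ω U, h' ≠ h := by
      by_contra hcon
      push Not at hcon
      have : used ω U = {h} := by
        ext k
        rw [mem_singleton]
        exact ⟨fun hk => hcon k hk, fun hk => by rw [hk]; exact hh⟩
      rw [this, card_singleton] at h2
      omega
    have hb' : bs h' = w := by
      rcases hother h' hh' with ⟨h4, _⟩ | ⟨h4, _⟩
      · exfalso
        have h5 : ({h, h'} : Finset (Half n)) ⊆ usedAt ω U v := by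
          intro k hk
          rw [mem_insert, mem_singleton] at hk
          rcases hk with rfl | rfl
          · exact mem_usedAt.2 ⟨hh, hb⟩
          · exact mem_usedAt.2 ⟨hh', h4⟩
        have h6 := card_le_card h5
        rw [card_pair (Ne.symm hne)] at h6
        omega
      · exact h4
    have hl' : lb ω h' = v := by
      rcases hother h' hh' with ⟨h4, _⟩ | ⟨_, h4⟩
      · exact (hwv (hb'.symm.trans h4)).elim
      · exact h4
    right
    refine mem_Jset.2 ⟨(hd ω h').2, h, hb, Or.inl ⟨h', ?_, ?_⟩⟩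
    · rw [hb', hl]
    · refine Prod.ext ?_ rfl
      rw [hd_fst, hl', hb]
  · -- both used halves are at `w`
    push Not at hex
    left
    obtain ⟨h, h', hne, he⟩ := card_eq_two.1 h2
    have hh : h ∈ used ω U := by rw [he]; exact mem_insert_self _ _
    have hh' : h' ∈ used ω U := by
      rw [he]
      exact mem_insert_of_mem (mem_singleton_self _)
    have hb : bs h = w ∧ lb ω h = v := by
      rcases hother h hh with ⟨h4, _⟩ | h4
      · exact (hex h hh h4).elim
      · exact h4
    have hb' : bs h' = w ∧ lb ω h' = v := by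
      rcases hother h' hh' with ⟨h4, _⟩ | h4
      · exact (hex h' hh' h4).elim
      · exact h4
    have hd1 := hω.2 h h' hne (hb.1.trans hb'.1.symm)
    have hu := (mem_used.1 hh).2
    have hu' := (mem_used.1 hh').2
    have e1 : (hd ω h).1 = v := hb.2
    have e2 : (hd ω h').1 = v := hb'.2
    have hd2 : (hd ω h).2 ≠ (hd ω h').2 := fun h4 => hd1 (Prod.ext (e1.trans e2.symm) h4)
    have f1 : hd ω h = (v, (hd ω h).2) := Prod.ext e1 rfl
    have f2 : hd ω h' = (v, (hd ω h').2) := Prod.ext e2 rfl
    rw [f1] at hu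
    rw [f2] at hu'
    rw [mem_full]
    cases g1 : (hd ω h).2 <;> cases g2 : (hd ω h').2
    · exact (hd2 (g1.trans g2.symm)).elim
    · rw [g1] at hu
      rw [g2] at hu'
      exact ⟨hu', hu⟩
    · rw [g1] at hu
      rw [g2] at hu'
      exact ⟨hu, hu'⟩
    · exact (hd2 (g1.trans g2.symm)).elim

end Pool.Agent.LOI
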