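import Pool.Agent.Lib.LOI.LkSum

set_option autoImplicit false

namespace Pool.Agent.LOI

open Finset
open scoped Classical

variable {n : ℕ}

/-- the incoming corners: for a node `(y, t) ∈ U` without used half at `y`, the degree is the sum over the used halves `h` with `hd ω h = (y, t)` of the number of
ends of `bs h` in `U`; in general add `|usedAt ω U y|` -/
theorem deg_eq {ω : Om n} (hω : Red ω) {U : Finset (Node n)} {y : Fin (n + 1)} {t : Bool}
    (hy : (y, t) ∈ U) : deg ω U (y, t) = (usedAt ω U y).card +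
      ∑ h ∈ (used ω U).filter (fun h => hd ω h = (y, t)), (if bs h ∈ full U then 2 else 1) := by
  unfold deg
  rw [filter_or, card_union_of_disjoint]
  · congr 1
    · have e : (ins ω U).filter (fun c => (bs c.1, c.2) = (y, t)) =
          (usedAt ω U y).map ⟨fun h => (h, t), fun a b h => congrArg Prod.fst h⟩ := by
        ext c
        rw [mem_filter, mem_ins, mem_map]
        constructor
        · rintro ⟨⟨h1, h2⟩, h3⟩
          have h4 : bs c.1 = y := congrArg Prod.fst h3
          have h5 : c.2 = t := congrArg Prod.snd h3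
          exact ⟨c.1, mem_usedAt.2 ⟨mem_used.2 ⟨mem_pr.2 ⟨c.2, h1⟩, h2⟩, h4⟩, Prod.ext rfl h5.symm⟩
        · rintro ⟨h, h1, rfl⟩
          rw [mem_usedAt, mem_used] at h1
          refine ⟨⟨?_, h1.1.2⟩, ?_⟩
          · change (bs h, t) ∈ U
            rw [h1.2]
            exact hy
          · change (bs h, t) = (y, t)
            rw [h1.2]
      rw [e, card_map]
    · have hmap : ∀ c ∈ (ins ω U).filter (fun c => hd ω c.1 = (y, t)),
          c.1 ∈ (used ω U).filter (fun h => hd ω h = (y, t)) := by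
        intro c hc
        rw [mem_filter, mem_ins] at hc
        exact mem_filter.2 ⟨mem_used.2 ⟨mem_pr.2 ⟨c.2, hc.1.1⟩, hc.1.2⟩, hc.2⟩
      rw [card_eq_sum_card_fiberwise hmap]
      refine sum_congr rfl fun h hh => ?_
      rw [mem_filter, mem_used] at hh
      have e : ((ins ω U).filter (fun c => hd ω c.1 = (y, t))).filter (fun c => c.1 = h) =
          ((univ : Finset Bool).filter fun t' => (bs h, t') ∈ U).map
            ⟨fun t' => (h, t'), fun a b h => congrArg Prod.snd h⟩ := by
        ext c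
        rw [mem_filter, mem_filter, mem_ins, mem_map]
        constructor
        · rintro ⟨⟨⟨h1, h2⟩, h3⟩, rfl⟩
          exact ⟨c.2, mem_filter.2 ⟨mem_univ _, h1⟩, rfl⟩
        · rintro ⟨t', h1, rfl⟩
          rw [mem_filter] at h1
          exact ⟨⟨⟨h1.2, hh.1.2⟩, hh.2⟩, rfl⟩
      rw [e, card_map]
      by_cases hf : bs h ∈ full U
      · rw [if_pos hf]
        rw [mem_full] at hf
        have e2 : (univ : Finset Bool).filter (fun t' => (bs h, t') ∈ U) = univ := by
          ext t'
          rw [mem_filter]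
          refine ⟨fun _ => mem_univ _, fun _ => ⟨mem_univ _, ?_⟩⟩
          cases t'
          · exact hf.2
          · exact hf.1
        rw [e2, card_univ, Fintype.card_bool]
      · rw [if_neg hf]
        obtain ⟨t0, ht0⟩ := mem_pr.1 hh.1.1
        have e2 : (univ : Finset Bool).filter (fun t' => (bs h, t') ∈ U) = {t0} := by
          ext t'
          rw [mem_filter, mem_singleton]
          constructor
          · rintro ⟨_, h1⟩
            by_contra h2
            apply hf
            rw [mem_full]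
            cases t' <;> cases t0
            · exact absurd rfl h2
            · exact ⟨ht0, h1⟩
            · exact ⟨h1, ht0⟩
            · exact absurd rfl h2
          · rintro rfl
            exact ⟨mem_univ _, ht0⟩
        rw [e2, card_singleton]
  · rw [disjoint_left]
    intro c h1 h2
    have h3 : bs c.1 = y := congrArg Prod.fst (mem_filter.1 h1).2
    have h4 : lb ω c.1 = y := congrArg Prod.fst (mem_filter.1 h2).2
    exact hω.1 c.1 (h4.trans h3.symm)

private theorem Eq3_lb {ω : Om n} {U : Finset (Node n)} {h : Half n} (hh : h ∈ used ω U) :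
    lb ω h ∈ pr U := mem_pr.2 ⟨(hd ω h).2, (mem_used.1 hh).2⟩

/-- D5, three vertices, type (1,1,1). Proof. Suppose `full U = ∅`. Then every vertex has one node in `U`, `|ins| = 3`, all degrees are `≥ 2`, and their sum is `6`; so
(`deg_eq`) each node is the head of exactly one used half (`1 + #in ≥ 2`, and the sum of `#in` over the three nodes is the number `3` of used
halves). So labels: used half at `x₁` has the label `x₂ ≠ x₁`, that at `x₂` has a label `≠ x₂`; the label is not `x₁`: otherwise the half at `x₃` has a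
label in `{x₁, x₂}` whose node has two incoming halves. So it is `x₃`, and that at `x₃` has the label `x₁`. Case C: `x₁ ∈ Jset`. -/
theorem eq_three_a {ω : Om n} (hω : Red ω) {U : Finset (Node n)} (hm : MinDeg ω U)
    (h1 : (pr U).card = 3) (h2 : ∀ v ∈ pr U, (usedAt ω U v).card = 1) :
    ∃ v ∈ pr U, v ∈ full U ∨ v ∈ Jset ω := by
  obtain ⟨x, hx⟩ : (pr U).Nonempty := card_pos.1 (by omega)
  refine ⟨x, hx, Or.inr ?_⟩
  obtain ⟨t, ht⟩ := mem_pr.1 hx
  -- a used half with the label `x`
  obtain ⟨k, hk, hkx⟩ : ∃ k ∈ used ω U, hd ω k = (x, t) := by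
    by_contra hcon
    push Not at hcon
    have h3 := deg_eq hω ht
    have h4 : (used ω U).filter (fun h => hd ω h = (x, t)) = ∅ := by
      rw [filter_eq_empty_iff]
      exact fun h hh => hcon h hh
    rw [h4, sum_empty, h2 x hx] at h3
    have h5 := hm (x, t) ht
    omega
  obtain ⟨h, hh⟩ := card_pos.1 (by rw [h2 x hx]; exact one_pos : 0 < (usedAt ω U x).card)
  rw [mem_usedAt] at hh
  have hy : lb ω h ∈ pr U := Eq3_lb hh.1
  have hyx : lb ω h ≠ x := by
    rw [← hh.2]
    exact hω.1 h
  obtain ⟨h', hh'⟩ := card_pos.1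
    (by rw [h2 _ hy]; exact one_pos : 0 < (usedAt ω U (lb ω h)).card)
  rw [mem_usedAt] at hh'
  have hlk : lb ω k = x := congrArg Prod.fst hkx
  have hkx' : bs k ≠ x := by
    rw [← hlk]
    exact (hω.1 k).symm
  by_cases hky : bs k = lb ω h
  · exact mem_Jset.2 ⟨t, h, hh.2, Or.inl ⟨k, hky, by rw [hkx, hh.2]⟩⟩
  · have hz : lb ω h' ∈ pr U := Eq3_lb hh'.1
    have hzy : lb ω h' ≠ lb ω h := by
      rw [← hh'.2]
      exact hω.1 h'
    by_cases hzx : lb ω h' = x
    · refine mem_Jset.2 ⟨(hd ω h').2, h, hh.2, Or.inl ⟨h', hh'.2, ?_⟩⟩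
      exact Prod.ext (by rw [hd_fst, hzx, hh.2]) rfl
    · -- `bs k`, `lb h'` are both the third vertex
      have h6 : bs k = lb ω h' := by
        by_contra h7
        have h8 : ({x, lb ω h, lb ω h', bs k} : Finset (Fin (n + 1))) ⊆ pr U := by
          intro v hv
          simp only [mem_insert, mem_singleton] at hv
          rcases hv with rfl | rfl | rfl | rfl
          · exact hx
          · exact hy
          · exact hz
          · exact (mem_used.1 hk).1
        have h9 := card_le_card h8
        have h10 : ({x, lb ω h, lb ω h', bs k} : Finset (Fin (n + 1))).card = 4 := by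
          rw [card_insert_of_notMem, card_insert_of_notMem, card_pair]
          · exact fun h => h7 h.symm
          · simp only [mem_insert, mem_singleton, not_or]
            exact ⟨fun h => hzy h.symm, fun h => hky h.symm⟩
          · simp only [mem_insert, mem_singleton, not_or]
            exact ⟨fun h => hyx h.symm, fun h => hzx h.symm, fun h => hkx' h.symm⟩
        omega
      exact mem_Jset.2 ⟨t, h, hh.2, Or.inr (Or.inl ⟨h', k, hh'.2, h6, by rw [hkx, hh.2]⟩)⟩

/-- D5, three vertices, type (2,1,0). Proof. Suppose `y, z` are single and not in `J`; `(y, s)`, `(z, s')` are their nodes. By `deg_eq` for `z` and `y`: the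
used halves with head `(z, s')` contribute `≥ 2`, those with head `(y, s)` contribute `≥ 1`. The used halves are `g₁, g₂` at `x` and `h` at `y`; `h` does not
have the label `y`, `g₁, g₂` not the label `x`; a used half with label `y` has the head `(y, s)`, with label `z` the head `(z, s')`, so by RED
`g₁, g₂` do not have the same label: say `g` has the head `(y, s)` and `g'` has the head `(z, s')` (both labels occur since `g₁, g₂` have
labels in `{y, z}`). If `h` has the label `z`: `hd h = hd g' = (z, s')`: case T with `g, g'`: `Req ω s h`, `y ∈ Jset`. If `h` has the label `x`: case D: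
`bs g = x = lb h`, `hd g = (y, s)`: `Req ω s h`, `y ∈ Jset`. (The degrees are not even needed.) -/
theorem eq_three_b {ω : Om n} (hω : Red ω) {U : Finset (Node n)}
    {x y z : Fin (n + 1)} (hxy : x ≠ y) (hxz : x ≠ z) (hyz : y ≠ z) (hp : pr U = {x, y, z})
    (hx : (usedAt ω U x).card = 2) (hy : (usedAt ω U y).card = 1) (hz : (usedAt ω U z).card = 0) :
    y ∈ full U ∨ y ∈ Jset ω ∨ z ∈ full U := by
  by_cases hyf : y ∈ full U
  · exact Or.inl hyf
  by_cases hzf : z ∈ full U
  · exact Or.inr (Or.inr hzf)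
  refine Or.inr (Or.inl ?_)
  have one : ∀ v, v ∉ full U → ∀ t t', (v, t) ∈ U → (v, t') ∈ U → t = t' := by
    intro v hv t t' ht ht'
    by_contra hne
    apply hv
    rw [mem_full]
    cases t <;> cases t'
    · exact absurd rfl hne
    · exact ⟨ht', ht⟩
    · exact ⟨ht, ht'⟩
    · exact absurd rfl hne
  have same : ∀ v, v ∉ full U → ∀ g g', g ∈ used ω U → g' ∈ used ω U → lb ω g = v → lb ω g' = v →
      hd ω g = hd ω g' := by
    intro v hv g g' hg hg' e e'
    refine Prod.ext (e.trans e'.symm) ?_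
    have h1 := (mem_used.1 hg).2
    have h2 := (mem_used.1 hg').2
    have f1 : hd ω g = (v, (hd ω g).2) := Prod.ext e rfl
    have f2 : hd ω g' = (v, (hd ω g').2) := Prod.ext e' rfl
    rw [f1] at h1
    rw [f2] at h2
    exact one v hv _ _ h1 h2
  obtain ⟨g₁, g₂, hne, he⟩ := card_eq_two.1 hx
  have hg₁ : g₁ ∈ usedAt ω U x := by rw [he]; exact mem_insert_self _ _
  have hg₂ : g₂ ∈ usedAt ω U x := by rw [he]; exact mem_insert_of_mem (mem_singleton_self _)
  rw [mem_usedAt] at hg₁ hg₂
  obtain ⟨h, hh⟩ := card_pos.1 (by rw [hy]; exact one_pos : 0 < (usedAt ω U y).card)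
  rw [mem_usedAt] at hh
  -- labels of the halves at `x`
  have lab : ∀ g, g ∈ used ω U → bs g = x → lb ω g = y ∨ lb ω g = z := by
    intro g hg hb
    have h1 := Eq3_lb hg
    rw [hp, mem_insert, mem_insert, mem_singleton] at h1
    rcases h1 with h1 | h1 | h1
    · exact absurd (h1.trans hb.symm) (hω.1 g)
    · exact Or.inl h1
    · exact Or.inr h1
  have hdne : hd ω g₁ ≠ hd ω g₂ := hω.2 g₁ g₂ hne (hg₁.2.trans hg₂.2.symm)
  obtain ⟨g, g', hg, hg', hgb, hgb', hgg, hly, hlz⟩ : ∃ g g', g ∈ used ω U ∧ g' ∈ used ω U ∧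
      bs g = x ∧ bs g' = x ∧ g ≠ g' ∧ lb ω g = y ∧ lb ω g' = z := by
    rcases lab g₁ hg₁.1 hg₁.2 with a | a <;> rcases lab g₂ hg₂.1 hg₂.2 with b | b
    · exact absurd (same y hyf g₁ g₂ hg₁.1 hg₂.1 a b) hdne
    · exact ⟨g₁, g₂, hg₁.1, hg₂.1, hg₁.2, hg₂.2, hne, a, b⟩
    · exact ⟨g₂, g₁, hg₂.1, hg₁.1, hg₂.2, hg₁.2, hne.symm, b, a⟩
    · exact absurd (same z hzf g₁ g₂ hg₁.1 hg₂.1 a b) hdne
  have hgy : hd ω g = (bs h, (hd ω g).2) := Prod.ext (by rw [hd_fst, hly, hh.2]) rfl
  have h1 := Eq3_lb hh.1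
  rw [hp, mem_insert, mem_insert, mem_singleton] at h1
  rcases h1 with h1 | h1 | h1
  · exact mem_Jset.2 ⟨(hd ω g).2, h, hh.2, Or.inl ⟨g, hgb.trans h1.symm, hgy⟩⟩
  · exact absurd (h1.trans hh.2.symm) (hω.1 h)
  · exact mem_Jset.2 ⟨(hd ω g).2, h, hh.2, Or.inr (Or.inr ⟨g, g', hgg, hgb.trans hgb'.symm, hgy,
      same z hzf g' h hg' hh.1 hlz h1⟩)⟩

/-- D5, three vertices. Proof. `H_x ≤ 2`, `∑ H_x = 3`: all are `1` (`eq_three_a`) or they are `2, 1, 0` in some order (`eq_three_b`). -/
theorem eq_three {ω : Om n} (hω : Red ω) {U : Finset (Node n)} (hm : MinDeg ω U)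
    (h1 : (pr U).card = 3) (h2 : (used ω U).card = 3) :
    ∃ v ∈ pr U, (usedAt ω U v).card < 2 ∧ (v ∈ full U ∨ v ∈ Jset ω) := by
  by_cases hall : ∀ v ∈ pr U, (usedAt ω U v).card = 1
  · obtain ⟨v, hv, h3⟩ := eq_three_a hω hm h1 hall
    exact ⟨v, hv, by rw [hall v hv]; exact one_lt_two, h3⟩
  obtain ⟨a, b, c, hab, hac, hbc, he⟩ := card_eq_three.1 h1
  have ha := usedAt_card_le ω U a
  have hb := usedAt_card_le ω U b
  have hc := usedAt_card_le ω U c
  have hs := used_card ω U
  rw [he, sum_insert (by simp [hab, hac]), sum_insert (by simp [hbc]), sum_singleton, h2] at hs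
  have hs' : (usedAt ω U a).card + ((usedAt ω U b).card + (usedAt ω U c).card) = 3 := by
    exact_mod_cast hs.symm
  have hn : ¬ ((usedAt ω U a).card = 1 ∧ (usedAt ω U b).card = 1 ∧ (usedAt ω U c).card = 1) := by
    rintro ⟨h3, h4, h5⟩
    apply hall
    intro v hv
    rw [he, mem_insert, mem_insert, mem_singleton] at hv
    rcases hv with rfl | rfl | rfl <;> assumption
  have fin : ∀ x y z : Fin (n + 1), x ≠ y → x ≠ z → y ≠ z → pr U = {x, y, z} →
      (usedAt ω U x).card = 2 → (usedAt ω U y).card = 1 → (usedAt ω U z).card = 0 →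
      ∃ v ∈ pr U, (usedAt ω U v).card < 2 ∧ (v ∈ full U ∨ v ∈ Jset ω) := by
    intro x y z hxy hxz hyz hp hx hy hz
    have hy' : y ∈ pr U := by rw [hp]; simp
    have hz' : z ∈ pr U := by rw [hp]; simp
    rcases eq_three_b hω hxy hxz hyz hp hx hy hz with h | h | h
    · exact ⟨y, hy', by omega, Or.inl h⟩
    · exact ⟨y, hy', by omega, Or.inr h⟩
    · exact ⟨z, hz', by omega, Or.inl h⟩
  have hcase : ((usedAt ω U a).card = 2 ∧ (usedAt ω U b).card = 1 ∧ (usedAt ω U c).card = 0) ∨
      ((usedAt ω U a).card = 2 ∧ (usedAt ω U b).card = 0 ∧ (usedAt ω U c).card = 1) ∨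
      ((usedAt ω U a).card = 1 ∧ (usedAt ω U b).card = 2 ∧ (usedAt ω U c).card = 0) ∨
      ((usedAt ω U a).card = 1 ∧ (usedAt ω U b).card = 0 ∧ (usedAt ω U c).card = 2) ∨
      ((usedAt ω U a).card = 0 ∧ (usedAt ω U b).card = 2 ∧ (usedAt ω U c).card = 1) ∨
      ((usedAt ω U a).card = 0 ∧ (usedAt ω U b).card = 1 ∧ (usedAt ω U c).card = 2) := by
    omega
  rcases hcase with h | h | h | h | h | h
  · exact fin a b c hab hac hbc he h.1 h.2.1 h.2.2
  · exact fin a c b hac hab hbc.symm (by rw [he]; congr 1; exact pair_comm _ _) h.1 h.2.2 h.2.1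
  · exact fin b a c hab.symm hbc hac (by rw [he, insert_comm]) h.2.1 h.1 h.2.2
  · exact fin c a b hac.symm hbc.symm hab (by
      rw [he]; ext v; simp only [mem_insert, mem_singleton]; tauto) h.2.2 h.1 h.2.1
  · exact fin b c a hbc hab.symm hac.symm (by
      rw [he]; ext v; simp only [mem_insert, mem_singleton]; tauto) h.2.1 h.2.2 h.1
  · exact fin c b a hbc.symm hac.symm hab.symm (by
      rw [he]; ext v; simp only [mem_insert, mem_singleton]; tauto) h.2.2 h.2.1 h.1

end Pool.Agent.LOI
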