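import Pool.Agent.Lib.LOI.Eq4
import Pool.Agent.Lib.LOI.Eq2
import Pool.Agent.Lib.LOI.Eq3

set_option autoImplicit false

namespace Pool.Agent.LOI

open Finset
open scoped Classical

variable {n : ℕ}

/-- D5. Proof. `eq_leak`; all terms `2 - H_x ≥ 0` (`usedAt_card_le`). `|A| ≥ 4`: clear. `|A| = 0`: `U = ∅`. `|A| = 1`: `eq_one` contradicts `hcard`. `|A| = 2`: by `eq_two` all
`x` with `H_x < 2` are in `full U ∪ (pr U ∩ Jset ω)`, so the sum is `∑_{pr U} (2 - H_x) = 4 - 2 = 2`. `|A| = 3`: `eq_three` gives a term `≥ 1`. -/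
theorem eq_all {a b : Fin (n + 1)} {ω : Om n} (hω : Red ω) (hu : UReq ω) {U : Finset (Node n)}
    (hU : U.Nonempty) (hm : MinDeg ω U)
    (hin : ∀ x ∈ pr U, a < x ∧ x < b) (hcard : (used ω U).card = (pr U).card)
    (hloc : ∀ h, bs h ∈ pr U → lb ω h ∈ pr U → h ∈ used ω U)
    (hreq : ∀ t h, Req ω t h → bs h ∈ pr U →
      lb ω h ∈ pr U ∧ ∃ k, bs k ∈ pr U ∧ lb ω k ∈ pr U ∧ hd ω k = (bs h, t)) :
    4 ≤ leak (un a b ω) ω U := by
  rw [eq_leak hu hin hcard hloc hreq]
  have hnn : ∀ x ∈ full U ∪ (pr U ∩ Jset ω), 0 ≤ 2 - ((usedAt ω U x).card : ℤ) := fun x _ => by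
    have := usedAt_card_le ω U x
    omega
  have hsum : 0 ≤ ∑ x ∈ full U ∪ (pr U ∩ Jset ω), (2 - ((usedAt ω U x).card : ℤ)) :=
    sum_nonneg hnn
  have hpos : 0 < (pr U).card := by
    obtain ⟨y, hy⟩ := hU
    exact card_pos.2 ⟨y.1, mem_image_of_mem _ hy⟩
  by_cases h4 : 4 ≤ (pr U).card
  · omega
  · have h3 : (pr U).card = 1 ∨ (pr U).card = 2 ∨ (pr U).card = 3 := by omega
    rcases h3 with h | h | h
    · have := eq_one hω h
      omega
    · have hsub : full U ∪ (pr U ∩ Jset ω) ⊆ pr U := by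
        refine union_subset (fun x hx => ?_) inter_subset_left
        exact mem_image_of_mem Prod.fst (mem_filter.1 hx).2.1
      have h5 : ∑ x ∈ full U ∪ (pr U ∩ Jset ω), (2 - ((usedAt ω U x).card : ℤ)) =
          ∑ x ∈ pr U, (2 - ((usedAt ω U x).card : ℤ)) := by
        refine sum_subset hsub fun x hx hn => ?_
        have h6 := usedAt_card_le ω U x
        by_contra h7
        have h8 : (usedAt ω U x).card < 2 := by omega
        rcases eq_two hω h (hcard.trans h) hx h8 with h9 | h9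
        · exact hn (mem_union_left _ h9)
        · exact hn (mem_union_right _ (mem_inter.2 ⟨hx, h9⟩))
      rw [h5, sum_sub_distrib, ← used_card, hcard, h, sum_const, h]
      norm_num
    · obtain ⟨v, hv, h5, h6⟩ := eq_three hω hm h (hcard.trans h)
      have h7 : v ∈ full U ∪ (pr U ∩ Jset ω) := by
        rcases h6 with h6 | h6
        · exact mem_union_left _ h6
        · exact mem_union_right _ (mem_inter.2 ⟨hv, h6⟩)
      have h8 := single_le_sum hnn h7
      rw [h]
      omega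

end Pool.Agent.LOI
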