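import Pool.Agent.Lib.LOI.Half

set_option autoImplicit false

namespace Pool.Agent.LOI

open Finset
open scoped Classical

variable {n : ℕ}

/-- Proof. `h ↦ h.1` maps `loc ω A` to `Mt ω A`; the halves `(j, false)` in `loc ω A` are at most those of the edges `j ∈ Mt` with
`j.castSucc ∈ A`, the halves `(j, true)` those with `j.succ ∈ A`; so `|loc| = |{j ∈ Mt | j.castSucc ∈ A}| + |{j ∈ Mt | j.succ ∈ A}|
= |Mt| + |{j ∈ Mt | both}| ≤ |Mt| + |adj|` (`Finset.card_union_add_card_inter`). -/
theorem loc_card (ω : Om n) (A : Finset (Fin (n + 1))) :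
    ((loc ω A).card : ℤ) ≤ A.card + kap ω A := by
  set F : Finset (Fin n) := (Mt ω A).filter fun j => j.castSucc ∈ A with hF
  set T : Finset (Fin n) := (Mt ω A).filter fun j => j.succ ∈ A with hT
  have h1 : loc ω A ⊆ (F.image fun j => (j, false)) ∪ (T.image fun j => (j, true)) := by
    intro h hh
    obtain ⟨j, i⟩ := h
    simp only [loc, mem_filter, mem_univ, true_and] at hh
    obtain ⟨hb, hl⟩ := hh
    cases i
    · rw [bs_false] at hb
      refine mem_union_left _ (mem_image.2 ⟨j, ?_, rfl⟩)
      rw [hF, mem_filter]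
      refine ⟨?_, hb⟩
      simp only [Mt, mem_filter, mem_univ, true_and]
      exact ⟨hl, Or.inl hb⟩
    · rw [bs_true] at hb
      refine mem_union_right _ (mem_image.2 ⟨j, ?_, rfl⟩)
      rw [hT, mem_filter]
      refine ⟨?_, hb⟩
      simp only [Mt, mem_filter, mem_univ, true_and]
      exact ⟨hl, Or.inr hb⟩
  have h2 : (loc ω A).card ≤ F.card + T.card :=
    (card_le_card h1).trans ((card_union_le _ _).trans
      (add_le_add card_image_le card_image_le))
  have h3 : (F ∪ T).card + (F ∩ T).card = F.card + T.card := card_union_add_card_inter F T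
  have h4 : (F ∪ T).card ≤ (Mt ω A).card :=
    card_le_card (union_subset (filter_subset _ _) (filter_subset _ _))
  have h5 : (F ∩ T).card ≤ (adj A).card := by
    refine card_le_card ?_
    intro j hj
    rw [mem_inter, hF, hT, mem_filter, mem_filter] at hj
    simp only [adj, mem_filter, mem_univ, true_and]
    exact ⟨hj.1.2, hj.2.2⟩
  unfold kap
  omega

/-- clear: `hd ω h ∈ U` gives `lb ω h ∈ pr U` -/
theorem used_sub_loc (ω : Om n) (U : Finset (Node n)) : used ω U ⊆ loc ω (pr U) := by
  intro h hh
  simp only [used, mem_filter, mem_univ, true_and] at hh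
  simp only [loc, mem_filter, mem_univ, true_and]
  refine ⟨hh.1, ?_⟩
  rw [pr, mem_image]
  exact ⟨hd ω h, hh.2, hd_fst ω h⟩

theorem used_card_le (ω : Om n) (U : Finset (Node n)) :
    ((used ω U).card : ℤ) ≤ (pr U).card + kap ω (pr U) :=
  le_trans (by exact_mod_cast card_le_card (used_sub_loc ω U)) (loc_card ω (pr U))

/-- `used ⊆ loc` and equality of the cardinalities (`Finset.eq_of_subset_of_card_le`) -/
theorem used_eq_loc (ω : Om n) (U : Finset (Node n))
    (h : ((used ω U).card : ℤ) = (pr U).card + kap ω (pr U)) : used ω U = loc ω (pr U) := by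
  refine Finset.eq_of_subset_of_card_le (used_sub_loc ω U) ?_
  have h1 := loc_card ω (pr U)
  rw [← h] at h1
  exact_mod_cast h1

end Pool.Agent.LOI
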