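import Pool.Agent.Lib.LOI.NodeB
import Pool.Agent.Lib.LOI.KapUsed

set_option autoImplicit false

namespace Pool.Agent.LOI

open Finset
open scoped Classical

variable {n : ℕ}

theorem card_outer_le {m : ℕ} {a b : Fin (n + 1)} (ha : a.val < m) (hb : n < b.val + m) :
    ((univ : Finset (Fin (n + 1))).filter fun x => x ≤ a ∨ b ≤ x).card ≤ 2 * m := by
  have h0 : ((univ : Finset (Fin (n + 1))).filter fun x => x ≤ a ∨ b ≤ x).card ≤
      ((univ : Finset (Fin (n + 1))).filter fun x => x ≤ a).card +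
      ((univ : Finset (Fin (n + 1))).filter fun x => b ≤ x).card := by
    rw [filter_or]
    exact card_union_le _ _
  have h1 : ((univ : Finset (Fin (n + 1))).filter fun x => x ≤ a).card ≤ m := by
    have : (univ : Finset (Fin (n + 1))).filter (fun x => x ≤ a) = Finset.Iic a := by
      ext x; simp
    rw [this, Fin.card_Iic]
    omega
  have h2 : ((univ : Finset (Fin (n + 1))).filter fun x => b ≤ x).card ≤ m := by
    have : (univ : Finset (Fin (n + 1))).filter (fun x => b ≤ x) = Finset.Ici b := by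
      ext x; simp
    rw [this, Fin.card_Ici]
    omega
  omega

/-- D7. Proof. `leak_eq`, `lk_ge`, `used_card`: `leak ≥ 2|A| - |used| - 2 #{x : x ≤ a or b ≤ x} - |J|`; there are at most `a + 1 ≤ m` vertices `x ≤ a` and
`n - b + 1 ≤ m` vertices `x ≥ b`. -/
theorem mid_leak {m : ℕ} {a b : Fin (n + 1)} (hab : a < b) (ha : a.val < m)
    (hb : n < b.val + m) {ω : Om n} (hu : UReq ω) (U : Finset (Node n)) :
    2 * ((pr U).card : ℤ) - (used ω U).card - 4 * m - (Jset ω).card ≤ leak (un a b ω) ω U := by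
  rw [leak_eq, used_card]
  have h1 : ∑ x ∈ pr U, (2 - ((usedAt ω U x).card : ℤ) - (if x ≤ a ∨ b ≤ x then 2 else 0) -
      (if x ∈ Jset ω then 1 else 0)) ≤ ∑ x ∈ pr U, lk (un a b ω) ω U x :=
    Finset.sum_le_sum fun x hx => lk_ge hab hu hx
  have h2 : ∑ x ∈ pr U, (if x ≤ a ∨ b ≤ x then (2 : ℤ) else 0) ≤ 4 * m := by
    calc ∑ x ∈ pr U, (if x ≤ a ∨ b ≤ x then (2 : ℤ) else 0)
        ≤ ∑ x : Fin (n + 1), (if x ≤ a ∨ b ≤ x then (2 : ℤ) else 0) := by
          apply Finset.sum_le_sum_of_subset_of_nonneg (subset_univ _)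
          intro x _ _
          split_ifs <;> norm_num
      _ = 2 * (((univ : Finset (Fin (n + 1))).filter fun x => x ≤ a ∨ b ≤ x).card : ℤ) := by
          rw [← Finset.sum_filter, Finset.sum_const, nsmul_eq_mul]; ring
      _ ≤ 4 * m := by
          have := card_outer_le (n := n) (a := a) (b := b) ha hb
          have h3 : (((univ : Finset (Fin (n + 1))).filter fun x => x ≤ a ∨ b ≤ x).card : ℤ)
              ≤ 2 * m := by exact_mod_cast this
          linarith
  have h3 : ∑ x ∈ pr U, (if x ∈ Jset ω then (1 : ℤ) else 0) ≤ (Jset ω).card := by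
    rw [← Finset.sum_filter, Finset.sum_const, nsmul_eq_mul, mul_one]
    exact_mod_cast Finset.card_le_card (fun x hx => (Finset.mem_filter.1 hx).2)
  have h4 : ∑ x ∈ pr U, (2 - ((usedAt ω U x).card : ℤ) - (if x ≤ a ∨ b ≤ x then 2 else 0) -
      (if x ∈ Jset ω then 1 else 0)) = 2 * ((pr U).card : ℤ)
      - ∑ x ∈ pr U, ((usedAt ω U x).card : ℤ)
      - ∑ x ∈ pr U, (if x ≤ a ∨ b ≤ x then (2 : ℤ) else 0)
      - ∑ x ∈ pr U, (if x ∈ Jset ω then (1 : ℤ) else 0) := by
    simp only [Finset.sum_sub_distrib]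
    rw [Finset.sum_const, nsmul_eq_mul]
    ring
  rw [h4] at h1
  linarith

end Pool.Agent.LOI
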