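import Pool.Agent.Lib.LOI.Half

set_option autoImplicit false

/-!
# Spots: the data of a requirement (L3 of the paper)
-/

namespace Pool.Agent.LOI

open Finset
open scoped Classical

variable {n : ℕ}

/-- the data of a requirement `(t, h)`: vertices `S`, halves `H` -/
structure Spot (ω : Om n) (t : Bool) (h : Half n) (S : Finset (Fin (n + 1)))
    (H : Finset (Half n)) : Prop where
  mem : bs h ∈ S
  card_le : S.card ≤ 3
  card_eq : H.card = S.card
  loc : ∀ k ∈ H, bs k ∈ S ∧ lb ω k ∈ S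
  inj : ∀ k ∈ H, ∀ k' ∈ H, k.1 = k'.1 → k = k'
  hmem : h ∈ H
  huniq : ∀ k ∈ H, bs k = bs h → k = h
  ex : ∃ k ∈ H, hd ω k = (bs h, t) ∧ ∀ k' ∈ H, lb ω k' = bs h → k' = k
  step : ∀ A : Finset (Fin (n + 1)), bs h ∈ A → ¬ S ⊆ A → kap ω A + 1 ≤ kap ω (A ∪ S)

/-- the edges of `H` are `|S|` different elements of `Mt ω S` -/
theorem Spot.kap_nonneg {ω : Om n} {t : Bool} {h : Half n} {S : Finset (Fin (n + 1))}
    {H : Finset (Half n)} (hs : Spot ω t h S H) : 0 ≤ kap ω S := by
  have h1 : H.card ≤ (Mt ω S).card := by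
    refine card_le_card_of_injOn Prod.fst ?_ ?_
    · intro k hk
      have h2 := hs.loc k hk
      simp only [Mt, coe_filter, mem_univ, true_and, Set.mem_ofPred_eq]
      refine ⟨h2.2, ?_⟩
      obtain ⟨j, i⟩ := k
      cases i
      · exact Or.inl h2.1
      · exact Or.inr h2.1
    · intro k hk k' hk' e
      exact hs.inj k hk k' hk' e
  have h2 := hs.card_eq
  unfold kap
  have h3 : (S.card : ℤ) ≤ (Mt ω S).card := by exact_mod_cast h2 ▸ h1
  have h4 : (0 : ℤ) ≤ (adj S).card := by positivity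
  linarith

end Pool.Agent.LOI
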