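import Pool.Agent.Lib.LOI.KapIns
import Pool.Agent.Lib.LOI.Spot

set_option autoImplicit false

namespace Pool.Agent.LOI

open Finset
open scoped Classical

variable {n : ℕ}

/-- L3, case C. Proof. `x = bs h`, `y = bs h2 = lb h`, `z = bs h3 = lb h2`, `lb h3 = x`. By RED `x ≠ y` (`h`), `y ≠ z` (`h2`), `z ≠ x` (`h3`).
`S = {x, y, z}`, `H = {h, h2, h3}`, `k = h3`; the labels `y, z, x` are different, so the edges are different. `step`: `x ∈ A`. If `y ∈ A`
(so `z ∉ A`): `kap_insert'` for `z` with `{h2, h3}`. If `z ∈ A`, `y ∉ A`: for `y` with `{h, h2}`. If both are not in `A`: first `insert y A` with `{h}`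
(no loss), then `z` with `{h2, h3}`. -/
theorem spotC {ω : Om n} (hω : Red ω) {t : Bool} {h h2 h3 : Half n} (e1 : bs h2 = lb ω h)
    (e2 : bs h3 = lb ω h2) (e3 : hd ω h3 = (bs h, t)) : ∃ S H, Spot ω t h S H := by
  have l3 : lb ω h3 = bs h := by rw [← hd_fst, e3]
  have xy : bs h ≠ lb ω h := (hω.1 h).symm
  have yz : lb ω h ≠ lb ω h2 := by rw [← e1]; exact (hω.1 h2).symm
  have xz : bs h ≠ lb ω h2 := by rw [← l3, ← e2]; exact hω.1 h3
  have lbe : ∀ k k' : Half n, k.1 = k'.1 → lb ω k = lb ω k' := fun k k' e => by
    unfold lb; rw [e]
  have d1 : h.1 ≠ h2.1 := fun e => yz (lbe _ _ e)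
  have d2 : h.1 ≠ h3.1 := fun e => xy (by rw [← l3]; exact (lbe _ _ e).symm)
  have d3 : h2.1 ≠ h3.1 := fun e => xz (by rw [← l3]; exact (lbe _ _ e).symm)
  have n1 : h ≠ h2 := fun e => d1 (by rw [e])
  have n2 : h ≠ h3 := fun e => d2 (by rw [e])
  have n3 : h2 ≠ h3 := fun e => d3 (by rw [e])
  have hcS : ({bs h, lb ω h, lb ω h2} : Finset (Fin (n + 1))).card = 3 := by
    rw [card_insert_of_notMem (by simp [xy, xz]), card_insert_of_notMem (by simp [yz]),
      card_singleton]
  have hcH : ({h, h2, h3} : Finset (Half n)).card = 3 := by
    rw [card_insert_of_notMem (by simp [n1, n2]), card_insert_of_notMem (by simp [n3]),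
      card_singleton]
  refine ⟨{bs h, lb ω h, lb ω h2}, {h, h2, h3}, ?_⟩
  refine ⟨by simp, hcS.le, by rw [hcS, hcH], ?_, ?_, by simp, ?_, ⟨h3, by simp, e3, ?_⟩, ?_⟩
  · intro k hk
    simp only [mem_insert, mem_singleton] at hk
    rcases hk with rfl | rfl | rfl
    · simp
    · rw [e1]; simp
    · rw [l3, e2]; simp
  · intro k hk k' hk' e
    simp only [mem_insert, mem_singleton] at hk hk'
    rcases hk with rfl | rfl | rfl <;> rcases hk' with rfl | rfl | rfl
    · rfl
    · exact (d1 e).elim
    · exact (d2 e).elim
    · exact (d1 e.symm).elim
    · rfl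
    · exact (d3 e).elim
    · exact (d2 e.symm).elim
    · exact (d3 e.symm).elim
    · rfl
  · intro k hk hb
    simp only [mem_insert, mem_singleton] at hk
    rcases hk with rfl | rfl | rfl
    · rfl
    · exact (xy (by rw [← hb, e1])).elim
    · exact (xz (by rw [← hb, e2])).elim
  · intro k hk hb
    simp only [mem_insert, mem_singleton] at hk
    rcases hk with rfl | rfl | rfl
    · exact (xy hb.symm).elim
    · exact (xz hb.symm).elim
    · rfl
  · intro A hx hS
    have pair1 : ∀ B : Finset (Fin (n + 1)), bs h ∈ B → lb ω h ∈ B → lb ω h2 ∉ B →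
        kap ω B + 1 ≤ kap ω (insert (lb ω h2) B) := by
      intro B hxB hyB hzB
      have h1 := kap_insert' ω B (lb ω h2) hzB {h2, h3} ?_ ?_
      · rw [card_insert_of_notMem (by simp [n3]), card_singleton] at h1
        push_cast at h1
        linarith
      · intro k hk k' hk' e
        simp only [mem_insert, mem_singleton] at hk hk'
        rcases hk with rfl | rfl <;> rcases hk' with rfl | rfl
        · rfl
        · exact (d3 e).elim
        · exact (d3 e.symm).elim
        · rfl
      · intro k hk
        simp only [mem_insert, mem_singleton] at hk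
        rcases hk with rfl | rfl
        · exact Or.inr ⟨rfl, by rw [e1]; exact hyB⟩
        · exact Or.inl ⟨by rw [l3]; exact hxB, e2⟩
    by_cases hz : lb ω h2 ∈ A
    · have hy : lb ω h ∉ A := fun hy => hS (by
        intro w hw
        simp only [mem_insert, mem_singleton] at hw
        rcases hw with rfl | rfl | rfl
        · exact hx
        · exact hy
        · exact hz)
      have hU : A ∪ {bs h, lb ω h, lb ω h2} = insert (lb ω h) A := by
        ext w
        simp only [mem_union, mem_insert, mem_singleton]
        constructor
        · rintro (hw | rfl | rfl | rfl)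
          · exact Or.inr hw
          · exact Or.inr hx
          · exact Or.inl rfl
          · exact Or.inr hz
        · rintro (rfl | hw)
          · exact Or.inr (Or.inr (Or.inl rfl))
          · exact Or.inl hw
      rw [hU]
      have h1 := kap_insert' ω A (lb ω h) hy {h, h2} ?_ ?_
      · rw [card_insert_of_notMem (by simp [n1]), card_singleton] at h1
        push_cast at h1
        linarith
      · intro k hk k' hk' e
        simp only [mem_insert, mem_singleton] at hk hk'
        rcases hk with rfl | rfl <;> rcases hk' with rfl | rfl
        · rfl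
        · exact (d1 e).elim
        · exact (d1 e.symm).elim
        · rfl
      · intro k hk
        simp only [mem_insert, mem_singleton] at hk
        rcases hk with rfl | rfl
        · exact Or.inr ⟨rfl, hx⟩
        · exact Or.inl ⟨hz, e1⟩
    · by_cases hy : lb ω h ∈ A
      · have hU : A ∪ {bs h, lb ω h, lb ω h2} = insert (lb ω h2) A := by
          ext w
          simp only [mem_union, mem_insert, mem_singleton]
          constructor
          · rintro (hw | rfl | rfl | rfl)
            · exact Or.inr hw
            · exact Or.inr hx
            · exact Or.inr hy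
            · exact Or.inl rfl
          · rintro (rfl | hw)
            · exact Or.inr (Or.inr (Or.inr rfl))
            · exact Or.inl hw
        rw [hU]
        exact pair1 A hx hy hz
      · have hU : A ∪ {bs h, lb ω h, lb ω h2} = insert (lb ω h2) (insert (lb ω h) A) := by
          ext w
          simp only [mem_union, mem_insert, mem_singleton]
          constructor
          · rintro (hw | rfl | rfl | rfl)
            · exact Or.inr (Or.inr hw)
            · exact Or.inr (Or.inr hx)
            · exact Or.inr (Or.inl rfl)
            · exact Or.inl rfl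
          · rintro (rfl | rfl | hw)
            · exact Or.inr (Or.inr (Or.inr rfl))
            · exact Or.inr (Or.inr (Or.inl rfl))
            · exact Or.inl hw
        rw [hU]
        have h1 := kap_insert' ω A (lb ω h) hy {h} (by
            intro k hk k' hk' _
            rw [mem_singleton] at hk hk'
            rw [hk, hk']) (by
            intro k hk
            rw [mem_singleton] at hk
            subst hk
            exact Or.inr ⟨rfl, hx⟩)
        rw [card_singleton] at h1
        push_cast at h1
        have h2 := pair1 (insert (lb ω h) A) (mem_insert_of_mem hx) (mem_insert_self _ _)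
          (by
            rw [mem_insert]
            rintro (e | e)
            · exact yz e.symm
            · exact hz e)
        linarith

end Pool.Agent.LOI
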