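import Pool.Agent.Lib.LOI.KapIns
import Pool.Agent.Lib.LOI.Spot

set_option autoImplicit false

namespace Pool.Agent.LOI

open Finset
open scoped Classical

variable {n : ℕ}

/-- L3, case T. Proof. `x = bs h = lb g`, `y = bs g = bs g'`, `z = lb h = lb g'`. By RED `x ≠ y` (`g`), `x ≠ z` (`h`), `y ≠ z` (`g'`). `S = {x, y, z}`,
`H = {g, g', h}`, `k = g`. The edges are different: `g, g'` have the same base (`edge_ne`), the labels `x, z` of `g` and `h` differ, `g', h` have the same
head and different bases (`half_eq_of_hd`). `h` is the only one with base `x`, `g` the only one with label `x`. `step`: `x ∈ A`. If `z ∈ A` (so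
`y ∉ A`): `kap_insert'` for `y` with `{g, g'}`. If `y ∈ A`, `z ∉ A`: for `z` with `{g', h}`. If both are not in `A`: first `insert z A` with `{h}`,
then `y` with `{g, g'}`. -/
theorem spotT {ω : Om n} (hω : Red ω) {t : Bool} {h g g' : Half n} (e0 : g ≠ g')
    (e1 : bs g = bs g') (e2 : hd ω g = (bs h, t)) (e3 : hd ω g' = hd ω h) :
    ∃ S H, Spot ω t h S H := by
  have l1 : lb ω g = bs h := by rw [← hd_fst, e2]
  have l2 : lb ω g' = lb ω h := by rw [← hd_fst, ← hd_fst, e3]
  have xy : bs h ≠ bs g := by rw [← l1]; exact hω.1 g
  have xz : bs h ≠ lb ω h := (hω.1 h).symm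
  have yz : bs g ≠ lb ω h := by rw [e1, ← l2]; exact (hω.1 g').symm
  have gh : g ≠ h := fun e => xy (by rw [e])
  have g'h : g' ≠ h := fun e => xy (by rw [← e, e1])
  have lbe : ∀ k k' : Half n, k.1 = k'.1 → lb ω k = lb ω k' := fun k k' e => by
    unfold lb; rw [e]
  have d1 : g.1 ≠ g'.1 := edge_ne e1 e0
  have d2 : g.1 ≠ h.1 := fun e => xz (by rw [← l1]; exact lbe _ _ e)
  have d3 : g'.1 ≠ h.1 := fun e => g'h (half_eq_of_hd ω e e3)
  have hcS : ({bs h, bs g, lb ω h} : Finset (Fin (n + 1))).card = 3 := by
    rw [card_insert_of_notMem (by simp [xy, xz]), card_insert_of_notMem (by simp [yz]),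
      card_singleton]
  have hcH : ({g, g', h} : Finset (Half n)).card = 3 := by
    rw [card_insert_of_notMem (by simp [e0, gh]), card_insert_of_notMem (by simp [g'h]),
      card_singleton]
  refine ⟨{bs h, bs g, lb ω h}, {g, g', h}, ?_⟩
  refine ⟨by simp, hcS.le, by rw [hcS, hcH], ?_, ?_, by simp, ?_, ⟨g, by simp, e2, ?_⟩, ?_⟩
  · intro k hk
    simp only [mem_insert, mem_singleton] at hk
    rcases hk with rfl | rfl | rfl
    · rw [l1]; simp
    · rw [l2, ← e1]; simp
    · simp
  · intro k hk k' hk' e
    simp only [mem_insert, mem_singleton] at hk hk'
    rcases hk with rfl | rfl | rfl <;> rcases hk' with rfl | rfl | rfl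
    · rfl
    · exact (d1 e).elim
    · exact (d2 e).elim
    · exact (d1 e.symm).elim
    · rfl
    · exact (d3 e).elim
    · exact (d2 e.symm).elim
    · exact (d3 e.symm).elim
    · rfl
  · intro k hk hb
    simp only [mem_insert, mem_singleton] at hk
    rcases hk with rfl | rfl | rfl
    · exact (xy hb.symm).elim
    · exact (xy (by rw [e1, hb])).elim
    · rfl
  · intro k hk hb
    simp only [mem_insert, mem_singleton] at hk
    rcases hk with rfl | rfl | rfl
    · rfl
    · exact (xz (by rw [← hb, l2])).elim
    · exact (xz hb.symm).elim
  · intro A hx hS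
    have pair1 : ∀ B : Finset (Fin (n + 1)), bs h ∈ B → lb ω h ∈ B → bs g ∉ B →
        kap ω B + 1 ≤ kap ω (insert (bs g) B) := by
      intro B hxB hzB hyB
      have h1 := kap_insert' ω B (bs g) hyB {g, g'} ?_ ?_
      · rw [card_insert_of_notMem (by simp [e0]), card_singleton] at h1
        push_cast at h1
        linarith
      · intro k hk k' hk' e
        simp only [mem_insert, mem_singleton] at hk hk'
        rcases hk with rfl | rfl <;> rcases hk' with rfl | rfl
        · rfl
        · exact (d1 e).elim
        · exact (d1 e.symm).elim
        · rfl
      · intro k hk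
        simp only [mem_insert, mem_singleton] at hk
        rcases hk with rfl | rfl
        · exact Or.inl ⟨by rw [l1]; exact hxB, rfl⟩
        · exact Or.inl ⟨by rw [l2]; exact hzB, e1.symm⟩
    by_cases hz : lb ω h ∈ A
    · have hy : bs g ∉ A := fun hy => hS (by
        intro w hw
        simp only [mem_insert, mem_singleton] at hw
        rcases hw with rfl | rfl | rfl
        · exact hx
        · exact hy
        · exact hz)
      have hU : A ∪ {bs h, bs g, lb ω h} = insert (bs g) A := by
        ext w
        simp only [mem_union, mem_insert, mem_singleton]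
        constructor
        · rintro (hw | rfl | rfl | rfl)
          · exact Or.inr hw
          · exact Or.inr hx
          · exact Or.inl rfl
          · exact Or.inr hz
        · rintro (rfl | hw)
          · exact Or.inr (Or.inr (Or.inl rfl))
          · exact Or.inl hw
      rw [hU]
      exact pair1 A hx hz hy
    · by_cases hy : bs g ∈ A
      · have hU : A ∪ {bs h, bs g, lb ω h} = insert (lb ω h) A := by
          ext w
          simp only [mem_union, mem_insert, mem_singleton]
          constructor
          · rintro (hw | rfl | rfl | rfl)
            · exact Or.inr hw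
            · exact Or.inr hx
            · exact Or.inr hy
            · exact Or.inl rfl
          · rintro (rfl | hw)
            · exact Or.inr (Or.inr (Or.inr rfl))
            · exact Or.inl hw
        rw [hU]
        have h1 := kap_insert' ω A (lb ω h) hz {g', h} ?_ ?_
        · rw [card_insert_of_notMem (by simp [g'h]), card_singleton] at h1
          push_cast at h1
          linarith
        · intro k hk k' hk' e
          simp only [mem_insert, mem_singleton] at hk hk'
          rcases hk with rfl | rfl <;> rcases hk' with rfl | rfl
          · rfl
          · exact (d3 e).elim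
          · exact (d3 e.symm).elim
          · rfl
        · intro k hk
          simp only [mem_insert, mem_singleton] at hk
          rcases hk with rfl | rfl
          · exact Or.inr ⟨l2, by rw [← e1]; exact hy⟩
          · exact Or.inr ⟨rfl, hx⟩
      · have hU : A ∪ {bs h, bs g, lb ω h} = insert (bs g) (insert (lb ω h) A) := by
          ext w
          simp only [mem_union, mem_insert, mem_singleton]
          constructor
          · rintro (hw | rfl | rfl | rfl)
            · exact Or.inr (Or.inr hw)
            · exact Or.inr (Or.inr hx)
            · exact Or.inl rfl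
            · exact Or.inr (Or.inl rfl)
          · rintro (rfl | rfl | hw)
            · exact Or.inr (Or.inr (Or.inl rfl))
            · exact Or.inr (Or.inr (Or.inr rfl))
            · exact Or.inl hw
        rw [hU]
        have h1 := kap_insert' ω A (lb ω h) hz {h} (by
            intro k hk k' hk' _
            rw [mem_singleton] at hk hk'
            rw [hk, hk']) (by
            intro k hk
            rw [mem_singleton] at hk
            subst hk
            exact Or.inr ⟨rfl, hx⟩)
        rw [card_singleton] at h1
        push_cast at h1
        have h2 := pair1 (insert (lb ω h) A) (mem_insert_of_mem hx) (mem_insert_self _ _)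
          (by
            rw [mem_insert]
            rintro (e | e)
            · exact yz e
            · exact hy e)
        linarith

end Pool.Agent.LOI
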