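import Pool.Agent.Lib.LOI.SpotD
import Pool.Agent.Lib.LOI.SpotC
import Pool.Agent.Lib.LOI.SpotT

set_option autoImplicit false

namespace Pool.Agent.LOI

open Finset
open scoped Classical

variable {n : ℕ}

/-- Proof. Take `S, H` (cases of `Req`: `spotD`, `spotC`, `spotT`). If `S ⊄ A` then `step` gives
`kap (A ∪ S) ≥ kap A + 1 ≥ 1`, and `|A ∪ S| ≤ |A| + 2` since `bs h ∈ A ∩ S`, `|S| ≤ 3`: contradiction to `hk`. So `S ⊆ A`; use `loc` for `h` and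
for `k` of `ex`. -/
theorem req_in {ω : Om n} (hω : Red ω) {t : Bool} {h : Half n} (hr : Req ω t h)
    {A : Finset (Fin (n + 1))} (hA : bs h ∈ A) (h0 : 0 ≤ kap ω A)
    (hk : ∀ B : Finset (Fin (n + 1)), A ⊆ B → B.card ≤ A.card + 2 → kap ω B ≤ 0) :
    lb ω h ∈ A ∧ ∃ k, bs k ∈ A ∧ lb ω k ∈ A ∧ hd ω k = (bs h, t) := by
  have hsp : ∃ S H, Spot ω t h S H := by
    rcases hr with ⟨h', e1, e2⟩ | ⟨h2, h3, e1, e2, e3⟩ | ⟨g, g', e0, e1, e2, e3⟩
    · exact spotD hω e1 e2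
    · exact spotC hω e1 e2 e3
    · exact spotT hω e0 e1 e2 e3
  obtain ⟨S, H, hs⟩ := hsp
  have hSA : S ⊆ A := by
    by_contra hn
    have h1 := hs.step A hA hn
    have h2 : (A ∪ S).card ≤ A.card + 2 := by
      have e1 := card_union_add_card_inter A S
      have e2 : 1 ≤ (A ∩ S).card := card_pos.2 ⟨bs h, mem_inter.2 ⟨hA, hs.mem⟩⟩
      have e3 := hs.card_le
      omega
    have h3 := hk (A ∪ S) subset_union_left h2
    linarith
  obtain ⟨k, hkH, hk1, -⟩ := hs.ex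
  exact ⟨hSA (hs.loc h hs.hmem).2, k, hSA (hs.loc k hkH).1, hSA (hs.loc k hkH).2, hk1⟩

end Pool.Agent.LOI
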