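import Pool.Agent.Lib.LOI.SpotD
import Pool.Agent.Lib.LOI.SpotC
import Pool.Agent.Lib.LOI.SpotT

set_option autoImplicit false

namespace Pool.Agent.LOI

open Finset
open scoped Classical

variable {n : ℕ}

theorem req_spot {ω : Om n} (hω : Red ω) {t : Bool} {h : Half n} (hr : Req ω t h) :
    ∃ S H, Spot ω t h S H := by
  rcases hr with ⟨h', e1, e2⟩ | ⟨h2, h3, e1, e2, e3⟩ | ⟨g, g', e0, e1, e2, e3⟩
  · exact spotD hω e1 e2
  · exact spotC hω e1 e2 e3
  · exact spotT hω e0 e1 e2 e3

private theorem SpotU_sub {ω : Om n} (hk : ∀ A : Finset (Fin (n + 1)), A.card ≤ 6 → kap ω A ≤ 0)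
    {t t' : Bool} {h h' : Half n} {S S' : Finset (Fin (n + 1))} {H H' : Finset (Half n)}
    (hs : Spot ω t h S H) (hs' : Spot ω t' h' S' H') (e : bs h = bs h') : S' ⊆ S := by
  by_contra hc
  have h1 := hs'.step S (e ▸ hs.mem) hc
  have h2 := hs.kap_nonneg
  have h3 : (S ∪ S').card ≤ 6 := by
    have := card_union_le S S'
    have := hs.card_le
    have := hs'.card_le
    omega
  have h4 := hk _ h3
  omega

/-- Proof. If `S' ⊄ S` then `step` for `A = S` gives `kap (S ∪ S') ≥ kap S + 1 ≥ 1` (`Spot.kap_nonneg`), but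
`|S ∪ S'| ≤ 6`: contradiction. So `S' ⊆ S`, and by symmetry (`bs h = bs h'`) `S = S'`. -/
theorem spot_eq {ω : Om n} (hk : ∀ A : Finset (Fin (n + 1)), A.card ≤ 6 → kap ω A ≤ 0)
    {t t' : Bool} {h h' : Half n} {S S' : Finset (Fin (n + 1))} {H H' : Finset (Half n)}
    (hs : Spot ω t h S H) (hs' : Spot ω t' h' S' H') (e : bs h = bs h') : S' = S :=
  Subset.antisymm (SpotU_sub hk hs hs' e) (SpotU_sub hk hs' hs e.symm)

/-- Proof. `kap S = 0` (`hk`, `Spot.kap_nonneg`); `Mt ω S` contains the image of `H` under `Prod.fst`, which has `|H| = |S|` elements, so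
`|adj S| = 0` and `Mt ω S` is this image. A half `k` with base and label in `S` has `k.1 ∈ Mt ω S`, so `k.1 = k'.1` with `k' ∈ H`; if `k ≠ k'` then
both endpoints of the edge are in `S`, so it is in `adj S`, contradiction. So `H` is the set of all halves with base and label in `S`. -/
theorem spot_loc {ω : Om n} (hk : ∀ A : Finset (Fin (n + 1)), A.card ≤ 6 → kap ω A ≤ 0)
    {t : Bool} {h : Half n} {S : Finset (Fin (n + 1))} {H : Finset (Half n)}
    (hs : Spot ω t h S H) : H = loc ω S := by
  have hI : H.image Prod.fst ⊆ Mt ω S := by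
    intro j hj
    rw [mem_image] at hj
    obtain ⟨k, hk', rfl⟩ := hj
    have h2 := hs.loc k hk'
    simp only [Mt, mem_filter, mem_univ, true_and]
    refine ⟨h2.2, ?_⟩
    obtain ⟨j, i⟩ := k
    cases i
    · exact Or.inl h2.1
    · exact Or.inr h2.1
  have hc : (H.image Prod.fst).card = S.card := by
    rw [card_image_of_injOn, hs.card_eq]
    intro k hk1 k' hk' e
    exact hs.inj k hk1 k' hk' e
  have h1 := card_le_card hI
  have h2 := hk S (by have := hs.card_le; omega)
  unfold kap at h2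
  have h3 : (adj S).card = 0 := by omega
  have h4 : H.image Prod.fst = Mt ω S := eq_of_subset_of_card_le hI (by omega)
  rw [card_eq_zero] at h3
  ext k
  constructor
  · intro hkH
    have := hs.loc k hkH
    simp only [loc, mem_filter, mem_univ, true_and]
    exact this
  · intro hkl
    simp only [loc, mem_filter, mem_univ, true_and] at hkl
    have h5 : k.1 ∈ Mt ω S := by
      simp only [Mt, mem_filter, mem_univ, true_and]
      refine ⟨hkl.2, ?_⟩
      obtain ⟨j, i⟩ := k
      cases i
      · exact Or.inl hkl.1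
      · exact Or.inr hkl.1
    rw [← h4, mem_image] at h5
    obtain ⟨k', hk', e⟩ := h5
    have h6 := hs.loc k' hk'
    by_cases h7 : k = k'
    · rw [h7]; exact hk'
    · exfalso
      have h8 : k.1 ∈ adj S := by
        simp only [adj, mem_filter, mem_univ, true_and]
        obtain ⟨j, i⟩ := k
        obtain ⟨j', i'⟩ := k'
        simp only at e
        subst e
        have h9 : i ≠ i' := fun h => h7 (by rw [h])
        simp only [bs] at hkl h6
        cases i <;> cases i' <;> simp_all
      rw [h3] at h8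
      simp at h8

/-- L4. Proof. `spot_eq` and `spot_loc`: `S = S'`, `H = H'`. `h' ∈ H` has the base `bs h`, so `h' = h` (`huniq`). The elements `k, k'` of `ex` are equal
(`lb k' = (hd ω k').1 = bs h' = bs h`), so `t = t'`. -/
theorem ureq {ω : Om n} (hω : Red ω)
    (hk : ∀ A : Finset (Fin (n + 1)), A.card ≤ 6 → kap ω A ≤ 0) : UReq ω := by
  intro t h t' h' hr hr' e
  obtain ⟨S, H, hs⟩ := req_spot hω hr
  obtain ⟨S', H', hs'⟩ := req_spot hω hr'
  have e1 := spot_eq hk hs hs' e
  subst e1
  have e2 := spot_loc hk hs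
  have e3 := spot_loc hk hs'
  rw [← e2] at e3
  subst e3
  have e4 := hs.huniq h' hs'.hmem e.symm
  subst e4
  obtain ⟨k, hk1, hk2, hk3⟩ := hs.ex
  obtain ⟨k', hk1', hk2', hk3'⟩ := hs'.ex
  have e5 : lb ω k' = bs h' := by
    have : (hd ω k').1 = bs h' := by rw [hk2']
    exact this
  have e6 := hk3 k' hk1' e5
  subst e6
  rw [hk2] at hk2'
  exact ⟨(Prod.mk.inj hk2').2, rfl⟩

end Pool.Agent.LOI
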