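import Pool.Agent.Lib.LOI.NodeA

set_option autoImplicit false

namespace Pool.Agent.LOI

open Finset
open scoped Classical

variable {n : ℕ}

/-- D6. Proof. `H_x = |usedAt ω U x|`, `P = full U`, `Q = pr U \ full U`, `p, q` their cardinalities; `O' ⊆ P` = the `x` for which the first alternative of
`lk_full'` fails (so `H_x = 1`, `lk_x ≥ 0`). `leak ≥ ∑_P (4 - 2 H_x) - 2 |O'| + ∑_Q (2 - 2 H_x) = 4p + 2q - 2 |used| - 2 |O'| ≥ 2p + 2 - 2|O'|`. If `|O'| < p`
this is `≥ 4`. If `O' = P` then `|ins| = 2p + ∑_Q H_x` and `|used| = p + ∑_Q H_x ≤ p + q - 1`, so `|ins| ≤ 2p + q - 1 < 2p + q = |U|`, contradiction. -/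
theorem tree_leak {a b : Fin (n + 1)} (hab : a < b) {ω : Om n} (hu : UReq ω)
    {U : Finset (Node n)} (h1 : U.card ≤ (ins ω U).card)
    (h2 : (used ω U).card < (pr U).card) : 4 ≤ leak (un a b ω) ω U := by
  have hsplit : ∀ f : Fin (n + 1) → ℤ, ∑ x ∈ pr U, f x =
      ∑ x ∈ full U, f x + ∑ x ∈ pr U \ full U, f x := by
    intro f
    exact (add_comm _ _).trans (sum_sdiff (full_sub U)) |>.symm
  have e1 := leak_eq (un a b ω) ω U
  have e2 := card_eq U
  have e3 := ins_card ω U
  have e4 := used_card ω U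
  have e5 : ((pr U).card : ℤ) = (full U).card + (pr U \ full U).card := by
    have := card_sdiff_add_card_eq_card (full_sub U)
    omega
  rw [hsplit] at e1 e4
  have h1' : (U.card : ℤ) ≤ (ins ω U).card := by exact_mod_cast h1
  have h2' : ((used ω U).card : ℤ) + 1 ≤ (pr U).card := by exact_mod_cast h2
  have hQ : ∑ x ∈ pr U \ full U, (2 - 2 * ((usedAt ω U x).card : ℤ)) ≤
      ∑ x ∈ pr U \ full U, lk (un a b ω) ω U x :=
    sum_le_sum fun x hx => lk_single hab hu hx
  rw [sum_sub_distrib, ← mul_sum, sum_const, nsmul_eq_mul] at hQ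
  rw [← mul_sum] at e3
  by_cases hall : ∀ x ∈ full U, (usedAt ω U x).card = 1
  · exfalso
    have h3 : ∑ x ∈ full U, ((usedAt ω U x).card : ℤ) = (full U).card := by
      rw [sum_congr rfl fun x hx => by rw [hall x hx]]
      simp
    rw [h3] at e3 e4
    linarith
  · push Not at hall
    obtain ⟨x0, hx0, hx1⟩ := hall
    have hP : ∑ x ∈ full U, (4 - 2 * ((usedAt ω U x).card : ℤ) - if x = x0 then 0 else 2) ≤
        ∑ x ∈ full U, lk (un a b ω) ω U x := by
      refine sum_le_sum fun x hx => ?_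
      rcases lk_full' hab hu hx with h3 | ⟨h3, h4⟩
      · split_ifs <;> linarith
      · rw [if_neg (by rintro rfl; exact hx1 h3), h3]
        push_cast
        linarith
    rw [sum_sub_distrib, sum_sub_distrib, ← mul_sum, sum_const, nsmul_eq_mul] at hP
    have h5 : ∑ x ∈ full U, (if x = x0 then 0 else 2 : ℤ) = 2 * ((full U).card : ℤ) - 2 := by
      have h6 : ∀ x ∈ full U, (if x = x0 then 0 else 2 : ℤ) = 2 - if x = x0 then 2 else 0 := by
        intro x _
        split_ifs <;> norm_num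
      rw [sum_congr rfl h6, sum_sub_distrib, sum_const, nsmul_eq_mul, sum_ite_eq' _ x0, if_pos hx0]
      ring
    rw [h5] at hP
    linarith

end Pool.Agent.LOI
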