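import Pool.Agent.Lib.LOI.Large
import Pool.Agent.Lib.LOI.MidSz
import Pool.Agent.Lib.LOI.EqAll
import Pool.Agent.Lib.LOI.Tree
import Pool.Agent.Lib.LOI.DegSum
import Pool.Agent.Lib.LOI.SpotU
import Pool.Agent.Lib.LOI.SpotIn

set_option autoImplicit false

namespace Pool.Agent.LOI

open Finset
open scoped Classical

variable {n : ℕ}

/-- Small sets. Proof. `H = |used|`, `A = pr U`. `used_card_le` and `S1` give `H ≤ |A| + kap A ≤ |A|`. If `H < |A|`: `tree_leak` (`card_le_ins`). If `H = |A|`: `kap A = 0`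
(so `used_eq_loc`), by `S1E` no vertex of `A` is in `Ends`, so `a < x < b` for all `x ∈ A`; `eq_all` with `req_in` (`S1` for sets of at most `|A| + 2`
vertices). -/
theorem small_leak {m A1 : ℕ} {a b : Fin (n + 1)} (hab : a < b) (ha : a.val < m)
    (hb : n < b.val + m) {ω : Om n} (hω : Red ω) (hu : UReq ω) (h1 : S1 A1 ω) (hE : S1E m A1 ω)
    {U : Finset (Node n)} (hU : U.Nonempty) (hm : MinDeg ω U) (hA : (pr U).card ≤ A1) :
    4 ≤ leak (un a b ω) ω U := by
  have hH := used_card_le ω U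
  have hk := h1 (pr U) (by omega)
  rcases lt_or_ge (used ω U).card (pr U).card with hlt | hge
  · exact tree_leak hab hu (card_le_ins hω hm) hlt
  · have hk0 : kap ω (pr U) = 0 := by omega
    have hcard : (used ω U).card = (pr U).card := by omega
    have hloc : used ω U = loc ω (pr U) := used_eq_loc ω U (by omega)
    refine eq_all hω hu hU hm (fun x hx => ?_) hcard (fun h e1 e2 => ?_) fun t h hr hb' => ?_
    · have hne : ¬ Ends n m x := fun he => by
        have := hE (pr U) hA ⟨x, hx, he⟩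
        omega
      unfold Ends at hne
      push Not at hne
      exact ⟨Fin.lt_def.2 (by omega), Fin.lt_def.2 (by omega)⟩
    · rw [hloc, loc, mem_filter]
      exact ⟨mem_univ _, e1, e2⟩
    · exact req_in hω hr hb' hk0.ge fun B _ hB => h1 B (by omega)

/-- D9. Proof. `UReq` by `ureq` (`A1 ≥ 3`). `|pr U| ≤ A1`: `small_leak`. `A1 < |pr U| ≤ eta2 * (n + 1)`: `mid_leak`, `used_card_le`, `S2`:
`leak ≥ |A| - kap A - 4 m - |J| ≥ (7/8)|A| - 4m - N_J ≥ 4`. `|pr U| > eta2 * (n + 1)`: `large_leak` with `N1 = NJ + 3`. -/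
theorem det_leak {m A1 NJ : ℕ} {a b : Fin (n + 1)} (hab : a < b) (ha : a.val < m)
    (hb : n < b.val + m) (hm2 : 2 * m ≤ n) (hA1 : 2 * (NJ + 4 * m + 4) ≤ A1)
    (hN1 : (NJ : ℝ) + 4 ≤ eta2 / 4 * ((n : ℝ) + 1))
    {ω : Om n} (hω : Red ω) (h1 : S1 A1 ω) (hE : S1E m A1 ω) (h2 : S2 A1 ω)
    (hJ : (Jset ω).card ≤ NJ) (hGa : Good m (NJ + 3) ω a) (hGb : Good m (NJ + 3) ω b)
    {U : Finset (Node n)} (hU : U.Nonempty) (hm : MinDeg ω U) : 4 ≤ leak (un a b ω) ω U := by
  have hu : UReq ω := ureq hω fun A hA => h1 A (by omega)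
  have he : (0 : ℝ) < eta2 := by
    unfold eta2
    positivity
  rcases le_or_gt (pr U).card A1 with hs | hs
  · exact small_leak hab ha hb hω hu h1 hE hU hm hs
  · rcases le_or_gt ((pr U).card : ℝ) (eta2 * ((n : ℝ) + 1)) with hl | hl
    · have h3 := mid_leak hab ha hb hu U
      have h4 := used_card_le ω U
      have h5 := h2 (pr U) hs.le hl
      omega
    · refine large_leak hab ha hb hm2 hu (N1 := NJ + 3) (by omega) hGa hGb ?_
      push_cast
      nlinarith

end Pool.Agent.LOI
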