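import Pool.Agent.Lib.LOI.NodeB

set_option autoImplicit false

namespace Pool.Agent.LOI

open Finset
open scoped Classical

variable {n : ℕ}

/-- D5, the formula. Proof. Let `P' = full U ∪ (pr U ∩ Jset ω)`. For `x ∈ P'`: `lk_x = 4 - 2 H_x` (`lk_mid_full`; if `x` is single and in `J`, take a
requirement `(t, h)` at `x`: by `hreq` and `hloc` the half `h` is used and the half `k` is used, so `(x, t) = hd ω k ∈ U`; `lk_mid_req`). For the other
`x ∈ pr U`: `lk_x = 2 - H_x`. So `leak = ∑_{pr U} (2 - H_x) + ∑_{P'} (2 - H_x) = 2 |A| - |used| + ...`. -/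
theorem eq_leak {a b : Fin (n + 1)} {ω : Om n} (hu : UReq ω) {U : Finset (Node n)}
    (hin : ∀ x ∈ pr U, a < x ∧ x < b) (hcard : (used ω U).card = (pr U).card)
    (hloc : ∀ h, bs h ∈ pr U → lb ω h ∈ pr U → h ∈ used ω U)
    (hreq : ∀ t h, Req ω t h → bs h ∈ pr U →
      lb ω h ∈ pr U ∧ ∃ k, bs k ∈ pr U ∧ lb ω k ∈ pr U ∧ hd ω k = (bs h, t)) :
    leak (un a b ω) ω U = (pr U).card +
      ∑ x ∈ full U ∪ (pr U ∩ Jset ω), (2 - ((usedAt ω U x).card : ℤ)) := by
  have hsub : full U ∪ (pr U ∩ Jset ω) ⊆ pr U :=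
    union_subset (full_sub U) inter_subset_left
  have hlk : ∀ x ∈ pr U, lk (un a b ω) ω U x = (2 - ((usedAt ω U x).card : ℤ)) +
      if x ∈ full U ∪ (pr U ∩ Jset ω) then 2 - ((usedAt ω U x).card : ℤ) else 0 := by
    intro x hx
    by_cases hf : x ∈ full U
    · rw [lk_mid_full hu hf (hin x hx).1 (hin x hx).2,
        if_pos (mem_union_left _ hf)]
      ring
    · by_cases hJ : x ∈ Jset ω
      · rw [if_pos (mem_union_right _ (mem_inter.2 ⟨hx, hJ⟩))]
        obtain ⟨t, h, hb, hr⟩ := mem_Jset.1 hJ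
        obtain ⟨h1, k, h2, h3, h4⟩ := hreq t h hr (by rw [hb]; exact hx)
        have h5 := hloc h (by rw [hb]; exact hx) h1
        have h6 := (mem_used.1 (hloc k h2 h3)).2
        rw [h4, hb] at h6
        rw [lk_mid_req hu (mem_sdiff.2 ⟨hx, hf⟩) (hin x hx).1 (hin x hx).2 hb hr h6 h5]
        ring
      · rw [if_neg, lk_mid_single (mem_sdiff.2 ⟨hx, hf⟩) (hin x hx).1 (hin x hx).2 hJ, add_zero]
        rw [mem_union, mem_inter]
        rintro (h | h)
        · exact hf h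
        · exact hJ h.2
  rw [leak_eq, sum_congr rfl hlk, sum_add_distrib, sum_ite_mem, inter_eq_right.2 hsub,
    sum_sub_distrib, ← used_card, hcard, sum_const, nsmul_eq_mul]
  ring

end Pool.Agent.LOI
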