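import Pool.Agent.Lib.LOI.GoodD
import Pool.Agent.Lib.LOI.Det
import Pool.Agent.Lib.LOI.Curv

set_option autoImplicit false

namespace Pool.Agent.LOI

open Finset
open scoped Classical

variable {n : ℕ}

/-- Proof. `a, b` from `ha`, `hb`; `a < b` as `2 m ≤ n`; `Good` by `good_of`; `det_leak`; `li_of_leak` with `un_nonneg`, `un_edge` (`UReq` by `ureq`). -/
theorem li_of_events {m A1 NJ K : ℕ} {δ : ℝ} {ω : Om n} (hm : 2 * m ≤ n)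
    (hA1 : 2 * (NJ + 4 * m + 4) ≤ A1) (hN1 : (NJ : ℝ) + 4 ≤ eta2 / 4 * ((n : ℝ) + 1))
    (hn : 2 * (((NJ + 3 : ℕ) : ℝ) + 1) ≤ δ * ((n : ℝ) + 1))
    (hω : Red ω) (h1 : S1 A1 ω) (hE : S1E m A1 ω) (h2 : S2 A1 ω) (hJ : (Jset ω).card ≤ NJ)
    (hR2 : ¬ R2 m δ ω) (hBL : ¬ BL m (δ / (4 * (((NJ + 3 : ℕ) : ℝ) + 1))) ω)
    (hR1 : ∀ r : Fin (n + 1), Ends n m r → ∀ s, ¬ R1 m (NJ + 3) K r s ω)
    (ha : ∃ r : Fin (n + 1), r.val < m ∧ K ≤ Lr m ω r)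
    (hb : ∃ r : Fin (n + 1), n < r.val + m ∧ K ≤ Lr m ω r) : LI (Grp ω) := by
  obtain ⟨a, ha, hLa⟩ := ha
  obtain ⟨b, hb, hLb⟩ := hb
  have hab : a < b := Fin.lt_def.2 (by omega)
  have hGa : Good m (NJ + 3) ω a := good_of hR2 hBL hn hLa (hR1 a (Or.inl ha))
  have hGb : Good m (NJ + 3) ω b := good_of hR2 hBL hn hLb (hR1 b (Or.inr hb))
  have hu : UReq ω := ureq hω fun A hA => h1 A (by omega)
  exact li_of_leak hω (un a b ω) (fun h t => un_nonneg a b ω h t) (un_edge hab hu)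
    fun U hU hMD => det_leak hab ha hb hm hA1 hN1 hω h1 hE h2 hJ hGa hGb hU hMD

end Pool.Agent.LOI
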