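import Pool.Agent.Lib.LOI.SecM

set_option autoImplicit false

namespace Pool.Agent.LOI

open Finset
open scoped Classical

private theorem Hit_sum {n : ℕ} {α : Type*} (F : Om n → α) (s : Finset α) (P : Om n → Prop)
    (h : ∀ ω, P ω ↔ F ω ∈ s) : Pb n P = ∑ i ∈ s, Pb n (fun ω => F ω = i) := by
  unfold Pb
  rw [← sum_div]
  congr 1
  have h1 : (univ.filter P).card = ∑ i ∈ s, ((univ.filter P).filter fun ω => F ω = i).card :=
    card_eq_sum_card_fiberwise (fun ω hω => (h ω).1 (mem_filter.1 hω).2)
  rw [h1]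
  push_cast
  refine sum_congr rfl fun i hi => ?_
  congr 2
  ext ω
  simp only [mem_filter, mem_univ, true_and]
  constructor
  · exact fun hh => hh.2
  · exact fun hh => ⟨(h ω).2 (hh ▸ hi), hh⟩

private theorem Hit_zero {n : ℕ} (P : Om n → Prop) (h : ∀ ω, ¬ P ω) : Pb n P = 0 := by
  have h1 : P = fun _ => False := by
    funext ω
    exact propext ⟨fun hh => h ω hh, fun hh => hh.elim⟩
  subst h1
  simp [Pb]

private theorem Hit_box {n : ℕ} (Q : Fin n → Finset (Fin (n + 1))) :
    Pb n (fun ω => ∀ j, (ω j).1 ∈ Q j) = ∏ j, (((Q j).card : ℝ) / ((n : ℝ) + 1)) := by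
  have h := Pb_box (n := n) (fun j => Q j ×ˢ (univ : Finset Bool))
  have e : (fun ω : Om n => ∀ j, ω j ∈ Q j ×ˢ (univ : Finset Bool)) =
      fun ω => ∀ j, (ω j).1 ∈ Q j := by
    funext ω
    simp
  rw [← e, h]
  refine prod_congr rfl fun j _ => ?_
  rw [card_product, card_univ, Fintype.card_bool]
  push_cast
  have : (n : ℝ) + 1 ≠ 0 := by positivity
  field_simp

private theorem Hit_prod {n : ℕ} (M T : Finset (Fin n)) (hT : T ⊆ M) (a b : ℝ) :
    ∏ j, (if j ∈ T then a else if j ∈ M then b else 1) = a ^ T.card * b ^ (M.card - T.card) := by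
  have e : ∀ j : Fin n, (if j ∈ T then a else if j ∈ M then b else 1) =
      (if j ∈ T then a else 1) * (if j ∈ M \ T then b else 1) := by
    intro j
    by_cases h1 : j ∈ T
    · simp [h1]
    · by_cases h2 : j ∈ M <;> simp [h1, h2]
  rw [prod_congr rfl fun j _ => e j, prod_mul_distrib, prod_ite_mem, prod_ite_mem]
  simp only [univ_inter, prod_const]
  rw [card_sdiff_of_subset hT]

/-- Proof. Sum over the set `T ⊆ Mid n m`, `|T| = K`, of the mid edges with label `r`: boxes (`Pb_box`): `(1/N)^K ((N-1)/N)^(M-K)`, `M = |Mid n m|`, `N = n + 1`. -/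
theorem Lr_prob (n m K : ℕ) (r : Fin (n + 1)) :
    Pb n (fun ω => Lr m ω r = K) = ((Mid n m).card.choose K : ℝ) *
      (1 / ((n : ℝ) + 1)) ^ K * (1 - 1 / ((n : ℝ) + 1)) ^ ((Mid n m).card - K) := by
  have hN : (n : ℝ) + 1 ≠ 0 := by positivity
  rw [Hit_sum (fun ω : Om n => (Mid n m).filter fun j => (ω j).1 = r)
    (powersetCard K (Mid n m)) (fun ω => Lr m ω r = K)
    (fun ω => by simp [mem_powersetCard, Lr])]
  have h1 : ∀ T ∈ powersetCard K (Mid n m),
      Pb n (fun ω => ((Mid n m).filter fun j => (ω j).1 = r) = T) =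
        (1 / ((n : ℝ) + 1)) ^ K * (1 - 1 / ((n : ℝ) + 1)) ^ ((Mid n m).card - K) := by
    intro T hT
    rw [mem_powersetCard] at hT
    have e : (fun ω : Om n => ((Mid n m).filter fun j => (ω j).1 = r) = T) =
        fun ω => ∀ j, (ω j).1 ∈
          (if j ∈ T then {r} else if j ∈ Mid n m then {r}ᶜ else univ : Finset (Fin (n + 1))) := by
      funext ω
      apply propext
      constructor
      · intro h j
        by_cases h1 : j ∈ T
        · rw [if_pos h1, mem_singleton]
          rw [← h, mem_filter] at h1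
          exact h1.2
        · rw [if_neg h1]
          by_cases h2 : j ∈ Mid n m
          · rw [if_pos h2, mem_compl, mem_singleton]
            intro h3
            exact h1 (h ▸ mem_filter.2 ⟨h2, h3⟩)
          · rw [if_neg h2]
            exact mem_univ _
      · intro h
        ext j
        rw [mem_filter]
        have hj := h j
        by_cases h1 : j ∈ T
        · rw [if_pos h1, mem_singleton] at hj
          exact ⟨fun _ => h1, fun _ => ⟨hT.1 h1, hj⟩⟩
        · rw [if_neg h1] at hj
          constructor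
          · rintro ⟨h2, h3⟩
            rw [if_pos h2, mem_compl, mem_singleton] at hj
            exact absurd h3 hj
          · exact fun h2 => absurd h2 h1
    rw [e, Hit_box]
    have e2 : ∀ j : Fin n, (((if j ∈ T then {r} else if j ∈ Mid n m then {r}ᶜ else univ :
        Finset (Fin (n + 1))).card : ℝ) / ((n : ℝ) + 1)) =
        (if j ∈ T then 1 / ((n : ℝ) + 1) else if j ∈ Mid n m then 1 - 1 / ((n : ℝ) + 1) else 1) := by
      intro j
      by_cases h1 : j ∈ T
      · simp [h1]
      · by_cases h2 : j ∈ Mid n m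
        · simp only [h1, h2, if_true, if_false]
          rw [card_compl, card_singleton, Fintype.card_fin]
          rw [Nat.add_sub_cancel]
          field_simp
          ring
        · simp only [h1, h2, if_false]
          rw [card_univ, Fintype.card_fin]
          push_cast
          exact div_self hN
    rw [prod_congr rfl fun j _ => e2 j, Hit_prod _ _ hT.1, hT.2]
  rw [sum_congr rfl h1, sum_const, card_powersetCard, nsmul_eq_mul]
  ring

/-- Proof. Sum over disjoint `T, T' ⊆ Mid n m` with `K` elements: `C(M,K) C(M-K,K) N^(-2K) (1 - 2/N)^(M-2K)`; then `C(M-K,K) ≤ C(M,K)` and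
`(1 - 2/N) ≤ (1 - 1/N)^2`. -/
theorem Lr_pair (n m K : ℕ) (hn : 1 ≤ n) (r r' : Fin (n + 1)) (hr : r ≠ r')
    (hK : 2 * K ≤ (Mid n m).card) :
    Pb n (fun ω => Lr m ω r = K ∧ Lr m ω r' = K) ≤ (((Mid n m).card.choose K : ℝ) *
      (1 / ((n : ℝ) + 1)) ^ K) ^ 2 * (1 - 1 / ((n : ℝ) + 1)) ^ (2 * ((Mid n m).card - 2 * K)) := by
  have hN : (n : ℝ) + 1 ≠ 0 := by positivity
  have hN0 : (0 : ℝ) < (n : ℝ) + 1 := by positivity
  have hn1 : (1 : ℝ) ≤ n := by exact_mod_cast hn
  rw [Hit_sum (fun ω : Om n => (((Mid n m).filter fun j => (ω j).1 = r),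
      ((Mid n m).filter fun j => (ω j).1 = r')))
    (powersetCard K (Mid n m) ×ˢ powersetCard K (Mid n m))
    (fun ω => Lr m ω r = K ∧ Lr m ω r' = K)
    (fun ω => by simp [mem_powersetCard, Lr])]
  have h1 : ∀ T ∈ powersetCard K (Mid n m) ×ˢ powersetCard K (Mid n m),
      Pb n (fun ω => (((Mid n m).filter fun j => (ω j).1 = r),
        ((Mid n m).filter fun j => (ω j).1 = r')) = T) ≤
        (1 / ((n : ℝ) + 1)) ^ (2 * K) *
          (1 - 1 / ((n : ℝ) + 1)) ^ (2 * ((Mid n m).card - 2 * K)) := by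
    rintro ⟨T, T'⟩ hT
    rw [mem_product, mem_powersetCard, mem_powersetCard] at hT
    obtain ⟨⟨hT1, hT2⟩, hT3, hT4⟩ := hT
    simp only at hT1 hT2 hT3 hT4
    by_cases hd : Disjoint T T'
    · refine le_trans (Pb_mono (Q := fun ω => ∀ j, (ω j).1 ∈
          (if j ∈ T then {r} else if j ∈ T' then {r'} else if j ∈ Mid n m then {r, r'}ᶜ
            else univ : Finset (Fin (n + 1)))) ?_) ?_
      · intro ω h j
        rw [Prod.mk.injEq] at h
        by_cases h1 : j ∈ T
        · rw [if_pos h1, mem_singleton]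
          rw [← h.1, mem_filter] at h1
          exact h1.2
        · rw [if_neg h1]
          by_cases h1' : j ∈ T'
          · rw [if_pos h1', mem_singleton]
            rw [← h.2, mem_filter] at h1'
            exact h1'.2
          · rw [if_neg h1']
            by_cases h2 : j ∈ Mid n m
            · rw [if_pos h2, mem_compl, mem_insert, mem_singleton]
              rintro (h3 | h3)
              · exact h1 (h.1 ▸ mem_filter.2 ⟨h2, h3⟩)
              · exact h1' (h.2 ▸ mem_filter.2 ⟨h2, h3⟩)
            · rw [if_neg h2]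
              exact mem_univ _
      · rw [Hit_box]
        have e2 : ∀ j : Fin n, (((if j ∈ T then {r} else if j ∈ T' then {r'} else
            if j ∈ Mid n m then {r, r'}ᶜ else univ :
            Finset (Fin (n + 1))).card : ℝ) / ((n : ℝ) + 1)) =
            (if j ∈ T ∪ T' then 1 / ((n : ℝ) + 1) else
              if j ∈ Mid n m then 1 - 2 / ((n : ℝ) + 1) else 1) := by
          intro j
          by_cases h1 : j ∈ T
          · simp [h1]
          · by_cases h1' : j ∈ T'
            · simp [h1, h1']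
            · by_cases h2 : j ∈ Mid n m
              · simp only [h1, h1', h2, if_true, if_false, mem_union, or_self]
                rw [card_compl, card_pair hr, Fintype.card_fin]
                rw [Nat.cast_sub (by omega)]
                push_cast
                field_simp
              · simp only [h1, h1', h2, if_false, mem_union, or_self]
                rw [card_univ, Fintype.card_fin]
                push_cast
                exact div_self hN
        rw [prod_congr rfl fun j _ => e2 j, Hit_prod _ _ (union_subset hT1 hT3),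
          card_union_of_disjoint hd, hT2, hT4, ← two_mul]
        refine mul_le_mul_of_nonneg_left ?_ (by positivity)
        rw [pow_mul]
        refine pow_le_pow_left₀ ?_ ?_ _
        · rw [sub_nonneg, div_le_one hN0]
          linarith
        · have : (1 - 1 / ((n : ℝ) + 1)) ^ 2 = 1 - 2 / ((n : ℝ) + 1) + (1 / ((n : ℝ) + 1)) ^ 2 := by
            ring
          rw [this]
          have := sq_nonneg (1 / ((n : ℝ) + 1))
          linarith
    · have h0 : Pb n (fun ω => (((Mid n m).filter fun j => (ω j).1 = r),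
        ((Mid n m).filter fun j => (ω j).1 = r')) = (T, T')) = 0 := by
        refine Hit_zero _ ?_
        intro ω h
        rw [Prod.mk.injEq] at h
        rw [not_disjoint_iff] at hd
        obtain ⟨j, h1, h2⟩ := hd
        rw [← h.1, mem_filter] at h1
        rw [← h.2, mem_filter] at h2
        exact hr (h1.2.symm.trans h2.2)
      rw [h0]
      have : (0 : ℝ) ≤ 1 - 1 / ((n : ℝ) + 1) := by
        rw [sub_nonneg, div_le_one hN0]
        linarith
      positivity
  refine le_trans (sum_le_sum h1) (le_of_eq ?_)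
  rw [sum_const, card_product, card_powersetCard, nsmul_eq_mul]
  push_cast
  ring

private theorem Hit_mid (n m : ℕ) : (Mid n m).card = n - 2 * m := by
  have h : (Mid n m).card = (Ico m (n - m)).card := by
    refine card_bij (fun j _ => j.val) ?_ ?_ ?_
    · intro j hj
      rw [mem_Mid] at hj
      rw [mem_Ico]
      omega
    · intro a _ b _ hab
      exact Fin.ext hab
    · intro b hb
      rw [mem_Ico] at hb
      exact ⟨⟨b, by omega⟩, mem_Mid.2 ⟨by simp; omega, by simp; omega⟩, rfl⟩
  rw [h, Nat.card_Ico]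
  omega

/-- Proof. `second_moment` with `A r = (Lr = K)`, `q` = the value of `Lr_prob`, `1 + η = (1 - 1/N)^(-2K)`. `|W| q ≥ K` for large `n`: `q → e^(-1)/K!` and
`8 K e^(-1) > K` (or: `C(M,K) N^(-K) ≥ ((M-K)/N)^K / K! ≥ 1/(2 K!)`, `(1 - 1/N)^M ≥ (1-1/N)^N ≥ 1/4`); `η ≤ 1/K` for large `n`. If all `Lr < K` then no `Lr = K`. -/
theorem hit_prob (K m : ℕ) (hK : 1 ≤ K) : ∃ n₀ : ℕ, ∀ n ≥ n₀, ∀ W : Finset (Fin (n + 1)),
    W.card = 8 * K.factorial * K → Pb n (fun ω => ∀ r ∈ W, Lr m ω r < K) ≤ 2 / K := by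
  refine ⟨2 * K * (2 * m + K + 1) + 2 * m + 2 * K, ?_⟩
  intro n hn W hW
  have hK1 : (1 : ℝ) ≤ K := by exact_mod_cast hK
  have hK0 : (0 : ℝ) < K := by linarith
  have hM : (Mid n m).card = n - 2 * m := Hit_mid n m
  have hn1 : 1 ≤ n := by nlinarith
  have hn1' : (1 : ℝ) ≤ n := by exact_mod_cast hn1
  have hnb : 2 * m + 2 * K ≤ n := by
    have : 0 ≤ 2 * K * (2 * m + K + 1) := Nat.zero_le _
    omega
  have hN0 : (0 : ℝ) < (n : ℝ) + 1 := by positivity
  set M := (Mid n m).card with hMdef
  have hMK : 2 * K ≤ M := by omega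
  set x : ℝ := 1 - 1 / ((n : ℝ) + 1) with hx
  have hx0 : 0 < x := by
    rw [hx, sub_pos, div_lt_one hN0]
    linarith
  have hx1 : x ≤ 1 := by
    rw [hx]
    have : 0 ≤ 1 / ((n : ℝ) + 1) := by positivity
    linarith
  have hnR : 2 * (K : ℝ) * (2 * m + K + 1) + 2 * m + 2 * K ≤ n := by exact_mod_cast hn
  have hm0 : (0 : ℝ) ≤ m := Nat.cast_nonneg m
  -- Bernoulli
  have hxK : (1 + 1 / (K : ℝ)) * x ^ (2 * K) ≥ 1 := by
    have hb := one_add_mul_le_pow (a := -(1 / ((n : ℝ) + 1))) (by
      have : 1 / ((n : ℝ) + 1) ≤ 1 := by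
        rw [div_le_one hN0]
        linarith
      linarith) (2 * K)
    have e : (1 + -(1 / ((n : ℝ) + 1))) = x := by
      rw [hx]
      ring
    rw [e] at hb
    push_cast at hb
    have h2 : 2 * (K : ℝ) * (1 / ((n : ℝ) + 1)) ≤ 1 / (K + 1) := by
      rw [mul_one_div, div_le_div_iff₀ hN0 (by linarith)]
      nlinarith [mul_nonneg hK0.le hm0]
    have h3 : 1 - 1 / ((K : ℝ) + 1) ≤ x ^ (2 * K) := by linarith
    have h4 : (1 + 1 / (K : ℝ)) * (1 - 1 / ((K : ℝ) + 1)) = 1 := by
      field_simp
      ring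
    calc (1 + 1 / (K : ℝ)) * x ^ (2 * K) ≥ (1 + 1 / (K : ℝ)) * (1 - 1 / ((K : ℝ) + 1)) := by
          gcongr
      _ = 1 := h4
  set q : ℝ := (M.choose K : ℝ) * (1 / ((n : ℝ) + 1)) ^ K * x ^ (M - K) with hq
  have hch : 0 < M.choose K := Nat.choose_pos (by omega)
  have hq0 : 0 < q := by
    rw [hq]
    have : (0 : ℝ) < M.choose K := by exact_mod_cast hch
    positivity
  have hfac : (0 : ℝ) < K.factorial := by exact_mod_cast K.factorial_pos
  -- lower bound
  have hqlow : 1 ≤ 8 * (K.factorial : ℝ) * q := by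
    have h1 : ((M + 1 - K : ℕ) : ℝ) ^ K ≤ (K.factorial : ℝ) * M.choose K := by
      have h := Nat.pow_sub_le_descFactorial M K
      rw [Nat.descFactorial_eq_factorial_mul_choose] at h
      exact_mod_cast h
    have h2 : (1 : ℝ) / 2 ≤ (((M + 1 - K : ℕ) : ℝ) * (1 / ((n : ℝ) + 1))) ^ K := by
      have hb := one_add_mul_le_pow (a := -((2 * (m : ℝ) + K) / ((n : ℝ) + 1))) (by
        have : (2 * (m : ℝ) + K) / ((n : ℝ) + 1) ≤ 1 := by
          rw [div_le_one hN0]
          nlinarith [mul_nonneg hK0.le hm0]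
        linarith) K
      have e : (1 + -((2 * (m : ℝ) + K) / ((n : ℝ) + 1))) =
          ((M + 1 - K : ℕ) : ℝ) * (1 / ((n : ℝ) + 1)) := by
        rw [Nat.cast_sub (by omega), hM, Nat.cast_add, Nat.cast_sub (by omega)]
        push_cast
        field_simp
        ring
      rw [e] at hb
      refine le_trans ?_ hb
      have h3 : (K : ℝ) * ((2 * (m : ℝ) + K) / ((n : ℝ) + 1)) ≤ 1 / 2 := by
        rw [← mul_div_assoc, div_le_div_iff₀ hN0 (by norm_num)]
        nlinarith [mul_nonneg hK0.le hm0]
      linarith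
    have h3 : (1 : ℝ) / 4 ≤ x ^ (M - K) := by
      have h4 : x ^ n ≤ x ^ (M - K) := pow_le_pow_of_le_one hx0.le hx1 (by omega)
      refine le_trans ?_ h4
      have h5 : x = 1 / (1 + 1 / (n : ℝ)) := by
        rw [hx]
        field_simp
        ring
      have h6 : (1 + 1 / (n : ℝ)) ^ n ≤ 4 := by
        have h7 : (1 + 1 / (n : ℝ)) ^ n ≤ (Real.exp (1 / n)) ^ n := by
          refine pow_le_pow_left₀ (by positivity) ?_ n
          have := Real.add_one_le_exp (1 / (n : ℝ))
          linarith
        rw [← Real.exp_nat_mul] at h7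
        have h8 : (n : ℝ) * (1 / n) = 1 := by
          field_simp
        rw [h8] at h7
        have := Real.exp_one_lt_d9
        linarith
      rw [h5, div_pow, one_pow]
      rw [div_le_div_iff₀ (by norm_num) (by positivity)]
      linarith
    have h4 : (1 : ℝ) / 2 * (1 / 4) ≤ (((M + 1 - K : ℕ) : ℝ) * (1 / ((n : ℝ) + 1))) ^ K *
        x ^ (M - K) := mul_le_mul h2 h3 (by norm_num) (by positivity)
    have h5 : (((M + 1 - K : ℕ) : ℝ) * (1 / ((n : ℝ) + 1))) ^ K * x ^ (M - K) ≤
        (K.factorial : ℝ) * q := by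
      rw [mul_pow, hq]
      calc ((M + 1 - K : ℕ) : ℝ) ^ K * (1 / ((n : ℝ) + 1)) ^ K * x ^ (M - K) ≤
          ((K.factorial : ℝ) * M.choose K) * (1 / ((n : ℝ) + 1)) ^ K * x ^ (M - K) := by
            gcongr
        _ = _ := by ring
    linarith
  have hmain := second_moment (n := n) W (fun r ω => Lr m ω r = K) q (1 / K) hq0 (by positivity)
    (by
      rw [← card_pos, hW]
      have := K.factorial_pos
      positivity)
    (fun r _ => by rw [Lr_prob])
    (fun r _ r' _ hrr => by
      refine le_trans (Lr_pair n m K hn1 r r' hrr hMK) ?_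
      have e1 : (1 + 1 / (K : ℝ)) * q ^ 2 = ((M.choose K : ℝ) * (1 / ((n : ℝ) + 1)) ^ K) ^ 2 *
          (x ^ (2 * (M - 2 * K)) * ((1 + 1 / (K : ℝ)) * x ^ (2 * K))) := by
        have e2 : x ^ (2 * (M - K)) = x ^ (2 * (M - 2 * K)) * x ^ (2 * K) := by
          rw [← pow_add]
          congr 1
          omega
        rw [hq, mul_pow, ← pow_mul x, mul_comm (M - K) 2, e2]
        ring
      rw [e1]
      refine mul_le_mul_of_nonneg_left ?_ (by positivity)
      exact le_mul_of_one_le_right (by positivity) hxK)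
  refine le_trans (Pb_mono (Q := fun ω => ∀ r ∈ W, ¬ Lr m ω r = K)
    (fun ω h r hr => (h r hr).ne)) (le_trans hmain ?_)
  have h5 : 1 / ((W.card : ℝ) * q) ≤ 1 / K := by
    rw [hW]
    push_cast
    refine one_div_le_one_div_of_le hK0 ?_
    nlinarith
  have : (2 : ℝ) / K = 1 / K + 1 / K := by ring
  linarith

end Pool.Agent.LOI
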