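import Pool.Agent.Lib.LOI.JDef

set_option autoImplicit false

namespace Pool.Agent.LOI

open Finset
open scoped Classical

/-- for distinct edges the two conditions are independent -/
private theorem JT_card {n : ℕ} (g g' h : Half n) (h1 : g.1 ≠ g'.1) (h2 : g.1 ≠ h.1)
    (h3 : g'.1 ≠ h.1) :
    ((univ : Finset (Om n)).filter fun ω => lb ω g = bs h ∧ hd ω g' = hd ω h).card *
      ((n + 1) * ((n + 1) * 2)) ≤ ((n + 1) * 2) ^ n := by
  have hc : (((univ : Finset (Om n)).filter fun ω => lb ω g = bs h ∧ hd ω g' = hd ω h) ×ˢ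
      ((univ : Finset (Fin (n + 1))) ×ˢ (univ : Finset (Fin (n + 1) × Bool)))).card =
      ((univ : Finset (Om n)).filter fun ω => lb ω g = bs h ∧ hd ω g' = hd ω h).card *
      ((n + 1) * ((n + 1) * 2)) := by
    rw [card_product, card_product, card_univ, card_univ, Fintype.card_fin, Fintype.card_prod,
      Fintype.card_fin, Fintype.card_bool]
  have hu : (univ : Finset (Om n)).card = ((n + 1) * 2) ^ n := by
    rw [card_univ, Fintype.card_pi]
    simp
  rw [← hc, ← hu]
  refine card_le_card_of_injOn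
    (fun q => Function.update (Function.update q.1 g.1 (q.2.1, (q.1 g.1).2)) h.1 q.2.2)
    (fun _ _ => mem_univ _) ?_
  rintro ⟨ω, y, v⟩ hq ⟨ω', y', v'⟩ hq' e
  simp only [coe_product, Set.mem_prod, mem_coe, mem_filter, mem_univ, true_and, and_true,
    coe_univ, Set.mem_univ] at hq hq'
  simp only at e
  have ek : v = v' := by
    have := congrFun e h.1
    simpa using this
  have ei : (y, (ω g.1).2) = (y', (ω' g.1).2) := by
    have := congrFun e g.1
    simpa [Function.update_of_ne h2] using this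
  have ej : ∀ j, j ≠ g.1 → j ≠ h.1 → ω j = ω' j := by
    intro j hj hj'
    have := congrFun e j
    simpa [Function.update_of_ne hj, Function.update_of_ne hj'] using this
  have e1 : ω g.1 = ω' g.1 := by
    refine Prod.ext ?_ (Prod.ext_iff.1 ei).2
    exact hq.1.trans hq'.1.symm
  have e2 : ω g'.1 = ω' g'.1 := ej _ (Ne.symm h1) h3
  have e3 : ω h.1 = ω' h.1 := by
    have a1 : hd ω h = hd ω' h := by
      rw [← hq.2, ← hq'.2]
      unfold hd
      rw [e2]
    unfold hd at a1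
    have a2 := Prod.ext_iff.1 a1
    simp only at a2
    refine Prod.ext a2.1 ?_
    have a3 := a2.2
    revert a3
    cases (ω h.1).2 <;> cases (ω' h.1).2 <;> cases h.2 <;> simp
  have e4 : ω = ω' := by
    funext j
    by_cases hj : j = g.1
    · rw [hj]; exact e1
    · by_cases hj' : j = h.1
      · rw [hj']; exact e3
      · exact ej j hj hj'
  have e5 : y = y' := (Prod.ext_iff.1 ei).1
  rw [e4, ek, e5]

/-- the number of triples -/
private theorem JT_trip (n : ℕ) :
    ((univ : Finset (Half n × Half n × Half n)).filter fun p =>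
      (p.1.1 ≠ p.2.1.1 ∧ p.1.1 ≠ p.2.2.1 ∧ p.2.1.1 ≠ p.2.2.1) ∧ bs p.1 = bs p.2.1).card ≤
      (n * 2) * (n * 2) := by
  have hu : (univ : Finset (Half n × Half n)).card = (n * 2) * (n * 2) := by
    rw [card_univ]
    simp
  rw [← hu]
  refine card_le_card_of_injOn (fun p => (p.1, p.2.2)) (fun _ _ => mem_univ _) ?_
  rintro ⟨g, g', h⟩ hp ⟨k, k', l⟩ hq e
  simp only [coe_filter, mem_univ, true_and, Set.mem_ofPred_eq] at hp hq
  simp only [Prod.mk.injEq] at e
  obtain ⟨rfl, rfl⟩ := e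
  have h5 : g' = k' := by
    by_contra hne
    have h6 : ({g, g', k'} : Finset (Half n)) ⊆
        (univ : Finset (Half n)).filter fun x => bs x = bs g := by
      intro x hx
      rw [mem_insert, mem_insert, mem_singleton] at hx
      rw [mem_filter]
      refine ⟨mem_univ _, ?_⟩
      rcases hx with rfl | rfl | rfl
      · rfl
      · exact hp.2.symm
      · exact hq.2.symm
    have h7 := (card_le_card h6).trans (at_card_le (bs g))
    rw [card_eq_three.2 ⟨g, g', k', fun h => hp.1.1 (congrArg Prod.fst h),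
      fun h => hq.1.1 (congrArg Prod.fst h), hne, rfl⟩] at h7
    omega
  rw [h5]

/-- Proof. There are at most `2n` pairs `(g, g')` with the same base and `g ≠ g'` (for each `g` at most one `g'`, `at_card_le`) and `2n` halves `h`. For fixed
`(g, g', h)` with different edges: the label of `g.1` is fixed, probability `1/(n+1)`; `hd ω g' = hd ω h`: `ω h.1 = ((ω g'.1).1, xor (ω g'.1).2 (xor g'.2 h.2))` is
determined by `ω g'.1`, probability `1/(2(n+1))` (sum over the `2(n+1)` values of `ω g'.1`: boxes). Total `≤ (2n)(2n) / (2 (n+1)^2) ≤ 2`. -/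
theorem sum_TT (n : ℕ) : ∑ ω : Om n, ((TT ω).card : ℝ) ≤ 2 * (2 * ((n : ℝ) + 1)) ^ n := by
  have h1 : ∑ ω : Om n, (TT ω).card = ∑ p ∈ (univ : Finset (Half n × Half n × Half n)).filter
      (fun p => (p.1.1 ≠ p.2.1.1 ∧ p.1.1 ≠ p.2.2.1 ∧ p.2.1.1 ≠ p.2.2.1) ∧ bs p.1 = bs p.2.1),
      ((univ : Finset (Om n)).filter fun ω =>
        lb ω p.1 = bs p.2.2 ∧ hd ω p.2.1 = hd ω p.2.2).card := by
    simp only [card_filter, TT]
    rw [sum_comm, sum_filter]
    refine sum_congr rfl fun p _ => ?_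
    by_cases hp : (p.1.1 ≠ p.2.1.1 ∧ p.1.1 ≠ p.2.2.1 ∧ p.2.1.1 ≠ p.2.2.1) ∧ bs p.1 = bs p.2.1
    · rw [if_pos hp]
      refine sum_congr rfl fun ω _ => ?_
      refine if_congr ?_ rfl rfl
      constructor
      · rintro ⟨_, _, a, b⟩
        exact ⟨a, b⟩
      · rintro ⟨a, b⟩
        exact ⟨hp.1, hp.2, a, b⟩
    · rw [if_neg hp]
      refine sum_eq_zero fun ω _ => ?_
      rw [if_neg]
      rintro ⟨a, b, _, _⟩
      exact hp ⟨a, b⟩
  have h2 : (∑ ω : Om n, (TT ω).card) * ((n + 1) * ((n + 1) * 2)) ≤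
      ((n * 2) * (n * 2)) * ((n + 1) * 2) ^ n := by
    rw [h1, sum_mul]
    refine (sum_le_card_nsmul _ _ (((n + 1) * 2) ^ n) ?_).trans ?_
    · intro p hp
      have hp' := (mem_filter.1 hp).2
      exact JT_card p.1 p.2.1 p.2.2 hp'.1.1 hp'.1.2.1 hp'.1.2.2
    · rw [smul_eq_mul]
      exact Nat.mul_le_mul_right _ (JT_trip n)
  have h3 : (∑ ω : Om n, ((TT ω).card : ℝ)) * (((n : ℝ) + 1) * (((n : ℝ) + 1) * 2)) ≤
      (((n : ℝ) * 2) * ((n : ℝ) * 2)) * (((n : ℝ) + 1) * 2) ^ n := by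
    exact_mod_cast h2
  have hn : (0 : ℝ) ≤ n := Nat.cast_nonneg n
  have hp : (0 : ℝ) ≤ (2 * ((n : ℝ) + 1)) ^ n := by positivity
  have hq : (((n : ℝ) + 1) * 2) ^ n = (2 * ((n : ℝ) + 1)) ^ n := by rw [mul_comm]
  rw [hq] at h3
  have h4 : (((n : ℝ) * 2) * ((n : ℝ) * 2)) * (2 * ((n : ℝ) + 1)) ^ n ≤
      (2 * (2 * ((n : ℝ) + 1)) ^ n) * (((n : ℝ) + 1) * (((n : ℝ) + 1) * 2)) := by
    nlinarith [mul_nonneg hn hp, mul_nonneg hn (mul_nonneg hn hp)]
  exact le_of_mul_le_mul_right (h3.trans h4) (by positivity)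

end Pool.Agent.LOI
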