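import Pool.Agent.Lib.LOI.JD
import Pool.Agent.Lib.LOI.JT

set_option autoImplicit false

namespace Pool.Agent.LOI

open Finset
open scoped Classical

variable {n : ℕ}

private theorem JP_lb_edge (ω : Om n) {h h' : Half n} (e : h.1 = h'.1) : lb ω h = lb ω h' := by
  unfold lb
  rw [e]

private theorem JP_lb_of_hd (ω : Om n) {h : Half n} {x : Fin (n + 1)} {t : Bool}
    (e : hd ω h = (x, t)) : lb ω h = x := by
  rw [← hd_fst, e]

/-- Proof. A requirement `(t, h)` with `bs h = x` gives an element of `DD` with first entry `h`, an element of `CC` with first entry `h`, or an element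
of `TT` with last entry `h` (the edges are different by RED: two of the halves on the same edge have the same label, and: D: the label of `h'` is `bs h`, that
of `h` is `bs h' = lb h`: if `h.1 = h'.1` then `lb h = bs h`; C similarly: the labels `y, z, x` are different, since a label is not the base, e.g. `y = lb h ≠ bs h = x`,
`z = lb h2 ≠ bs h2 = y`, `x = lb h3 ≠ bs h3 = z`; T: `g, g'` have the same base and are different (`edge_ne`); `g, h`: labels `bs h ≠ lb h`; `g', h`:
same head, `half_eq_of_hd`, and `bs g' = bs g ≠ lb g = bs h`). So `Jset` is contained in the union of three images. -/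
theorem J_le {ω : Om n} (hω : Red ω) :
    (Jset ω).card ≤ (DD ω).card + (CC ω).card + (TT ω).card := by
  have hsub : Jset ω ⊆ ((DD ω).image (fun p => bs p.1) ∪ (CC ω).image (fun p => bs p.1)) ∪
      (TT ω).image (fun p => bs p.2.2) := by
    intro x hx
    rw [mem_Jset] at hx
    obtain ⟨t, h, hb, hr⟩ := hx
    rw [mem_union, mem_union]
    rcases hr with ⟨h', h1, h2⟩ | ⟨h2, h3, h4, h5, h6⟩ | ⟨g, g', h1, h2, h3, h4⟩
    · left; left
      rw [mem_image]
      refine ⟨(h, h'), ?_, hb⟩
      unfold DD
      rw [mem_filter]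
      have e1 := JP_lb_of_hd ω h2
      refine ⟨mem_univ _, ?_, h1.symm, e1⟩
      intro e
      exact hω.1 h ((JP_lb_edge ω e).trans e1)
    · left; right
      rw [mem_image]
      refine ⟨(h, h2, h3), ?_, hb⟩
      unfold CC
      rw [mem_filter]
      have e1 := JP_lb_of_hd ω h6
      refine ⟨mem_univ _, ⟨?_, ?_, ?_⟩, h4.symm, h5.symm, e1⟩
      · intro e
        exact hω.1 h2 ((JP_lb_edge ω e).symm.trans h4.symm)
      · intro e
        exact hω.1 h ((JP_lb_edge ω e).trans e1)
      · intro e
        exact hω.1 h3 ((JP_lb_edge ω e).symm.trans h5.symm)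
    · right
      rw [mem_image]
      refine ⟨(g, g', h), ?_, hb⟩
      unfold TT
      rw [mem_filter]
      have e1 := JP_lb_of_hd ω h3
      refine ⟨mem_univ _, ⟨edge_ne h2 h1, ?_, ?_⟩, h2, e1, h4⟩
      · intro e
        exact hω.1 h ((JP_lb_edge ω e).symm.trans e1)
      · intro e
        have e2 : g' = h := half_eq_of_hd ω e h4
        exact hω.1 g (by rw [h2, e2]; exact e1)
  calc (Jset ω).card ≤ _ := card_le_card hsub
    _ ≤ ((DD ω).image (fun p => bs p.1) ∪ (CC ω).image (fun p => bs p.1)).card +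
        ((TT ω).image (fun p => bs p.2.2)).card := card_union_le _ _
    _ ≤ (((DD ω).image (fun p => bs p.1)).card + ((CC ω).image (fun p => bs p.1)).card) +
        ((TT ω).image (fun p => bs p.2.2)).card := by
        gcongr
        exact card_union_le _ _
    _ ≤ (DD ω).card + (CC ω).card + (TT ω).card := by
        gcongr <;> exact card_image_le

/-- P5. Proof. `Pb_markov` with `X = |DD| + |CC| + |TT|`, `t = NJ + 1`. -/
theorem J_prob (n NJ : ℕ) :
    Pb n (fun ω => Red ω ∧ NJ < (Jset ω).card) ≤ 14 / ((NJ : ℝ) + 1) := by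
  have hm := Pb_markov (fun ω : Om n => Red ω ∧ NJ < (Jset ω).card)
    (fun ω => ((DD ω).card : ℝ) + ((CC ω).card : ℝ) + ((TT ω).card : ℝ))
    (fun ω => by positivity) ((NJ : ℝ) + 1) (by positivity) (by
      rintro ω ⟨h1, h2⟩
      have h3 := lt_of_lt_of_le h2 (J_le h1)
      have h4 : NJ + 1 ≤ (DD ω).card + (CC ω).card + (TT ω).card := h3
      exact_mod_cast h4)
  refine hm.trans ?_
  have hs : ∑ ω : Om n, (((DD ω).card : ℝ) + ((CC ω).card : ℝ) + ((TT ω).card : ℝ)) ≤
      14 * (2 * ((n : ℝ) + 1)) ^ n := by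
    rw [sum_add_distrib, sum_add_distrib]
    have h1 := sum_DD n
    have h2 := sum_CC n
    have h3 := sum_TT n
    linarith
  have hp : (0 : ℝ) < (2 * ((n : ℝ) + 1)) ^ n := pow_pos (two_pos' n) n
  have h5 : (∑ ω : Om n, (((DD ω).card : ℝ) + ((CC ω).card : ℝ) + ((TT ω).card : ℝ))) /
      (2 * ((n : ℝ) + 1)) ^ n ≤ 14 := by
    rw [div_le_iff₀ hp]
    exact hs
  exact div_le_div_of_nonneg_right h5 (by positivity)

end Pool.Agent.LOI
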