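import Pool.Agent.Lib.LOI.R1Def
import Pool.Agent.Lib.LOI.Chain

set_option autoImplicit false

namespace Pool.Agent.LOI

open Finset
open scoped Classical

variable {n : ℕ}

/-- the weights without the first vertex -/
private noncomputable def Tr1_b (n m : ℕ) (α β γ : ℝ) (i : ℕ) (s : Bool × Bool) : ℝ :=
  if m ≤ i ∧ i + m < n then wt α β γ s else (if s = (false, false) then 1 else 0)

/-- the factor of the first vertex -/
private noncomputable def Tr1_c (i : ℕ) (s : Bool × Bool) : ℝ :=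
  if i = 0 ∧ s.1 = true then 3 / 4 else 1

private noncomputable def Tr1_g (s t : Bool × Bool) : ℝ :=
  if s.2 = true ∨ t.1 = true then 3 / 4 else 1

private noncomputable def Tr1_f (s : Bool × Bool) : ℝ :=
  if s.2 = true then 3 / 4 else 1

private theorem Tr1_wt_nonneg {α β γ : ℝ} (hα : 0 ≤ α) (hβ : 0 ≤ β) (hγ : 0 ≤ γ)
    (s : Bool × Bool) : 0 ≤ wt α β γ s := by
  obtain ⟨a, b⟩ := s
  cases a <;> cases b <;> simpa [wt]

private theorem Tr1_base (m : ℕ) (α β γ : ℝ) (σ : Fin n → Bool × Bool) (hσ : OffMid m σ) :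
    ∏ i : Fin n, Tr1_b n m α β γ i.val (σ i) = ∏ j ∈ Mid n m, wt α β γ (σ j) := by
  rw [Mid, prod_filter]
  refine prod_congr rfl fun i _ => ?_
  unfold Tr1_b
  by_cases h : m ≤ i.val ∧ i.val + m < n
  · rw [if_pos h, if_pos h]
  · rw [if_neg h, if_neg h, if_pos]
    refine hσ i fun h2 => h ?_
    exact (mem_filter.1 h2).2

private theorem Tr1_cov {k : ℕ} (σ : Fin (k + 1) → Bool × Bool) :
    (3 / 4 : ℝ) ^ (scov σ).card = (∏ i : Fin (k + 1), Tr1_c i.val (σ i)) *
      (∏ i : Fin k, Tr1_g (σ i.castSucc) (σ i.succ)) * Tr1_f (σ (Fin.last k)) := by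
  have h0 : (0 : Fin (k + 2)) ∈ scov σ ↔ (σ 0).1 = true := by
    rw [mem_scov]
    constructor
    · rintro ⟨j, (⟨h1, h2⟩ | ⟨h1, h2⟩)⟩
      · have : j = 0 := by
          ext
          have := congrArg Fin.val h2
          simpa using this.symm
        rw [← this]
        exact h1
      · exact absurd h2.symm (Fin.succ_ne_zero j)
    · intro h
      exact ⟨0, Or.inl ⟨h, rfl⟩⟩
  have hi : ∀ i : Fin k, i.castSucc.succ ∈ scov σ ↔
      (σ i.castSucc).2 = true ∨ (σ i.succ).1 = true := by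
    intro i
    rw [mem_scov]
    constructor
    · rintro ⟨j, (⟨h1, h2⟩ | ⟨h1, h2⟩)⟩
      · right
        have : j = i.succ := by
          ext
          have := congrArg Fin.val h2
          simpa using this.symm
        rw [← this]
        exact h1
      · left
        have : j = i.castSucc := by
          ext
          have := congrArg Fin.val h2
          simpa using this.symm
        rw [← this]
        exact h1
    · rintro (h | h)
      · exact ⟨_, Or.inr ⟨h, rfl⟩⟩
      · exact ⟨_, Or.inl ⟨h, by ext; simp⟩⟩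
  have hl : (Fin.last k).succ ∈ scov σ ↔ (σ (Fin.last k)).2 = true := by
    rw [mem_scov]
    constructor
    · rintro ⟨j, (⟨h1, h2⟩ | ⟨h1, h2⟩)⟩
      · exfalso
        have := congrArg Fin.val h2
        simp at this
        omega
      · have : j = Fin.last k := by
          ext
          have := congrArg Fin.val h2
          simpa using this.symm
        rw [← this]
        exact h1
    · intro h
      exact ⟨_, Or.inr ⟨h, rfl⟩⟩
  have h1 : (3 / 4 : ℝ) ^ (scov σ).card =
      ∏ x : Fin (k + 2), if x ∈ scov σ then (3 / 4 : ℝ) else 1 := by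
    rw [prod_ite, prod_const, prod_const_one, mul_one]
    congr 2
    ext x
    simp
  have h2 : ∏ i : Fin (k + 1), Tr1_c i.val (σ i) =
      if (0 : Fin (k + 2)) ∈ scov σ then (3 / 4 : ℝ) else 1 := by
    rw [Fin.prod_univ_succ, prod_eq_one, mul_one]
    · unfold Tr1_c
      by_cases h : (σ 0).1 = true
      · rw [if_pos (h0.2 h), if_pos ⟨rfl, h⟩]
      · rw [if_neg (fun h' => h (h0.1 h')), if_neg]
        rintro ⟨_, h'⟩
        exact h h'
    · intro i _
      unfold Tr1_c
      rw [if_neg]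
      rintro ⟨h', _⟩
      simp at h'
  rw [h1, h2, Fin.prod_univ_succ, Fin.prod_univ_castSucc, mul_assoc]
  congr 2
  · refine prod_congr rfl fun i _ => ?_
    unfold Tr1_g
    refine if_congr ?_ rfl rfl
    rw [hi]
  · unfold Tr1_f
    refine if_congr ?_ rfl rfl
    rw [hl]

/-- TRANSFER 1. Proof. `n = 0` trivial, `n = k + 1`. `chain_bound` with `S = Bool × Bool`, `z = 3/4`, `g s s' = z` if `s.2 || s'.1` else `1` (the common vertex is covered),
`w i s = wt s` for mid `i`, `1[s = (false, false)]` otherwise, and `w 0 s` multiplied by `z` if `s.1` (first vertex), `f s = z` if `s.2` else `1` (last vertex);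
`(3/4)^|scov σ|` is the product over the vertices. Potential `φ s = 1` if `s.2 = false`, `φ1 = z + 2 (α + β) ≤ 0.95` if `s.2 = true`; `l i = λ` for mid `i + 1`, `1` otherwise,
`λ = γ + (3/2) β + (9/16) α + 2 (α + β)^2`. From `s.2 = false`: `γ + β z + β φ1 + α z φ1 ≤ λ`. From `s.2 = true`: `z (γ + β + (α + β) φ1) ≤ γ φ1 ≤ λ φ1`, since
`z (β + (α + β) φ1) ≤ (3/4) (1.95) (α + β) ≤ 2 γ (α + β)`. The first vector satisfies the same bound (as if the previous state were `(false, false)`). -/
theorem transfer1 (m : ℕ) (α β γ : ℝ) (hα : 0 ≤ α) (hβ : 0 ≤ β) (hγ : 3 / 4 ≤ γ)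
    (hαβ : α + β ≤ 1 / 10) :
    ∑ σ ∈ (univ : Finset (Fin n → Bool × Bool)).filter (fun σ => OffMid m σ),
      (∏ j ∈ Mid n m, wt α β γ (σ j)) * (3 / 4 : ℝ) ^ (scov σ).card ≤
      (γ + 3 / 2 * β + 9 / 16 * α + 2 * (α + β) ^ 2) ^ (Mid n m).card := by
  rcases n with _ | k
  · have hM : Mid 0 m = ∅ := by
      ext j
      exact j.elim0
    have hs : ∀ σ : Fin 0 → Bool × Bool, scov σ = ∅ := by
      intro σ
      ext x
      rw [mem_scov]
      constructor
      · rintro ⟨j, _⟩
        exact j.elim0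
      · intro h
        exact absurd h (notMem_empty x)
    rw [hM]
    simp only [prod_empty, one_mul, card_empty, pow_zero]
    calc ∑ σ ∈ (univ : Finset (Fin 0 → Bool × Bool)).filter (fun σ => OffMid m σ),
          (3 / 4 : ℝ) ^ (scov σ).card
        ≤ ∑ σ : Fin 0 → Bool × Bool, (3 / 4 : ℝ) ^ (scov σ).card :=
          sum_le_sum_of_subset_of_nonneg (subset_univ _) fun σ _ _ => by positivity
      _ = 1 := by simp [hs]
  set L : ℝ := γ + 3 / 2 * β + 9 / 16 * α + 2 * (α + β) ^ 2 with hL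
  set p : ℝ := 3 / 4 + 2 * (α + β) with hp
  have hγ0 : 0 ≤ γ := by linarith
  have hp1 : p ≤ 19 / 20 := by rw [hp]; linarith
  have hp0 : 3 / 4 ≤ p := by rw [hp]; linarith
  have hL1 : γ + 3 / 4 * β + β * p + 3 / 4 * α * p ≤ L := by
    rw [hL, hp]
    nlinarith [mul_nonneg hα hβ, mul_nonneg hα hα]
  have hγL : γ ≤ L := by
    rw [hL]
    nlinarith [sq_nonneg (α + β)]
  have hL2 : 3 / 4 * (γ + β + β * p + α * p) ≤ L * p := by
    have e1 : γ * p ≤ L * p := mul_le_mul_of_nonneg_right hγL (by linarith)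
    have e2 : (α + β) * p ≤ (α + β) * (19 / 20) := mul_le_mul_of_nonneg_left hp1 (by linarith)
    have e3 : 3 / 4 * (2 * (α + β)) ≤ γ * (2 * (α + β)) :=
      mul_le_mul_of_nonneg_right hγ (by linarith)
    have e4 : γ * p = 3 / 4 * γ + γ * (2 * (α + β)) := by rw [hp]; ring
    nlinarith
  have hL0 : 0 ≤ L := by linarith
  set w : ℕ → Bool × Bool → ℝ := fun i s => Tr1_c i s * Tr1_b (k + 1) m α β γ i s with hw
  set φ : Bool × Bool → ℝ := fun s => if s.2 = true then p else 1 with hφ
  set l : ℕ → ℝ := fun i => if m ≤ i + 1 ∧ i + 1 + m < k + 1 then L else 1 with hl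
  have hw0 : ∀ i s, 0 ≤ w i s := by
    intro i s
    rw [hw]
    refine mul_nonneg ?_ ?_
    · unfold Tr1_c
      split_ifs
      · norm_num
      · exact zero_le_one
    · unfold Tr1_b
      split_ifs
      · exact Tr1_wt_nonneg hα hβ hγ0 s
      · exact zero_le_one
      · exact le_rfl
  have hg0 : ∀ s t, 0 ≤ Tr1_g s t := by
    intro s t
    unfold Tr1_g
    split_ifs
    · norm_num
    · exact zero_le_one
  have hf0 : ∀ s, 0 ≤ Tr1_f s := by
    intro s
    unfold Tr1_f
    split_ifs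
    · norm_num
    · exact zero_le_one
  have hl0 : ∀ i, 0 ≤ l i := by
    intro i
    rw [hl]
    simp only
    split_ifs
    · exact hL0
    · exact zero_le_one
  have hfφ : ∀ s, Tr1_f s ≤ φ s := by
    intro s
    rw [hφ]
    unfold Tr1_f
    simp only
    split_ifs
    · exact hp0
    · exact le_rfl
  have hstep : ∀ i s, ∑ t, Tr1_g s t * w (i + 1) t * φ t ≤ l i * φ s := by
    intro i s
    rw [Fintype.sum_prod_type, Fintype.sum_bool, Fintype.sum_bool, Fintype.sum_bool, hw, hφ, hl]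
    simp only
    obtain ⟨a, b⟩ := s
    by_cases hmid : m ≤ i + 1 ∧ i + 1 + m < k + 1
    · rw [if_pos hmid]
      unfold Tr1_g Tr1_c Tr1_b
      rw [if_pos hmid, if_pos hmid, if_pos hmid, if_pos hmid]
      cases b
      · simp [wt]
        nlinarith [hL1]
      · simp [wt]
        nlinarith [hL2]
    · rw [if_neg hmid]
      unfold Tr1_g Tr1_c Tr1_b
      rw [if_neg hmid, if_neg hmid, if_neg hmid, if_neg hmid]
      cases b
      · simp
      · simp
        linarith
  have hfirst : ∑ s, w 0 s * φ s ≤ if m ≤ 0 ∧ 0 + m < k + 1 then L else 1 := by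
    rw [Fintype.sum_prod_type, Fintype.sum_bool, Fintype.sum_bool, Fintype.sum_bool, hw, hφ]
    simp only
    by_cases hmid : m ≤ 0 ∧ 0 + m < k + 1
    · rw [if_pos hmid]
      unfold Tr1_c Tr1_b
      rw [if_pos hmid, if_pos hmid, if_pos hmid, if_pos hmid]
      simp [wt]
      nlinarith [hL1]
    · rw [if_neg hmid]
      unfold Tr1_c Tr1_b
      rw [if_neg hmid, if_neg hmid, if_neg hmid, if_neg hmid]
      simp
  have hprod : (if m ≤ 0 ∧ 0 + m < k + 1 then L else 1) * ∏ i ∈ range k, l i =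
      L ^ (Mid (k + 1) m).card := by
    have e1 : L ^ (Mid (k + 1) m).card =
        ∏ i : Fin (k + 1), if m ≤ i.val ∧ i.val + m < k + 1 then L else 1 := by
      rw [prod_ite, prod_const, prod_const_one, mul_one]
      rfl
    rw [e1, Fin.prod_univ_eq_prod_range (fun i => if m ≤ i ∧ i + m < k + 1 then L else 1) (k + 1),
      prod_range_succ', mul_comm]
  have hmain := chain_bound w Tr1_g Tr1_f φ l hw0 hg0 hl0 hfφ hstep k
  have hle : (∑ s, w 0 s * φ s) * ∏ i ∈ range k, l i ≤ L ^ (Mid (k + 1) m).card := by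
    rw [← hprod]
    exact mul_le_mul_of_nonneg_right hfirst (prod_nonneg fun i _ => hl0 i)
  refine le_trans ?_ (hmain.trans hle)
  set G : (Fin (k + 1) → Bool × Bool) → ℝ := fun σ => ((∏ i, w i.val (σ i)) *
    (∏ i : Fin k, Tr1_g (σ i.castSucc) (σ i.succ))) * Tr1_f (σ (Fin.last k)) with hG
  have hG0 : ∀ σ, 0 ≤ G σ := by
    intro σ
    rw [hG]
    exact mul_nonneg (mul_nonneg (prod_nonneg fun i _ => hw0 _ _)
      (prod_nonneg fun i _ => hg0 _ _)) (hf0 _)
  have hR : ∀ σ ∈ (univ : Finset (Fin (k + 1) → Bool × Bool)).filter (fun σ => OffMid m σ),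
      (∏ j ∈ Mid (k + 1) m, wt α β γ (σ j)) * (3 / 4 : ℝ) ^ (scov σ).card = G σ := by
    intro σ hσ
    rw [hG, ← Tr1_base m α β γ σ (mem_filter.1 hσ).2, Tr1_cov σ]
    simp only [hw]
    rw [prod_mul_distrib]
    ring
  rw [sum_congr rfl hR]
  exact sum_le_sum_of_subset_of_nonneg (subset_univ _) fun σ _ _ => hG0 σ

end Pool.Agent.LOI
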