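import Pool.Agent.Lib.LOI.R1Sum
import Pool.Agent.Lib.LOI.Tr1

set_option autoImplicit false

namespace Pool.Agent.LOI

open Finset
open scoped Classical

private theorem R1Num_card_le (n m : ℕ) : (Mid n m).card ≤ n := by
  have h := card_le_card (subset_univ (Mid n m))
  rwa [card_univ, Fintype.card_fin] at h

private theorem R1Num_le_card (n m : ℕ) : n ≤ (Mid n m).card + 2 * m := by
  have h1 : (univ : Finset (Fin n)) ⊆ Mid n m ∪ ((univ.filter fun j : Fin n => j.val < m) ∪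
      (univ.filter fun j : Fin n => n ≤ j.val + m)) := by
    intro j _
    rw [mem_union, mem_union, mem_filter, mem_filter, Mid, mem_filter]
    by_cases h : j.val < m
    · exact Or.inr (Or.inl ⟨mem_univ _, h⟩)
    · by_cases h' : n ≤ j.val + m
      · exact Or.inr (Or.inr ⟨mem_univ _, h'⟩)
      · exact Or.inl ⟨mem_univ _, by omega, by omega⟩
  have h2 : (univ.filter fun j : Fin n => j.val < m).card ≤ m := by
    have := card_le_card_of_injOn (s := univ.filter fun j : Fin n => j.val < m) (t := range m)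
      (fun j => j.val) (fun j hj => by
        rw [mem_coe, mem_filter] at hj
        exact mem_coe.2 (mem_range.2 hj.2)) (fun j _ j' _ h => Fin.ext h)
    rwa [card_range] at this
  have h3 : (univ.filter fun j : Fin n => n ≤ j.val + m).card ≤ m := by
    have := card_le_card_of_injOn (s := univ.filter fun j : Fin n => n ≤ j.val + m) (t := range m)
      (fun j => j.val + m - n) (fun j hj => by
        rw [mem_coe, mem_filter] at hj
        have h5 := j.isLt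
        refine mem_coe.2 (mem_range.2 ?_)
        change j.val + m - n < m
        omega) (fun j hj j' hj' h => by
        rw [mem_coe, mem_filter] at hj hj'
        have h5 := hj.2
        have h6 := hj'.2
        apply Fin.ext
        change j.val + m - n = j'.val + m - n at h
        omega)
    rwa [card_range] at this
  have h4 := (card_le_card h1).trans (card_union_le _ _)
  have h5 := card_union_le (univ.filter fun j : Fin n => j.val < m)
    (univ.filter fun j : Fin n => n ≤ j.val + m)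
  rw [card_univ, Fintype.card_fin] at h4
  omega

private theorem R1Num_exp : (4 / 3 : ℝ) ≤ Real.exp (29 / 100) := by
  have h1 : Real.exp (29 / 100) = Real.exp (145 / 1000) ^ 2 := by
    rw [← Real.exp_nat_mul]
    norm_num
  have h2 := Real.quadratic_le_exp_of_nonneg (x := 145 / 1000) (by norm_num)
  rw [h1]
  calc (4 / 3 : ℝ) ≤ (1 + 145 / 1000 + (145 / 1000) ^ 2 / 2) ^ 2 := by norm_num
    _ ≤ _ := by
      apply pow_le_pow_left₀ _ h2
      norm_num

/-- the real inequality -/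
private theorem R1Num_real {N S B c M : ℝ} (hN : 0 < N) (hS : 0 ≤ S) (hB : 1 ≤ B) (hc0 : 0 ≤ c)
    (hc : 200 * c ≤ N + 200 * S) (hM1 : M ≤ N) (hM2 : 99 / 100 * N ≤ M)
    (h1 : 4000 * S ≤ N) (h2 : (S + B) ^ 2 ≤ N) :
    29 / 100 * c + M * ((N + S - c) / N + 3 / 2 * ((S + B) / (2 * N)) + 9 / 16 * (c / N) +
      2 * (c / N + (S + B) / (2 * N)) ^ 2 - 1) ≤ -c / 10 + 2 * S + 1 + 3 / 4 * B := by
  have hM0 : 0 ≤ M := by nlinarith
  set t := M / N with ht
  have ht1 : t ≤ 1 := (div_le_one hN).2 hM1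
  have ht2 : 99 / 100 ≤ t := by rw [ht, le_div_iff₀ hN]; linarith
  have hMt : M = t * N := by rw [ht]; field_simp
  have e1 : M * ((N + S - c) / N + 3 / 2 * ((S + B) / (2 * N)) + 9 / 16 * (c / N) +
      2 * (c / N + (S + B) / (2 * N)) ^ 2 - 1) =
      t * (S + 3 / 4 * (S + B)) - t * (7 / 16 * c) +
        t * (2 * (c + (S + B) / 2) ^ 2 / N) := by
    rw [hMt]
    field_simp
    ring
  rw [e1]
  have h3 : (2 * (c + (S + B) / 2) ^ 2 / N) ≤ 21 / 1000 * c + 1 := by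
    rw [div_le_iff₀ hN]
    have h4 : 2 * (c + (S + B) / 2) ^ 2 ≤ 4 * c ^ 2 + (S + B) ^ 2 := by
      nlinarith [sq_nonneg (c - (S + B) / 2)]
    have h5 : 4 * c ^ 2 ≤ 21 / 1000 * c * N := by
      have h6 : 4 * c ≤ 21 / 1000 * N := by linarith
      nlinarith
    nlinarith
  have h3' : 0 ≤ (2 * (c + (S + B) / 2) ^ 2 / N) := by positivity
  have h4 : t * (2 * (c + (S + B) / 2) ^ 2 / N) ≤ 21 / 1000 * c + 1 := by nlinarith
  have h5 : t * (S + 3 / 4 * (S + B)) ≤ S + 3 / 4 * (S + B) := by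
    have : 0 ≤ S + 3 / 4 * (S + B) := by positivity
    nlinarith
  have h6 : 99 / 100 * (7 / 16 * c) ≤ t * (7 / 16 * c) := by
    have : 0 ≤ 7 / 16 * c := by positivity
    nlinarith
  linarith

/-- NUMBERS. With `N = n + 1`, `α = c/N`, `β = (N1 + B)/(2N)`, `γ = (N + N1 - c)/N`, `λ - 1 = (-(7/16) c + N1 + (3/4)(N1 + B))/N + 2 (α + β)^2`. `λ^M ≤ exp (M (λ - 1))`, `M = |Mid| ≤ N`,
`M ≥ N - 1 - 2m`; `2 N (α+β)^2 ≤ 4 c^2/N + (N1+B)^2/N`; `c/N ≤ 1/200 + N1/N`; `log (4/3) < 0.29`. For large `n`: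
`0.29 - (7/16) * 0.99 + 0.021 < -0.1`. -/
theorem r1_numbers (N1 m : ℕ) (B : ℝ) (hB : 1 ≤ B) : ∃ n₀ : ℕ, ∀ n ≥ n₀, ∀ c : ℕ,
    200 * c ≤ n + 1 + 200 * N1 →
    (4 / 3 : ℝ) ^ c * (((n : ℝ) + 1 + N1 - c) / ((n : ℝ) + 1) +
      3 / 2 * ((N1 + B) / (2 * ((n : ℝ) + 1))) + 9 / 16 * (c / ((n : ℝ) + 1)) +
      2 * (c / ((n : ℝ) + 1) + (N1 + B) / (2 * ((n : ℝ) + 1))) ^ 2) ^ (Mid n m).card ≤
      Real.exp (-(c : ℝ) / 10 + 2 * N1 + 1 + 3 / 4 * B) := by
  obtain ⟨n1, hn1⟩ := exists_nat_ge (((N1 : ℝ) + B) ^ 2)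
  refine ⟨n1 + 4000 * N1 + 100 * (1 + 2 * m), fun n hn c hc => ?_⟩
  have hn' : (n1 : ℝ) + 4000 * N1 + 100 * (1 + 2 * m) ≤ n := by exact_mod_cast hn
  have hc' : 200 * (c : ℝ) ≤ (n : ℝ) + 1 + 200 * N1 := by exact_mod_cast hc
  have hN : (0 : ℝ) < (n : ℝ) + 1 := by positivity
  have hm0 : (0 : ℝ) ≤ m := Nat.cast_nonneg m
  have hN10 : (0 : ℝ) ≤ N1 := Nat.cast_nonneg N1
  have hn10 : (0 : ℝ) ≤ n1 := Nat.cast_nonneg n1
  have hc0 : (0 : ℝ) ≤ c := Nat.cast_nonneg c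
  have hM1 : ((Mid n m).card : ℝ) ≤ n + 1 := by
    have : ((Mid n m).card : ℝ) ≤ n := by exact_mod_cast R1Num_card_le n m
    linarith
  have hM2 : 99 / 100 * ((n : ℝ) + 1) ≤ (Mid n m).card := by
    have : (n : ℝ) ≤ (Mid n m).card + 2 * m := by exact_mod_cast R1Num_le_card n m
    linarith
  have h1 := R1Num_real (N := (n : ℝ) + 1) (S := (N1 : ℝ)) (B := B) (c := (c : ℝ))
    (M := ((Mid n m).card : ℝ)) hN hN10 hB hc0 hc' hM1 hM2 (by linarith) (by linarith)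
  set lam : ℝ := ((n : ℝ) + 1 + N1 - c) / ((n : ℝ) + 1) +
      3 / 2 * ((N1 + B) / (2 * ((n : ℝ) + 1))) + 9 / 16 * (c / ((n : ℝ) + 1)) +
      2 * (c / ((n : ℝ) + 1) + (N1 + B) / (2 * ((n : ℝ) + 1))) ^ 2 with hlam
  have hlam0 : 0 ≤ lam := by
    have h3 : 0 ≤ ((n : ℝ) + 1 + N1 - c) / ((n : ℝ) + 1) := by
      apply div_nonneg _ hN.le
      linarith
    have h4 : 0 ≤ (N1 + B) / (2 * ((n : ℝ) + 1)) := by positivity
    have h5 : 0 ≤ (c : ℝ) / ((n : ℝ) + 1) := by positivity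
    rw [hlam]
    positivity
  have h3 : lam ≤ Real.exp (lam - 1) := by
    have := Real.add_one_le_exp (lam - 1)
    linarith
  have h4 : lam ^ (Mid n m).card ≤ Real.exp ((Mid n m).card * (lam - 1)) := by
    rw [Real.exp_nat_mul]
    exact pow_le_pow_left₀ hlam0 h3 _
  have h5 : (4 / 3 : ℝ) ^ c ≤ Real.exp (29 / 100 * c) := by
    rw [mul_comm, Real.exp_nat_mul]
    exact pow_le_pow_left₀ (by norm_num) R1Num_exp _
  calc (4 / 3 : ℝ) ^ c * lam ^ (Mid n m).card ≤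
      Real.exp (29 / 100 * c) * Real.exp ((Mid n m).card * (lam - 1)) := by
        gcongr
    _ = Real.exp (29 / 100 * c + (Mid n m).card * (lam - 1)) := (Real.exp_add _ _).symm
    _ ≤ _ := Real.exp_le_exp.2 h1

private theorem R1Num_wt {α β γ : ℝ} (hα : 0 ≤ α) (hβ : 0 ≤ β) (hγ : 0 ≤ γ) (x : Bool × Bool) :
    0 ≤ wt α β γ x := by
  obtain ⟨a, b⟩ := x
  cases a <;> cases b
  · exact hγ
  · exact hβ
  · exact hβ
  · exact hα

private theorem R1Num_summable (N1 : ℕ) :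
    Summable fun c : ℕ => ((c : ℝ) + 1) ^ N1 * (2 * (c : ℝ) + 1) ^ N1 * Real.exp (-(c : ℝ) / 10) := by
  have hr : ‖Real.exp (-1 / 10)‖ < 1 := by
    rw [Real.norm_eq_abs, abs_of_pos (Real.exp_pos _), Real.exp_lt_one_iff]
    norm_num
  have h1 := summable_pow_mul_geometric_of_norm_lt_one (2 * N1) hr
  have h2 := (h1.mul_left ((6 : ℝ) ^ N1)).add (summable_of_finite_support (f := fun c : ℕ =>
    if c = 0 then (1 : ℝ) else 0) (Set.Finite.subset (Set.finite_singleton 0) (by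
      intro c hc
      by_contra h
      apply hc
      exact if_neg h)))
  refine Summable.of_nonneg_of_le (fun c => by positivity) (fun c => ?_) h2
  have e1 : Real.exp (-(c : ℝ) / 10) = Real.exp (-1 / 10) ^ c := by
    rw [← Real.exp_nat_mul]
    congr 1
    ring
  rw [e1]
  rcases Nat.eq_zero_or_pos c with rfl | hc
  · simp
  · have hc1 : (1 : ℝ) ≤ c := by exact_mod_cast hc
    rw [if_neg hc.ne', add_zero]
    have h3 : ((c : ℝ) + 1) ^ N1 * (2 * (c : ℝ) + 1) ^ N1 ≤ 6 ^ N1 * (c : ℝ) ^ (2 * N1) := by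
      rw [← mul_pow, pow_mul, ← mul_pow]
      apply pow_le_pow_left₀ (by positivity)
      nlinarith
    calc _ ≤ 6 ^ N1 * (c : ℝ) ^ (2 * N1) * Real.exp (-1 / 10) ^ c := by gcongr
      _ = _ := by ring

/-- REGIME 1. Proof. `B = 4K/3`. `r1_sum`, and for each `c`: `∑_{|scov σ| = c} ∏ wt ≤ (4/3)^c λ^|Mid|` (`transfer1`; its hypotheses hold for large `n`), `r1_numbers`. So
`Pb R1 ≤ B^(-K) e^K e^(2 N1 + 1) ∑_c (c+1)^N1 (2c+1)^N1 exp(-c/10)`, and `B^(-K) e^K = (3/4)^K (e/K)^K`. The sum over `c` is bounded by a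
constant depending on `N1` (`summable_pow_mul_geometric...`). -/
theorem regime1 (N1 : ℕ) : ∃ Cst : ℝ, 0 < Cst ∧ ∀ K m : ℕ, 1 ≤ K → ∃ n₀ : ℕ, ∀ n ≥ n₀,
    ∀ (r : Fin (n + 1)) (s : Bool), (∀ h : Half n, h.1 ∈ Mid n m → bs h ≠ r) →
      Pb n (R1 m N1 K r s) ≤ Cst * (3 / 4) ^ K * (Real.exp 1 / K) ^ K := by
  set f : ℕ → ℝ := fun c => ((c : ℝ) + 1) ^ N1 * (2 * (c : ℝ) + 1) ^ N1 *
    Real.exp (-(c : ℝ) / 10) with hf
  have hfs : Summable f := R1Num_summable N1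
  have hf0 : ∀ c, 0 ≤ f c := fun c => by rw [hf]; positivity
  refine ⟨Real.exp (2 * N1 + 1) * (∑' c, f c + 1), by
    have h0 : 0 ≤ ∑' c, f c := tsum_nonneg hf0
    positivity, fun K m hK => ?_⟩
  have hK0 : (0 : ℝ) < K := by exact_mod_cast hK
  have hK1 : (1 : ℝ) ≤ K := by exact_mod_cast hK
  set B : ℝ := 4 * K / 3 with hBdef
  have hB : 1 ≤ B := by rw [hBdef]; linarith
  obtain ⟨n0, hn0⟩ := r1_numbers N1 m B hB
  obtain ⟨n1, hn1⟩ := exists_nat_ge (20 * (2 * (N1 : ℝ) + B))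
  refine ⟨n0 + n1, fun n hn r s hr => ?_⟩
  have hN : (0 : ℝ) < (n : ℝ) + 1 := by positivity
  have hnn1 : 20 * (2 * (N1 : ℝ) + B) ≤ n := by
    have : (n1 : ℝ) ≤ n := by exact_mod_cast (by omega : n1 ≤ n)
    linarith
  have hN10 : (0 : ℝ) ≤ N1 := Nat.cast_nonneg N1
  have h1 := r1_sum (s := s) (N1 := N1) (K := K) hr B hB
  have hterm : ∀ c ∈ (range (n + 2)).filter (fun c => 200 * c ≤ n + 1 + 200 * N1),
      ((c : ℝ) + 1) ^ N1 * (2 * (c : ℝ) + 1) ^ N1 *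
        ∑ σ ∈ (univ : Finset (Fin n → Bool × Bool)).filter
            (fun σ => OffMid m σ ∧ (scov σ).card = c),
          ∏ j ∈ Mid n m, wt (c / ((n : ℝ) + 1)) ((N1 + B) / (2 * ((n : ℝ) + 1)))
            (((n : ℝ) + 1 + N1 - c) / ((n : ℝ) + 1)) (σ j) ≤
        Real.exp (2 * N1 + 1) * Real.exp K * f c := by
    intro c hc
    have hc2 := (mem_filter.1 hc).2
    have hc' : 200 * (c : ℝ) ≤ (n : ℝ) + 1 + 200 * N1 := by exact_mod_cast hc2
    have hα : 0 ≤ (c : ℝ) / ((n : ℝ) + 1) := by positivity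
    have hβ : 0 ≤ ((N1 : ℝ) + B) / (2 * ((n : ℝ) + 1)) := by positivity
    have hγ : 3 / 4 ≤ ((n : ℝ) + 1 + N1 - c) / ((n : ℝ) + 1) := by
      rw [le_div_iff₀ hN]
      linarith
    have hαβ : (c : ℝ) / ((n : ℝ) + 1) + ((N1 : ℝ) + B) / (2 * ((n : ℝ) + 1)) ≤ 1 / 10 := by
      have e1 : (c : ℝ) / ((n : ℝ) + 1) + ((N1 : ℝ) + B) / (2 * ((n : ℝ) + 1)) =
          (c + (N1 + B) / 2) / ((n : ℝ) + 1) := by
        field_simp
      rw [e1, div_le_iff₀ hN]
      linarith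
    have h2 := transfer1 (n := n) m _ _ _ hα hβ hγ hαβ
    have h3 := hn0 n (by omega) c hc2
    have h4 : (3 / 4 : ℝ) ^ c * ∑ σ ∈ (univ : Finset (Fin n → Bool × Bool)).filter
            (fun σ => OffMid m σ ∧ (scov σ).card = c),
          ∏ j ∈ Mid n m, wt (c / ((n : ℝ) + 1)) ((N1 + B) / (2 * ((n : ℝ) + 1)))
            (((n : ℝ) + 1 + N1 - c) / ((n : ℝ) + 1)) (σ j) ≤
        ∑ σ ∈ (univ : Finset (Fin n → Bool × Bool)).filter (fun σ => OffMid m σ),
      (∏ j ∈ Mid n m, wt (c / ((n : ℝ) + 1)) ((N1 + B) / (2 * ((n : ℝ) + 1)))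
            (((n : ℝ) + 1 + N1 - c) / ((n : ℝ) + 1)) (σ j)) * (3 / 4 : ℝ) ^ (scov σ).card := by
      rw [mul_sum]
      have hsub : (univ : Finset (Fin n → Bool × Bool)).filter
            (fun σ => OffMid m σ ∧ (scov σ).card = c) ⊆
          (univ : Finset (Fin n → Bool × Bool)).filter (fun σ => OffMid m σ) := by
        intro σ hσ
        rw [mem_filter] at hσ ⊢
        exact ⟨hσ.1, hσ.2.1⟩
      refine le_trans (sum_le_sum fun σ hσ => ?_) (sum_le_sum_of_subset_of_nonneg hsub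
        fun σ _ _ => ?_)
      · rw [mem_filter] at hσ
        rw [hσ.2.2, mul_comm]
      · refine mul_nonneg (prod_nonneg fun j _ => ?_) (by positivity)
        exact R1Num_wt hα hβ (by linarith) _
    have h5 := h4.trans h2
    set Sg : ℝ := ∑ σ ∈ (univ : Finset (Fin n → Bool × Bool)).filter
            (fun σ => OffMid m σ ∧ (scov σ).card = c),
          ∏ j ∈ Mid n m, wt (c / ((n : ℝ) + 1)) ((N1 + B) / (2 * ((n : ℝ) + 1)))
            (((n : ℝ) + 1 + N1 - c) / ((n : ℝ) + 1)) (σ j) with hSg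
    have h6 : Sg = (4 / 3 : ℝ) ^ c * ((3 / 4 : ℝ) ^ c * Sg) := by
      rw [← mul_assoc, ← mul_pow]
      norm_num
    have h7 : Sg ≤ Real.exp (-(c : ℝ) / 10 + 2 * N1 + 1 + 3 / 4 * B) := by
      rw [h6]
      refine le_trans (mul_le_mul_of_nonneg_left h5 (by positivity)) h3
    have e2 : Real.exp (-(c : ℝ) / 10 + 2 * N1 + 1 + 3 / 4 * B) =
        Real.exp (2 * N1 + 1) * Real.exp K * Real.exp (-(c : ℝ) / 10) := by
      rw [← Real.exp_add, ← Real.exp_add, hBdef]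
      congr 1
      ring
    rw [e2] at h7
    calc ((c : ℝ) + 1) ^ N1 * (2 * (c : ℝ) + 1) ^ N1 * Sg ≤
        ((c : ℝ) + 1) ^ N1 * (2 * (c : ℝ) + 1) ^ N1 *
          (Real.exp (2 * N1 + 1) * Real.exp K * Real.exp (-(c : ℝ) / 10)) := by gcongr
      _ = _ := by rw [hf]; ring
  have h2 := h1.trans (sum_le_sum hterm)
  rw [← mul_sum] at h2
  have h3 : ∑ c ∈ (range (n + 2)).filter (fun c => 200 * c ≤ n + 1 + 200 * N1), f c ≤ ∑' c, f c :=
    hfs.sum_le_tsum _ fun c _ => hf0 c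
  have hB0 : 0 < B ^ K := by positivity
  have h4 : B ^ K * Pb n (R1 m N1 K r s) ≤
      Real.exp (2 * N1 + 1) * Real.exp K * (∑' c, f c + 1) := by
    refine h2.trans ?_
    have : 0 ≤ Real.exp (2 * N1 + 1) * Real.exp K := by positivity
    nlinarith
  have h5 : Pb n (R1 m N1 K r s) ≤ Real.exp (2 * N1 + 1) * Real.exp K * (∑' c, f c + 1) / B ^ K := by
    rw [le_div_iff₀ hB0, mul_comm]
    exact h4
  refine h5.trans (le_of_eq ?_)
  have e3 : Real.exp K = Real.exp 1 ^ K := by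
    rw [← Real.exp_nat_mul, mul_one]
  rw [e3, hBdef, div_pow, div_pow, div_pow, mul_pow]
  field_simp

end Pool.Agent.LOI
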