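import Pool.Agent.Lib.LOI.Half
import Pool.Agent.Lib.LOI.Chain

set_option autoImplicit false

namespace Pool.Agent.LOI

open Finset
open scoped Classical

variable {n : ℕ}

/-- the weights without the first vertex -/
private noncomputable def Tr2_b (n m : ℕ) (θ : ℝ) (i : ℕ) (b : Bool) : ℝ :=
  if m ≤ i ∧ i + m < n then (if b = true then θ else 1 - θ) else (if b = true then 0 else 1)

/-- the factor of the first vertex -/
private noncomputable def Tr2_c (s : ℝ) (i : ℕ) (b : Bool) : ℝ :=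
  if i = 0 ∧ b = true then 1 - s else 1

private noncomputable def Tr2_g (s : ℝ) (a b : Bool) : ℝ :=
  if a = true ∨ b = true then 1 - s else 1

private noncomputable def Tr2_f (s : ℝ) (a : Bool) : ℝ :=
  if a = true then 1 - s else 1

private theorem Tr2_base (m : ℕ) (θ : ℝ) (R : Finset (Fin n)) (hR : R ⊆ Mid n m) :
    ∏ i : Fin n, Tr2_b n m θ i.val (decide (i ∈ R)) =
      θ ^ R.card * (1 - θ) ^ ((Mid n m).card - R.card) := by
  have h1 : ∏ i : Fin n, Tr2_b n m θ i.val (decide (i ∈ R)) =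
      ∏ i ∈ Mid n m, if i ∈ R then θ else 1 - θ := by
    rw [Mid, prod_filter]
    refine prod_congr rfl fun i _ => ?_
    unfold Tr2_b
    by_cases h : m ≤ i.val ∧ i.val + m < n
    · rw [if_pos h, if_pos h]
      simp
    · rw [if_neg h, if_neg h, if_neg]
      intro h2
      exact h (mem_filter.1 (hR (of_decide_eq_true h2))).2
  rw [h1, prod_ite, prod_const, prod_const]
  have h2 : (Mid n m).filter (fun i => i ∈ R) = R := by
    ext i
    rw [mem_filter]
    exact ⟨fun h => h.2, fun h => ⟨hR h, h⟩⟩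
  have h3 : (Mid n m).filter (fun i => i ∉ R) = Mid n m \ R := by
    ext i
    rw [mem_filter, mem_sdiff]
  rw [h2, h3, card_sdiff_of_subset hR]

private theorem Tr2_cov {k : ℕ} (s : ℝ) (R : Finset (Fin (k + 1))) :
    (1 - s) ^ (covE R).card = (∏ i : Fin (k + 1), Tr2_c s i.val (decide (i ∈ R))) *
      (∏ i : Fin k, Tr2_g s (decide (i.castSucc ∈ R)) (decide (i.succ ∈ R))) *
      Tr2_f s (decide (Fin.last k ∈ R)) := by
  have hm : ∀ x : Fin (k + 2), x ∈ covE R ↔ (∃ j ∈ R, j.castSucc = x) ∨ ∃ j ∈ R, j.succ = x := by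
    intro x
    unfold covE
    rw [mem_union, mem_image, mem_image]
  have h0 : (0 : Fin (k + 2)) ∈ covE R ↔ (0 : Fin (k + 1)) ∈ R := by
    rw [hm]
    constructor
    · rintro (⟨j, h1, h2⟩ | ⟨j, h1, h2⟩)
      · have : j = 0 := by
          ext
          have := congrArg Fin.val h2
          simpa using this
        rw [← this]
        exact h1
      · exact absurd h2 (Fin.succ_ne_zero j)
    · intro h
      exact Or.inl ⟨0, h, rfl⟩
  have hi : ∀ i : Fin k, i.castSucc.succ ∈ covE R ↔ i.castSucc ∈ R ∨ i.succ ∈ R := by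
    intro i
    rw [hm]
    constructor
    · rintro (⟨j, h1, h2⟩ | ⟨j, h1, h2⟩)
      · right
        have : j = i.succ := by
          ext
          have := congrArg Fin.val h2
          simpa using this
        rw [← this]
        exact h1
      · left
        have : j = i.castSucc := by
          ext
          have := congrArg Fin.val h2
          simpa using this
        rw [← this]
        exact h1
    · rintro (h | h)
      · exact Or.inr ⟨_, h, rfl⟩
      · exact Or.inl ⟨_, h, by ext; simp⟩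
  have hl : (Fin.last k).succ ∈ covE R ↔ Fin.last k ∈ R := by
    rw [hm]
    constructor
    · rintro (⟨j, h1, h2⟩ | ⟨j, h1, h2⟩)
      · exfalso
        have := congrArg Fin.val h2
        simp at this
        omega
      · have : j = Fin.last k := by
          ext
          have := congrArg Fin.val h2
          simpa using this
        rw [← this]
        exact h1
    · intro h
      exact Or.inr ⟨_, h, rfl⟩
  have h1 : (1 - s) ^ (covE R).card = ∏ x : Fin (k + 2), if x ∈ covE R then 1 - s else 1 := by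
    rw [prod_ite, prod_const, prod_const_one, mul_one]
    congr 2
    ext x
    simp
  have h2 : ∏ i : Fin (k + 1), Tr2_c s i.val (decide (i ∈ R)) =
      if (0 : Fin (k + 2)) ∈ covE R then 1 - s else 1 := by
    rw [Fin.prod_univ_succ, prod_eq_one, mul_one]
    · unfold Tr2_c
      by_cases h : (0 : Fin (k + 1)) ∈ R
      · rw [if_pos (h0.2 h), if_pos ⟨rfl, decide_eq_true h⟩]
      · rw [if_neg (fun h' => h (h0.1 h')), if_neg]
        rintro ⟨_, h'⟩
        exact h (of_decide_eq_true h')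
    · intro i _
      unfold Tr2_c
      rw [if_neg]
      rintro ⟨h', _⟩
      simp at h'
  rw [h1, h2, Fin.prod_univ_succ, Fin.prod_univ_castSucc, mul_assoc]
  congr 2
  · refine prod_congr rfl fun i _ => ?_
    unfold Tr2_g
    refine if_congr ?_ rfl rfl
    rw [hi, decide_eq_true_iff, decide_eq_true_iff]
  · unfold Tr2_f
    refine if_congr ?_ rfl rfl
    rw [hl, decide_eq_true_iff]

/-- TRANSFER 2. Proof. `n = 0` trivial, `n = k + 1`. `chain_bound` with `S = Bool` (`i ∈ R`), `z = 1 - s`, `g a b = z` if `a || b` else `1`, `w i true = θ`, `w i false = 1 - θ` for mid `i`,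
`w i true = 0`, `w i false = 1` otherwise (`w 0` multiplied by `z` on `true`), `f true = z`, `f false = 1`. Potential `φ false = 1`, `φ true = φ1 = 1 - s (1 - θ)` (`≥ z`); `l i = λ` for mid
`i + 1`, `1` otherwise, `λ = 1 - s (2θ - θ²) + 2 s²`. From `false`: `(1 - θ) + θ z φ1 = 1 - s (2θ - θ²) + s² θ (1 - θ) ≤ λ`. From `true`:
`z ((1 - θ) + θ φ1) = 1 - s - s θ (1 - θ) + s² θ (1 - θ) ≤ λ φ1`. -/
theorem transfer2 (m : ℕ) (θ s : ℝ) (h0 : 0 ≤ θ) (h1 : θ ≤ 1) (hs : 0 ≤ s) (hs' : s ≤ 1 / 2) :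
    ∑ R ∈ (Mid n m).powerset, θ ^ R.card * (1 - θ) ^ ((Mid n m).card - R.card) *
      (1 - s) ^ (covE R).card ≤ (1 - s * (2 * θ - θ ^ 2) + 2 * s ^ 2) ^ (Mid n m).card := by
  rcases n with _ | k
  · have hM : Mid 0 m = ∅ := by
      ext j
      exact j.elim0
    rw [hM]
    simp [covE]
  set L : ℝ := 1 - s * (2 * θ - θ ^ 2) + 2 * s ^ 2 with hL
  have hθθ : 0 ≤ θ * (1 - θ) := mul_nonneg h0 (by linarith)
  have hL1 : (1 - θ) + θ * (1 - s) * (1 - s * (1 - θ)) ≤ L := by
    rw [hL]
    nlinarith [mul_nonneg (mul_nonneg hs hs) hθθ, mul_nonneg (mul_nonneg hs hs) h0,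
      mul_nonneg (mul_nonneg hs hs) (sub_nonneg.2 h1),
      mul_nonneg (mul_nonneg hs hs) (mul_nonneg (sub_nonneg.2 h1) (sub_nonneg.2 h1))]
  have hL2 : (1 - s) * ((1 - θ) + θ * (1 - s * (1 - θ))) ≤ L * (1 - s * (1 - θ)) := by
    have e : L * (1 - s * (1 - θ)) - (1 - s) * ((1 - θ) + θ * (1 - s * (1 - θ))) =
        s ^ 2 * ((1 - θ) * (θ * (1 - θ))) + 2 * s ^ 2 * (1 - s) + 2 * s ^ 3 * θ := by
      rw [hL]
      ring
    have h3 : 0 ≤ s ^ 2 * ((1 - θ) * (θ * (1 - θ))) :=
      mul_nonneg (sq_nonneg s) (mul_nonneg (sub_nonneg.2 h1) hθθ)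
    have h4 : 0 ≤ 2 * s ^ 2 * (1 - s) := mul_nonneg (by positivity) (by linarith)
    have h5 : 0 ≤ 2 * s ^ 3 * θ := mul_nonneg (by positivity) h0
    linarith
  have hφ1 : 1 - s ≤ 1 - s * (1 - θ) := by nlinarith [mul_nonneg hs h0]
  have hL0 : 0 ≤ L := by
    rw [hL]
    nlinarith [mul_nonneg hs hθθ, mul_nonneg hs (mul_nonneg (sub_nonneg.2 h1) (sub_nonneg.2 h1)),
      sq_nonneg s]
  have hz : 0 ≤ 1 - s := by linarith
  set w : ℕ → Bool → ℝ := fun i b => Tr2_c s i b * Tr2_b (k + 1) m θ i b with hw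
  set φ : Bool → ℝ := fun b => if b = true then 1 - s * (1 - θ) else 1 with hφ
  set l : ℕ → ℝ := fun i => if m ≤ i + 1 ∧ i + 1 + m < k + 1 then L else 1 with hl
  have hw0 : ∀ i b, 0 ≤ w i b := by
    intro i b
    rw [hw]
    refine mul_nonneg ?_ ?_
    · unfold Tr2_c
      split_ifs
      · exact hz
      · exact zero_le_one
    · unfold Tr2_b
      split_ifs
      · exact h0
      · linarith
      · exact le_rfl
      · exact zero_le_one
  have hg0 : ∀ a b, 0 ≤ Tr2_g s a b := by
    intro a b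
    unfold Tr2_g
    split_ifs
    · exact hz
    · exact zero_le_one
  have hf0 : ∀ a, 0 ≤ Tr2_f s a := by
    intro a
    unfold Tr2_f
    split_ifs
    · exact hz
    · exact zero_le_one
  have hl0 : ∀ i, 0 ≤ l i := by
    intro i
    rw [hl]
    simp only
    split_ifs
    · exact hL0
    · exact zero_le_one
  have hfφ : ∀ a, Tr2_f s a ≤ φ a := by
    intro a
    rw [hφ]
    unfold Tr2_f
    cases a
    · simp
    · simpa using hφ1
  have hstep : ∀ i a, ∑ b, Tr2_g s a b * w (i + 1) b * φ b ≤ l i * φ a := by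
    intro i a
    rw [Fintype.sum_bool, hw, hφ, hl]
    simp only
    by_cases hmid : m ≤ i + 1 ∧ i + 1 + m < k + 1
    · rw [if_pos hmid]
      unfold Tr2_g Tr2_c Tr2_b
      rw [if_pos hmid, if_pos hmid]
      cases a
      · simp
        nlinarith [hL1]
      · simp
        nlinarith [hL2]
    · rw [if_neg hmid]
      unfold Tr2_g Tr2_c Tr2_b
      rw [if_neg hmid, if_neg hmid]
      cases a
      · simp
      · simp
        linarith
  have hfirst : ∑ b, w 0 b * φ b ≤ if m ≤ 0 ∧ 0 + m < k + 1 then L else 1 := by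
    rw [Fintype.sum_bool, hw, hφ]
    simp only
    by_cases hmid : m ≤ 0 ∧ 0 + m < k + 1
    · rw [if_pos hmid]
      unfold Tr2_c Tr2_b
      rw [if_pos hmid, if_pos hmid]
      simp
      nlinarith [hL1]
    · rw [if_neg hmid]
      unfold Tr2_c Tr2_b
      rw [if_neg hmid, if_neg hmid]
      simp
  have hprod : (if m ≤ 0 ∧ 0 + m < k + 1 then L else 1) * ∏ i ∈ range k, l i =
      L ^ (Mid (k + 1) m).card := by
    have e1 : L ^ (Mid (k + 1) m).card =
        ∏ i : Fin (k + 1), if m ≤ i.val ∧ i.val + m < k + 1 then L else 1 := by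
      rw [prod_ite, prod_const, prod_const_one, mul_one]
      rfl
    rw [e1, Fin.prod_univ_eq_prod_range (fun i => if m ≤ i ∧ i + m < k + 1 then L else 1) (k + 1),
      prod_range_succ', mul_comm]
  have hmain := chain_bound w (Tr2_g s) (Tr2_f s) φ l hw0 hg0 hl0 hfφ hstep k
  have hle : (∑ b, w 0 b * φ b) * ∏ i ∈ range k, l i ≤ L ^ (Mid (k + 1) m).card := by
    rw [← hprod]
    exact mul_le_mul_of_nonneg_right hfirst (prod_nonneg fun i _ => hl0 i)
  refine le_trans ?_ (hmain.trans hle)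
  set G : (Fin (k + 1) → Bool) → ℝ := fun σ => ((∏ i, w i.val (σ i)) *
    (∏ i : Fin k, Tr2_g s (σ i.castSucc) (σ i.succ))) * Tr2_f s (σ (Fin.last k)) with hG
  have hG0 : ∀ σ, 0 ≤ G σ := by
    intro σ
    rw [hG]
    exact mul_nonneg (mul_nonneg (prod_nonneg fun i _ => hw0 _ _)
      (prod_nonneg fun i _ => hg0 _ _)) (hf0 _)
  have hR : ∀ R ∈ (Mid (k + 1) m).powerset, θ ^ R.card *
      (1 - θ) ^ ((Mid (k + 1) m).card - R.card) * (1 - s) ^ (covE R).card =
      G fun i => decide (i ∈ R) := by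
    intro R hR
    rw [hG, ← Tr2_base m θ R (mem_powerset.1 hR), Tr2_cov s R]
    simp only [hw]
    rw [prod_mul_distrib]
    ring
  rw [sum_congr rfl hR]
  have hinj : Set.InjOn (fun (R : Finset (Fin (k + 1))) (i : Fin (k + 1)) => decide (i ∈ R))
      ((Mid (k + 1) m).powerset : Set (Finset (Fin (k + 1)))) := by
    intro R _ R' _ e
    ext i
    have := congrFun e i
    simpa using this
  calc ∑ R ∈ (Mid (k + 1) m).powerset, G (fun i => decide (i ∈ R))
      = ∑ σ ∈ (Mid (k + 1) m).powerset.image (fun R i => decide (i ∈ R)), G σ :=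
        (sum_image hinj).symm
    _ ≤ ∑ σ, G σ := sum_le_sum_of_subset_of_nonneg (subset_univ _) fun σ _ _ => hG0 σ

end Pool.Agent.LOI
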