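import Pool.Agent.Lib.LOI.R2Fix
import Pool.Agent.Lib.LOI.Tr2

set_option autoImplicit false

namespace Pool.Agent.LOI

open Finset
open scoped Classical

/-- Proof. `∑_D x^|D| = (1 + x)^(n+1)` and `x^|D| ≥ x^t`. -/
theorem card_small (n t : ℕ) (x : ℝ) (hx : 0 < x) (hx1 : x ≤ 1) :
    (((univ : Finset (Finset (Fin (n + 1)))).filter fun D => D.card ≤ t).card : ℝ) ≤
      (1 + x) ^ (n + 1) / x ^ t := by
  have h1 : (∑ D : Finset (Fin (n + 1)), x ^ D.card) = (1 + x) ^ (n + 1) := by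
    have h := Fintype.sum_pow_mul_eq_add_pow (Fin (n + 1)) x 1
    simp only [one_pow, mul_one, Fintype.card_fin] at h
    rw [h, add_comm]
  have h2 : (((univ : Finset (Finset (Fin (n + 1)))).filter fun D => D.card ≤ t).card : ℝ) * x ^ t ≤
      (1 + x) ^ (n + 1) := by
    rw [← h1, ← nsmul_eq_mul, ← sum_const]
    refine (sum_le_sum (f := fun _ => x ^ t) (g := fun D => x ^ D.card) ?_).trans ?_
    · intro D hD
      exact pow_le_pow_of_le_one hx.le hx1 (mem_filter.1 hD).2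
    · exact sum_le_sum_of_subset_of_nonneg (filter_subset _ _) fun D _ _ => by positivity
  rw [le_div_iff₀ (by positivity)]
  exact h2

/-- One `k`. Proof. In `r2_sum` with `1 ≤ (1-s)^(|covE R|) / (1-s)^(k+t)` and `transfer2`, `card_small`. -/
theorem r2_one (n m k t : ℕ) (hk : k ≤ n + 1) (s x : ℝ) (hs : 0 ≤ s) (hs' : s ≤ 1 / 2)
    (hx : 0 < x) (hx1 : x ≤ 1) :
    Pb n (fun ω => ∃ P : Finset (Fin (n + 1)), P.card = k ∧
      (symmDiff P (covE (Rset m ω P))).card ≤ t) ≤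
      (1 + x) ^ (n + 1) / x ^ t * ((1 - s * (2 * (k / ((n : ℝ) + 1)) - (k / ((n : ℝ) + 1)) ^ 2) +
        2 * s ^ 2) ^ (Mid n m).card / (1 - s) ^ (k + t)) := by
  have hθ0 : (0 : ℝ) ≤ (k : ℝ) / ((n : ℝ) + 1) := by positivity
  have hθ1 : (k : ℝ) / ((n : ℝ) + 1) ≤ 1 := by
    rw [div_le_one (by positivity)]
    exact_mod_cast hk
  have hs1 : (0 : ℝ) < 1 - s := by linarith
  have hs2 : (1 : ℝ) - s ≤ 1 := by linarith
  refine (r2_sum m k t).trans ?_
  have hA := card_small n t x hx hx1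
  have hB := transfer2 (n := n) m ((k : ℝ) / ((n : ℝ) + 1)) s hθ0 hθ1 hs hs'
  have hC : ∑ R ∈ (Mid n m).powerset.filter (fun R => (covE R).card ≤ k + t),
        ((k : ℝ) / ((n : ℝ) + 1)) ^ R.card *
          (1 - (k : ℝ) / ((n : ℝ) + 1)) ^ ((Mid n m).card - R.card) ≤
      (1 - s * (2 * (k / ((n : ℝ) + 1)) - (k / ((n : ℝ) + 1)) ^ 2) +
        2 * s ^ 2) ^ (Mid n m).card / (1 - s) ^ (k + t) := by
    rw [le_div_iff₀ (by positivity), sum_mul]
    refine le_trans ?_ hB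
    have h1 : ∀ R ∈ (Mid n m).powerset.filter (fun R => (covE R).card ≤ k + t),
        ((k : ℝ) / ((n : ℝ) + 1)) ^ R.card *
          (1 - (k : ℝ) / ((n : ℝ) + 1)) ^ ((Mid n m).card - R.card) * (1 - s) ^ (k + t) ≤
        ((k : ℝ) / ((n : ℝ) + 1)) ^ R.card *
          (1 - (k : ℝ) / ((n : ℝ) + 1)) ^ ((Mid n m).card - R.card) * (1 - s) ^ (covE R).card := by
      intro R hR
      have h2 : (1 - s) ^ (k + t) ≤ (1 - s) ^ (covE R).card :=
        pow_le_pow_of_le_one hs1.le hs2 (mem_filter.1 hR).2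
      have h3 : (0 : ℝ) ≤ 1 - (k : ℝ) / ((n : ℝ) + 1) := by linarith
      exact mul_le_mul_of_nonneg_left h2 (by positivity)
    refine (sum_le_sum h1).trans ?_
    refine sum_le_sum_of_subset_of_nonneg (filter_subset _ _) fun R _ _ => ?_
    have h3 : (0 : ℝ) ≤ 1 - (k : ℝ) / ((n : ℝ) + 1) := by linarith
    positivity
  refine mul_le_mul hA hC ?_ (by positivity)
  refine sum_nonneg fun R _ => ?_
  have h3 : (0 : ℝ) ≤ 1 - (k : ℝ) / ((n : ℝ) + 1) := by linarith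
  positivity

private theorem R2Num_mid (n m : ℕ) : (n : ℝ) - 2 * m ≤ ((Mid n m).card : ℝ) := by
  have h1 : Ico m (n - m) ⊆ (Mid n m).map Fin.valEmbedding := by
    intro i hi
    rw [mem_Ico] at hi
    rw [mem_map]
    refine ⟨⟨i, by omega⟩, ?_, rfl⟩
    rw [mem_Mid]
    simp only
    omega
  have h2 := card_le_card h1
  rw [Nat.card_Ico, card_map] at h2
  have h3 : n ≤ (Mid n m).card + 2 * m := by omega
  have h4 : (n : ℝ) ≤ (Mid n m).card + 2 * m := by exact_mod_cast h3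
  linarith

/-- the numerical estimate for one `k`. -/
private theorem R2Num_num (n m k t M : ℕ) (τ x s Lx δ : ℝ) (hτ : 0 < τ) (hτ1 : τ ≤ 1 / 4)
    (hx : x = τ ^ 2 / 256) (hs : s = τ / 16) (hLx : x = Real.exp (-Lx)) (hLx0 : 0 < Lx)
    (hδ0 : 0 < δ) (hδ1 : δ ≤ τ / 64) (hδ2 : δ * Lx ≤ τ ^ 2 / 256)
    (hM1 : (n : ℝ) - 2 * m ≤ M) (ht : (t : ℝ) ≤ δ * ((n : ℝ) + 1)) (hk : k ≤ n + 1)
    (hθ : τ ≤ (k : ℝ) / ((n : ℝ) + 1) * (1 - (k : ℝ) / ((n : ℝ) + 1))) :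
    (1 + x) ^ (n + 1) / x ^ t * ((1 - s * (2 * (k / ((n : ℝ) + 1)) - (k / ((n : ℝ) + 1)) ^ 2) +
        2 * s ^ 2) ^ M / (1 - s) ^ (k + t)) ≤
      Real.exp (1 + 2 * m) * Real.exp (-(τ ^ 2 / 64 * ((n : ℝ) + 1))) := by
  have hN : (0 : ℝ) < (n : ℝ) + 1 := by positivity
  set N : ℝ := (n : ℝ) + 1 with hNdef
  set θ : ℝ := (k : ℝ) / N with hθdef
  have hθ0 : 0 ≤ θ := by positivity
  have hθ1 : θ ≤ 1 := by
    rw [hθdef, div_le_one hN]
    rw [hNdef]
    exact_mod_cast hk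
  have hkN : (k : ℝ) = θ * N := by
    rw [hθdef]
    field_simp
  have hs0 : 0 < s := by rw [hs]; positivity
  have hs1 : s ≤ 1 / 2 := by rw [hs]; linarith
  have hx0 : 0 < x := by rw [hx]; positivity
  -- F1
  have F1 : (1 + x) ^ (n + 1) ≤ Real.exp (N * x) := by
    have h1 : 1 + x ≤ Real.exp x := by
      have := Real.add_one_le_exp x
      linarith
    calc (1 + x) ^ (n + 1) ≤ (Real.exp x) ^ (n + 1) := pow_le_pow_left₀ (by linarith) h1 _
      _ = Real.exp (N * x) := by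
        rw [← Real.exp_nat_mul]
        push_cast
        rfl
  -- F2
  have F2 : 1 / x ^ t ≤ Real.exp (N * (τ ^ 2 / 256)) := by
    rw [hLx, ← Real.exp_nat_mul, one_div, ← Real.exp_neg]
    apply Real.exp_le_exp.2
    have h1 : (t : ℝ) * Lx ≤ δ * N * Lx := mul_le_mul_of_nonneg_right ht hLx0.le
    have h2 : δ * N * Lx = N * (δ * Lx) := by ring
    have h3 : N * (δ * Lx) ≤ N * (τ ^ 2 / 256) := mul_le_mul_of_nonneg_left hδ2 hN.le
    calc -((t : ℝ) * -Lx) = (t : ℝ) * Lx := by ring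
      _ ≤ _ := by linarith
  -- F3
  set c : ℝ := s * (2 * θ - θ ^ 2) - 2 * s ^ 2 with hc
  have hc0 : 0 ≤ c := by
    have h1 : τ ≤ 2 * θ - θ ^ 2 := by nlinarith
    have h2 : s * τ ≤ s * (2 * θ - θ ^ 2) := mul_le_mul_of_nonneg_left h1 hs0.le
    have h3 : 2 * s ^ 2 ≤ s * τ := by
      rw [hs]
      nlinarith
    linarith
  have hc1 : c ≤ 1 := by
    have h1 : 2 * θ - θ ^ 2 ≤ 1 := by nlinarith [sq_nonneg (1 - θ)]
    have h2 : s * (2 * θ - θ ^ 2) ≤ s * 1 := mul_le_mul_of_nonneg_left h1 hs0.le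
    nlinarith
  have hl0 : 0 ≤ 1 - s * (2 * θ - θ ^ 2) + 2 * s ^ 2 := by
    have : 1 - s * (2 * θ - θ ^ 2) + 2 * s ^ 2 = 1 - c := by rw [hc]; ring
    rw [this]
    linarith
  have F3 : (1 - s * (2 * θ - θ ^ 2) + 2 * s ^ 2) ^ M ≤ Real.exp (1 + 2 * m - N * c) := by
    have h1 : 1 - s * (2 * θ - θ ^ 2) + 2 * s ^ 2 ≤ Real.exp (-c) := by
      have h2 := Real.add_one_le_exp (-c)
      have h3 : -c + 1 = 1 - s * (2 * θ - θ ^ 2) + 2 * s ^ 2 := by rw [hc]; ring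
      linarith
    calc (1 - s * (2 * θ - θ ^ 2) + 2 * s ^ 2) ^ M ≤ (Real.exp (-c)) ^ M :=
          pow_le_pow_left₀ hl0 h1 _
      _ = Real.exp (M * -c) := by rw [← Real.exp_nat_mul]
      _ ≤ Real.exp (1 + 2 * m - N * c) := by
        apply Real.exp_le_exp.2
        have h4 : (N - 1 - 2 * m) * c ≤ M * c := by
          refine mul_le_mul_of_nonneg_right ?_ hc0
          rw [hNdef]
          linarith
        have h5 : (1 + 2 * (m : ℝ)) * c ≤ (1 + 2 * m) * 1 :=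
          mul_le_mul_of_nonneg_left hc1 (by positivity)
        nlinarith
  -- F4
  have F4 : 1 / (1 - s) ^ (k + t) ≤ Real.exp (N * (θ + δ) * (s + 2 * s ^ 2)) := by
    have h1 : 1 / (1 - s) ≤ Real.exp (s + 2 * s ^ 2) := by
      have h2 := Real.add_one_le_exp (s + 2 * s ^ 2)
      have h3 : 1 / (1 - s) ≤ s + 2 * s ^ 2 + 1 := by
        rw [div_le_iff₀ (by linarith)]
        nlinarith [sq_nonneg s, mul_nonneg (sq_nonneg s) (by linarith : (0 : ℝ) ≤ 1 - 2 * s)]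
      linarith
    calc 1 / (1 - s) ^ (k + t) = (1 / (1 - s)) ^ (k + t) := by rw [one_div_pow]
      _ ≤ (Real.exp (s + 2 * s ^ 2)) ^ (k + t) := by
        refine pow_le_pow_left₀ ?_ h1 _
        have : 0 < 1 - s := by linarith
        positivity
      _ = Real.exp (((k + t : ℕ) : ℝ) * (s + 2 * s ^ 2)) := by rw [← Real.exp_nat_mul]
      _ ≤ _ := by
        apply Real.exp_le_exp.2
        refine mul_le_mul_of_nonneg_right ?_ (by positivity)
        push_cast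
        rw [hkN]
        linarith
  -- assembly
  have e1 : (1 + x) ^ (n + 1) / x ^ t * ((1 - s * (2 * θ - θ ^ 2) +
        2 * s ^ 2) ^ M / (1 - s) ^ (k + t)) =
      ((1 + x) ^ (n + 1) * (1 / x ^ t)) * ((1 - s * (2 * θ - θ ^ 2) +
        2 * s ^ 2) ^ M * (1 / (1 - s) ^ (k + t))) := by ring
  have hs3 : (0 : ℝ) < 1 - s := by linarith
  rw [e1]
  calc ((1 + x) ^ (n + 1) * (1 / x ^ t)) * ((1 - s * (2 * θ - θ ^ 2) +
        2 * s ^ 2) ^ M * (1 / (1 - s) ^ (k + t)))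
      ≤ (Real.exp (N * x) * Real.exp (N * (τ ^ 2 / 256))) *
        (Real.exp (1 + 2 * m - N * c) * Real.exp (N * (θ + δ) * (s + 2 * s ^ 2))) := by
        gcongr
    _ = Real.exp (N * x + N * (τ ^ 2 / 256) + ((1 + 2 * m - N * c) +
          N * (θ + δ) * (s + 2 * s ^ 2))) := by
        rw [Real.exp_add, Real.exp_add, Real.exp_add]
    _ ≤ Real.exp ((1 + 2 * m) + -(τ ^ 2 / 64 * N)) := by
        apply Real.exp_le_exp.2
        have key : x + τ ^ 2 / 256 - c + (θ + δ) * (s + 2 * s ^ 2) ≤ -(τ ^ 2 / 64) := by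
          have h1 : -c + (θ + δ) * (s + 2 * s ^ 2) =
              -(s * (θ * (1 - θ))) + 2 * s ^ 2 + δ * s + 2 * s ^ 2 * (θ + δ) := by
            rw [hc]
            ring
          have h2 : s * τ ≤ s * (θ * (1 - θ)) := mul_le_mul_of_nonneg_left hθ hs0.le
          have h3 : 2 * s ^ 2 * (θ + δ) ≤ 2 * s ^ 2 * 2 := by
            refine mul_le_mul_of_nonneg_left ?_ (by positivity)
            linarith
          have h4 : δ * s ≤ τ / 64 * s := mul_le_mul_of_nonneg_right hδ1 hs0.le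
          have h5 : s * τ = τ ^ 2 / 16 := by rw [hs]; ring
          have h6 : s ^ 2 = τ ^ 2 / 256 := by rw [hs]; ring
          have h7 : τ / 64 * s = τ ^ 2 / 1024 := by rw [hs]; ring
          have h8 : 0 < τ ^ 2 := by positivity
          linarith
        have h9 := mul_le_mul_of_nonneg_left key hN.le
        linarith
    _ = Real.exp (1 + 2 * m) * Real.exp (-(τ ^ 2 / 64 * N)) := by rw [Real.exp_add]

/-- REGIME 2. Proof. `τ = eta2 / 8`: for `1/200 ≤ θ = k/(n+1) ≤ 1 - eta2/4`: `θ (1 - θ) ≥ τ`. `s = τ/16`, `t = ⌊δ (n+1)⌋`. Logarithm of the bound of `r2_one` (`N = n + 1`,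
`-log (1-s) ≤ s + s²`, `1 + y ≤ exp y`, `|Mid| ≥ N - 1 - 2m`): `≤ N x + δ N log (1/x) - N [s θ (1-θ) - s δ - 4 s²] + C(m)`, where `s τ - s δ - 4 s² ≥ s τ/2 = τ²/32` if `δ ≤ τ/4`; choose
`x = τ²/256` and `δ` with `δ log (1/x) ≤ τ²/256`. So the bound is `≤ C(m) exp (-N τ²/64)`; sum over the `≤ N + 1` values of `k`. -/
theorem regime2 : ∃ δ : ℝ, 0 < δ ∧ ∀ (m : ℕ) (ε : ℝ), 0 < ε →
    ∃ n₀ : ℕ, ∀ n ≥ n₀, Pb n (R2 m δ) ≤ ε := by
  obtain ⟨τ, hτdef⟩ : ∃ τ : ℝ, τ = eta2 / 8 := ⟨_, rfl⟩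
  have heta : 0 < eta2 := by unfold eta2; positivity
  have heta1 : eta2 ≤ 1 / 54 := by
    unfold eta2
    norm_num
  have hτ : 0 < τ := by rw [hτdef]; positivity
  have hτ1 : τ ≤ 1 / 432 := by rw [hτdef]; linarith
  obtain ⟨x, hx⟩ : ∃ x : ℝ, x = τ ^ 2 / 256 := ⟨_, rfl⟩
  obtain ⟨s, hs⟩ : ∃ s : ℝ, s = τ / 16 := ⟨_, rfl⟩
  have hx0 : 0 < x := by rw [hx]; positivity
  have hx1 : x < 1 := by
    rw [hx]
    nlinarith
  obtain ⟨Lx, hLx⟩ : ∃ Lx : ℝ, Lx = -Real.log x := ⟨_, rfl⟩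
  have hLx0 : 0 < Lx := by
    have := Real.log_neg hx0 hx1
    rw [hLx]
    linarith
  have hLx' : x = Real.exp (-Lx) := by
    rw [hLx, neg_neg, Real.exp_log hx0]
  obtain ⟨δ, hδ⟩ : ∃ δ : ℝ, δ = min (τ / 64) (τ ^ 2 / 256 / Lx) := ⟨_, rfl⟩
  have hδ0 : 0 < δ := by rw [hδ]; positivity
  have hδ1 : δ ≤ τ / 64 := by rw [hδ]; exact min_le_left _ _
  have hδ2 : δ * Lx ≤ τ ^ 2 / 256 := by
    rw [← le_div_iff₀ hLx0, hδ]
    exact min_le_right _ _
  refine ⟨δ, hδ0, fun m ε hε => ?_⟩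
  obtain ⟨c, hc⟩ : ∃ c : ℝ, c = τ ^ 2 / 64 := ⟨_, rfl⟩
  have hc0 : 0 < c := by rw [hc]; positivity
  obtain ⟨n₀, hn₀⟩ := exists_nat_gt (Real.exp (1 + 2 * m) * 4 / (c ^ 2 * ε))
  refine ⟨n₀, fun n hn => ?_⟩
  have hN : (0 : ℝ) < (n : ℝ) + 1 := by positivity
  -- one k
  have hone : ∀ k ∈ range (n + 2), Pb n (fun ω => ((n + 1 < 200 * k) ∧
      (k : ℝ) < (1 - eta2 / 4) * ((n : ℝ) + 1)) ∧ ∃ P : Finset (Fin (n + 1)), P.card = k ∧
        (symmDiff P (covE (Rset m ω P))).card ≤ ⌊δ * ((n : ℝ) + 1)⌋₊) ≤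
      Real.exp (1 + 2 * m) * Real.exp (-(c * ((n : ℝ) + 1))) := by
    intro k hk
    by_cases hkk : (n + 1 < 200 * k) ∧ (k : ℝ) < (1 - eta2 / 4) * ((n : ℝ) + 1)
    · refine (Pb_mono fun ω h => h.2).trans ?_
      have hk' : k ≤ n + 1 := by
        rw [mem_range] at hk
        omega
      refine (r2_one n m k _ hk' s x (by rw [hs]; positivity) (by rw [hs]; linarith) hx0
        hx1.le).trans ?_
      rw [hc]
      refine R2Num_num n m k _ _ τ x s Lx δ hτ (by linarith) hx hs hLx' hLx0 hδ0 hδ1 hδ2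
        (R2Num_mid n m) (Nat.floor_le (by positivity)) hk' ?_
      obtain ⟨h1, h2⟩ := hkk
      have h3 : 1 / 200 < (k : ℝ) / ((n : ℝ) + 1) := by
        rw [lt_div_iff₀ hN]
        have : ((n : ℝ) + 1) < 200 * k := by exact_mod_cast h1
        linarith
      have h4 : (k : ℝ) / ((n : ℝ) + 1) < 1 - eta2 / 4 := by
        rw [div_lt_iff₀ hN]
        exact h2
      generalize (k : ℝ) / ((n : ℝ) + 1) = θ at h3 h4 ⊢
      rcases le_total θ (1 / 2) with h5 | h5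
      · nlinarith
      · nlinarith
    · refine (Pb_mono (Q := fun _ => False) fun ω h => hkk h.1).trans ?_
      have h0 : Pb n (fun _ => False) = 0 := by
        rw [Pb_eq (fun _ => False)]
        simp
      rw [h0]
      positivity
  have hsum : Pb n (R2 m δ) ≤ ((n : ℝ) + 2) *
      (Real.exp (1 + 2 * m) * Real.exp (-(c * ((n : ℝ) + 1)))) := by
    refine (Pb_mono (Q := fun ω => ∃ k ∈ range (n + 2), ((n + 1 < 200 * k) ∧
      (k : ℝ) < (1 - eta2 / 4) * ((n : ℝ) + 1)) ∧ ∃ P : Finset (Fin (n + 1)), P.card = k ∧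
        (symmDiff P (covE (Rset m ω P))).card ≤ ⌊δ * ((n : ℝ) + 1)⌋₊) ?_).trans ?_
    · rintro ω ⟨P, h1, h2, h3⟩
      refine ⟨P.card, ?_, ⟨h1, h2⟩, P, rfl, Nat.le_floor h3⟩
      rw [mem_range]
      have := card_le_univ P
      rw [Fintype.card_fin] at this
      omega
    · refine (Pb_exists _ _).trans ?_
      refine (sum_le_sum hone).trans ?_
      rw [sum_const, card_range, nsmul_eq_mul]
      push_cast
      exact le_rfl
  refine hsum.trans ?_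
  have hy : 0 ≤ c * ((n : ℝ) + 1) := by positivity
  have hq := Real.quadratic_le_exp_of_nonneg hy
  have hexp : Real.exp (-(c * ((n : ℝ) + 1))) ≤ 2 / (c * ((n : ℝ) + 1)) ^ 2 := by
    rw [Real.exp_neg, inv_eq_one_div, div_le_div_iff₀ (Real.exp_pos _) (by positivity)]
    nlinarith
  have hn1 : Real.exp (1 + 2 * m) * 4 / (c ^ 2 * ε) < (n : ℝ) + 1 := by
    have : (n₀ : ℝ) ≤ n := by exact_mod_cast hn
    linarith
  rw [div_lt_iff₀ (by positivity)] at hn1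
  calc ((n : ℝ) + 2) * (Real.exp (1 + 2 * m) * Real.exp (-(c * ((n : ℝ) + 1))))
      ≤ (2 * ((n : ℝ) + 1)) * (Real.exp (1 + 2 * m) * (2 / (c * ((n : ℝ) + 1)) ^ 2)) := by
        gcongr
        linarith
    _ = Real.exp (1 + 2 * m) * 4 / (c ^ 2 * ((n : ℝ) + 1)) := by
        field_simp
        ring
    _ ≤ ε := by
        rw [div_le_iff₀ (by positivity)]
        linarith

end Pool.Agent.LOI
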