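import Pool.Agent.Lib.LOI.Half

set_option autoImplicit false

/-!
# The uniform probability on `Om n`
-/

namespace Pool.Agent.LOI

open Finset
open scoped Classical

variable {n : ℕ}

theorem two_pos' (n : ℕ) : (0 : ℝ) < 2 * ((n : ℝ) + 1) := by positivity

/-- `Pb` with any decidability instance -/
theorem Pb_eq (P : Om n → Prop) [inst : DecidablePred P] :
    Pb n P = ((univ.filter P).card : ℝ) / (2 * ((n : ℝ) + 1)) ^ n := by
  unfold Pb
  congr!

theorem Pb_nonneg (P : Om n → Prop) : 0 ≤ Pb n P := by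
  unfold Pb
  positivity

theorem card_Om (n : ℕ) : ((univ : Finset (Om n)).card : ℝ) = (2 * ((n : ℝ) + 1)) ^ n := by
  simp only [card_univ, Fintype.card_pi, Fintype.card_prod, Fintype.card_fin, Fintype.card_bool,
    prod_const]
  push_cast
  ring

theorem Pb_mono {P Q : Om n → Prop} (h : ∀ ω, P ω → Q ω) : Pb n P ≤ Pb n Q := by
  unfold Pb
  have h1 : (univ.filter P).card ≤ (univ.filter Q).card :=
    card_le_card (monotone_filter_right _ (fun ω _ hω => h ω hω))
  have := two_pos' n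
  gcongr

theorem Pb_le_one (P : Om n → Prop) : Pb n P ≤ 1 := by
  unfold Pb
  rw [div_le_one (pow_pos (two_pos' n) n), ← card_Om]
  exact_mod_cast card_le_card (subset_univ _)

theorem Pb_not (P : Om n → Prop) : Pb n (fun ω => ¬ P ω) = 1 - Pb n P := by
  rw [Pb_eq P, Pb_eq (fun ω => ¬ P ω)]
  have h := card_filter_add_card_filter_not (s := (univ : Finset (Om n))) P
  have h2 : ((univ.filter P).card : ℝ) + ((univ.filter fun ω => ¬ P ω).card : ℝ) =
      (2 * ((n : ℝ) + 1)) ^ n := by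
    rw [← card_Om]
    exact_mod_cast h
  rw [eq_sub_iff_add_eq, ← add_div, div_eq_one_iff_eq (pow_pos (two_pos' n) n).ne']
  linarith

theorem Pb_or (P Q : Om n → Prop) : Pb n (fun ω => P ω ∨ Q ω) ≤ Pb n P + Pb n Q := by
  rw [Pb_eq P, Pb_eq Q, Pb_eq (fun ω => P ω ∨ Q ω), ← add_div]
  have h1 : (univ.filter fun ω => P ω ∨ Q ω).card ≤ (univ.filter P).card + (univ.filter Q).card := by
    rw [filter_or]
    exact card_union_le _ _
  have := two_pos' n
  have h2 : ((univ.filter fun ω => P ω ∨ Q ω).card : ℝ) ≤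
      (univ.filter P).card + (univ.filter Q).card := by exact_mod_cast h1
  gcongr

/-- union bound -/
theorem Pb_exists {ι : Type*} (s : Finset ι) (P : ι → Om n → Prop) :
    Pb n (fun ω => ∃ i ∈ s, P i ω) ≤ ∑ i ∈ s, Pb n (P i) := by
  induction s using Finset.induction_on with
  | empty =>
    unfold Pb
    simp
  | insert i s hi ih =>
    rw [sum_insert hi]
    refine le_trans (Pb_mono (Q := fun ω => P i ω ∨ ∃ i ∈ s, P i ω) ?_)
      (le_trans (Pb_or _ _) (by gcongr))
    rintro ω ⟨k, hk, h⟩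
    rcases mem_insert.1 hk with rfl | hk
    · exact Or.inl h
    · exact Or.inr ⟨k, hk, h⟩

/-- product weights -/
theorem Pb_weight (P : Om n → Prop) (f : Fin n → Fin (n + 1) × Bool → ℝ)
    (hf : ∀ j v, 0 ≤ f j v) (hP : ∀ ω, P ω → 1 ≤ ∏ j, f j (ω j)) :
    Pb n P ≤ ∏ j, ((∑ v, f j v) / (2 * ((n : ℝ) + 1))) := by
  rw [prod_div_distrib, prod_const, card_univ, Fintype.card_fin, prod_univ_sum]
  unfold Pb
  have h1 : ((univ.filter P).card : ℝ) ≤ ∑ ω ∈ Fintype.piFinset fun _ : Fin n =>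
      (univ : Finset (Fin (n + 1) × Bool)), ∏ j, f j (ω j) := by
    rw [card_eq_sum_ones]
    push_cast
    refine le_trans (sum_le_sum fun ω hω => hP ω (mem_filter.1 hω).2) ?_
    refine sum_le_sum_of_subset_of_nonneg ?_ ?_
    · intro ω _
      simp
    · intro ω _ _
      exact prod_nonneg fun j _ => hf j _
  have := two_pos' n
  gcongr

/-- product weights, with a constant -/
theorem Pb_weight' (P : Om n → Prop) (c : ℝ) (f : Fin n → Fin (n + 1) × Bool → ℝ)
    (hf : ∀ j v, 0 ≤ f j v) (hP : ∀ ω, P ω → c ≤ ∏ j, f j (ω j)) :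
    c * Pb n P ≤ ∏ j, ((∑ v, f j v) / (2 * ((n : ℝ) + 1))) := by
  rw [prod_div_distrib, prod_const, card_univ, Fintype.card_fin, prod_univ_sum]
  unfold Pb
  have h1 : c * ((univ.filter P).card : ℝ) ≤ ∑ ω ∈ Fintype.piFinset fun _ : Fin n =>
      (univ : Finset (Fin (n + 1) × Bool)), ∏ j, f j (ω j) := by
    rw [card_eq_sum_ones]
    push_cast
    rw [mul_sum]
    simp only [mul_one]
    refine le_trans (sum_le_sum fun ω hω => hP ω (mem_filter.1 hω).2) ?_
    refine sum_le_sum_of_subset_of_nonneg ?_ ?_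
    · intro ω _
      simp
    · intro ω _ _
      exact prod_nonneg fun j _ => hf j _
  have := two_pos' n
  rw [← mul_div_assoc]
  exact div_le_div_of_nonneg_right h1 (by positivity)

/-- boxes -/
theorem Pb_box (S : Fin n → Finset (Fin (n + 1) × Bool)) :
    Pb n (fun ω => ∀ j, ω j ∈ S j) = ∏ j, (((S j).card : ℝ) / (2 * ((n : ℝ) + 1))) := by
  rw [prod_div_distrib, prod_const, card_univ, Fintype.card_fin,
    Pb_eq (fun ω : Om n => ∀ j, ω j ∈ S j)]
  have h1 : (univ.filter fun ω : Om n => ∀ j, ω j ∈ S j) = Fintype.piFinset S := by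
    ext ω
    simp
  rw [h1, Fintype.card_piFinset]
  push_cast
  rfl

/-- expectations: if `P` implies `t ≤ X` then `Pb P ≤ E X / t` -/
theorem Pb_markov (P : Om n → Prop) (X : Om n → ℝ) (hX : ∀ ω, 0 ≤ X ω) (t : ℝ) (ht : 0 < t)
    (hP : ∀ ω, P ω → t ≤ X ω) : Pb n P ≤ (∑ ω, X ω) / (2 * ((n : ℝ) + 1)) ^ n / t := by
  unfold Pb
  rw [div_right_comm]
  have := two_pos' n
  have h1 : ((univ.filter P).card : ℝ) ≤ (∑ ω, X ω) / t := by
    rw [le_div_iff₀ ht, card_eq_sum_ones]
    push_cast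
    rw [sum_mul]
    refine le_trans (sum_le_sum fun ω hω => ?_)
      (sum_le_sum_of_subset_of_nonneg (subset_univ (univ.filter P)) fun ω _ _ => hX ω)
    rw [one_mul]
    exact hP ω (mem_filter.1 hω).2
  exact div_le_div_of_nonneg_right h1 (by positivity)

end Pool.Agent.LOI
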