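import Pool.Agent.Lib.LOI.SeqC
import Pool.Agent.Lib.LOI.PBase

set_option autoImplicit false

namespace Pool.Agent.LOI

open Finset
open scoped Classical

/-- the condition on the entry `v` at the place `j` -/
private def RedP_cnd (k : ℕ) (p q : ℕ) (j : ℕ) (v : Fin (k + 2) × Bool) : Prop :=
  if j = p then v.1 = 0 else if j = q then v.1 = Fin.last (k + 1) else
    v.1 ≠ 0 ∧ v.1 ≠ Fin.last (k + 1) ∧ v.1.val ≠ j ∧ v.1.val ≠ j + 1

private def RedP_ok (k : ℕ) (p q : ℕ) (j : ℕ) (prev v : Fin (k + 2) × Bool) : Prop :=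
  RedP_cnd k p q j v ∧ (j ≠ p → j ≠ q → v ≠ (prev.1, !prev.2))

private theorem RedP_two (k : ℕ) (a : Fin (k + 2)) (P : Fin (k + 2) × Bool → Prop)
    (h : ∀ v, v.1 = a → P v) : 2 ≤ ((univ : Finset (Fin (k + 2) × Bool)).filter P).card := by
  have h1 : ({(a, true), (a, false)} : Finset (Fin (k + 2) × Bool)) ⊆ univ.filter P := by
    intro v hv
    rw [mem_filter]
    refine ⟨mem_univ _, h v ?_⟩
    rw [mem_insert, mem_singleton] at hv
    rcases hv with rfl | rfl <;> rfl
  have h2 := card_le_card h1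
  rw [card_pair (by simp)] at h2
  exact h2

private theorem RedP_many (k : ℕ) (j : ℕ) (w : Fin (k + 2) × Bool) (P : Fin (k + 2) × Bool → Prop)
    (h : ∀ v, v.1 ≠ 0 → v.1 ≠ Fin.last (k + 1) → v.1.val ≠ j → v.1.val ≠ j + 1 → v ≠ w → P v) :
    2 * (k + 1) - 7 ≤ ((univ : Finset (Fin (k + 2) × Bool)).filter P).card := by
  obtain ⟨B, hB⟩ : ∃ B : Finset (Fin (k + 2)), B = {0, Fin.last (k + 1),
      ⟨min j (k + 1), by omega⟩, ⟨min (j + 1) (k + 1), by omega⟩} := ⟨_, rfl⟩
  have hBc : B.card ≤ 4 := by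
    rw [hB]
    exact card_le_four
  have h1 : univ \ (B ×ˢ univ ∪ {w}) ⊆ (univ : Finset (Fin (k + 2) × Bool)).filter P := by
    intro v hv
    rw [mem_sdiff, mem_union, mem_product, mem_singleton] at hv
    obtain ⟨_, hv⟩ := hv
    push Not at hv
    obtain ⟨hv1, hv2⟩ := hv
    have hv3 : v.1 ∉ B := fun hb => hv1 hb (mem_univ _)
    rw [hB] at hv3
    simp only [mem_insert, mem_singleton, not_or] at hv3
    obtain ⟨a1, a2, a3, a4⟩ := hv3
    rw [mem_filter]
    refine ⟨mem_univ _, h v a1 a2 ?_ ?_ hv2⟩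
    · intro e
      apply a3
      apply Fin.ext
      have := v.1.isLt
      simp only
      omega
    · intro e
      apply a4
      apply Fin.ext
      have := v.1.isLt
      simp only
      omega
  have h2 := card_le_card h1
  have h3 : (univ : Finset (Fin (k + 2) × Bool)).card = 2 * (k + 2) := by
    simp [mul_comm]
  have h4 : (B ×ˢ univ ∪ {w} : Finset (Fin (k + 2) × Bool)).card ≤ 9 := by
    refine (card_union_le _ _).trans ?_
    rw [card_product, card_singleton]
    simp only [card_univ, Fintype.card_bool]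
    omega
  have h5 := le_card_sdiff (B ×ˢ univ ∪ {w} : Finset (Fin (k + 2) × Bool)) univ
  omega

private theorem RedP_prod (m p q : ℕ) (hp : p < m) (hq : q < m) (hpq : p ≠ q) (a : ℕ) :
    ∏ j ∈ range m, (if j = p ∨ j = q then 2 else a) = 4 * a ^ (m - 2) := by
  rw [prod_ite, prod_const, prod_const]
  have h1 : (range m).filter (fun j => j = p ∨ j = q) = {p, q} := by
    ext j
    simp only [mem_filter, mem_range, mem_insert, mem_singleton]
    constructor
    · exact fun h => h.2
    · rintro (rfl | rfl)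
      · exact ⟨hp, Or.inl rfl⟩
      · exact ⟨hq, Or.inr rfl⟩
  have h2 : ((range m).filter (fun j => ¬ (j = p ∨ j = q))).card = m - 2 := by
    have h3 := card_filter_add_card_filter_not (s := range m) (fun j => j = p ∨ j = q)
    rw [h1, card_pair hpq, card_range] at h3
    omega
  rw [h1, card_pair hpq, h2]
  norm_num

/-- P6, fixed places of the labels `0` and `n`. Proof. `seq_count` (`n = k + 1`): `ω j` for `j ≠ p, q` has a label different from `0, n, j, j + 1` and a head at its base different from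
the head of the previous edge there (`hd (j - 1, true) ≠ hd (j, false)`): at least `2 (n + 1) - 8 - 1` choices; `ω p` is `(0, any)`, `ω q` is `(n, any)`: two choices, the
labels are no endpoints (`1 ≤ p`, `q + 2 ≤ n`) and different from the labels of the neighbours, so all heads at the common vertices are
different. These sequences are `Red`: a pair of different halves with the same base is `(j, true), (j + 1, false)` (`exists_other`). (Use `c j = 2` for `j = p, q` and `2n - 7`
otherwise; it is allowed to put further conditions in `ok`, as long as the sequences counted are in the set.) -/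
theorem fixed_count (n : ℕ) (hn : 5 ≤ n) (p q : Fin n) (hpq : p ≠ q) (hp : 1 ≤ p.val)
    (hq : q.val + 2 ≤ n) :
    4 * (2 * n - 7) ^ (n - 2) ≤ ((univ : Finset (Om n)).filter fun ω =>
      Red ω ∧ (ω p).1 = 0 ∧ (ω q).1 = Fin.last n ∧
        (∀ j, j ≠ p → j ≠ q → (ω j).1 ≠ 0 ∧ (ω j).1 ≠ Fin.last n)).card := by
  obtain ⟨k, rfl⟩ : ∃ k, n = k + 1 := ⟨n - 1, by omega⟩
  have hpq' : p.val ≠ q.val := fun h => hpq (Fin.ext h)
  have hlast : (Fin.last (k + 1) : Fin (k + 2)) ≠ 0 := by
    intro h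
    have := congrArg Fin.val h
    simp at this
  have key := seq_count (α := Fin (k + 2) × Bool) (RedP_cnd k p.val q.val 0)
    (RedP_ok k p.val q.val) (fun j => if j = p.val ∨ j = q.val then 2 else 2 * (k + 1) - 7) (by
      split_ifs with h
      · rcases h with h | h
        · exact RedP_two k 0 _ fun v hv => by rw [RedP_cnd, if_pos h]; exact hv
        · refine RedP_two k (Fin.last (k + 1)) _ fun v hv => ?_
          rw [RedP_cnd, if_neg (by omega), if_pos h]; exact hv
      · push Not at h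
        refine RedP_many k 0 (0, true) _ fun v h1 h2 h3 h4 _ => ?_
        rw [RedP_cnd, if_neg h.1, if_neg h.2]
        exact ⟨h1, h2, h3, h4⟩) (by
      intro j prev
      split_ifs with h
      · rcases h with h | h
        · refine RedP_two k 0 _ fun v hv => ⟨by rw [RedP_cnd, if_pos h]; exact hv, fun h' => absurd h h'⟩
        · refine RedP_two k (Fin.last (k + 1)) _ fun v hv => ⟨?_, fun _ h' => absurd h h'⟩
          rw [RedP_cnd, if_neg (by omega), if_pos h]; exact hv
      · push Not at h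
        refine RedP_many k (j + 1) (prev.1, !prev.2) _ fun v h1 h2 h3 h4 h5 => ⟨?_, fun _ _ => h5⟩
        rw [RedP_cnd, if_neg h.1, if_neg h.2]
        exact ⟨h1, h2, h3, h4⟩) k
  rw [RedP_prod (k + 1) p.val q.val p.isLt q.isLt hpq'] at key
  refine key.trans (card_le_card ?_)
  intro ω hω
  rw [mem_filter] at hω ⊢
  obtain ⟨_, h0, hi⟩ := hω
  have hc : ∀ j : Fin (k + 1), RedP_cnd k p.val q.val j.val (ω j) := by
    intro j
    refine Fin.cases ?_ (fun i => ?_) j
    · exact h0
    · exact (hi i).1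
  have hcp : (ω p).1 = 0 := by
    have := hc p
    rw [RedP_cnd, if_pos rfl] at this
    exact this
  have hcq : (ω q).1 = Fin.last (k + 1) := by
    have := hc q
    rw [RedP_cnd, if_neg (fun h => hpq' h.symm), if_pos rfl] at this
    exact this
  have hco : ∀ j : Fin (k + 1), j ≠ p → j ≠ q → (ω j).1 ≠ 0 ∧ (ω j).1 ≠ Fin.last (k + 1) ∧
      (ω j).1.val ≠ j.val ∧ (ω j).1.val ≠ j.val + 1 := by
    intro j h1 h2
    have := hc j
    rw [RedP_cnd, if_neg (fun h => h1 (Fin.ext h)), if_neg (fun h => h2 (Fin.ext h))] at this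
    exact this
  refine ⟨mem_univ _, ⟨?_, ?_⟩, hcp, hcq, fun j h1 h2 => ⟨(hco j h1 h2).1, (hco j h1 h2).2.1⟩⟩
  · rintro ⟨j, b⟩ e
    have e1 : (ω j).1.val = j.val ∨ (ω j).1.val = j.val + 1 := by
      cases b
      · left
        have := congrArg Fin.val e
        simpa [lb, bs] using this
      · right
        have := congrArg Fin.val e
        simpa [lb, bs] using this
    by_cases hjp : j = p
    · subst hjp
      rw [hcp] at e1
      simp only [Fin.val_zero] at e1
      omega
    · by_cases hjq : j = q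
      · subst hjq
        rw [hcq] at e1
        simp only [Fin.val_last] at e1
        omega
      · have := hco j hjp hjq
        omega
  · -- heads
    have main : ∀ j j' : Fin (k + 1), bs (j, true) = bs (j', false) →
        hd ω (j, true) ≠ hd ω (j', false) := by
      intro j j' hb he
      have hv : j.val + 1 = j'.val := by
        have := congrArg Fin.val hb
        simpa [bs] using this
      have he1 : (ω j).1 = (ω j').1 := by
        have := congrArg (fun z : Node (k + 1) => z.1) he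
        exact this
      have he2 : (!(ω j).2) = (ω j').2 := by
        have := congrArg (fun z : Node (k + 1) => z.2) he
        simpa [hd] using this
      have hjj' : j ≠ j' := fun h => by rw [h] at hv; omega
      by_cases hjp : j' = p
      · have h1 : j ≠ p := fun h => hjj' (h.trans hjp.symm)
        rw [hjp, hcp] at he1
        by_cases hjq : j = q
        · rw [hjq, hcq] at he1
          exact hlast he1
        · exact (hco j h1 hjq).1 he1
      · by_cases hjq : j' = q
        · have h1 : j ≠ q := fun h => hjj' (h.trans hjq.symm)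
          rw [hjq, hcq] at he1
          by_cases hjp' : j = p
          · rw [hjp', hcp] at he1
            exact hlast he1.symm
          · exact (hco j hjp' h1).2.1 he1
        · have hlt : j.val < k := by have := j'.isLt; omega
          have h1 := hi ⟨j.val, hlt⟩
          have e1 : (⟨j.val, hlt⟩ : Fin k).castSucc = j := Fin.ext rfl
          have e2 : (⟨j.val, hlt⟩ : Fin k).succ = j' := Fin.ext hv
          rw [e1, e2] at h1
          refine h1.2 (fun h => hjp (Fin.ext ?_)) (fun h => hjq (Fin.ext ?_)) ?_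
          · simp only at h; omega
          · simp only at h; omega
          · exact Prod.ext he1.symm he2.symm
    rintro ⟨j, b⟩ ⟨j', b'⟩ hne hb
    cases b <;> cases b'
    · exact absurd (half_ext hb rfl) hne
    · exact fun h => main j' j hb.symm h.symm
    · exact main j j' hb
    · exact absurd (half_ext hb rfl) hne

private theorem RedP_pairs (n : ℕ) :
    (n - 2) ^ 2 ≤ ((univ : Finset (Fin n × Fin n)).filter fun pq =>
      pq.1 ≠ pq.2 ∧ 1 ≤ pq.1.val ∧ pq.2.val + 2 ≤ n).card := by
  have h1 : (univ : Finset (Fin (n - 2) × Fin (n - 2))).card = (n - 2) ^ 2 := by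
    simp [sq]
  rw [← h1]
  refine card_le_card_of_injOn (fun ab => (⟨ab.1.val + 1, by have := ab.1.isLt; omega⟩,
    ⟨if ab.2.val < ab.1.val + 1 then ab.2.val else ab.2.val + 1, by
      have := ab.2.isLt; split_ifs <;> omega⟩)) ?_ ?_
  · rintro ⟨a, b⟩ _
    have ha := a.isLt
    have hb := b.isLt
    simp only [coe_filter, mem_univ, true_and, Set.mem_ofPred_eq]
    refine ⟨?_, by omega, ?_⟩
    · intro h
      have := congrArg Fin.val h
      simp only at this
      split_ifs at this <;> omega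
    · split_ifs <;> omega
  · rintro ⟨a, b⟩ _ ⟨a', b'⟩ _ h
    simp only [Prod.mk.injEq, Fin.mk.injEq] at h
    obtain ⟨h1, h2⟩ := h
    have h3 : a.val = a'.val := by omega
    have h4 : b.val = b'.val := by
      split_ifs at h2 <;> omega
    exact Prod.ext (Fin.ext h3) (Fin.ext h4)

private theorem RedP_card (n : ℕ) (hn : 5 ≤ n) :
    (n - 2) ^ 2 * (4 * (2 * n - 7) ^ (n - 2)) ≤
      ((univ : Finset (Om n)).filter fun ω => BRed ω).card := by
  obtain ⟨s, hs⟩ : ∃ s : Finset (Fin n × Fin n), s = (univ : Finset (Fin n × Fin n)).filter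
      fun pq => pq.1 ≠ pq.2 ∧ 1 ≤ pq.1.val ∧ pq.2.val + 2 ≤ n := ⟨_, rfl⟩
  obtain ⟨T, hT⟩ : ∃ T : Fin n × Fin n → Finset (Om n), T = fun pq =>
      (univ : Finset (Om n)).filter fun ω =>
        Red ω ∧ (ω pq.1).1 = 0 ∧ (ω pq.2).1 = Fin.last n ∧
          (∀ j, j ≠ pq.1 → j ≠ pq.2 → (ω j).1 ≠ 0 ∧ (ω j).1 ≠ Fin.last n) := ⟨_, rfl⟩
  have hsc : (n - 2) ^ 2 ≤ s.card := by rw [hs]; exact RedP_pairs n
  have hlast : (Fin.last n : Fin (n + 1)) ≠ 0 := by
    intro h
    have := congrArg Fin.val h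
    simp at this
    omega
  have hdisj : (s : Set (Fin n × Fin n)).PairwiseDisjoint T := by
    rintro ⟨p, q⟩ hpq ⟨p', q'⟩ hpq' hne
    rw [Function.onFun, disjoint_left]
    intro ω h1 h2
    rw [hT] at h1 h2
    simp only [mem_filter, mem_univ, true_and] at h1 h2
    apply hne
    obtain ⟨_, a1, a2, a3⟩ := h1
    obtain ⟨_, b1, b2, b3⟩ := h2
    have e1 : p = p' := by
      by_contra h
      by_cases hq : p = q'
      · rw [← hq, a1] at b2
        exact hlast b2.symm
      · exact (b3 p h hq).1 a1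
    have e2 : q = q' := by
      by_contra h
      by_cases hq : q = p'
      · rw [← hq, a2] at b1
        exact hlast b1
      · exact (b3 q hq h).2 a2
    rw [e1, e2]
  have h1 : s.biUnion T ⊆ (univ : Finset (Om n)).filter fun ω => BRed ω := by
    intro ω hω
    rw [mem_biUnion] at hω
    obtain ⟨⟨p, q⟩, _, hω⟩ := hω
    rw [hT] at hω
    simp only [mem_filter, mem_univ, true_and] at hω ⊢
    exact ⟨hω.1, ⟨p, hω.2.1⟩, ⟨q, hω.2.2.1⟩⟩
  refine le_trans ?_ (card_le_card h1)
  rw [card_biUnion (fun x hx y hy h => hdisj hx hy h)]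
  calc (n - 2) ^ 2 * (4 * (2 * n - 7) ^ (n - 2)) ≤ s.card * (4 * (2 * n - 7) ^ (n - 2)) :=
        Nat.mul_le_mul_right _ hsc
    _ = ∑ _pq ∈ s, 4 * (2 * n - 7) ^ (n - 2) := by rw [sum_const, smul_eq_mul]
    _ ≤ ∑ pq ∈ s, (T pq).card := by
        refine sum_le_sum ?_
        rintro ⟨p, q⟩ hpq
        rw [hs] at hpq
        simp only [mem_filter, mem_univ, true_and] at hpq
        have h2 := fixed_count n hn p q hpq.1 hpq.2.1 hpq.2.2
        rw [hT]
        exact h2

/-- P6. Proof. The sets of `fixed_count` for different pairs `(p, q)` are disjoint subsets of `BRed`, and there are at least `(n - 2)^2` pairs. So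
`Pb BRed ≥ (n-2)^2 * 4 * (2n - 7)^(n-2) / (2(n+1))^n = ((n-2)/(n+1))^2 (1 - 9/(2(n+1)))^(n-2)`; e.g. `1 - x ≥ exp (-2x)` for `x ≤ 1/2` gives `≥ (1/4) exp(-9)` for large `n`. -/
theorem BRed_prob : ∃ c₀ : ℝ, 0 < c₀ ∧ ∃ n₀ : ℕ, ∀ n ≥ n₀, c₀ ≤ Pb n BRed := by
  refine ⟨Real.exp (-9) / 4, by positivity, 9, fun n hn => ?_⟩
  have hn9 : (9 : ℝ) ≤ n := by exact_mod_cast hn
  have hpos := two_pos' n
  rw [Pb_eq BRed, le_div_iff₀ (pow_pos hpos n)]
  have h1 : (((n : ℝ) - 2) ^ 2 * (4 * (2 * n - 7) ^ (n - 2))) ≤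
      (((univ : Finset (Om n)).filter fun ω => BRed ω).card : ℝ) := by
    have := RedP_card n (by omega)
    have h2 : (((n - 2) ^ 2 * (4 * (2 * n - 7) ^ (n - 2)) : ℕ) : ℝ) ≤
        (((univ : Finset (Om n)).filter fun ω => BRed ω).card : ℝ) := by exact_mod_cast this
    rw [Nat.cast_mul, Nat.cast_mul, Nat.cast_pow, Nat.cast_pow, Nat.cast_sub (by omega),
      Nat.cast_sub (by omega)] at h2
    push_cast at h2
    exact h2
  refine le_trans ?_ h1
  obtain ⟨m, rfl⟩ : ∃ m, n = m + 2 := ⟨n - 2, by omega⟩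
  rw [Nat.add_sub_cancel]
  push_cast at hn9 hpos ⊢
  have hm : (7 : ℝ) ≤ m := by linarith
  -- the exponential
  have hx : Real.exp (-9) * (2 * ((m : ℝ) + 2 + 1)) ^ m ≤ (2 * ((m : ℝ) + 2) - 7) ^ m := by
    have h2 : Real.exp (-(9 / ((m : ℝ) + 3))) ≤ (2 * ((m : ℝ) + 2) - 7) / (2 * ((m : ℝ) + 2 + 1)) := by
      have h3 : (9 : ℝ) / (2 * (m + 3)) ≤ 1 / 2 := by
        rw [div_le_div_iff₀ (by positivity) (by norm_num)]; linarith
      have h4 : (2 * ((m : ℝ) + 2) - 7) / (2 * ((m : ℝ) + 2 + 1)) = 1 - 9 / (2 * (m + 3)) := by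
        field_simp
        ring
      rw [h4]
      set x : ℝ := 9 / (2 * ((m : ℝ) + 3)) with hxdef
      have hx0 : 0 ≤ x := by positivity
      have h5 : (9 : ℝ) / (m + 3) = 2 * x := by
        rw [hxdef]; field_simp
      rw [h5]
      -- exp(-2x) ≤ 1 - x
      have h6 : (1 : ℝ) + 2 * x ≤ Real.exp (2 * x) := by linarith [Real.add_one_le_exp (2 * x)]
      rw [Real.exp_neg]
      rw [inv_le_comm₀ (Real.exp_pos _) (by linarith)]
      refine le_trans ?_ h6
      rw [inv_le_iff_one_le_mul₀ (by linarith)]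
      nlinarith
    have h7 : Real.exp (-9) ≤ ((2 * ((m : ℝ) + 2) - 7) / (2 * ((m : ℝ) + 2 + 1))) ^ m := by
      calc Real.exp (-9) ≤ Real.exp ((m : ℝ) * (-(9 / ((m : ℝ) + 3)))) := by
            apply Real.exp_le_exp.2
            rw [mul_neg, neg_le_neg_iff, ← mul_div_assoc, div_le_iff₀ (by positivity)]
            linarith
        _ = Real.exp (-(9 / ((m : ℝ) + 3))) ^ m := Real.exp_nat_mul _ _
        _ ≤ _ := pow_le_pow_left₀ (Real.exp_pos _).le h2 m
    rw [div_pow, le_div_iff₀ (by positivity)] at h7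
    exact h7
  have h8 : ((m : ℝ) + 2 + 1) ^ 2 ≤ 4 * (((m : ℝ) + 2) - 2) ^ 2 := by nlinarith
  have h9 : (0 : ℝ) ≤ (2 * ((m : ℝ) + 2) - 7) ^ m := pow_nonneg (by linarith) m
  calc Real.exp (-9) / 4 * (2 * ((m : ℝ) + 2 + 1)) ^ (m + 2)
      = (Real.exp (-9) * (2 * ((m : ℝ) + 2 + 1)) ^ m) * ((m : ℝ) + 2 + 1) ^ 2 := by
        rw [pow_add]; ring
    _ ≤ (2 * ((m : ℝ) + 2) - 7) ^ m * (4 * (((m : ℝ) + 2) - 2) ^ 2) :=
        mul_le_mul hx h8 (by positivity) h9
    _ = _ := by ring

end Pool.Agent.LOI
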