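import Pool.Agent.Lib.LOI.KapP

set_option autoImplicit false

namespace Pool.Agent.LOI

open Finset
open scoped Classical

private theorem S1L_small (C ε : ℝ) (hε : 0 < ε) :
    ∃ n₀ : ℕ, ∀ n ≥ n₀, C / ((n : ℝ) + 1) ≤ ε := by
  obtain ⟨n₀, hn₀⟩ := exists_nat_ge (C / ε)
  refine ⟨n₀, fun n hn => ?_⟩
  have h1 : (n₀ : ℝ) ≤ n := by exact_mod_cast hn
  have h2 : (0 : ℝ) < (n : ℝ) + 1 := by positivity
  rw [div_le_iff₀ h2]
  rw [div_le_iff₀ hε] at hn₀
  nlinarith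

private theorem S1L_kap_empty {n : ℕ} (ω : Om n) : kap ω ∅ = 0 := by
  simp [kap, Mt, adj]

private theorem S1L_ends_card (n m : ℕ) :
    ((univ : Finset (Fin (n + 1))).filter fun x => Ends n m x).card ≤ 2 * m := by
  have h1 : ((univ : Finset (Fin (n + 1))).filter fun x => x.val < m).card ≤ m := by
    have h := card_le_card_of_injOn (s := (univ : Finset (Fin (n + 1))).filter fun x => x.val < m)
      (t := range m) (fun x => x.val) (fun x hx => by
        simpa using hx) (fun x _ y _ hxy => Fin.ext hxy)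
    simpa using h
  have h2 : ((univ : Finset (Fin (n + 1))).filter fun x => n < x.val + m).card ≤ m := by
    have h := card_le_card_of_injOn
      (s := (univ : Finset (Fin (n + 1))).filter fun x => n < x.val + m)
      (t := range m) (fun x => n - x.val) (fun x hx => by
        have hx' : n < x.val + m := by simpa using hx
        have := x.isLt
        simp only [coe_range, Set.mem_Iio]
        omega) (fun x _ y _ hxy => by
        have hx := x.isLt
        have hy := y.isLt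
        simp only at hxy
        exact Fin.ext (by omega))
    simpa using h
  have h3 : ((univ : Finset (Fin (n + 1))).filter fun x => Ends n m x) =
      ((univ : Finset (Fin (n + 1))).filter fun x => x.val < m) ∪
      ((univ : Finset (Fin (n + 1))).filter fun x => n < x.val + m) := by
    ext x
    rw [mem_union, mem_filter, mem_filter, mem_filter]
    simp only [mem_univ, true_and]
    rfl
  rw [h3]
  exact le_trans (card_union_le _ _) (by omega)

/-- P4. Proof. `¬ S1`: there is `A` with `1 ≤ |A| ≤ A1 + 3` (`kap ω ∅ = 0`) and `kap ≥ 1`: the sum of `kap_prob a 1` over `a ≤ A1 + 3` tends to `0`. -/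
theorem S1_lim (A1 : ℕ) (ε : ℝ) (hε : 0 < ε) :
    ∃ n₀ : ℕ, ∀ n ≥ n₀, Pb n (fun ω => ¬ S1 A1 ω) ≤ ε := by
  obtain ⟨n₀, hn₀⟩ := S1L_small (∑ a ∈ Icc 1 (A1 + 3), 27 ^ a * (a : ℝ)) ε hε
  refine ⟨n₀, fun n hn => le_trans ?_ (hn₀ n hn)⟩
  have h1 : Pb n (fun ω => ¬ S1 A1 ω) ≤ Pb n (fun ω => ∃ a ∈ Icc 1 (A1 + 3),
      ∃ A : Finset (Fin (n + 1)), A.card = a ∧ ((1 : ℕ) : ℤ) ≤ kap ω A) := by
    refine Pb_mono fun ω hω => ?_
    unfold S1 at hω
    push Not at hω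
    obtain ⟨A, hA, hk⟩ := hω
    refine ⟨A.card, mem_Icc.2 ⟨?_, hA⟩, A, rfl, ?_⟩
    · rw [Nat.one_le_iff_ne_zero]
      intro h0
      rw [card_eq_zero] at h0
      subst h0
      rw [S1L_kap_empty] at hk
      exact lt_irrefl _ hk
    · push_cast
      omega
  refine le_trans h1 (le_trans (Pb_exists _ _) ?_)
  rw [sum_div]
  refine sum_le_sum fun a ha => ?_
  refine le_trans (kap_prob a 1 (mem_Icc.1 ha).1) ?_
  rw [pow_one, mul_div_assoc]

/-- P4. Proof. `¬ S1E`: there are `x0` with `Ends n m x0` (at most `2 m` vertices) and `A ∋ x0`, `|A| = a ≤ A1`, `kap ω A ≥ 0`: `kap_prob_at`. -/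
theorem S1E_lim (m A1 : ℕ) (ε : ℝ) (hε : 0 < ε) :
    ∃ n₀ : ℕ, ∀ n ≥ n₀, Pb n (fun ω => ¬ S1E m A1 ω) ≤ ε := by
  obtain ⟨n₀, hn₀⟩ := S1L_small ((2 * m : ℕ) * ∑ a ∈ Icc 1 A1, 2 * 27 ^ a * (a : ℝ)) ε hε
  refine ⟨n₀, fun n hn => le_trans ?_ (hn₀ n hn)⟩
  have h1 : Pb n (fun ω => ¬ S1E m A1 ω) ≤ Pb n (fun ω =>
      ∃ x0 ∈ (univ : Finset (Fin (n + 1))).filter (fun x => Ends n m x), ∃ a ∈ Icc 1 A1,
      ∃ A : Finset (Fin (n + 1)), x0 ∈ A ∧ A.card = a ∧ 0 ≤ kap ω A) := by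
    refine Pb_mono fun ω hω => ?_
    unfold S1E at hω
    push Not at hω
    obtain ⟨A, hA, ⟨x, hxA, hx⟩, hk⟩ := hω
    refine ⟨x, mem_filter.2 ⟨mem_univ _, hx⟩, A.card, mem_Icc.2 ⟨?_, hA⟩, A, hxA, rfl, ?_⟩
    · exact card_pos.2 ⟨x, hxA⟩
    · omega
  refine le_trans h1 (le_trans (Pb_exists _ _) ?_)
  have h2 : ∀ x0 ∈ (univ : Finset (Fin (n + 1))).filter (fun x => Ends n m x),
      Pb n (fun ω => ∃ a ∈ Icc 1 A1, ∃ A : Finset (Fin (n + 1)), x0 ∈ A ∧ A.card = a ∧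
        0 ≤ kap ω A) ≤ (∑ a ∈ Icc 1 A1, 2 * 27 ^ a * (a : ℝ)) / ((n : ℝ) + 1) := by
    intro x0 _
    refine le_trans (Pb_exists _ _) ?_
    rw [sum_div]
    refine sum_le_sum fun a ha => ?_
    refine le_trans (kap_prob_at a (mem_Icc.1 ha).1 x0) ?_
    rw [mul_div_assoc]
  refine le_trans (sum_le_sum h2) ?_
  rw [sum_const, nsmul_eq_mul, mul_div_assoc]
  refine mul_le_mul_of_nonneg_right ?_ (by positivity)
  exact_mod_cast S1L_ends_card n m

end Pool.Agent.LOI
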