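import Pool.Agent.Lib.LOI.KapP

set_option autoImplicit false

namespace Pool.Agent.LOI

open Finset
open scoped Classical

private theorem s2l_sum (M : ℕ) :
    ∑ a ∈ range M, (a : ℝ) * (1 / 2) ^ a ≤ 2 - (2 * (M : ℝ) + 2) * (1 / 2) ^ M := by
  induction M with
  | zero => simp
  | succ M ih =>
    rw [sum_range_succ]
    have h : (2 * (((M + 1 : ℕ) : ℝ)) + 2) * (1 / 2 : ℝ) ^ (M + 1) =
        ((M : ℝ) + 2) * (1 / 2) ^ M := by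
      push_cast
      ring
    rw [h]
    linarith

private theorem s2l_term (a : ℕ) (N : ℝ) (hN : 0 < N) (ha : (a : ℝ) ≤ eta2 * N) :
    (27 : ℝ) ^ a * ((a : ℝ) / N) ^ (a / 8 + 1) ≤ 54 ^ 8 / N * ((a : ℝ) * (1 / 2) ^ a) := by
  have hq0 : 0 ≤ (a : ℝ) / N := by positivity
  have hq : (a : ℝ) / N ≤ (1 / 54 : ℝ) ^ 8 := by
    rw [div_le_iff₀ hN]
    simpa [eta2] using ha
  have h1 : ((a : ℝ) / N) ^ (a / 8) ≤ (1 / 54 : ℝ) ^ (8 * (a / 8)) := by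
    rw [pow_mul]
    exact pow_le_pow_left₀ hq0 hq _
  have h2 : (1 / 54 : ℝ) ^ (8 * (a / 8)) ≤ 54 ^ 8 * (1 / 54) ^ a := by
    have e1 : (1 / 54 : ℝ) ^ a = (1 / 54 : ℝ) ^ (8 * (a / 8)) * (1 / 54) ^ (a % 8) := by
      rw [← pow_add, Nat.div_add_mod]
    rw [e1]
    have e2 : (1 : ℝ) ≤ 54 ^ 8 * (1 / 54) ^ (a % 8) := by
      have e3 : (1 / 54 : ℝ) ^ 8 ≤ (1 / 54 : ℝ) ^ (a % 8) :=
        pow_le_pow_of_le_one (by norm_num) (by norm_num) (Nat.mod_lt a (by norm_num)).le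
      calc (1 : ℝ) = 54 ^ 8 * (1 / 54) ^ 8 := by norm_num
        _ ≤ 54 ^ 8 * (1 / 54) ^ (a % 8) := by gcongr
    have e4 : 0 ≤ (1 / 54 : ℝ) ^ (8 * (a / 8)) := by positivity
    nlinarith
  have h3 : (27 : ℝ) ^ a * (1 / 54) ^ a = (1 / 2) ^ a := by
    rw [← mul_pow]
    norm_num
  calc (27 : ℝ) ^ a * ((a : ℝ) / N) ^ (a / 8 + 1)
      = 27 ^ a * (((a : ℝ) / N) ^ (a / 8) * ((a : ℝ) / N)) := by rw [pow_succ]
    _ ≤ 27 ^ a * ((54 ^ 8 * (1 / 54) ^ a) * ((a : ℝ) / N)) := by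
        gcongr
        exact h1.trans h2
    _ = 54 ^ 8 / N * ((a : ℝ) * (27 ^ a * (1 / 54) ^ a)) := by
        field_simp
    _ = 54 ^ 8 / N * ((a : ℝ) * (1 / 2) ^ a) := by rw [h3]

/-- P4. Proof. `¬ S2`: there is `A`, `|A| = a`, `A1 ≤ a ≤ eta2 (n+1)`, with `8 kap > a`, so with `k = ⌈a/8⌉` (`8 k ≥ a`, `k ≤ kap`) `kap_prob a k`:
`27^a (a/(n+1))^k`, and its 8th power is `≤ (27^8 a/(n+1))^a ≤ 2^(-8a)` as `a/(n+1) ≤ eta2 = 54^(-8)`. So each term is `≤ 2^(-a)`, and for fixed `a`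
it tends to `0` for `n → ∞` (`k ≥ 1` as `a ≥ 1`). Sum over `a`: choose `L` with `∑_{a > L} 2^(-a) ≤ ε/2`, then `n₀` for the finitely many `a ≤ L`. -/
theorem S2_lim (A1 : ℕ) (hA1 : 1 ≤ A1) (ε : ℝ) (hε : 0 < ε) :
    ∃ n₀ : ℕ, ∀ n ≥ n₀, Pb n (fun ω => ¬ S2 A1 ω) ≤ ε := by
  obtain ⟨n₀, hn₀⟩ := exists_nat_ge (54 ^ 8 * 2 / ε)
  refine ⟨n₀, fun n hn => ?_⟩
  have hN : (0 : ℝ) < (n : ℝ) + 1 := by positivity
  set s : Finset ℕ := (range (n + 2)).filter fun a => 1 ≤ a ∧ (a : ℝ) ≤ eta2 * ((n : ℝ) + 1)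
    with hs
  have h1 : Pb n (fun ω => ¬ S2 A1 ω) ≤ Pb n (fun ω => ∃ a ∈ s,
      ∃ A : Finset (Fin (n + 1)), A.card = a ∧ ((a / 8 + 1 : ℕ) : ℤ) ≤ kap ω A) := by
    refine Pb_mono fun ω hω => ?_
    unfold S2 at hω
    push Not at hω
    obtain ⟨A, hA, hA2, hk⟩ := hω
    refine ⟨A.card, ?_, A, rfl, ?_⟩
    · rw [hs, mem_filter, mem_range]
      refine ⟨?_, by omega, hA2⟩
      have := card_le_univ A
      rw [Fintype.card_fin] at this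
      omega
    · push_cast
      omega
  refine h1.trans ((Pb_exists s _).trans ?_)
  have h2 : ∀ a ∈ s, Pb n (fun ω => ∃ A : Finset (Fin (n + 1)), A.card = a ∧
      ((a / 8 + 1 : ℕ) : ℤ) ≤ kap ω A) ≤
      54 ^ 8 / ((n : ℝ) + 1) * ((a : ℝ) * (1 / 2) ^ a) := by
    intro a ha
    rw [hs, mem_filter] at ha
    exact (kap_prob a (a / 8 + 1) ha.2.1).trans (s2l_term a _ hN ha.2.2)
  refine (sum_le_sum h2).trans ?_
  rw [← mul_sum]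
  have h3 : ∑ a ∈ s, (a : ℝ) * (1 / 2) ^ a ≤ 2 := by
    have h4 : ∑ a ∈ s, (a : ℝ) * (1 / 2) ^ a ≤ ∑ a ∈ range (n + 2), (a : ℝ) * (1 / 2) ^ a :=
      sum_le_sum_of_subset_of_nonneg (filter_subset _ _) fun a _ _ => by positivity
    have h5 := s2l_sum (n + 2)
    have h6 : 0 ≤ (2 * (((n + 2 : ℕ) : ℝ)) + 2) * (1 / 2 : ℝ) ^ (n + 2) := by positivity
    linarith
  calc 54 ^ 8 / ((n : ℝ) + 1) * ∑ a ∈ s, (a : ℝ) * (1 / 2) ^ a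
      ≤ 54 ^ 8 / ((n : ℝ) + 1) * 2 := by gcongr
    _ = 54 ^ 8 * 2 / ((n : ℝ) + 1) := by ring
    _ ≤ ε := by
        rw [div_le_iff₀ hN]
        rw [div_le_iff₀ hε] at hn₀
        have h7 : (n₀ : ℝ) ≤ (n : ℝ) + 1 := by
          have : (n₀ : ℝ) ≤ n := by exact_mod_cast hn
          linarith
        nlinarith

end Pool.Agent.LOI
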