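import Pool.Agent.Lib.LOI.Fin1
import Pool.Agent.Lib.LOI.S1L
import Pool.Agent.Lib.LOI.S2L
import Pool.Agent.Lib.LOI.JP
import Pool.Agent.Lib.LOI.RedP
import Pool.Agent.Lib.LOI.Hit
import Pool.Agent.Lib.LOI.R1Num
import Pool.Agent.Lib.LOI.R2Num
import Pool.Agent.Lib.LOI.BLim

set_option autoImplicit false

namespace Pool.Agent.LOI

open Finset
open scoped Classical

/-- `K! (e/K)^K ≤ e K` -/
private theorem fin2_fact_mul_le (K : ℕ) (hK : 1 ≤ K) :
    (K.factorial : ℝ) * (Real.exp 1) ^ K ≤ Real.exp 1 * K * (K : ℝ) ^ K := by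
  induction K, hK using Nat.le_induction with
  | base => simp
  | succ K hK ih =>
    have hK0 : (0 : ℝ) < K := by exact_mod_cast hK
    have hK1 : (0 : ℝ) < (K : ℝ) + 1 := by linarith
    have h1 : Real.exp 1 * (K : ℝ) ^ (K + 1) ≤ ((K : ℝ) + 1) ^ (K + 1) := by
      have h2 : (K : ℝ) / (K + 1) ≤ Real.exp (-(1 / ((K : ℝ) + 1))) := by
        have := Real.add_one_le_exp (-(1 / ((K : ℝ) + 1)))
        refine le_trans (le_of_eq ?_) this
        field_simp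
        ring
      have h3 : ((K : ℝ) / (K + 1)) ^ (K + 1) ≤ Real.exp (-1) := by
        refine le_trans (pow_le_pow_left₀ (by positivity) h2 _) (le_of_eq ?_)
        rw [← Real.exp_nat_mul]
        congr 1
        push_cast
        field_simp
      rw [div_pow, div_le_iff₀ (by positivity)] at h3
      calc Real.exp 1 * (K : ℝ) ^ (K + 1)
          ≤ Real.exp 1 * (Real.exp (-1) * ((K : ℝ) + 1) ^ (K + 1)) :=
            mul_le_mul_of_nonneg_left h3 (Real.exp_pos _).le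
        _ = ((K : ℝ) + 1) ^ (K + 1) := by
            rw [← mul_assoc, ← Real.exp_add]
            simp
    rw [Nat.factorial_succ]
    push_cast
    calc ((K : ℝ) + 1) * (K.factorial : ℝ) * Real.exp 1 ^ (K + 1)
        = (((K : ℝ) + 1) * Real.exp 1) * ((K.factorial : ℝ) * Real.exp 1 ^ K) := by ring
      _ ≤ (((K : ℝ) + 1) * Real.exp 1) * (Real.exp 1 * K * (K : ℝ) ^ K) :=
          mul_le_mul_of_nonneg_left ih (by positivity)
      _ = (((K : ℝ) + 1) * Real.exp 1) * (Real.exp 1 * (K : ℝ) ^ (K + 1)) := by ring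
      _ ≤ (((K : ℝ) + 1) * Real.exp 1) * (((K : ℝ) + 1) ^ (K + 1)) :=
          mul_le_mul_of_nonneg_left h1 (by positivity)
      _ = Real.exp 1 * (K + 1) * ((K : ℝ) + 1) ^ (K + 1) := by ring

/-- Proof. `K! ≤ e K (K/e)^K` (induction, or `Nat.factorial_lt`/Stirling in Mathlib), so the expression is `≤ C * K^2 * (3/4)^K`, which tends to `0`. -/
theorem choose_K (Cst ε : ℝ) (hC : 0 < Cst) (hε : 0 < ε) : ∃ K : ℕ, 1 ≤ K ∧ 2 / (K : ℝ) ≤ ε ∧
    4 * (8 * (K.factorial : ℝ) * K) * (Cst * (3 / 4) ^ K * (Real.exp 1 / K) ^ K) ≤ ε := by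
  have ht : Filter.Tendsto (fun K : ℕ => (32 * Cst * Real.exp 1) * ((K : ℝ) ^ 2 * (3 / 4 : ℝ) ^ K))
      Filter.atTop (nhds ((32 * Cst * Real.exp 1) * 0)) :=
    (tendsto_pow_const_mul_const_pow_of_abs_lt_one 2 (by norm_num [abs_lt])).const_mul _
  rw [mul_zero] at ht
  have h1 : ∀ᶠ K : ℕ in Filter.atTop,
      (32 * Cst * Real.exp 1) * ((K : ℝ) ^ 2 * (3 / 4 : ℝ) ^ K) ≤ ε :=
    (ht.eventually (ge_mem_nhds hε))
  have h2 : ∀ᶠ K : ℕ in Filter.atTop, 2 / ε ≤ (K : ℝ) :=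
    (tendsto_natCast_atTop_atTop (R := ℝ)).eventually_ge_atTop _
  have h3 : ∀ᶠ K : ℕ in Filter.atTop, 1 ≤ K := Filter.eventually_ge_atTop 1
  obtain ⟨K, hK1, hK2, hK3⟩ := (h1.and (h2.and h3)).exists
  have hK0 : (0 : ℝ) < K := by exact_mod_cast hK3
  refine ⟨K, hK3, ?_, ?_⟩
  · rw [div_le_iff₀ hK0]
    rw [div_le_iff₀ hε] at hK2
    linarith
  · refine le_trans ?_ hK1
    have h4 := fin2_fact_mul_le K hK3
    have h5 : (K.factorial : ℝ) * (Real.exp 1 / K) ^ K ≤ Real.exp 1 * K := by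
      rw [div_pow, ← mul_div_assoc, div_le_iff₀ (by positivity)]
      exact h4
    calc 4 * (8 * (K.factorial : ℝ) * K) * (Cst * (3 / 4) ^ K * (Real.exp 1 / K) ^ K)
        = (32 * Cst * (3 / 4 : ℝ) ^ K * K) * ((K.factorial : ℝ) * (Real.exp 1 / K) ^ K) := by ring
      _ ≤ (32 * Cst * (3 / 4 : ℝ) ^ K * K) * (Real.exp 1 * K) :=
          mul_le_mul_of_nonneg_left h5 (by positivity)
      _ = (32 * Cst * Real.exp 1) * ((K : ℝ) ^ 2 * (3 / 4 : ℝ) ^ K) := by ring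

private theorem fin2_card_low {n m : ℕ} (hm : m ≤ n) :
    ((univ : Finset (Fin (n + 1))).filter fun r => r.val < m).card = m := by
  have h := Fin.card_filter_val_lt (n := n + 1) (m := m)
  rw [min_eq_right (by omega)] at h
  convert h

private theorem fin2_card_high {n m : ℕ} (hm : m ≤ n) :
    ((univ : Finset (Fin (n + 1))).filter fun r => n < r.val + m).card = m := by
  refine Eq.trans ?_ (fin2_card_low hm)
  refine Finset.card_equiv Fin.revPerm fun r => ?_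
  simp only [mem_filter, mem_univ, true_and, Fin.revPerm_apply, Fin.val_rev]
  have := r.isLt
  omega

private theorem fin2_card_ends {n m : ℕ} (hm : m ≤ n) :
    ((univ : Finset (Fin (n + 1))).filter fun r => Ends n m r).card ≤ 2 * m := by
  have h1 : ((univ : Finset (Fin (n + 1))).filter fun r => Ends n m r) ⊆
      ((univ : Finset (Fin (n + 1))).filter fun r => r.val < m) ∪
      ((univ : Finset (Fin (n + 1))).filter fun r => n < r.val + m) := by
    intro r hr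
    rw [mem_filter] at hr
    rw [mem_union, mem_filter, mem_filter]
    rcases hr.2 with h | h
    · exact Or.inl ⟨mem_univ _, h⟩
    · exact Or.inr ⟨mem_univ _, h⟩
  refine (card_le_card h1).trans ((card_union_le _ _).trans ?_)
  rw [fin2_card_low hm, fin2_card_high hm]
  omega

private theorem fin2_exists_large (δ c : ℝ) (hδ : 0 < δ) : ∃ n₀ : ℕ, ∀ n ≥ n₀, c ≤ δ * ((n : ℝ) + 1) := by
  obtain ⟨n₀, h⟩ := exists_nat_ge (c / δ)
  refine ⟨n₀, fun n hn => ?_⟩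
  have h1 : (n₀ : ℝ) ≤ n := by exact_mod_cast hn
  rw [div_le_iff₀ hδ] at h
  nlinarith

/-- ASSEMBLY, one `ε`. Proof. `NJ` with `14/(NJ+1) ≤ ε/10`; `Cst` of `regime1 (NJ+3)`; `K` of `choose_K Cst (ε/10)`; `m = 8 K! K`; `A1 = 2 (NJ + 4m + 4)`; `δ` of `regime2`; `n` large. If `Red ω ∧ ¬ LI (Grp ω)` then one of the hypotheses of
`li_of_events` fails: union bound (`Pb_or`, `Pb_exists`): `S1_lim`, `S1E_lim`, `S2_lim`, `J_prob`, `regime2`, `BL_lim`, `regime1` for the at most `2m` vertices with `Ends n m r` and `s`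
(`4 m` terms; such `r` are no bases of mid halves: `mid_base`), `hit_prob` for `W = {r | r.val < m}` and `W = {r | n < r.val + m}` (both have `m` elements for `m ≤ n`). -/
theorem bad_prob (ε : ℝ) (hε : 0 < ε) : ∃ n₀ : ℕ, ∀ n ≥ n₀,
    Pb n (fun ω => Red ω ∧ ¬ LI (Grp ω)) ≤ ε := by
  have hε' : 0 < ε / 10 := by positivity
  obtain ⟨NJ, hNJ⟩ : ∃ NJ : ℕ, 14 / ((NJ : ℝ) + 1) ≤ ε / 10 := by
    obtain ⟨NJ, h⟩ := exists_nat_ge (140 / ε)
    refine ⟨NJ, ?_⟩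
    rw [div_le_iff₀ hε] at h
    rw [div_le_iff₀ (by positivity)]
    nlinarith
  obtain ⟨Cst, hCst, hreg⟩ := regime1 (NJ + 3)
  obtain ⟨K, hK1, hK2, hK3⟩ := choose_K Cst (ε / 10) hCst hε'
  obtain ⟨δ, hδ, hR2⟩ := regime2
  obtain ⟨m, hm⟩ : ∃ m, m = 8 * K.factorial * K := ⟨_, rfl⟩
  obtain ⟨A1, hA1⟩ : ∃ A1, A1 = 2 * (NJ + 4 * m + 4) := ⟨_, rfl⟩
  obtain ⟨n1, h1⟩ := hR2 m (ε / 10) hε'
  obtain ⟨n2, h2⟩ := S1_lim A1 (ε / 10) hε'
  obtain ⟨n3, h3⟩ := S1E_lim m A1 (ε / 10) hε'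
  obtain ⟨n4, h4⟩ := S2_lim A1 (by omega) (ε / 10) hε'
  obtain ⟨n5, h5⟩ := BL_lim m (δ / (4 * (((NJ + 3 : ℕ) : ℝ) + 1))) (by positivity) (ε / 10) hε'
  obtain ⟨n6, h6⟩ := hreg K m hK1
  obtain ⟨n7, h7⟩ := hit_prob K m hK1
  obtain ⟨n8, h8⟩ := fin2_exists_large (eta2 / 4) ((NJ : ℝ) + 4) (by unfold eta2; positivity)
  obtain ⟨n9, h9⟩ := fin2_exists_large δ (2 * (((NJ + 3 : ℕ) : ℝ) + 1)) hδ
  refine ⟨n1 + n2 + n3 + n4 + n5 + n6 + n7 + n8 + n9 + 2 * m, fun n hn => ?_⟩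
  have g1 := h1 n (by omega)
  have g2 := h2 n (by omega)
  have g3 := h3 n (by omega)
  have g4 := h4 n (by omega)
  have g5 := h5 n (by omega)
  have g6 := h6 n (by omega)
  have g7 := h7 n (by omega)
  have g8 := h8 n (by omega)
  have g9 := h9 n (by omega)
  have hmn : m ≤ n := by omega
  have gJ := (J_prob n NJ).trans hNJ
  have gL := (g7 ((univ : Finset (Fin (n + 1))).filter fun r => r.val < m)
    (by rw [fin2_card_low hmn, hm])).trans hK2
  have gH := (g7 ((univ : Finset (Fin (n + 1))).filter fun r => n < r.val + m)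
    (by rw [fin2_card_high hmn, hm])).trans hK2
  -- regime 1
  have gR : Pb n (fun ω => ∃ i ∈ ((univ : Finset (Fin (n + 1))).filter fun r => Ends n m r) ×ˢ
      (univ : Finset Bool), R1 m (NJ + 3) K i.1 i.2 ω) ≤ ε / 10 := by
    refine (Pb_exists _ _).trans ?_
    refine (sum_le_card_nsmul _ _ (Cst * (3 / 4) ^ K * (Real.exp 1 / K) ^ K) ?_).trans ?_
    · rintro ⟨r, s⟩ hi
      rw [mem_product, mem_filter] at hi
      refine g6 r s fun h hh hb => ?_
      have h10 := mid_base hh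
      rw [hb] at h10
      rcases hi.1.2 with h11 | h11
      · simp only at h11
        omega
      · simp only at h11
        omega
    · refine le_trans ?_ hK3
      rw [nsmul_eq_mul, card_product]
      refine mul_le_mul_of_nonneg_right ?_ (by positivity)
      have h12 := fin2_card_ends hmn
      have h13 : (univ : Finset Bool).card = 2 := rfl
      rw [h13]
      have h14 : ((((univ : Finset (Fin (n + 1))).filter fun r => Ends n m r).card * 2 : ℕ) : ℝ) ≤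
          ((2 * m * 2 : ℕ) : ℝ) := by exact_mod_cast Nat.mul_le_mul_right 2 h12
      refine h14.trans (le_of_eq ?_)
      rw [hm]
      push_cast
      ring
  -- the union
  have hU : Pb n (fun ω => Red ω ∧ ¬ LI (Grp ω)) ≤ Pb n (fun ω => (R2 m δ ω ∨ (¬ S1 A1 ω ∨
      (¬ S1E m A1 ω ∨ (¬ S2 A1 ω ∨ (BL m (δ / (4 * (((NJ + 3 : ℕ) : ℝ) + 1))) ω ∨
      ((Red ω ∧ NJ < (Jset ω).card) ∨
      ((∀ r ∈ ((univ : Finset (Fin (n + 1))).filter fun r => r.val < m), Lr m ω r < K) ∨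
      ((∀ r ∈ ((univ : Finset (Fin (n + 1))).filter fun r => n < r.val + m), Lr m ω r < K) ∨
      (∃ i ∈ ((univ : Finset (Fin (n + 1))).filter fun r => Ends n m r) ×ˢ
      (univ : Finset Bool), R1 m (NJ + 3) K i.1 i.2 ω)))))))))) := by
    refine Pb_mono ?_
    rintro ω ⟨hω, hLI⟩
    by_contra hcon
    push Not at hcon
    obtain ⟨k1, k2, k3, k4, k5, k6, ⟨a, ka1, ka2⟩, ⟨b, kb1, kb2⟩, k9⟩ := hcon
    refine hLI (li_of_events (m := m) (A1 := A1) (NJ := NJ) (K := K) (δ := δ) (by omega)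
      (by omega) g8 g9 hω k2 k3 k4 (k6 hω) k1 k5 ?_ ?_ ?_)
    · intro r hr s hR
      exact k9 (r, s) (mem_product.2 ⟨mem_filter.2 ⟨mem_univ _, hr⟩, mem_univ _⟩) hR
    · exact ⟨a, (mem_filter.1 ka1).2, ka2⟩
    · exact ⟨b, (mem_filter.1 kb1).2, kb2⟩
  refine hU.trans ?_
  refine (Pb_or _ _).trans ?_
  have e1 := Pb_or (n := n) (fun ω => ¬ S1 A1 ω) (fun ω => (¬ S1E m A1 ω ∨ (¬ S2 A1 ω ∨ (BL m (δ / (4 * (((NJ + 3 : ℕ) : ℝ) + 1))) ω ∨
      ((Red ω ∧ NJ < (Jset ω).card) ∨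
      ((∀ r ∈ ((univ : Finset (Fin (n + 1))).filter fun r => r.val < m), Lr m ω r < K) ∨
      ((∀ r ∈ ((univ : Finset (Fin (n + 1))).filter fun r => n < r.val + m), Lr m ω r < K) ∨
      (∃ i ∈ ((univ : Finset (Fin (n + 1))).filter fun r => Ends n m r) ×ˢ
      (univ : Finset Bool), R1 m (NJ + 3) K i.1 i.2 ω))))))))
  have e2 := Pb_or (n := n) (fun ω => ¬ S1E m A1 ω) (fun ω => (¬ S2 A1 ω ∨ (BL m (δ / (4 * (((NJ + 3 : ℕ) : ℝ) + 1))) ω ∨
      ((Red ω ∧ NJ < (Jset ω).card) ∨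
      ((∀ r ∈ ((univ : Finset (Fin (n + 1))).filter fun r => r.val < m), Lr m ω r < K) ∨
      ((∀ r ∈ ((univ : Finset (Fin (n + 1))).filter fun r => n < r.val + m), Lr m ω r < K) ∨
      (∃ i ∈ ((univ : Finset (Fin (n + 1))).filter fun r => Ends n m r) ×ˢ
      (univ : Finset Bool), R1 m (NJ + 3) K i.1 i.2 ω)))))))
  have e3 := Pb_or (n := n) (fun ω => ¬ S2 A1 ω) (fun ω => (BL m (δ / (4 * (((NJ + 3 : ℕ) : ℝ) + 1))) ω ∨
      ((Red ω ∧ NJ < (Jset ω).card) ∨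
      ((∀ r ∈ ((univ : Finset (Fin (n + 1))).filter fun r => r.val < m), Lr m ω r < K) ∨
      ((∀ r ∈ ((univ : Finset (Fin (n + 1))).filter fun r => n < r.val + m), Lr m ω r < K) ∨
      (∃ i ∈ ((univ : Finset (Fin (n + 1))).filter fun r => Ends n m r) ×ˢ
      (univ : Finset Bool), R1 m (NJ + 3) K i.1 i.2 ω))))))
  have e4 := Pb_or (n := n) (fun ω => BL m (δ / (4 * (((NJ + 3 : ℕ) : ℝ) + 1))) ω) (fun ω =>
      ((Red ω ∧ NJ < (Jset ω).card) ∨
      ((∀ r ∈ ((univ : Finset (Fin (n + 1))).filter fun r => r.val < m), Lr m ω r < K) ∨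
      ((∀ r ∈ ((univ : Finset (Fin (n + 1))).filter fun r => n < r.val + m), Lr m ω r < K) ∨
      (∃ i ∈ ((univ : Finset (Fin (n + 1))).filter fun r => Ends n m r) ×ˢ
      (univ : Finset Bool), R1 m (NJ + 3) K i.1 i.2 ω)))))
  have e5 := Pb_or (n := n) (fun ω => (Red ω ∧ NJ < (Jset ω).card)) (fun ω =>
      ((∀ r ∈ ((univ : Finset (Fin (n + 1))).filter fun r => r.val < m), Lr m ω r < K) ∨
      ((∀ r ∈ ((univ : Finset (Fin (n + 1))).filter fun r => n < r.val + m), Lr m ω r < K) ∨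
      (∃ i ∈ ((univ : Finset (Fin (n + 1))).filter fun r => Ends n m r) ×ˢ
      (univ : Finset Bool), R1 m (NJ + 3) K i.1 i.2 ω))))
  have e6 := Pb_or (n := n) (fun ω => ∀ r ∈ ((univ : Finset (Fin (n + 1))).filter fun r =>
      r.val < m), Lr m ω r < K) (fun ω =>
      ((∀ r ∈ ((univ : Finset (Fin (n + 1))).filter fun r => n < r.val + m), Lr m ω r < K) ∨
      (∃ i ∈ ((univ : Finset (Fin (n + 1))).filter fun r => Ends n m r) ×ˢ
      (univ : Finset Bool), R1 m (NJ + 3) K i.1 i.2 ω)))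
  have e7 := Pb_or (n := n) (fun ω => ∀ r ∈ ((univ : Finset (Fin (n + 1))).filter fun r =>
      n < r.val + m), Lr m ω r < K) (fun ω =>
      (∃ i ∈ ((univ : Finset (Fin (n + 1))).filter fun r => Ends n m r) ×ˢ
      (univ : Finset Bool), R1 m (NJ + 3) K i.1 i.2 ω))
  linarith

/-- Proof. `bad_prob (ε * c₀)` and `BRed_prob`. -/
theorem main_bound (ε : ℝ) (hε : 0 < ε) : ∃ n₀ : ℕ, ∀ n ≥ n₀,
    ((univ.filter fun ω : Om n => Red ω ∧ ¬ LI (Grp ω)).card : ℝ) ≤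
      ε * ((univ.filter fun ω : Om n => BRed ω).card : ℝ) := by
  obtain ⟨c₀, hc, n1, h1⟩ := BRed_prob
  obtain ⟨n2, h2⟩ := bad_prob (ε * c₀) (by positivity)
  refine ⟨n1 + n2, fun n hn => ?_⟩
  have g1 := h1 n (by omega)
  have g2 := h2 n (by omega)
  have g3 := g2.trans (mul_le_mul_of_nonneg_left g1 hε.le)
  have hp : (0 : ℝ) < (2 * ((n : ℝ) + 1)) ^ n := by positivity
  rw [Pb_eq (fun ω : Om n => Red ω ∧ ¬ LI (Grp ω)), Pb_eq (BRed (n := n)),
    div_le_iff₀ hp, mul_assoc, div_mul_cancel₀ _ hp.ne'] at g3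
  exact g3

end Pool.Agent.LOI
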