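import Pool.Agent.Lib.LOI.UnB
import Pool.Agent.Lib.LOI.LkSum

set_option autoImplicit false

namespace Pool.Agent.LOI

open Finset
open scoped Classical

variable {n : ℕ}

private theorem flow_push {a b : Fin (n + 1)} (hab : a < b) {ω : Om n} (hu : UReq ω)
    (U : Finset (Node n)) :
    ∑ c ∈ (univ : Finset (Half n × Bool)).filter (fun c => (bs c.1, c.2) ∈ U),
      un a b ω c.1 c.2 = 2 * (U.card : ℤ) - (U.filter fun ν => ν.1 = a ∨ ν.1 = b).card := by
  have h1 : ∑ c ∈ (univ : Finset (Half n × Bool)).filter (fun c => (bs c.1, c.2) ∈ U),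
      un a b ω c.1 c.2 = ∑ ν ∈ U, ∑ h ∈ (univ : Finset (Half n)).filter (fun h => bs h = ν.1),
        un a b ω h ν.2 := by
    rw [← sum_fiberwise_of_maps_to (s := (univ : Finset (Half n × Bool)).filter
      (fun c => (bs c.1, c.2) ∈ U)) (t := U) (g := fun c => (bs c.1, c.2))
      (fun c hc => (mem_filter.1 hc).2)]
    refine sum_congr rfl fun ν hν => ?_
    refine (sum_bij (fun (h : Half n) _ => (h, ν.2)) ?_ ?_ ?_ ?_).symm
    · intro h hh
      have h2 := (mem_filter.1 hh).2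
      simp only [mem_filter, mem_univ, true_and]
      rw [h2]
      exact ⟨hν, rfl⟩
    · intro h _ h' _ e
      exact (Prod.ext_iff.1 e).1
    · rintro ⟨h, t⟩ hc
      simp only [mem_filter, mem_univ, true_and] at hc
      obtain ⟨hc1, hc2⟩ := hc
      refine ⟨h, mem_filter.2 ⟨mem_univ _, ?_⟩, ?_⟩
      · rw [← hc2]
      · rw [← hc2]
    · intro h _
      rfl
  rw [h1]
  have h2 : ∀ ν ∈ U, ∑ h ∈ (univ : Finset (Half n)).filter (fun h => bs h = ν.1),
        un a b ω h ν.2 = 2 - (if ν.1 = a ∨ ν.1 = b then 1 else 0) := by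
    intro ν _
    rw [un_push hab hu ν.1 ν.2]
    split_ifs <;> norm_num
  rw [sum_congr rfl h2, sum_sub_distrib, sum_const, nsmul_eq_mul, sum_boole]
  push_cast
  ring

/-- Proof. `∑_{(x,t) ∈ U} ∑_{h at x} un h t = 2 |U| - #(root ends in U)` (`un_push`, `a ≠ b`); the left side is the sum of `un c.1 c.2` over the corners `c` with
`(bs c.1, c.2) ∈ U`, i.e. over `ins ω U` and over those with `hd ω c.1 ∉ U`. -/
theorem leak_flow {a b : Fin (n + 1)} (hab : a < b) {ω : Om n} (hu : UReq ω)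
    (U : Finset (Node n)) :
    leak (un a b ω) ω U = ((U.filter fun ν => ν.1 = a ∨ ν.1 = b).card : ℤ) +
      ∑ c ∈ (univ : Finset (Half n × Bool)).filter
        (fun c => (bs c.1, c.2) ∈ U ∧ hd ω c.1 ∉ U), un a b ω c.1 c.2 := by
  have h1 := flow_push hab hu U
  have h2 : ∑ c ∈ (univ : Finset (Half n × Bool)).filter (fun c => (bs c.1, c.2) ∈ U),
      un a b ω c.1 c.2 = ∑ c ∈ ins ω U, un a b ω c.1 c.2 +
        ∑ c ∈ (univ : Finset (Half n × Bool)).filter
        (fun c => (bs c.1, c.2) ∈ U ∧ hd ω c.1 ∉ U), un a b ω c.1 c.2 := by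
    rw [← sum_filter_add_sum_filter_not ((univ : Finset (Half n × Bool)).filter
      (fun c => (bs c.1, c.2) ∈ U)) (fun c => hd ω c.1 ∈ U)]
    rw [filter_filter, filter_filter]
    rfl
  unfold leak
  linarith

/-- Proof. Otherwise the four root ends are in `U` and (`leak_flow`, `un_nonneg`) the leak is `≥ 4`. The flow into any set of corners
from `U` to the complement is at most the leak. -/
theorem root_out {a b : Fin (n + 1)} (hab : a < b) {ω : Om n} (hu : UReq ω)
    (U : Finset (Node n)) (h : leak (un a b ω) ω U ≤ 3) :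
    ∃ r s, (r = a ∨ r = b) ∧ (r, s) ∉ U ∧
      ∀ X : Finset (Half n × Bool), (∀ c ∈ X, (bs c.1, c.2) ∈ U ∧ hd ω c.1 ∉ U) →
        ∑ c ∈ X, un a b ω c.1 c.2 ≤ 3 := by
  have h1 := leak_flow hab hu U
  have h2 : ∀ X : Finset (Half n × Bool), (∀ c ∈ X, (bs c.1, c.2) ∈ U ∧ hd ω c.1 ∉ U) →
      ∑ c ∈ X, un a b ω c.1 c.2 ≤ ∑ c ∈ (univ : Finset (Half n × Bool)).filter
        (fun c => (bs c.1, c.2) ∈ U ∧ hd ω c.1 ∉ U), un a b ω c.1 c.2 := by
    intro X hX
    refine sum_le_sum_of_subset_of_nonneg ?_ (fun c _ _ => un_nonneg _ _ _ _ _)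
    intro c hc
    exact mem_filter.2 ⟨mem_univ _, hX c hc⟩
  have h3 : (0 : ℤ) ≤ ((U.filter fun ν => ν.1 = a ∨ ν.1 = b).card : ℤ) := by positivity
  have h0 := h2 ∅ (by simp)
  rw [sum_empty] at h0
  by_contra hcon
  push Not at hcon
  have h4 : ∀ r s, (r = a ∨ r = b) → (r, s) ∈ U := by
    intro r s hr
    by_contra hrs
    obtain ⟨X, hX, hX'⟩ := hcon r s hr hrs
    have := h2 X hX
    linarith
  have h5 : ({(a, true), (a, false), (b, true), (b, false)} : Finset (Node n)) ⊆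
      U.filter fun ν => ν.1 = a ∨ ν.1 = b := by
    intro ν hν
    simp only [mem_insert, mem_singleton] at hν
    rw [mem_filter]
    rcases hν with rfl | rfl | rfl | rfl
    · exact ⟨h4 _ _ (Or.inl rfl), Or.inl rfl⟩
    · exact ⟨h4 _ _ (Or.inl rfl), Or.inl rfl⟩
    · exact ⟨h4 _ _ (Or.inr rfl), Or.inr rfl⟩
    · exact ⟨h4 _ _ (Or.inr rfl), Or.inr rfl⟩
  have h6 : ({(a, true), (a, false), (b, true), (b, false)} : Finset (Node n)).card = 4 := by
    have hne : a ≠ b := hab.ne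
    rw [card_insert_of_notMem, card_insert_of_notMem, card_insert_of_notMem, card_singleton]
    · simp
    · simp [hne]
    · simp [hne]
  have h7 := card_le_card h5
  rw [h6] at h7
  have h8 : (4 : ℤ) ≤ ((U.filter fun ν => ν.1 = a ∨ ν.1 = b).card : ℤ) := by exact_mod_cast h7
  linarith

end Pool.Agent.LOI
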