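import Pool.Agent.Lib.LOI.Defs

set_option autoImplicit false

namespace Pool.Agent.LOI

open Finset
open scoped Classical

variable {n : ℕ}

theorem bs_false (j : Fin n) : bs (j, false) = j.castSucc := rfl

theorem bs_true (j : Fin n) : bs (j, true) = j.succ := rfl

theorem hd_fst (ω : Om n) (h : Half n) : (hd ω h).1 = lb ω h := rfl

theorem bs_ne (j : Fin n) : bs (j, false) ≠ bs (j, true) := by
  rw [bs_false, bs_true]
  intro h
  have := congrArg Fin.val h
  simp at this

theorem hd_ne (ω : Om n) (j : Fin n) : hd ω (j, false) ≠ hd ω (j, true) := by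
  intro h
  have := congrArg Prod.snd h
  simp [hd] at this

theorem half_ext {h h' : Half n} (h1 : bs h = bs h') (h2 : h.2 = h'.2) : h = h' := by
  obtain ⟨j, i⟩ := h
  obtain ⟨j', i'⟩ := h'
  simp only at h2
  subst h2
  cases i
  · rw [bs_false, bs_false] at h1
    rw [Fin.castSucc_injective _ h1]
  · rw [bs_true, bs_true] at h1
    rw [Fin.succ_injective _ h1]

/-- halves with the same base are on different edges -/
theorem edge_ne {h h' : Half n} (h1 : bs h = bs h') (h2 : h ≠ h') : h.1 ≠ h'.1 := by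
  obtain ⟨j, i⟩ := h
  obtain ⟨j', i'⟩ := h'
  intro h3
  simp only at h3
  subst h3
  cases i <;> cases i'
  · exact h2 rfl
  · exact bs_ne j h1
  · exact bs_ne j h1.symm
  · exact h2 rfl

/-- halves of the same edge are equal if they have the same base -/
theorem half_eq_of_edge {h h' : Half n} (h1 : h.1 = h'.1) (h2 : bs h = bs h') : h = h' := by
  by_contra h3
  exact edge_ne h2 h3 h1

/-- halves of the same edge are equal if they have the same head -/
theorem half_eq_of_hd (ω : Om n) {h h' : Half n} (h1 : h.1 = h'.1) (h2 : hd ω h = hd ω h') :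
    h = h' := by
  obtain ⟨j, i⟩ := h
  obtain ⟨j', i'⟩ := h'
  simp only at h1
  subst h1
  cases i <;> cases i'
  · rfl
  · exact (hd_ne ω j h2).elim
  · exact (hd_ne ω j h2.symm).elim
  · rfl

/-- the halves at a vertex -/
theorem at_card_le (x : Fin (n + 1)) :
    ((univ : Finset (Half n)).filter fun h => bs h = x).card ≤ 2 := by
  have h : ((univ : Finset (Half n)).filter fun h => bs h = x).card ≤ (univ : Finset Bool).card := by
    refine Finset.card_le_card_of_injOn Prod.snd (fun _ _ => mem_univ _) ?_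
    intro h hh h' hh' e
    simp only [coe_filter, mem_univ, true_and, Set.mem_ofPred_eq] at hh hh'
    exact half_ext (hh.trans hh'.symm) e
  simpa using h

/-- the other half at an inner vertex -/
theorem exists_other (h : Half n) (h0 : 0 < (bs h).val) (hn : (bs h).val < n) :
    ∃ h' : Half n, h' ≠ h ∧ bs h' = bs h ∧ h'.2 = !h.2 ∧ ∀ k, bs k = bs h → k = h ∨ k = h' := by
  obtain ⟨j, i⟩ := h
  cases i
  · rw [bs_false] at h0 hn ⊢
    simp only [Fin.val_castSucc] at h0 hn
    refine ⟨(⟨j.val - 1, by omega⟩, true), by simp, ?_, rfl, ?_⟩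
    · rw [bs_true]
      ext
      simp
      omega
    · intro k hk
      by_cases h2 : k.2 = false
      · left
        exact half_ext (by rw [hk, bs_false]) h2
      · right
        refine half_ext ?_ (by simpa using h2)
        rw [hk, bs_true]
        ext
        simp
        omega
  · rw [bs_true] at h0 hn ⊢
    simp only [Fin.val_succ] at h0 hn
    refine ⟨(⟨j.val + 1, hn⟩, false), by simp, ?_, rfl, ?_⟩
    · rw [bs_false]
      ext
      simp
    · intro k hk
      by_cases h2 : k.2 = true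
      · left
        exact half_ext (by rw [hk, bs_true]) h2
      · right
        refine half_ext ?_ (by simpa using h2)
        rw [hk, bs_false]
        ext
        simp

/-- the two halves at an inner vertex -/
theorem exists_two (x : Fin (n + 1)) (h0 : 0 < x.val) (hn : x.val < n) :
    ∃ h h' : Half n, h.2 = true ∧ h'.2 = false ∧ bs h = x ∧ bs h' = x ∧
      ∀ k, bs k = x → k = h ∨ k = h' := by
  have hb : bs ((⟨x.val, hn⟩, false) : Half n) = x := by
    rw [bs_false]
    ext
    simp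
  obtain ⟨h, h1, h2, h3, h4⟩ := exists_other ((⟨x.val, hn⟩, false) : Half n)
    (by rw [hb]; exact h0) (by rw [hb]; exact hn)
  refine ⟨h, (⟨x.val, hn⟩, false), by simpa using h3, rfl, by rw [h2, hb], hb, ?_⟩
  intro k hk
  rcases h4 k (by rw [hk, hb]) with h5 | h5
  · exact Or.inr h5
  · exact Or.inl h5

theorem mem_pr {U : Finset (Node n)} {x : Fin (n + 1)} : x ∈ pr U ↔ ∃ t, (x, t) ∈ U := by
  unfold pr
  rw [mem_image]
  constructor
  · rintro ⟨⟨y, t⟩, h1, h2⟩
    simp only at h2
    subst h2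
    exact ⟨t, h1⟩
  · rintro ⟨t, ht⟩
    exact ⟨(x, t), ht, rfl⟩

theorem mem_full {U : Finset (Node n)} {x : Fin (n + 1)} :
    x ∈ full U ↔ (x, true) ∈ U ∧ (x, false) ∈ U := by
  simp [full]

theorem full_sub (U : Finset (Node n)) : full U ⊆ pr U := by
  intro x hx
  rw [mem_full] at hx
  exact mem_pr.2 ⟨true, hx.1⟩

theorem mem_used {ω : Om n} {U : Finset (Node n)} {h : Half n} :
    h ∈ used ω U ↔ bs h ∈ pr U ∧ hd ω h ∈ U := by
  simp [used]

theorem mem_usedAt {ω : Om n} {U : Finset (Node n)} {x : Fin (n + 1)} {h : Half n} :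
    h ∈ usedAt ω U x ↔ h ∈ used ω U ∧ bs h = x := by
  simp [usedAt]

theorem mem_ins {ω : Om n} {U : Finset (Node n)} {c : Half n × Bool} :
    c ∈ ins ω U ↔ (bs c.1, c.2) ∈ U ∧ hd ω c.1 ∈ U := by
  simp [ins]

theorem mem_loc {ω : Om n} {A : Finset (Fin (n + 1))} {h : Half n} :
    h ∈ loc ω A ↔ bs h ∈ A ∧ lb ω h ∈ A := by
  simp [loc]

theorem mem_Jset {ω : Om n} {x : Fin (n + 1)} : x ∈ Jset ω ↔ ∃ t h, bs h = x ∧ Req ω t h := by
  simp [Jset]

theorem mem_Mid {m : ℕ} {j : Fin n} : j ∈ Mid n m ↔ m ≤ j.val ∧ j.val + m < n := by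
  simp [Mid]

theorem mem_Cov {m : ℕ} {ω : Om n} {C : Finset (Node n)} {x : Fin (n + 1)} :
    x ∈ Cov m ω C ↔ ∃ h : Half n, h.1 ∈ Mid n m ∧ hd ω h ∈ C ∧ bs h = x := by
  unfold Cov
  rw [mem_image]
  constructor
  · rintro ⟨h, h1, h2⟩
    rw [mem_filter] at h1
    exact ⟨h, h1.2.1, h1.2.2, h2⟩
  · rintro ⟨h, h1, h2, h3⟩
    exact ⟨h, mem_filter.2 ⟨mem_univ _, h1, h2⟩, h3⟩

theorem mem_missH {m : ℕ} {ω : Om n} {C : Finset (Node n)} {h : Half n} :
    h ∈ missH m ω C ↔ h.1 ∈ Mid n m ∧ hd ω h ∈ C ∧ bs h ∉ pr C := by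
  simp [missH]

/-- bases of mid halves are between `m` and `n - m` -/
theorem mid_base {m : ℕ} {h : Half n} (hm : h.1 ∈ Mid n m) :
    m ≤ (bs h).val ∧ (bs h).val + m ≤ n := by
  rw [mem_Mid] at hm
  obtain ⟨j, i⟩ := h
  cases i
  · rw [bs_false]
    simp only [Fin.val_castSucc]
    simp only at hm
    omega
  · rw [bs_true]
    simp only [Fin.val_succ]
    simp only at hm
    omega

theorem mem_covE {R : Finset (Fin n)} {x : Fin (n + 1)} :
    x ∈ covE R ↔ ∃ h : Half n, h.1 ∈ R ∧ bs h = x := by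
  unfold covE
  rw [mem_union, mem_image, mem_image]
  constructor
  · rintro (⟨j, h1, h2⟩ | ⟨j, h1, h2⟩)
    · exact ⟨(j, false), h1, h2⟩
    · exact ⟨(j, true), h1, h2⟩
  · rintro ⟨⟨j, i⟩, h1, h2⟩
    cases i
    · exact Or.inl ⟨j, h1, h2⟩
    · exact Or.inr ⟨j, h1, h2⟩

end Pool.Agent.LOI
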