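import Pool.Agent.Lib.LOI.Chain
import Pool.Agent.Lib.LOI.Half

set_option autoImplicit false

namespace Pool.Agent.LOI

open Finset
open scoped Classical

private noncomputable def GF_equiv (n : ℕ) : Finset (Fin n) ≃ (Fin n → Bool) where
  toFun A i := decide (i ∈ A)
  invFun σ := univ.filter fun i => σ i = true
  left_inv A := by
    ext i
    simp
  right_inv σ := by
    funext i
    simp

private theorem GF_prod {ι : Type} [Fintype ι] (p : ι → Prop) [DecidablePred p] (x : ℝ) :
    ∏ i, (if p i then x else 1) = x ^ (univ.filter p).card := by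
  rw [Finset.prod_ite, Finset.prod_const, Finset.prod_const_one, mul_one]

/-- sets as `Bool` sequences. Proof. `A ↦ (i ↦ decide (i ∈ A))` is a bijection; `ρ^|A|` is the product over `i`, `w^|adj A|` the product over the
edges (`Finset.prod_ite`/`prod_pow_boole`). `c` is the indicator weight of the forced vertex (`c i true = 1`, `c i false = 0` for `i = x0`; take `c = 1` for no
condition). -/
theorem gf_chain (n : ℕ) (ρ w : ℝ) (c : ℕ → Bool → ℝ) :
    ∑ A : Finset (Fin (n + 1)), (ρ ^ A.card * w ^ (adj A).card) * ∏ i : Fin (n + 1), c i.val (decide (i ∈ A)) =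
      ∑ s, vec (fun i s => (if s then ρ else 1) * c i s) (fun s s' => if s && s' then w else 1) n s := by
  have h := chain_sum (S := Bool) (fun i s => (if s then ρ else 1) * c i s)
    (fun s s' => if s && s' then w else 1) (fun _ => 1) n
  simp only [mul_one] at h
  rw [← h]
  refine Fintype.sum_equiv (GF_equiv (n + 1)) _ _ fun A => ?_
  have h1 : ∀ i, GF_equiv (n + 1) A i = decide (i ∈ A) := fun _ => rfl
  simp only [h1, Finset.prod_mul_distrib, decide_eq_true_eq, Bool.and_eq_true]
  rw [GF_prod, GF_prod]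
  have h2 : (univ.filter fun i => i ∈ A) = A := by
    ext i
    simp
  have h3 : (univ.filter fun j : Fin n => j.castSucc ∈ A ∧ j.succ ∈ A) = adj A := by
    ext j
    simp [adj]
  rw [h2, h3]
  ring

/-- P2. Proof. `gf_chain` with `c = 1`; with `a_i = vec i false`, `b_i = vec i true`: `a_{i+1} = a_i + b_i`, `b_{i+1} = ρ (a_i + w b_i)`; by induction
`0 ≤ b_i ≤ 2 ρ a_i`, `a_i ≤ (1 + 2ρ)^i` (`b_{i+1} ≤ ρ (a_i + 2 ρ w a_i) ≤ (3/2) ρ a_i ≤ 2 ρ a_{i+1}`). Total `a_n + b_n ≤ (1 + 2ρ)^(n+1)`. -/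
theorem gf_sum (n : ℕ) (ρ w : ℝ) (hρ : 0 ≤ ρ) (hw : 0 ≤ w) (h : ρ * w ≤ 1 / 4) :
    ∑ A : Finset (Fin (n + 1)), ρ ^ A.card * w ^ (adj A).card ≤ (1 + 2 * ρ) ^ (n + 1) := by
  have h1 := gf_chain n ρ w (fun _ _ => 1)
  simp only [Finset.prod_const_one, mul_one] at h1
  rw [h1]
  have key : ∀ i : ℕ, 0 ≤ vec (fun (_ : ℕ) (s : Bool) => if s then ρ else 1)
        (fun s s' => if s && s' then w else 1) i false ∧
      0 ≤ vec (fun (_ : ℕ) (s : Bool) => if s then ρ else 1)
        (fun s s' => if s && s' then w else 1) i true ∧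
      vec (fun (_ : ℕ) (s : Bool) => if s then ρ else 1)
        (fun s s' => if s && s' then w else 1) i false +
      2 * vec (fun (_ : ℕ) (s : Bool) => if s then ρ else 1)
        (fun s s' => if s && s' then w else 1) i true ≤ (1 + 2 * ρ) ^ (i + 1) := by
    intro i
    induction i with
    | zero =>
      simp only [vec, Bool.false_eq_true, if_false, if_true]
      refine ⟨zero_le_one, hρ, ?_⟩
      rw [zero_add, pow_one]
    | succ i ih =>
      obtain ⟨ha, hb, hab⟩ := ih
      simp only [vec, Fintype.sum_bool, Bool.false_eq_true, if_false, if_true, Bool.and_false,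
        Bool.and_true, mul_one, one_mul] at ha hb hab ⊢
      set a := vec (fun (_ : ℕ) (s : Bool) => if s = true then ρ else 1)
        (fun s s' => if (s && s') = true then w else 1) i false with hadef
      set b := vec (fun (_ : ℕ) (s : Bool) => if s = true then ρ else 1)
        (fun s s' => if (s && s') = true then w else 1) i true with hbdef
      refine ⟨add_nonneg hb ha, mul_nonneg hρ (add_nonneg (mul_nonneg hb hw) ha), ?_⟩
      have h2 : (1 + 2 * ρ) * (a + 2 * b) ≤ (1 + 2 * ρ) * (1 + 2 * ρ) ^ (i + 1) :=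
        mul_le_mul_of_nonneg_left hab (by linarith)
      have h3 : ρ * w * b ≤ 1 / 4 * b := mul_le_mul_of_nonneg_right h hb
      have h4 : 0 ≤ ρ * b := mul_nonneg hρ hb
      calc b + a + 2 * (ρ * (b * w + a)) ≤ (1 + 2 * ρ) * (a + 2 * b) := by nlinarith
        _ ≤ (1 + 2 * ρ) * (1 + 2 * ρ) ^ (i + 1) := h2
        _ = (1 + 2 * ρ) ^ (i + 1 + 1) := by ring
  obtain ⟨ha, hb, hab⟩ := key n
  rw [Fintype.sum_bool]
  linarith

/-- P2, forced vertex. Proof. `gf_chain` with `c x0 = (1 on true, 0 on false)`. For `i < x0` as before; at `x0`: `vec = (0, ρ (a + w b))`, with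
`ρ (a + w b) ≤ (3/2) ρ (1 + 2ρ)^(x0 - 1)` (or `ρ` if `x0 = 0`); afterwards `a + 2 b` grows at most by the factor `1 + 2ρ`:
`a' + 2 b' = a + b + 2 ρ a + 2 ρ w b ≤ (1 + 2 ρ)(a + 2 b)`. So the total is `≤ 3 ρ (1 + 2ρ)^n`. -/
theorem gf_sum_at (n : ℕ) (ρ w : ℝ) (hρ : 0 ≤ ρ) (hw : 0 ≤ w) (h : ρ * w ≤ 1 / 4)
    (x0 : Fin (n + 1)) :
    ∑ A ∈ (univ : Finset (Finset (Fin (n + 1)))).filter (fun A => x0 ∈ A),
      ρ ^ A.card * w ^ (adj A).card ≤ 3 * ρ * (1 + 2 * ρ) ^ n := by
  have h1 := gf_chain n ρ w (fun i s => if i = x0.val then (if s then 1 else 0) else 1)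
  have h2 : ∀ A : Finset (Fin (n + 1)),
      ∏ i : Fin (n + 1), (if i.val = x0.val then (if decide (i ∈ A) = true then (1 : ℝ) else 0)
        else 1) = if x0 ∈ A then 1 else 0 := by
    intro A
    rw [Finset.prod_eq_single x0]
    · simp
    · intro i _ hi
      rw [if_neg (fun h => hi (Fin.ext h))]
    · intro h
      exact absurd (mem_univ _) h
  simp only [h2] at h1
  have h3 : ∑ A ∈ (univ : Finset (Finset (Fin (n + 1)))).filter (fun A => x0 ∈ A),
      ρ ^ A.card * w ^ (adj A).card =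
      ∑ A : Finset (Fin (n + 1)), ρ ^ A.card * w ^ (adj A).card * (if x0 ∈ A then 1 else 0) := by
    rw [Finset.sum_filter]
    refine Finset.sum_congr rfl fun A _ => ?_
    split_ifs
    · rw [mul_one]
    · rw [mul_zero]
  rw [h3, h1]
  clear h1 h2 h3
  set W : ℕ → Bool → ℝ := fun i s => (if s = true then ρ else 1) *
    (if i = x0.val then (if s = true then 1 else 0) else 1) with hW
  set g : Bool → Bool → ℝ := fun s s' => if (s && s') = true then w else 1 with hg
  have r0 : vec W g 0 = W 0 := rfl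
  have rf : ∀ i, vec W g (i + 1) false = W (i + 1) false * (vec W g i true + vec W g i false) := by
    intro i
    simp only [vec, Fintype.sum_bool, hg, Bool.and_false, Bool.false_eq_true, if_false, mul_one]
  have rt : ∀ i, vec W g (i + 1) true =
      W (i + 1) true * (vec W g i true * w + vec W g i false) := by
    intro i
    simp only [vec, Fintype.sum_bool, hg, Bool.and_true, Bool.false_eq_true,
      if_false, if_true, mul_one]
  have w1 : ∀ i, i ≠ x0.val → W i true = ρ := by
    intro i hi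
    simp [hW, hi]
  have w2 : ∀ i, i ≠ x0.val → W i false = 1 := by
    intro i hi
    simp [hW, hi]
  have w3 : W x0.val true = ρ := by simp [hW]
  have w4 : W x0.val false = 0 := by simp [hW]
  have p0 : 0 < 1 + 2 * ρ := by linarith
  have before : ∀ i : ℕ, i < x0.val → 0 ≤ vec W g i false ∧ 0 ≤ vec W g i true ∧
      vec W g i false ≤ (1 + 2 * ρ) ^ i ∧ vec W g i true ≤ 2 * ρ * vec W g i false := by
    intro i
    induction i with
    | zero =>
      intro hi
      rw [r0, w1 0 hi.ne, w2 0 hi.ne]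
      exact ⟨zero_le_one, hρ, by simp, by linarith⟩
    | succ i ih =>
      intro hi
      obtain ⟨ha, hb, ha', hb'⟩ := ih (by omega)
      rw [rf, rt, w1 _ hi.ne, w2 _ hi.ne, one_mul]
      set a := vec W g i false
      set b := vec W g i true
      have e1 : ρ * w * b ≤ 1 / 4 * b := mul_le_mul_of_nonneg_right h hb
      have e2 : 0 ≤ ρ * a := mul_nonneg hρ ha
      have e3 : 0 ≤ ρ * b := mul_nonneg hρ hb
      refine ⟨add_nonneg hb ha, mul_nonneg hρ (add_nonneg (mul_nonneg hb hw) ha), ?_, ?_⟩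
      · calc b + a ≤ (1 + 2 * ρ) * a := by linarith
          _ ≤ (1 + 2 * ρ) * (1 + 2 * ρ) ^ i := mul_le_mul_of_nonneg_left ha' p0.le
          _ = (1 + 2 * ρ) ^ (i + 1) := by ring
      · nlinarith
  have at0 : 0 ≤ vec W g x0.val false ∧ 0 ≤ vec W g x0.val true ∧
      vec W g x0.val false + 2 * vec W g x0.val true ≤ 3 * ρ * (1 + 2 * ρ) ^ x0.val := by
    rcases Nat.eq_zero_or_pos x0.val with h0 | h0
    · rw [h0, r0]
      rw [h0] at w3 w4
      rw [w3, w4]
      refine ⟨le_refl _, hρ, ?_⟩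
      rw [pow_zero]
      linarith
    · obtain ⟨i, hi⟩ : ∃ i, x0.val = i + 1 := ⟨x0.val - 1, by omega⟩
      obtain ⟨ha, hb, ha', hb'⟩ := before i (by omega)
      rw [hi] at w3 w4 ⊢
      rw [rf, rt, w3, w4, zero_mul, zero_add]
      set a := vec W g i false
      set b := vec W g i true
      have e1 : ρ * w * b ≤ 1 / 4 * b := mul_le_mul_of_nonneg_right h hb
      have e2 : 0 ≤ ρ * a := mul_nonneg hρ ha
      refine ⟨le_refl _, mul_nonneg hρ (add_nonneg (mul_nonneg hb hw) ha), ?_⟩
      calc 2 * (ρ * (b * w + a)) ≤ 3 * ρ * a := by nlinarith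
        _ ≤ 3 * ρ * (1 + 2 * ρ) ^ i := mul_le_mul_of_nonneg_left ha' (by linarith)
        _ ≤ 3 * ρ * (1 + 2 * ρ) ^ (i + 1) := by
          refine mul_le_mul_of_nonneg_left ?_ (by linarith)
          exact pow_le_pow_right₀ (by linarith) (Nat.le_succ _)
  have after : ∀ d : ℕ, 0 ≤ vec W g (x0.val + d) false ∧ 0 ≤ vec W g (x0.val + d) true ∧
      vec W g (x0.val + d) false + 2 * vec W g (x0.val + d) true ≤
        3 * ρ * (1 + 2 * ρ) ^ (x0.val + d) := by
    intro d
    induction d with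
    | zero => exact at0
    | succ d ih =>
      obtain ⟨ha, hb, hab⟩ := ih
      rw [← add_assoc, rf, rt, w1 _ (by omega), w2 _ (by omega), one_mul]
      set a := vec W g (x0.val + d) false
      set b := vec W g (x0.val + d) true
      have e1 : ρ * w * b ≤ 1 / 4 * b := mul_le_mul_of_nonneg_right h hb
      have e3 : 0 ≤ ρ * b := mul_nonneg hρ hb
      refine ⟨add_nonneg hb ha, mul_nonneg hρ (add_nonneg (mul_nonneg hb hw) ha), ?_⟩
      calc b + a + 2 * (ρ * (b * w + a)) ≤ (1 + 2 * ρ) * (a + 2 * b) := by nlinarith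
        _ ≤ (1 + 2 * ρ) * (3 * ρ * (1 + 2 * ρ) ^ (x0.val + d)) :=
          mul_le_mul_of_nonneg_left hab p0.le
        _ = 3 * ρ * (1 + 2 * ρ) ^ (x0.val + d + 1) := by ring
  obtain ⟨ha, hb, hab⟩ := after (n - x0.val)
  rw [show x0.val + (n - x0.val) = n by omega] at ha hb hab
  rw [Fintype.sum_bool]
  linarith

end Pool.Agent.LOI
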