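import Pool.Agent.Lib.LOI.Half

set_option autoImplicit false

namespace Pool.Agent.LOI

open Finset
open scoped Classical

variable {n : ℕ}

/-- Proof. `P = pr C`. `P \ {r} ⊆ Cov m ω C ⊆ covE (Rset m ω P)` (a covering half has its head in `C`, so its label in `P`). A vertex `x ∈ covE (Rset m ω P) \ P` is the base of a half `h`
of a mid edge with label `y ∈ P`. If `hd ω h ∈ C` it is in `missH m ω C`: at most `N1` such `x`. Otherwise `y ∈ pr C \ full C`, which has at most `N1 + 1` elements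
(`⊆ insert r (erase ..)`), and there are at most `2 Lr m ω y` halves of mid edges with label `y`. -/
theorem symm_le {m N1 : ℕ} {ω : Om n} {r : Fin (n + 1)} {s : Bool} {C : Finset (Node n)}
    (hC : AClosed m N1 ω r s C) (L : ℝ) (hL : ∀ y, (Lr m ω y : ℝ) ≤ L) :
    ((symmDiff (pr C) (covE (Rset m ω (pr C)))).card : ℝ) ≤ 1 + N1 + (N1 + 1) * (2 * L) := by
  set P := pr C with hP
  have e1 : P \ covE (Rset m ω P) ⊆ {r} := by
    intro x hx
    rw [mem_sdiff] at hx
    rw [mem_singleton]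
    by_contra hxr
    obtain ⟨h, h1, h2, h3⟩ := mem_Cov.1 (hC.cov x hx.1 hxr)
    apply hx.2
    rw [mem_covE]
    refine ⟨h, ?_, h3⟩
    unfold Rset
    rw [mem_filter]
    exact ⟨h1, mem_pr.2 ⟨(hd ω h).2, h2⟩⟩
  have e2 : covE (Rset m ω P) \ P ⊆ (missH m ω C).image bs ∪
      (P \ full C).biUnion (fun y => (((Mid n m).filter fun j => (ω j).1 = y) ×ˢ
        (univ : Finset Bool)).image bs) := by
    intro x hx
    rw [mem_sdiff, mem_covE] at hx
    obtain ⟨⟨h, h1, h2⟩, h3⟩ := hx
    unfold Rset at h1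
    rw [mem_filter] at h1
    rw [mem_union]
    by_cases h4 : hd ω h ∈ C
    · left
      rw [mem_image]
      refine ⟨h, mem_missH.2 ⟨h1.1, h4, ?_⟩, h2⟩
      rw [h2]
      exact h3
    · right
      rw [mem_biUnion]
      refine ⟨(ω h.1).1, ?_, ?_⟩
      · rw [mem_sdiff]
        refine ⟨h1.2, fun h5 => h4 ?_⟩
        rw [mem_full] at h5
        have h6 : hd ω h = ((ω h.1).1, (hd ω h).2) := rfl
        rw [h6]
        cases (hd ω h).2
        · exact h5.2
        · exact h5.1
      · rw [mem_image]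
        refine ⟨h, ?_, h2⟩
        rw [mem_product, mem_filter]
        exact ⟨⟨h1.1, rfl⟩, mem_univ _⟩
  have c1 : ((P \ covE (Rset m ω P)).card : ℝ) ≤ 1 := by
    have := card_le_card e1
    rw [card_singleton] at this
    exact_mod_cast this
  have c3 : ((P \ full C).card : ℝ) ≤ N1 + 1 := by
    have h1 : ((P \ full C).erase r).card ≤ N1 := hC.sing
    have h2 : (P \ full C).card ≤ ((P \ full C).erase r).card + 1 := by
      by_cases h : r ∈ P \ full C
      · rw [card_erase_add_one h]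
      · rw [erase_eq_of_notMem h]
        omega
    have h3 : (P \ full C).card ≤ N1 + 1 := by omega
    exact_mod_cast h3
  have c4 : ∀ y, ((((((Mid n m).filter fun j => (ω j).1 = y) ×ˢ
        (univ : Finset Bool)).image bs)).card : ℝ) ≤ 2 * L := by
    intro y
    have h1 : ((((Mid n m).filter fun j => (ω j).1 = y) ×ˢ
        (univ : Finset Bool)).image bs).card ≤ Lr m ω y * 2 := by
      refine card_image_le.trans ?_
      rw [card_product, card_univ, Fintype.card_bool]
      exact le_rfl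
    have h2 : ((((((Mid n m).filter fun j => (ω j).1 = y) ×ˢ
        (univ : Finset Bool)).image bs)).card : ℝ) ≤ (Lr m ω y : ℝ) * 2 := by exact_mod_cast h1
    have := hL y
    linarith
  have hL0 : 0 ≤ 2 * L := le_trans (Nat.cast_nonneg _) (c4 r)
  have c2 : ((covE (Rset m ω P) \ P).card : ℝ) ≤ N1 + (N1 + 1) * (2 * L) := by
    have h1 := card_le_card e2
    have h2 := card_union_le ((missH m ω C).image bs) ((P \ full C).biUnion
      (fun y => (((Mid n m).filter fun j => (ω j).1 = y) ×ˢ (univ : Finset Bool)).image bs))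
    have h3 : ((missH m ω C).image bs).card ≤ N1 := card_image_le.trans hC.miss
    have h4 : (((P \ full C).biUnion (fun y => (((Mid n m).filter fun j => (ω j).1 = y) ×ˢ
        (univ : Finset Bool)).image bs)).card : ℝ) ≤ (N1 + 1) * (2 * L) := by
      calc _ ≤ ((∑ y ∈ P \ full C, ((((Mid n m).filter fun j => (ω j).1 = y) ×ˢ
        (univ : Finset Bool)).image bs).card : ℕ) : ℝ) := by exact_mod_cast card_biUnion_le
        _ = ∑ y ∈ P \ full C, (((((Mid n m).filter fun j => (ω j).1 = y) ×ˢ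
        (univ : Finset Bool)).image bs).card : ℝ) := by push_cast; rfl
        _ ≤ ∑ y ∈ P \ full C, 2 * L := sum_le_sum fun y _ => c4 y
        _ = (P \ full C).card * (2 * L) := by rw [sum_const, nsmul_eq_mul]
        _ ≤ (N1 + 1) * (2 * L) := mul_le_mul_of_nonneg_right c3 hL0
    have h5 : ((covE (Rset m ω P) \ P).card : ℝ) ≤ (((missH m ω C).image bs).card : ℝ) +
        ((((P \ full C).biUnion (fun y => (((Mid n m).filter fun j => (ω j).1 = y) ×ˢ
        (univ : Finset Bool)).image bs)).card : ℕ) : ℝ) := by exact_mod_cast h1.trans h2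
    have h6 : (((missH m ω C).image bs).card : ℝ) ≤ N1 := by exact_mod_cast h3
    linarith
  have c5 : ((symmDiff P (covE (Rset m ω P))).card : ℝ) ≤
      ((P \ covE (Rset m ω P)).card : ℝ) + ((covE (Rset m ω P) \ P).card : ℝ) := by
    have : (symmDiff P (covE (Rset m ω P))).card ≤
      (P \ covE (Rset m ω P)).card + (covE (Rset m ω P) \ P).card := by
      rw [symmDiff_def]
      exact card_union_le _ _
    exact_mod_cast this
  linarith

/-- LEMMA. Proof. Let `C` violate `Good`. By `hR1` `200 |pr C| > n + 1`; `|pr C| < (1 - eta2/4)(n+1)`. `symm_le` with `L = δ/(4(N1+1)) (n+1)` (`hBL`):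
`≤ 1 + N1 + δ/2 (n+1) ≤ δ (n+1)`: contradiction to `hR2` with `P = pr C`. -/
theorem good_of {m N1 K : ℕ} {δ : ℝ} {ω : Om n} (hR2 : ¬ R2 m δ ω)
    (hBL : ¬ BL m (δ / (4 * ((N1 : ℝ) + 1))) ω) (hn : 2 * ((N1 : ℝ) + 1) ≤ δ * ((n : ℝ) + 1))
    {r : Fin (n + 1)} (hL : K ≤ Lr m ω r) (hR1 : ∀ s, ¬ R1 m N1 K r s ω) : Good m N1 ω r := by
  intro s C hC
  by_contra hcon
  push Not at hcon
  apply hR2
  have h1 : n + 1 < 200 * (pr C).card := by
    by_contra h2
    exact hR1 s ⟨hL, C, hC, by omega⟩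
  refine ⟨pr C, h1, by linarith, ?_⟩
  have h2 : ∀ y, (Lr m ω y : ℝ) ≤ δ / (4 * ((N1 : ℝ) + 1)) * ((n : ℝ) + 1) := by
    intro y
    by_contra h3
    push Not at h3
    exact hBL ⟨y, h3⟩
  have h3 := symm_le hC _ h2
  have h4 : ((N1 : ℝ) + 1) * (2 * (δ / (4 * ((N1 : ℝ) + 1)) * ((n : ℝ) + 1))) =
      δ * ((n : ℝ) + 1) / 2 := by
    have : ((N1 : ℝ) + 1) ≠ 0 := by positivity
    field_simp
    ring
  rw [h4] at h3
  linarith

end Pool.Agent.LOI
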