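import Pool.Agent.Lib.LOI.JDef

set_option autoImplicit false

namespace Pool.Agent.LOI

open Finset
open scoped Classical

/-- the number of `ω` with prescribed labels on the edges in `J` -/
private theorem JD_box {n : ℕ} (J : Finset (Fin n)) (x : Fin n → Fin (n + 1)) :
    ((univ.filter fun ω : Om n => ∀ j ∈ J, (ω j).1 = x j).card : ℝ) =
      (2 * ((n : ℝ) + 1)) ^ n / ((n : ℝ) + 1) ^ J.card := by
  have hpos : (0 : ℝ) < (n : ℝ) + 1 := by positivity
  have h1 : (univ.filter fun ω : Om n => ∀ j ∈ J, (ω j).1 = x j) =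
      Fintype.piFinset (fun j => if j ∈ J then ({x j} : Finset (Fin (n + 1))) ×ˢ (univ : Finset Bool)
        else univ) := by
    ext ω
    simp only [mem_filter, mem_univ, true_and, Fintype.mem_piFinset]
    refine forall_congr' fun j => ?_
    by_cases hj : j ∈ J
    · rw [if_pos hj, mem_product, mem_singleton]
      exact ⟨fun h => ⟨h hj, mem_univ _⟩, fun h _ => h.1⟩
    · rw [if_neg hj]
      exact ⟨fun _ => mem_univ _, fun _ h => absurd h hj⟩
  have h2 : ∀ j : Fin n, ((if j ∈ J then ({x j} : Finset (Fin (n + 1))) ×ˢ (univ : Finset Bool)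
        else univ).card : ℝ) =
      (2 * ((n : ℝ) + 1)) * (if j ∈ J then ((n : ℝ) + 1)⁻¹ else 1) := by
    intro j
    by_cases hj : j ∈ J
    · rw [if_pos hj, if_pos hj, card_product, card_singleton]
      simp only [card_univ, Fintype.card_bool, one_mul, Nat.cast_ofNat]
      field_simp
    · rw [if_neg hj, if_neg hj]
      simp only [card_univ, Fintype.card_prod, Fintype.card_fin, Fintype.card_bool]
      push_cast
      ring
  rw [h1, Fintype.card_piFinset]
  push_cast
  rw [prod_congr rfl fun j _ => h2 j, prod_mul_distrib, prod_const, card_univ, Fintype.card_fin,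
    prod_ite_mem, univ_inter, prod_const, inv_pow, div_eq_mul_inv]

/-- Proof. `∑_ω |DD ω| = ∑_p #{ω | p ∈ DD ω}`; for `p.1.1 ≠ p.2.1` this is `(2(n+1))^n / (n+1)^2` (a box with two coordinates restricted to one label, `Pb_box`), and there
are at most `(2n)^2` pairs. -/
theorem sum_DD (n : ℕ) : ∑ ω : Om n, ((DD ω).card : ℝ) ≤ 4 * (2 * ((n : ℝ) + 1)) ^ n := by
  have hpos : (0 : ℝ) < (n : ℝ) + 1 := by positivity
  have hcard : ∀ ω : Om n, ((DD ω).card : ℝ) =
      ∑ p : Half n × Half n, if p ∈ DD ω then (1 : ℝ) else 0 := by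
    intro ω
    rw [sum_boole, filter_mem_eq_inter, univ_inter]
  simp only [hcard]
  rw [sum_comm]
  have hp : ∀ p : Half n × Half n, (∑ ω : Om n, if p ∈ DD ω then (1 : ℝ) else 0) ≤
      (2 * ((n : ℝ) + 1)) ^ n / ((n : ℝ) + 1) ^ 2 := by
    rintro ⟨h, h'⟩
    rw [sum_boole]
    by_cases hne : h.1 = h'.1
    · have h0 : (univ.filter fun ω : Om n => (h, h') ∈ DD ω) = ∅ := by
        rw [filter_eq_empty_iff]
        intro ω _ hω
        unfold DD at hω
        rw [mem_filter] at hω
        exact hω.2.1 hne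
      rw [h0]
      simp only [card_empty, Nat.cast_zero]
      positivity
    · have hJ : ({h.1, h'.1} : Finset (Fin n)).card = 2 := card_pair hne
      have h1 := JD_box ({h.1, h'.1} : Finset (Fin n)) (fun j => if j = h.1 then bs h' else bs h)
      rw [hJ] at h1
      rw [← h1]
      refine Nat.cast_le.2 (card_le_card ?_)
      intro ω hω
      rw [mem_filter] at hω ⊢
      refine ⟨mem_univ _, ?_⟩
      have h2 := hω.2
      unfold DD at h2
      rw [mem_filter] at h2
      obtain ⟨-, -, h3, h4⟩ := h2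
      intro j hj
      rw [mem_insert, mem_singleton] at hj
      rcases hj with rfl | rfl
      · rw [if_pos rfl]
        exact h3
      · rw [if_neg (fun e => hne e.symm)]
        exact h4
  refine (sum_le_sum fun p _ => hp p).trans ?_
  rw [sum_const, nsmul_eq_mul, card_univ]
  simp only [Fintype.card_prod, Fintype.card_fin, Fintype.card_bool]
  push_cast
  rw [← mul_div_assoc, div_le_iff₀ (by positivity)]
  have h3 : (n : ℝ) * 2 * (n * 2) ≤ 4 * ((n : ℝ) + 1) ^ 2 := by
    have : (0 : ℝ) ≤ n := Nat.cast_nonneg n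
    nlinarith
  have h4 : (0 : ℝ) ≤ (2 * ((n : ℝ) + 1)) ^ n := by positivity
  nlinarith [mul_le_mul_of_nonneg_right h3 h4]

/-- Proof. The same with triples: `(2n)^3 / (n+1)^3 ≤ 8`. -/
theorem sum_CC (n : ℕ) : ∑ ω : Om n, ((CC ω).card : ℝ) ≤ 8 * (2 * ((n : ℝ) + 1)) ^ n := by
  have hpos : (0 : ℝ) < (n : ℝ) + 1 := by positivity
  have hcard : ∀ ω : Om n, ((CC ω).card : ℝ) =
      ∑ p : Half n × Half n × Half n, if p ∈ CC ω then (1 : ℝ) else 0 := by
    intro ω
    rw [sum_boole, filter_mem_eq_inter, univ_inter]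
  simp only [hcard]
  rw [sum_comm]
  have hp : ∀ p : Half n × Half n × Half n, (∑ ω : Om n, if p ∈ CC ω then (1 : ℝ) else 0) ≤
      (2 * ((n : ℝ) + 1)) ^ n / ((n : ℝ) + 1) ^ 3 := by
    rintro ⟨h, h', h''⟩
    rw [sum_boole]
    by_cases hne : h.1 ≠ h'.1 ∧ h.1 ≠ h''.1 ∧ h'.1 ≠ h''.1
    · obtain ⟨ha, hb, hc⟩ := hne
      have hJ : ({h.1, h'.1, h''.1} : Finset (Fin n)).card = 3 :=
        card_eq_three.2 ⟨_, _, _, ha, hb, hc, rfl⟩
      have h1 := JD_box ({h.1, h'.1, h''.1} : Finset (Fin n))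
        (fun j => if j = h.1 then bs h' else if j = h'.1 then bs h'' else bs h)
      rw [hJ] at h1
      rw [← h1]
      refine Nat.cast_le.2 (card_le_card ?_)
      intro ω hω
      rw [mem_filter] at hω ⊢
      refine ⟨mem_univ _, ?_⟩
      have h2 := hω.2
      unfold CC at h2
      rw [mem_filter] at h2
      obtain ⟨-, -, h3, h4, h5⟩ := h2
      intro j hj
      rw [mem_insert, mem_insert, mem_singleton] at hj
      rcases hj with rfl | rfl | rfl
      · rw [if_pos rfl]
        exact h3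
      · rw [if_neg (fun e => ha e.symm), if_pos rfl]
        exact h4
      · rw [if_neg (fun e => hb e.symm), if_neg (fun e => hc e.symm)]
        exact h5
    · have h0 : (univ.filter fun ω : Om n => (h, h', h'') ∈ CC ω) = ∅ := by
        rw [filter_eq_empty_iff]
        intro ω _ hω
        unfold CC at hω
        rw [mem_filter] at hω
        exact hne hω.2.1
      rw [h0]
      simp only [card_empty, Nat.cast_zero]
      positivity
  refine (sum_le_sum fun p _ => hp p).trans ?_
  rw [sum_const, nsmul_eq_mul, card_univ]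
  simp only [Fintype.card_prod, Fintype.card_fin, Fintype.card_bool]
  push_cast
  rw [← mul_div_assoc, div_le_iff₀ (by positivity)]
  have h3 : (n : ℝ) * 2 * (n * 2 * (n * 2)) ≤ 8 * ((n : ℝ) + 1) ^ 3 := by
    have h0 : (0 : ℝ) ≤ n := Nat.cast_nonneg n
    have h5 : (n : ℝ) ^ 3 ≤ ((n : ℝ) + 1) ^ 3 := pow_le_pow_left₀ h0 (by linarith) 3
    linarith [h5, show (n : ℝ) * 2 * (n * 2 * (n * 2)) = 8 * (n : ℝ) ^ 3 by ring]
  have h4 : (0 : ℝ) ≤ (2 * ((n : ℝ) + 1)) ^ n := by positivity
  have h6 := mul_le_mul_of_nonneg_right h3 h4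
  linarith [h6]

end Pool.Agent.LOI
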