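import Pool.Agent.Lib.LOI.PBase

set_option autoImplicit false

/-!
# The expected number of requirements
-/

namespace Pool.Agent.LOI

open Finset
open scoped Classical

variable {n : ℕ}

/-- double edges -/
noncomputable def DD (ω : Om n) : Finset (Half n × Half n) :=
  univ.filter fun p => p.1.1 ≠ p.2.1 ∧ lb ω p.1 = bs p.2 ∧ lb ω p.2 = bs p.1

/-- triangles of type C -/
noncomputable def CC (ω : Om n) : Finset (Half n × Half n × Half n) :=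
  univ.filter fun p => (p.1.1 ≠ p.2.1.1 ∧ p.1.1 ≠ p.2.2.1 ∧ p.2.1.1 ≠ p.2.2.1) ∧
    lb ω p.1 = bs p.2.1 ∧ lb ω p.2.1 = bs p.2.2 ∧ lb ω p.2.2 = bs p.1

/-- triangles of type T: `(g, g', h)` -/
noncomputable def TT (ω : Om n) : Finset (Half n × Half n × Half n) :=
  univ.filter fun p => (p.1.1 ≠ p.2.1.1 ∧ p.1.1 ≠ p.2.2.1 ∧ p.2.1.1 ≠ p.2.2.1) ∧
    bs p.1 = bs p.2.1 ∧ lb ω p.1 = bs p.2.2 ∧ hd ω p.2.1 = hd ω p.2.2

end Pool.Agent.LOI
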