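import Pool.Agent.Lib.LOI.PBase

set_option autoImplicit false

namespace Pool.Agent.LOI

open Finset
open scoped Classical

variable {n : ℕ}

private theorem KapF_cast (A : Finset (Fin (n + 1))) :
    (univ.filter fun j : Fin n => j.castSucc ∈ A).card ≤ A.card := by
  refine Finset.card_le_card_of_injOn Fin.castSucc ?_ ?_
  · intro j hj
    simpa using hj
  · intro i _ j _ h
    exact Fin.castSucc_injective _ h

private theorem KapF_succ (A : Finset (Fin (n + 1))) :
    (univ.filter fun j : Fin n => j.succ ∈ A).card ≤ A.card := by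
  refine Finset.card_le_card_of_injOn Fin.succ ?_ ?_
  · intro j hj
    simpa using hj
  · intro i _ j _ h
    exact Fin.succ_injective _ h

theorem adj_card_le (A : Finset (Fin (n + 1))) : (adj A).card ≤ A.card := by
  refine le_trans (card_le_card ?_) (KapF_cast A)
  intro j hj
  unfold adj at hj
  simp only [mem_filter, mem_univ, true_and] at hj ⊢
  exact hj.1

private theorem KapF_T (A : Finset (Fin (n + 1))) :
    (univ.filter fun j : Fin n => j.castSucc ∈ A ∨ j.succ ∈ A).card + (adj A).card ≤
      2 * A.card := by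
  have h1 : (univ.filter fun j : Fin n => j.castSucc ∈ A ∨ j.succ ∈ A) =
      (univ.filter fun j : Fin n => j.castSucc ∈ A) ∪
        (univ.filter fun j : Fin n => j.succ ∈ A) := by
    ext j
    simp
  have h2 : adj A = (univ.filter fun j : Fin n => j.castSucc ∈ A) ∩
        (univ.filter fun j : Fin n => j.succ ∈ A) := by
    ext j
    unfold adj
    simp
  rw [h1, h2, card_union_add_card_inter]
  have := KapF_cast A
  have := KapF_succ A
  omega

private theorem KapF_box (A : Finset (Fin (n + 1))) (R : Finset (Fin n)) :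
    Pb n (fun ω => ∀ j ∈ R, (ω j).1 ∈ A) = ((A.card : ℝ) / ((n : ℝ) + 1)) ^ R.card := by
  have h1 : (fun ω : Om n => ∀ j ∈ R, (ω j).1 ∈ A) =
      fun ω : Om n => ∀ j, ω j ∈ (if j ∈ R then A ×ˢ (univ : Finset Bool) else univ) := by
    funext ω
    refine propext (forall_congr' fun j => ?_)
    by_cases h : j ∈ R
    · simp [h]
    · simp [h]
  rw [h1, Pb_box, ← prod_filter_mul_prod_filter_not univ (fun j => j ∈ R)]
  have h2 : ∏ j ∈ univ.filter (fun j => ¬ j ∈ R),
      (((if j ∈ R then A ×ˢ (univ : Finset Bool) else univ).card : ℝ) / (2 * ((n : ℝ) + 1))) = 1 := by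
    refine prod_eq_one fun j hj => ?_
    rw [mem_filter] at hj
    rw [if_neg hj.2, card_univ, Fintype.card_prod, Fintype.card_fin, Fintype.card_bool]
    push_cast
    have := two_pos' n
    field_simp
  have h3 : ∏ j ∈ univ.filter (fun j => j ∈ R),
      (((if j ∈ R then A ×ˢ (univ : Finset Bool) else univ).card : ℝ) / (2 * ((n : ℝ) + 1))) =
      ∏ j ∈ R, ((A.card : ℝ) / ((n : ℝ) + 1)) := by
    have h4 : univ.filter (fun j => j ∈ R) = R := by
      ext j
      simp
    rw [h4]
    refine prod_congr rfl fun j hj => ?_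
    rw [if_pos hj, card_product, card_univ, Fintype.card_bool]
    push_cast
    have : (0 : ℝ) < (n : ℝ) + 1 := by positivity
    field_simp
  rw [h2, h3, prod_const, mul_one]

/-- P3 for a fixed set. Proof. `T` = the edges which have an endpoint in `A`; `|T| + |adj A| ≤ 2 |A|`. `kap ω A ≥ k` means
`|{j ∈ T : (ω j).1 ∈ A}| ≥ r := |A| - |adj A| + k`, so there is `R ⊆ T`, `|R| = r`, with `(ω j).1 ∈ A` for `j ∈ R`: `Pb_exists` over `T.powersetCard r` (at most
`2^|T|` sets), and for fixed `R` `Pb_box`: `(|A| / (n+1))^r`. -/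
theorem kap_fix (A : Finset (Fin (n + 1))) (k : ℕ) :
    Pb n (fun ω => (k : ℤ) ≤ kap ω A) ≤
      2 ^ (2 * A.card - (adj A).card) * ((A.card : ℝ) / ((n : ℝ) + 1)) ^ (A.card - (adj A).card + k) := by
  have hadj := adj_card_le A
  have hT := KapF_T A
  set T : Finset (Fin n) := univ.filter fun j : Fin n => j.castSucc ∈ A ∨ j.succ ∈ A with hTd
  set r : ℕ := A.card - (adj A).card + k with hr
  have h1 : ∀ ω : Om n, (k : ℤ) ≤ kap ω A → ∃ R ∈ T.powersetCard r, ∀ j ∈ R, (ω j).1 ∈ A := by
    intro ω h
    unfold kap at h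
    have h2 : r ≤ (Mt ω A).card := by omega
    obtain ⟨R, hR, hc⟩ := exists_subset_card_eq h2
    refine ⟨R, ?_, ?_⟩
    · rw [mem_powersetCard]
      refine ⟨?_, hc⟩
      intro j hj
      have := hR hj
      unfold Mt at this
      rw [mem_filter] at this
      rw [hTd, mem_filter]
      exact ⟨mem_univ _, this.2.2⟩
    · intro j hj
      have := hR hj
      unfold Mt at this
      rw [mem_filter] at this
      exact this.2.1
  refine le_trans (Pb_mono h1) (le_trans (Pb_exists _ _) ?_)
  have h2 : ∀ R ∈ T.powersetCard r, Pb n (fun ω => ∀ j ∈ R, (ω j).1 ∈ A) =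
      ((A.card : ℝ) / ((n : ℝ) + 1)) ^ r := by
    intro R hR
    rw [KapF_box, (mem_powersetCard.1 hR).2]
  rw [sum_congr rfl h2, sum_const, card_powersetCard, nsmul_eq_mul]
  have h3 : ((T.card.choose r : ℕ) : ℝ) ≤ 2 ^ (2 * A.card - (adj A).card) := by
    have h4 : T.card.choose r ≤ 2 ^ T.card := Nat.choose_le_two_pow _ _
    have h5 : 2 ^ T.card ≤ 2 ^ (2 * A.card - (adj A).card) :=
      Nat.pow_le_pow_right (by norm_num) (by omega)
    exact_mod_cast h4.trans h5
  exact mul_le_mul_of_nonneg_right h3 (by positivity)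

end Pool.Agent.LOI
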