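import Pool.Agent.Lib.LOI.Half

set_option autoImplicit false

namespace Pool.Agent.LOI

open Finset
open scoped Classical

variable {n : ℕ}

/-- L2. Proof. `Mt ω A ⊆ Mt ω (insert w A)` and `adj A ⊆ adj (insert w A)`. Each `j ∈ Q` is in `Mt (insert w A) \ Mt A` or in
`adj (insert w A) \ adj A`: if `(ω j).1 = w` then `j ∈ Mt (insert w A) \ Mt A` since `w ∉ A`. If `(ω j).1 ∈ A` and `w` is an endpoint
of `j`: `j ∈ Mt (insert w A)`; if `j ∈ Mt A` then an endpoint of `j` is in `A`, it is not `w`, so it is the other one and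
`j ∈ adj (insert w A)`, `j ∉ adj A` as `w ∉ A`. So `|Q| ≤ |Mt (insert w A) \ Mt A| + |adj (insert w A) \ adj A|`
(`Finset.card_sdiff_add_card_eq_card`), and `|insert w A| = |A| + 1`. -/
theorem kap_insert (ω : Om n) (A : Finset (Fin (n + 1))) (w : Fin (n + 1)) (hw : w ∉ A)
    (Q : Finset (Fin n))
    (hQ : ∀ j ∈ Q, ((ω j).1 ∈ A ∧ (w = j.castSucc ∨ w = j.succ)) ∨
      ((ω j).1 = w ∧ (j.castSucc ∈ A ∨ j.succ ∈ A))) :
    kap ω A + Q.card - 1 ≤ kap ω (insert w A) := by
  have hne : ∀ j : Fin n, j.castSucc ≠ j.succ := fun j => (Fin.castSucc_lt_succ (i := j)).ne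
  have hM : Mt ω A ⊆ Mt ω (insert w A) := by
    intro j hj
    simp only [Mt, mem_filter, mem_univ, true_and, mem_insert] at hj ⊢
    tauto
  have hA : adj A ⊆ adj (insert w A) := by
    intro j hj
    simp only [adj, mem_filter, mem_univ, true_and, mem_insert] at hj ⊢
    tauto
  have hsub : Q ⊆ (Mt ω (insert w A) \ Mt ω A) ∪ (adj (insert w A) \ adj A) := by
    intro j hj
    have h1 := hQ j hj
    have h2 := hne j
    simp only [Mt, adj, mem_union, mem_sdiff, mem_filter, mem_univ, true_and, mem_insert]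
    rcases h1 with ⟨a, b | b⟩ | ⟨a, b⟩
    · have h3 : j.castSucc ∉ A := b ▸ hw
      by_cases h4 : j.succ ∈ A
      · right
        refine ⟨⟨Or.inl b.symm, Or.inr h4⟩, fun h5 => h3 h5.1⟩
      · left
        exact ⟨⟨Or.inr a, Or.inl (Or.inl b.symm)⟩, fun h5 => by tauto⟩
    · have h3 : j.succ ∉ A := b ▸ hw
      by_cases h4 : j.castSucc ∈ A
      · right
        refine ⟨⟨Or.inr h4, Or.inl b.symm⟩, fun h5 => h3 h5.2⟩
      · left
        exact ⟨⟨Or.inr a, Or.inr (Or.inl b.symm)⟩, fun h5 => by tauto⟩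
    · left
      refine ⟨⟨Or.inl a, ?_⟩, fun h5 => hw (a ▸ h5.1)⟩
      tauto
  have h1 := card_le_card hsub
  have h2 := card_union_le (Mt ω (insert w A) \ Mt ω A) (adj (insert w A) \ adj A)
  have h3 := card_sdiff_add_card_eq_card hM
  have h4 := card_sdiff_add_card_eq_card hA
  have h5 := card_insert_of_notMem hw
  unfold kap
  rw [h5]
  push_cast
  have h6 : (Q.card : ℤ) ≤ (Mt ω (insert w A) \ Mt ω A).card + (adj (insert w A) \ adj A).card := by
    exact_mod_cast h1.trans h2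
  have h7 : (((Mt ω (insert w A) \ Mt ω A).card : ℤ) + (Mt ω A).card = (Mt ω (insert w A)).card) := by
    exact_mod_cast h3
  have h8 : (((adj (insert w A) \ adj A).card : ℤ) + (adj A).card = (adj (insert w A)).card) := by
    exact_mod_cast h4
  linarith

/-- `kap_insert` for halves `k` with distinct edges: `lb k ∈ A, bs k = w` or `lb k = w, bs k ∈ A`. Proof: `Q` = the image of `H`
under `Prod.fst`. -/
theorem kap_insert' (ω : Om n) (A : Finset (Fin (n + 1))) (w : Fin (n + 1)) (hw : w ∉ A)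
    (H : Finset (Half n)) (hinj : ∀ k ∈ H, ∀ k' ∈ H, k.1 = k'.1 → k = k')
    (hH : ∀ k ∈ H, (lb ω k ∈ A ∧ bs k = w) ∨ (lb ω k = w ∧ bs k ∈ A)) :
    kap ω A + H.card - 1 ≤ kap ω (insert w A) := by
  have h1 : (H.image Prod.fst).card = H.card := by
    rw [card_image_of_injOn]
    intro k hk k' hk' e
    exact hinj k hk k' hk' e
  rw [← h1]
  apply kap_insert ω A w hw
  intro j hj
  rw [mem_image] at hj
  obtain ⟨k, hk, rfl⟩ := hj
  have h2 := hH k hk
  obtain ⟨j, i⟩ := k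
  cases i
  · simp only [bs, lb] at h2 ⊢
    simp at h2
    rcases h2 with ⟨a, b⟩ | ⟨a, b⟩
    · exact Or.inl ⟨a, Or.inl b.symm⟩
    · exact Or.inr ⟨a, Or.inl b⟩
  · simp only [bs, lb] at h2 ⊢
    simp at h2
    rcases h2 with ⟨a, b⟩ | ⟨a, b⟩
    · exact Or.inl ⟨a, Or.inr b.symm⟩
    · exact Or.inr ⟨a, Or.inr b⟩

end Pool.Agent.LOI
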