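import Pool.Agent.Lib.LOI.KapF
import Pool.Agent.Lib.LOI.GF

set_option autoImplicit false

namespace Pool.Agent.LOI

open Finset
open scoped Classical

variable {n : ℕ}

private theorem kapP_term {a m k : ℕ} (hm : m ≤ a) {r : ℝ} (hr : 0 < r) :
    (2 : ℝ) ^ (2 * a - m) * r ^ (a - m + k) = r ^ k * 8 ^ a * ((r / 2) ^ a * (1 / (2 * r)) ^ m) := by
  obtain ⟨d, rfl⟩ := Nat.exists_eq_add_of_le hm
  have e1 : 2 * (m + d) - m = m + 2 * d := by omega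
  have e2 : m + d - m + k = d + k := by omega
  have h8 : (8 : ℝ) = 2 ^ 3 := by norm_num
  rw [e1, e2, h8, div_pow, div_pow, mul_pow, one_pow, pow_add r d k, pow_add 2 m (2 * d),
    ← pow_mul 2 3, pow_add r m d]
  have h2 : (2 : ℝ) ^ m ≠ 0 := by positivity
  have h2' : (2 : ℝ) ^ (m + d) ≠ 0 := by positivity
  have hrm : r ^ m ≠ 0 := by positivity
  field_simp
  rw [← pow_mul, ← pow_add, ← pow_add]
  congr 1
  ring

private theorem kapP_exp (a : ℕ) : (1 + (a : ℝ) / ((n : ℝ) + 1)) ^ (n + 1) ≤ Real.exp 1 ^ a := by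
  have hN : (0 : ℝ) < (n : ℝ) + 1 := by positivity
  have h1 : 1 + (a : ℝ) / ((n : ℝ) + 1) ≤ Real.exp ((a : ℝ) / ((n : ℝ) + 1)) := by
    rw [add_comm]
    exact Real.add_one_le_exp _
  calc (1 + (a : ℝ) / ((n : ℝ) + 1)) ^ (n + 1)
      ≤ Real.exp ((a : ℝ) / ((n : ℝ) + 1)) ^ (n + 1) := by gcongr
    _ = Real.exp 1 ^ a := by
      rw [← Real.exp_nat_mul, ← Real.exp_nat_mul]
      congr 1
      push_cast
      field_simp

private theorem kapP_27 (a : ℕ) : (8 : ℝ) ^ a * Real.exp 1 ^ a ≤ 27 ^ a := by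
  rw [← mul_pow]
  have h1 := Real.exp_one_lt_d9
  gcongr
  linarith

/-- P3. Proof. With `N = n + 1`: for `|A| = a` the bound of `kap_fix` is `(a/N)^k * 8^a * ρ^a * w^|adj A|`, `ρ = a/(2N)`, `w = N/(2a)` (`ρ w = 1/4`;
`(a/N)^(a - adj) = (a/N)^a (N/a)^adj`, `2^(2a - adj) = 4^a 2^(-adj)`). `Pb_exists` over the `A` with `|A| = a`, `gf_sum`: `(1 + 2ρ)^N = (1 + a/N)^N ≤ e^a`, and
`8 e ≤ 27`. -/
theorem kap_prob (a k : ℕ) (ha : 1 ≤ a) :
    Pb n (fun ω => ∃ A : Finset (Fin (n + 1)), A.card = a ∧ (k : ℤ) ≤ kap ω A) ≤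
      27 ^ a * ((a : ℝ) / ((n : ℝ) + 1)) ^ k := by
  have hN : (0 : ℝ) < (n : ℝ) + 1 := by positivity
  have ha' : (0 : ℝ) < a := by exact_mod_cast ha
  set r : ℝ := (a : ℝ) / ((n : ℝ) + 1) with hr
  have hr0 : 0 < r := by positivity
  set T := (univ : Finset (Finset (Fin (n + 1)))).filter fun A => A.card = a with hT
  have h1 : Pb n (fun ω => ∃ A : Finset (Fin (n + 1)), A.card = a ∧ (k : ℤ) ≤ kap ω A) ≤
      ∑ A ∈ T, Pb n (fun ω => (k : ℤ) ≤ kap ω A) := by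
    refine le_trans (Pb_mono ?_) (Pb_exists T fun A ω => (k : ℤ) ≤ kap ω A)
    rintro ω ⟨A, hA, h⟩
    exact ⟨A, mem_filter.2 ⟨mem_univ _, hA⟩, h⟩
  have h2 : ∑ A ∈ T, Pb n (fun ω => (k : ℤ) ≤ kap ω A) ≤
      ∑ A ∈ T, r ^ k * 8 ^ a * ((r / 2) ^ A.card * (1 / (2 * r)) ^ (adj A).card) := by
    refine sum_le_sum fun A hA => ?_
    have hA' : A.card = a := (mem_filter.1 hA).2
    refine (kap_fix A k).trans (le_of_eq ?_)
    have hm := adj_card_le A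
    rw [hA'] at hm ⊢
    exact kapP_term hm hr0
  have h3 : ∑ A ∈ T, r ^ k * 8 ^ a * ((r / 2) ^ A.card * (1 / (2 * r)) ^ (adj A).card) ≤
      r ^ k * 8 ^ a * (1 + 2 * (r / 2)) ^ (n + 1) := by
    rw [← mul_sum]
    refine mul_le_mul_of_nonneg_left ?_ (by positivity)
    refine le_trans (sum_le_sum_of_subset_of_nonneg (subset_univ T) fun A _ _ => by positivity) ?_
    exact gf_sum n (r / 2) (1 / (2 * r)) (by positivity) (by positivity)
      (le_of_eq (by field_simp; norm_num))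
  refine h1.trans (h2.trans (h3.trans ?_))
  have h4 : (1 + 2 * (r / 2)) ^ (n + 1) ≤ Real.exp 1 ^ a := by
    rw [show 2 * (r / 2) = r by ring]
    exact kapP_exp a
  calc r ^ k * 8 ^ a * (1 + 2 * (r / 2)) ^ (n + 1) ≤ r ^ k * 8 ^ a * Real.exp 1 ^ a := by gcongr
    _ = (8 ^ a * Real.exp 1 ^ a) * r ^ k := by ring
    _ ≤ 27 ^ a * r ^ k := by
      gcongr
      exact kapP_27 a

/-- P3, sets containing `x0`. Proof. The same with `gf_sum_at`: `8^a * 3 ρ (1 + 2ρ)^n ≤ 8^a e^a (3/2) (a/N)`. -/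
theorem kap_prob_at (a : ℕ) (ha : 1 ≤ a) (x0 : Fin (n + 1)) :
    Pb n (fun ω => ∃ A : Finset (Fin (n + 1)), x0 ∈ A ∧ A.card = a ∧ 0 ≤ kap ω A) ≤
      2 * 27 ^ a * ((a : ℝ) / ((n : ℝ) + 1)) := by
  have hN : (0 : ℝ) < (n : ℝ) + 1 := by positivity
  have ha' : (0 : ℝ) < a := by exact_mod_cast ha
  set r : ℝ := (a : ℝ) / ((n : ℝ) + 1) with hr
  have hr0 : 0 < r := by positivity
  set T := ((univ : Finset (Finset (Fin (n + 1)))).filter fun A => x0 ∈ A).filter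
    fun A => A.card = a with hT
  have h1 : Pb n (fun ω => ∃ A : Finset (Fin (n + 1)), x0 ∈ A ∧ A.card = a ∧ 0 ≤ kap ω A) ≤
      ∑ A ∈ T, Pb n (fun ω => ((0 : ℕ) : ℤ) ≤ kap ω A) := by
    refine le_trans (Pb_mono ?_) (Pb_exists T fun A ω => ((0 : ℕ) : ℤ) ≤ kap ω A)
    rintro ω ⟨A, hx, hA, h⟩
    exact ⟨A, mem_filter.2 ⟨mem_filter.2 ⟨mem_univ _, hx⟩, hA⟩, h⟩
  have h2 : ∑ A ∈ T, Pb n (fun ω => ((0 : ℕ) : ℤ) ≤ kap ω A) ≤
      ∑ A ∈ T, r ^ 0 * 8 ^ a * ((r / 2) ^ A.card * (1 / (2 * r)) ^ (adj A).card) := by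
    refine sum_le_sum fun A hA => ?_
    have hA' : A.card = a := (mem_filter.1 hA).2
    refine (kap_fix A 0).trans (le_of_eq ?_)
    have hm := adj_card_le A
    rw [hA'] at hm ⊢
    exact kapP_term hm hr0
  have h3 : ∑ A ∈ T, r ^ 0 * 8 ^ a * ((r / 2) ^ A.card * (1 / (2 * r)) ^ (adj A).card) ≤
      8 ^ a * (3 * (r / 2) * (1 + 2 * (r / 2)) ^ n) := by
    rw [← mul_sum, pow_zero, one_mul]
    refine mul_le_mul_of_nonneg_left ?_ (by positivity)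
    refine le_trans (sum_le_sum_of_subset_of_nonneg (filter_subset _ _)
      fun A _ _ => by positivity) ?_
    exact gf_sum_at n (r / 2) (1 / (2 * r)) (by positivity) (by positivity)
      (le_of_eq (by field_simp; norm_num)) x0
  refine h1.trans (h2.trans (h3.trans ?_))
  have h4 : (1 + 2 * (r / 2)) ^ n ≤ Real.exp 1 ^ a := by
    rw [show 2 * (r / 2) = r by ring]
    refine le_trans ?_ (kapP_exp (n := n) a)
    exact pow_le_pow_right₀ (by linarith) (Nat.le_succ n)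
  calc 8 ^ a * (3 * (r / 2) * (1 + 2 * (r / 2)) ^ n)
      ≤ 8 ^ a * (3 * (r / 2) * Real.exp 1 ^ a) := by gcongr
    _ = (3 / 2) * (8 ^ a * Real.exp 1 ^ a) * r := by ring
    _ ≤ (3 / 2) * 27 ^ a * r := by
      gcongr
      exact kapP_27 a
    _ ≤ 2 * 27 ^ a * r := by
      gcongr
      norm_num

end Pool.Agent.LOI
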