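import Pool.Agent.Lib.LOI.Flow
import Pool.Agent.Lib.LOI.Clos

set_option autoImplicit false

namespace Pool.Agent.LOI

open Finset
open scoped Classical

variable {n : ℕ}

private theorem Large_lt {m : ℕ} {a b : Fin (n + 1)} (ha : a.val < m) (hb : n < b.val + m)
    {h : Half n} (hm : h.1 ∈ Mid n m) : a < bs h ∧ bs h < b := by
  obtain ⟨h1, h2⟩ := mid_base hm
  constructor
  · rw [Fin.lt_def]
    omega
  · rw [Fin.lt_def]
    omega

/-- D8, the number of missed halves. Proof. For `h ∈ missH m ω C` both `(bs h, t)` are not in `C`, hence in `U` (`hcl`), and `hd ω h ∈ C` is not in `U`; the two corners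
`(h, true), (h, false)` have together two units (`un_sum_t`; the base of a mid half is strictly between `a` and `b`). So `2 |missH| ≤ 3`
(`X = missH ×ˢ univ` in `hX`). -/
theorem miss_le {m : ℕ} {a b : Fin (n + 1)} (ha : a.val < m) (hb : n < b.val + m)
    {ω : Om n} (hu : UReq ω) {U C : Finset (Node n)} (hCU : ∀ ν ∈ C, ν ∉ U)
    (hcl : ∀ h : Half n, h.1 ∈ Mid n m → hd ω h ∈ C → ∀ t, (bs h, t) ∉ U → (bs h, t) ∈ C)
    (hX : ∀ X : Finset (Half n × Bool), (∀ c ∈ X, (bs c.1, c.2) ∈ U ∧ hd ω c.1 ∉ U) →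
      ∑ c ∈ X, un a b ω c.1 c.2 ≤ 3) : (missH m ω C).card ≤ 1 := by
  have h1 := hX (missH m ω C ×ˢ univ) (by
    rintro ⟨h, t⟩ hc
    obtain ⟨hM, hC, hp⟩ := mem_missH.1 (mem_product.1 hc).1
    refine ⟨?_, hCU _ hC⟩
    by_contra hU
    exact hp (mem_pr.2 ⟨t, hcl h hM hC t hU⟩))
  rw [sum_product] at h1
  have h2 : ∀ h ∈ missH m ω C, ∑ t : Bool, un a b ω h t = 2 := by
    intro h hh
    obtain ⟨hM, -, -⟩ := mem_missH.1 hh
    obtain ⟨h3, h4⟩ := Large_lt ha hb hM
    rw [Fintype.sum_bool]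
    exact un_sum_t hu h3 h4
  have h5 : ∑ h ∈ missH m ω C, ∑ t : Bool, un a b ω h t ≤ 3 := h1
  rw [sum_congr rfl h2, sum_const, nsmul_eq_mul] at h5
  omega

/-- D8, the number of single vertices. Proof. Let `x ≠ r` be single in `C` and not in `Jset ω`. By `hcov` there is a mid half `h_x` with base `x` and head in `C`; the end
`(x, t_x)` of `x` which is not in `C` is in `U` (`hcl`), and `un h_x t_x = 1` (`un_notJ`). `X` = the set of these corners (`x ↦ (h_x, t_x)` is injective):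
at most three. The others are in `Jset ω`. -/
theorem sing_le {m : ℕ} {a b : Fin (n + 1)} (ha : a.val < m) (hb : n < b.val + m)
    {ω : Om n} {U C : Finset (Node n)} (hCU : ∀ ν ∈ C, ν ∉ U) {r : Fin (n + 1)}
    (hcov : ∀ x ∈ pr C, x ≠ r → x ∈ Cov m ω C)
    (hcl : ∀ h : Half n, h.1 ∈ Mid n m → hd ω h ∈ C → ∀ t, (bs h, t) ∉ U → (bs h, t) ∈ C)
    (hX : ∀ X : Finset (Half n × Bool), (∀ c ∈ X, (bs c.1, c.2) ∈ U ∧ hd ω c.1 ∉ U) →
      ∑ c ∈ X, un a b ω c.1 c.2 ≤ 3) :
    ((pr C \ full C).erase r).card ≤ 3 + (Jset ω).card := by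
  set S : Finset (Fin (n + 1)) := (pr C \ full C).erase r \ Jset ω with hS
  have key : ∀ x ∈ S, ∃ c : Half n × Bool, bs c.1 = x ∧ (bs c.1, c.2) ∈ U ∧ hd ω c.1 ∉ U ∧
      un a b ω c.1 c.2 = 1 := by
    intro x hx
    obtain ⟨hx1, hxJ⟩ := mem_sdiff.1 hx
    obtain ⟨hxr, hx2⟩ := mem_erase.1 hx1
    obtain ⟨hxp, hxf⟩ := mem_sdiff.1 hx2
    obtain ⟨h, hM, hC, hb'⟩ := mem_Cov.1 (hcov x hxp hxr)
    have h1 : ∃ t, (x, t) ∉ C := by
      by_contra hcon
      push Not at hcon
      exact hxf (mem_full.2 ⟨hcon true, hcon false⟩)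
    obtain ⟨t, ht⟩ := h1
    obtain ⟨h3, h4⟩ := Large_lt ha hb hM
    refine ⟨(h, t), hb', ?_, hCU _ hC, un_notJ h3 h4 (by rw [hb']; exact hxJ) t⟩
    by_contra hU
    have h5 := hcl h hM hC t hU
    rw [hb'] at h5
    exact ht h5
  choose F hF1 hF2 hF3 hF4 using key
  have h1 := hX (S.attach.image fun x => F x.1 x.2) (by
    intro c hc
    obtain ⟨x, -, rfl⟩ := mem_image.1 hc
    exact ⟨hF2 _ _, hF3 _ _⟩)
  rw [sum_image (by
    intro x _ y _ hxy
    have h2 : bs (F x.1 x.2).1 = bs (F y.1 y.2).1 := congrArg (fun c : Half n × Bool => bs c.1) hxy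
    rw [hF1, hF1] at h2
    exact Subtype.ext h2)] at h1
  rw [sum_congr rfl fun x _ => hF4 x.1 x.2, sum_const, card_attach, nsmul_eq_mul, mul_one] at h1
  have h2 : ((pr C \ full C).erase r).card ≤ S.card + (Jset ω).card := by
    have h3 : (pr C \ full C).erase r ⊆ S ∪ Jset ω := by
      intro x hx
      by_cases hJ : x ∈ Jset ω
      · exact mem_union_right _ hJ
      · exact mem_union_left _ (mem_sdiff.2 ⟨hx, hJ⟩)
    exact (card_le_card h3).trans (card_union_le _ _)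
  omega

/-- Proof. A vertex of `pr U` which is in `pr C` is single in `C` (its end in `U` is not in `C`), so it is in `insert r ((pr C \ full C).erase r)`. -/
theorem pr_card_le {U C : Finset (Node n)} (hCU : ∀ ν ∈ C, ν ∉ U) (r : Fin (n + 1)) :
    (pr U).card ≤ (n + 1 - (pr C).card) + (((pr C \ full C).erase r).card + 1) := by
  have h1 : pr U ⊆ (pr C)ᶜ ∪ insert r ((pr C \ full C).erase r) := by
    intro x hx
    obtain ⟨t, ht⟩ := mem_pr.1 hx
    by_cases hC : x ∈ pr C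
    · refine mem_union_right _ ?_
      by_cases hr : x = r
      · rw [hr]
        exact mem_insert_self _ _
      · refine mem_insert_of_mem (mem_erase.2 ⟨hr, mem_sdiff.2 ⟨hC, fun hf => ?_⟩⟩)
        have h2 := mem_full.1 hf
        cases t
        · exact hCU _ h2.2 ht
        · exact hCU _ h2.1 ht
    · exact mem_union_left _ (mem_compl.2 hC)
  refine (card_le_card h1).trans ((card_union_le _ _).trans ?_)
  rw [card_compl, Fintype.card_fin]
  have h3 := card_insert_le r ((pr C \ full C).erase r)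
  omega

/-- D8. Proof. If `leak ≤ 3` take `r, s` from `root_out`, `C` from `exists_closure` (`r` is no base of a mid half: `mid_base`), it is `AClosed` (`miss_le`, `sing_le`), so
`n + 1 - |pr C| ≤ eta2 / 4 * (n + 1)`, and `pr_card_le` gives `|pr U| ≤ eta2 / 4 * (n + 1) + N1 + 1`. -/
theorem large_leak {m N1 : ℕ} {a b : Fin (n + 1)} (hab : a < b) (ha : a.val < m)
    (hb : n < b.val + m) (hm : 2 * m ≤ n) {ω : Om n} (hu : UReq ω) (hN : (Jset ω).card + 3 ≤ N1)
    (hGa : Good m N1 ω a) (hGb : Good m N1 ω b) {U : Finset (Node n)}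
    (hU : eta2 / 4 * ((n : ℝ) + 1) + N1 + 1 < (pr U).card) : 4 ≤ leak (un a b ω) ω U := by
  by_contra hcon
  obtain ⟨r, s, hr, hrU, hX⟩ := root_out hab hu U (by omega)
  have hbase : ∀ h : Half n, h.1 ∈ Mid n m → bs h ≠ r := by
    intro h hM hbr
    obtain ⟨h1, h2⟩ := Large_lt ha hb hM
    rcases hr with rfl | rfl
    · exact h1.ne' hbr
    · exact h2.ne hbr
  obtain ⟨C, hCU, hrC, hrC', hcov, hcl⟩ := exists_closure m ω U r s hrU hbase
  have hsing := sing_le ha hb hCU hcov hcl hX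
  have hmiss := miss_le ha hb hu hCU hcl hX
  have hAC : AClosed m N1 ω r s C := ⟨hrC, hrC', hcov, by omega, by omega⟩
  have hG : (n : ℝ) + 1 - (pr C).card ≤ eta2 / 4 * ((n : ℝ) + 1) := by
    rcases hr with rfl | rfl
    · exact hGa s C hAC
    · exact hGb s C hAC
  have h1 := pr_card_le hCU r
  have h2 : (pr C).card ≤ n + 1 := by simpa using card_le_univ (pr C)
  have h3 : (pr U).card + (pr C).card ≤ n + 1 + (N1 + 1) := by omega
  have h4 : ((pr U).card : ℝ) + (pr C).card ≤ (n : ℝ) + 1 + (N1 + 1) := by exact_mod_cast h3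
  linarith

end Pool.Agent.LOI
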