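import Pool.Agent.Lib.LOI.UnB
import Pool.Agent.Lib.LOI.LkSum

set_option autoImplicit false

/-!
# The leak at a vertex: lower bounds (N1)

`lk` at `x` is a sum over the ends `t` of `x` in `U` of `2 - ∑ h ∈ usedAt ω U x, un a b ω h t`; all units are `≥ 0` (`un_nonneg`) and the sum over
all halves at `x` is `1` or `2` (`un_push`).
-/

namespace Pool.Agent.LOI

open Finset
open scoped Classical

variable {n : ℕ}

private theorem NodeA_sum_le {a b : Fin (n + 1)} (hab : a < b) {ω : Om n} (hu : UReq ω)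
    (U : Finset (Node n)) (x : Fin (n + 1)) (t : Bool) :
    ∑ h ∈ usedAt ω U x, un a b ω h t ≤ 2 := by
  have h1 : ∑ h ∈ usedAt ω U x, un a b ω h t ≤
      ∑ h ∈ (univ : Finset (Half n)).filter (fun h => bs h = x), un a b ω h t := by
    refine Finset.sum_le_sum_of_subset_of_nonneg ?_ ?_
    · intro h hh
      rw [mem_usedAt] at hh
      exact mem_filter.2 ⟨mem_univ _, hh.2⟩
    · intro h _ _
      exact un_nonneg a b ω h t
  rw [un_push hab hu x t] at h1
  split_ifs at h1 <;> omega

private theorem NodeA_pair_le {a b : Fin (n + 1)} {ω : Om n} (hu : UReq ω)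
    {h : Half n} (h1 : a ≤ bs h) (h2 : bs h ≤ b) :
    un a b ω h true + un a b ω h false ≤ 2 := by
  rcases eq_or_lt_of_le h1 with e | l
  · have h3 : ¬ bs h < a := not_lt.2 h1
    have key : ∀ t, un a b ω h t = if h.2 then 0 else 1 := by
      intro t
      unfold un
      rw [if_neg h3, if_pos e.symm]
    rw [key, key]
    split_ifs <;> norm_num
  · rcases eq_or_lt_of_le h2 with e' | l'
    · have h3 : ¬ bs h < a := not_lt.2 h1
      have h4 : ¬ bs h = a := ne_of_gt l
      have h5 : ¬ bs h < b := not_lt.2 e'.ge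
      have key : ∀ t, un a b ω h t = if h.2 then 1 else 0 := by
        intro t
        unfold un
        rw [if_neg h3, if_neg h4, if_neg h5, if_pos e']
      rw [key, key]
      split_ifs <;> norm_num
    · exact (un_sum_t hu l l').le

/-- Proof. Each summand is `≥ 0`: `∑ h ∈ usedAt, un h t ≤ ∑ h at x, un h t ≤ 2`. -/
theorem lk_nonneg {a b : Fin (n + 1)} (hab : a < b) {ω : Om n} (hu : UReq ω)
    (U : Finset (Node n)) (x : Fin (n + 1)) : 0 ≤ lk (un a b ω) ω U x := by
  unfold lk
  refine Finset.sum_nonneg ?_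
  intro t _
  split_ifs
  · have := NodeA_sum_le hab hu U x t
    omega
  · exact le_rfl

/-- Proof. For a used half `h` at `x`: `un h true + un h false ≤ 2` if `a ≤ x ≤ b` (`un_sum_t` if `a < x < b`; `1 + 1` or `0` at the roots).
So `lk ≥ 4 - 2 |usedAt|`. -/
theorem lk_full {a b : Fin (n + 1)} (hab : a < b) {ω : Om n} (hu : UReq ω)
    {U : Finset (Node n)} {x : Fin (n + 1)} (hx : x ∈ full U) (h1 : a ≤ x) (h2 : x ≤ b) :
    4 - 2 * ((usedAt ω U x).card : ℤ) ≤ lk (un a b ω) ω U x := by
  rw [mem_full] at hx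
  unfold lk
  rw [Fintype.sum_bool, if_pos hx.1, if_pos hx.2]
  have h3 : ∑ h ∈ usedAt ω U x, un a b ω h true + ∑ h ∈ usedAt ω U x, un a b ω h false ≤
      2 * ((usedAt ω U x).card : ℤ) := by
    rw [← Finset.sum_add_distrib]
    have h4 : ∑ h ∈ usedAt ω U x, (un a b ω h true + un a b ω h false) ≤
        ∑ h ∈ usedAt ω U x, (2 : ℤ) := by
      refine Finset.sum_le_sum ?_
      intro h hh
      rw [mem_usedAt] at hh
      exact NodeA_pair_le hu (by rw [hh.2]; exact h1) (by rw [hh.2]; exact h2)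
    rw [Finset.sum_const, nsmul_eq_mul] at h4
    linarith
  linarith

/-- Outside `[a, b]`: if no half is used `lk = 4`; if two are used `lk ≥ 0`; if one is used `lk ≥ 0` (`lk_nonneg`). -/
theorem lk_full' {a b : Fin (n + 1)} (hab : a < b) {ω : Om n} (hu : UReq ω)
    {U : Finset (Node n)} {x : Fin (n + 1)} (hx : x ∈ full U) :
    4 - 2 * ((usedAt ω U x).card : ℤ) ≤ lk (un a b ω) ω U x ∨
      ((usedAt ω U x).card = 1 ∧ 0 ≤ lk (un a b ω) ω U x) := by
  have h0 := lk_nonneg hab hu U x
  have h1 := usedAt_card_le ω U x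
  rcases (by omega : (usedAt ω U x).card = 0 ∨ (usedAt ω U x).card = 1 ∨
    (usedAt ω U x).card = 2) with e | e | e
  · left
    rw [mem_full] at hx
    rw [e]
    rw [Finset.card_eq_zero] at e
    unfold lk
    rw [Fintype.sum_bool, if_pos hx.1, if_pos hx.2, e]
    simp
  · exact Or.inr ⟨e, h0⟩
  · left
    rw [e]
    norm_num
    exact h0

/-- single vertices: if no half is used `lk = 2`, otherwise use `lk_nonneg` -/
theorem lk_single {a b : Fin (n + 1)} (hab : a < b) {ω : Om n} (hu : UReq ω)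
    {U : Finset (Node n)} {x : Fin (n + 1)} (hx : x ∈ pr U \ full U) :
    2 - 2 * ((usedAt ω U x).card : ℤ) ≤ lk (un a b ω) ω U x := by
  have h0 := lk_nonneg hab hu U x
  rcases Nat.eq_zero_or_pos (usedAt ω U x).card with e | e
  · rw [mem_sdiff, mem_pr, mem_full] at hx
    obtain ⟨⟨t, ht⟩, hn⟩ := hx
    rw [e]
    rw [Finset.card_eq_zero] at e
    unfold lk
    rw [Fintype.sum_bool, e]
    simp only [Finset.sum_empty]
    cases t
    · rw [if_pos ht]
      split_ifs <;> norm_num
    · rw [if_pos ht]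
      split_ifs <;> norm_num
  · have : (1 : ℤ) ≤ ((usedAt ω U x).card : ℤ) := by exact_mod_cast e
    linarith

end Pool.Agent.LOI
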