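import Pool.Agent.Lib.LOI.NodeA

set_option autoImplicit false

/-!
# The leak at a vertex between the roots (N2), (N3)
-/

namespace Pool.Agent.LOI

open Finset
open scoped Classical

variable {n : ℕ}

/-- the leak at a vertex with exactly one end in `U` -/
private theorem NodeB_single {u : Half n → Bool → ℤ} {ω : Om n} {U : Finset (Node n)}
    {x : Fin (n + 1)} (hx : x ∉ full U) {t : Bool} (ht : (x, t) ∈ U) :
    lk u ω U x = 2 - ∑ h ∈ usedAt ω U x, u h t := by
  rw [mem_full] at hx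
  unfold lk
  rw [Fintype.sum_bool]
  cases t with
  | false =>
    have h1 : (x, true) ∉ U := fun h => hx ⟨h, ht⟩
    rw [if_neg h1, if_pos ht, zero_add]
  | true =>
    have h1 : (x, false) ∉ U := fun h => hx ⟨ht, h⟩
    rw [if_neg h1, if_pos ht, add_zero]

private theorem NodeB_card {ω : Om n} {U : Finset (Node n)} (x : Fin (n + 1)) :
    (usedAt ω U x).card ≤ 2 := by
  refine le_trans (card_le_card ?_) (at_card_le x)
  intro h hh
  exact mem_filter.2 ⟨mem_univ _, (mem_usedAt.1 hh).2⟩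

/-- `un_sum_t` for each used half -/
theorem lk_mid_full {a b : Fin (n + 1)} {ω : Om n} (hu : UReq ω)
    {U : Finset (Node n)} {x : Fin (n + 1)} (hx : x ∈ full U) (h1 : a < x) (h2 : x < b) :
    lk (un a b ω) ω U x = 4 - 2 * ((usedAt ω U x).card : ℤ) := by
  rw [mem_full] at hx
  have hs : ∑ h ∈ usedAt ω U x, (un a b ω h true + un a b ω h false) =
      2 * ((usedAt ω U x).card : ℤ) := by
    rw [sum_congr rfl (g := fun _ => (2 : ℤ)) fun h hh => ?_, sum_const, nsmul_eq_mul, mul_comm]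
    have e := (mem_usedAt.1 hh).2
    exact un_sum_t hu (by rw [e]; exact h1) (by rw [e]; exact h2)
  rw [sum_add_distrib] at hs
  unfold lk
  rw [Fintype.sum_bool, if_pos hx.1, if_pos hx.2]
  linarith

/-- `un_notJ`; exactly one `t` has `(x, t) ∈ U` -/
theorem lk_mid_single {a b : Fin (n + 1)} {ω : Om n}
    {U : Finset (Node n)} {x : Fin (n + 1)} (hx : x ∈ pr U \ full U) (h1 : a < x) (h2 : x < b)
    (hJ : x ∉ Jset ω) : lk (un a b ω) ω U x = 2 - ((usedAt ω U x).card : ℤ) := by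
  obtain ⟨hp, hf⟩ := mem_sdiff.1 hx
  obtain ⟨t, ht⟩ := mem_pr.1 hp
  rw [NodeB_single hf ht, sum_congr rfl (g := fun _ => (1 : ℤ)) fun h hh => ?_, sum_const,
    nsmul_eq_mul, mul_one]
  have e := (mem_usedAt.1 hh).2
  exact un_notJ (by rw [e]; exact h1) (by rw [e]; exact h2) (by rw [e]; exact hJ) t

/-- The only end of `x` in `U` is `(x, t)`; `un h t = 0` (`un_req0`), the other half at `x`, if used, has `un = 2` (`un_req2`). -/
theorem lk_mid_req {a b : Fin (n + 1)} {ω : Om n} (hu : UReq ω)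
    {U : Finset (Node n)} {x : Fin (n + 1)} (hx : x ∈ pr U \ full U) (h1 : a < x) (h2 : x < b)
    {t : Bool} {h : Half n} (e : bs h = x) (hr : Req ω t h) (ht : (x, t) ∈ U)
    (hh : h ∈ used ω U) : lk (un a b ω) ω U x = 4 - 2 * ((usedAt ω U x).card : ℤ) := by
  obtain ⟨_, hf⟩ := mem_sdiff.1 hx
  have hmem : h ∈ usedAt ω U x := mem_usedAt.2 ⟨hh, e⟩
  rw [NodeB_single hf ht, ← add_sum_erase _ _ hmem,
    un_req0 (by rw [e]; exact h1) (by rw [e]; exact h2) hr,
    sum_congr rfl (g := fun _ => (2 : ℤ)) fun k hk => ?_, sum_const, nsmul_eq_mul,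
    ← card_erase_add_one hmem]
  · push_cast
    ring
  · obtain ⟨hkh, hk⟩ := mem_erase.1 hk
    have ek := (mem_usedAt.1 hk).2
    exact un_req2 hu (by rw [ek]; exact h1) (by rw [ek]; exact h2) hr (e.trans ek.symm)
      (Ne.symm hkh)

/-- (N3). Proof. `|usedAt| ≤ 2`. Outside `]a, b[` use `lk_nonneg`. Between: full: `4 - 2k ≥ 2 - k`; single, not in `J`: `lk_mid_single`; single in `J`:
if `k = 0` then `lk = 2`, otherwise `lk_nonneg` and `2 - k - 1 ≤ 0`. -/
theorem lk_ge {a b : Fin (n + 1)} (hab : a < b) {ω : Om n} (hu : UReq ω)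
    {U : Finset (Node n)} {x : Fin (n + 1)} (hx : x ∈ pr U) :
    2 - ((usedAt ω U x).card : ℤ) - (if x ≤ a ∨ b ≤ x then 2 else 0) -
      (if x ∈ Jset ω then 1 else 0) ≤ lk (un a b ω) ω U x := by
  have hk2 := NodeB_card (ω := ω) (U := U) x
  have h0 := lk_nonneg hab hu U x
  by_cases ho : x ≤ a ∨ b ≤ x
  · rw [if_pos ho]
    split_ifs <;> omega
  · rw [if_neg ho]
    push Not at ho
    obtain ⟨h1, h2⟩ := ho
    by_cases hf : x ∈ full U
    · rw [lk_mid_full hu hf h1 h2]
      split_ifs <;> omega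
    · have hx' : x ∈ pr U \ full U := mem_sdiff.2 ⟨hx, hf⟩
      by_cases hJ : x ∈ Jset ω
      · rw [if_pos hJ]
        by_cases hk : (usedAt ω U x).card = 0
        · obtain ⟨t, ht⟩ := mem_pr.1 hx
          rw [NodeB_single hf ht, card_eq_zero.1 hk]
          simp
        · omega
      · rw [if_neg hJ, lk_mid_single hx' h1 h2 hJ]
        omega

end Pool.Agent.LOI
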