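import Pool.Agent.Lib.LOI.R1Def

set_option autoImplicit false

namespace Pool.Agent.LOI

open Finset
open scoped Classical

variable {n : ℕ}

/-- the sum over the admissible values of one mid edge -/
theorem r1_box_sum {N1 : ℕ} {r : Fin (n + 1)} {s : Bool} {S : Finset (Fin (n + 1))}
    (hr : r ∉ S) {X' : Finset (Fin (n + 1))} (hX : X' ⊆ S) (hX' : X'.card ≤ N1)
    {T : Finset (Node n)} (hT : T.card ≤ N1) (hT' : ∀ ν ∈ T, ν.1 ∈ S) (B : ℝ) (hB : 1 ≤ B)
    (C : Finset (Node n)) (hC : C = mkC r s ((S \ X') \ T.image Prod.fst) T) (p : Bool × Bool) :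
    (∑ v : Fin (n + 1) × Bool, if ((v ∈ C ↔ p.1 = true) ∧ ((v.1, !v.2) ∈ C ↔ p.2 = true)) then
      (if v.1 = r then B else 1) else (0 : ℝ)) ≤
      2 * ((n : ℝ) + 1) * wt (S.card / ((n : ℝ) + 1)) ((N1 + B) / (2 * ((n : ℝ) + 1)))
        (((n : ℝ) + 1 + N1 - S.card) / ((n : ℝ) + 1)) p := by
  have hn : (0 : ℝ) < (n : ℝ) + 1 := by positivity
  have memC : ∀ v : Node n, v ∈ C ↔ v = (r, s) ∨ v ∈ T ∨ v.1 ∈ (S \ X') \ T.image Prod.fst := by
    intro v
    rw [hC, mkC, mem_insert, mem_union, mem_product]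
    simp
  have inS : ∀ v : Node n, v ∈ C → v ≠ (r, s) → v.1 ∈ S := by
    intro v hv hne
    rcases (memC v).1 hv with h | h | h
    · exact absurd h hne
    · exact hT' v h
    · exact (mem_sdiff.1 (mem_sdiff.1 h).1).1
  have hw0 : ∀ v : Fin (n + 1) × Bool, 0 ≤ (if v.1 = r then B else (1 : ℝ)) := by
    intro v
    split_ifs <;> linarith
  have key : ∀ W : Finset (Fin (n + 1) × Bool), W ⊆ insert (r, s) T →
      (∑ v ∈ W, if v.1 = r then B else (1 : ℝ)) ≤ N1 + B := by
    intro W hW
    calc (∑ v ∈ W, if v.1 = r then B else (1 : ℝ))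
        ≤ ∑ v ∈ insert (r, s) T, (if v.1 = r then B else (1 : ℝ)) :=
          sum_le_sum_of_subset_of_nonneg hW fun v _ _ => hw0 v
      _ = ∑ v ∈ insert (r, s) (T.erase (r, s)), (if v.1 = r then B else (1 : ℝ)) := by
          have h0 : insert (r, s) T = insert (r, s) (T.erase (r, s)) := by
            ext v
            simp only [mem_insert, mem_erase]
            tauto
          rw [← h0]
      _ = B + ∑ v ∈ T.erase (r, s), (if v.1 = r then B else (1 : ℝ)) := by
          rw [sum_insert (notMem_erase _ _), if_pos rfl]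
      _ ≤ B + ∑ v ∈ T.erase (r, s), (1 : ℝ) := by
          gcongr with v hv
          rw [if_neg]
          rintro h
          exact hr (h ▸ hT' v (mem_of_mem_erase hv))
      _ ≤ N1 + B := by
          rw [sum_const, nsmul_eq_mul, mul_one]
          have h1 : (T.erase (r, s)).card ≤ N1 := le_trans (card_erase_le) hT
          have h2 : ((T.erase (r, s)).card : ℝ) ≤ N1 := by exact_mod_cast h1
          linarith
  rw [← sum_filter]
  obtain ⟨p1, p2⟩ := p
  rcases p1 with _ | _ <;> rcases p2 with _ | _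
  · -- (false, false)
    have e : 2 * ((n : ℝ) + 1) * wt (S.card / ((n : ℝ) + 1)) ((N1 + B) / (2 * ((n : ℝ) + 1)))
        (((n : ℝ) + 1 + N1 - S.card) / ((n : ℝ) + 1)) (false, false) =
        2 * ((n : ℝ) + 1 + N1 - S.card) := by
      simp only [wt]
      field_simp
    rw [e]
    have hsub : (univ.filter fun v : Fin (n + 1) × Bool =>
        ((v ∈ C ↔ (false, false).1 = true) ∧ ((v.1, !v.2) ∈ C ↔ (false, false).2 = true))) ⊆
        (univ \ (S \ X')) ×ˢ (univ : Finset Bool) := by
      intro v hv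
      rw [mem_filter] at hv
      have h1 : v ∉ C := by simpa using hv.2.1
      have h2 : (v.1, !v.2) ∉ C := by simpa using hv.2.2
      rw [mem_product]
      refine ⟨mem_sdiff.2 ⟨mem_univ _, fun h3 => ?_⟩, mem_univ _⟩
      by_cases h4 : v.1 ∈ T.image Prod.fst
      · obtain ⟨ν, hν, hν'⟩ := mem_image.1 h4
        rcases Bool.eq_or_eq_not ν.2 v.2 with h5 | h5
        · exact h1 ((memC v).2 (Or.inr (Or.inl (by
            have : v = ν := Prod.ext hν'.symm h5.symm
            rw [this]
            exact hν))))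
        · exact h2 ((memC _).2 (Or.inr (Or.inl (by
            have : (v.1, !v.2) = ν := Prod.ext hν'.symm h5.symm
            rw [this]
            exact hν))))
      · exact h1 ((memC v).2 (Or.inr (Or.inr (mem_sdiff.2 ⟨h3, h4⟩))))
    have hone : ∀ v ∈ (univ.filter fun v : Fin (n + 1) × Bool =>
        ((v ∈ C ↔ (false, false).1 = true) ∧ ((v.1, !v.2) ∈ C ↔ (false, false).2 = true))),
        (if v.1 = r then B else (1 : ℝ)) ≤ 1 := by
      intro v hv
      rw [mem_filter] at hv
      have h1 : v ∉ C := by simpa using hv.2.1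
      have h2 : (v.1, !v.2) ∉ C := by simpa using hv.2.2
      rw [if_neg]
      intro h3
      rcases Bool.eq_or_eq_not v.2 s with h5 | h5
      · exact h1 ((memC v).2 (Or.inl (Prod.ext h3 h5)))
      · exact h2 ((memC _).2 (Or.inl (Prod.ext h3 (by simp [h5]))))
    refine le_trans (sum_le_sum hone) ?_
    rw [sum_const, nsmul_eq_mul, mul_one]
    have h6 := card_le_card hsub
    rw [card_product, card_univ (α := Bool), Fintype.card_bool,
      card_sdiff_of_subset (subset_univ _), card_univ, Fintype.card_fin,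
      card_sdiff_of_subset hX] at h6
    have h7 : X'.card ≤ S.card := card_le_card hX
    have h8 : S.card ≤ n + 1 := by
      have := card_le_univ S
      rwa [Fintype.card_fin] at this
    have h9 : (n + 1 - (S.card - X'.card)) * 2 + 2 * S.card ≤ 2 * (n + 1) + 2 * N1 := by omega
    have h10 : (((univ.filter fun v : Fin (n + 1) × Bool =>
        ((v ∈ C ↔ (false, false).1 = true) ∧
          ((v.1, !v.2) ∈ C ↔ (false, false).2 = true))).card : ℕ) : ℝ) + 2 * S.card ≤
        2 * ((n : ℝ) + 1) + 2 * N1 := by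
      have := le_trans (Nat.add_le_add_right h6 (2 * S.card)) h9
      exact_mod_cast this
    linarith
  · -- (false, true)
    have e : 2 * ((n : ℝ) + 1) * wt (S.card / ((n : ℝ) + 1)) ((N1 + B) / (2 * ((n : ℝ) + 1)))
        (((n : ℝ) + 1 + N1 - S.card) / ((n : ℝ) + 1)) (false, true) = N1 + B := by
      simp only [wt]
      field_simp
    rw [e]
    have hinj : Set.InjOn (fun v : Fin (n + 1) × Bool => (v.1, !v.2))
        (univ.filter fun v : Fin (n + 1) × Bool =>
        ((v ∈ C ↔ (false, true).1 = true) ∧ ((v.1, !v.2) ∈ C ↔ (false, true).2 = true)) :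
          Finset _) := by
      intro v _ w _ h
      have h1 := congrArg Prod.fst h
      have h2 := congrArg Prod.snd h
      simp only [Bool.not_inj_iff] at h1 h2
      exact Prod.ext h1 h2
    have h1 := key ((univ.filter fun v : Fin (n + 1) × Bool =>
        ((v ∈ C ↔ (false, true).1 = true) ∧ ((v.1, !v.2) ∈ C ↔ (false, true).2 = true))).image
          fun v => (v.1, !v.2)) (by
      intro w hw
      obtain ⟨v, hv, rfl⟩ := mem_image.1 hw
      rw [mem_filter] at hv
      have h1 : v ∉ C := by simpa using hv.2.1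
      have h2 : (v.1, !v.2) ∈ C := by simpa using hv.2.2
      rcases (memC _).1 h2 with h | h | h
      · exact mem_insert.2 (Or.inl h)
      · exact mem_insert.2 (Or.inr h)
      · exact absurd ((memC v).2 (Or.inr (Or.inr h))) h1)
    rw [sum_image hinj] at h1
    exact h1
  · -- (true, false)
    have e : 2 * ((n : ℝ) + 1) * wt (S.card / ((n : ℝ) + 1)) ((N1 + B) / (2 * ((n : ℝ) + 1)))
        (((n : ℝ) + 1 + N1 - S.card) / ((n : ℝ) + 1)) (true, false) = N1 + B := by
      simp only [wt]
      field_simp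
    rw [e]
    refine key _ ?_
    intro v hv
    rw [mem_filter] at hv
    have h1 : v ∈ C := by simpa using hv.2.1
    have h2 : (v.1, !v.2) ∉ C := by simpa using hv.2.2
    rcases (memC _).1 h1 with h | h | h
    · exact mem_insert.2 (Or.inl h)
    · exact mem_insert.2 (Or.inr h)
    · exact absurd ((memC (v.1, !v.2)).2 (Or.inr (Or.inr h))) h2
  · -- (true, true)
    have e : 2 * ((n : ℝ) + 1) * wt (S.card / ((n : ℝ) + 1)) ((N1 + B) / (2 * ((n : ℝ) + 1)))
        (((n : ℝ) + 1 + N1 - S.card) / ((n : ℝ) + 1)) (true, true) = 2 * S.card := by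
      simp only [wt]
      field_simp
    rw [e]
    have hS : ∀ v ∈ (univ.filter fun v : Fin (n + 1) × Bool =>
        ((v ∈ C ↔ (true, true).1 = true) ∧ ((v.1, !v.2) ∈ C ↔ (true, true).2 = true))),
        v.1 ∈ S := by
      intro v hv
      rw [mem_filter] at hv
      have h1 : v ∈ C := by simpa using hv.2.1
      have h2 : (v.1, !v.2) ∈ C := by simpa using hv.2.2
      by_cases h3 : v = (r, s)
      · refine inS (v.1, !v.2) h2 ?_
        intro h4
        have h5 := congrArg Prod.snd h4
        rw [h3] at h5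
        simp at h5
      · exact inS v h1 h3
    have hone : ∀ v ∈ (univ.filter fun v : Fin (n + 1) × Bool =>
        ((v ∈ C ↔ (true, true).1 = true) ∧ ((v.1, !v.2) ∈ C ↔ (true, true).2 = true))),
        (if v.1 = r then B else (1 : ℝ)) ≤ 1 := by
      intro v hv
      rw [if_neg]
      intro h3
      exact hr (h3 ▸ hS v hv)
    refine le_trans (sum_le_sum hone) ?_
    rw [sum_const, nsmul_eq_mul, mul_one]
    have hsub : (univ.filter fun v : Fin (n + 1) × Bool =>
        ((v ∈ C ↔ (true, true).1 = true) ∧ ((v.1, !v.2) ∈ C ↔ (true, true).2 = true))) ⊆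
        S ×ˢ (univ : Finset Bool) := fun v hv => mem_product.2 ⟨hS v hv, mem_univ _⟩
    have h6 := card_le_card hsub
    rw [card_product, card_univ (α := Bool), Fintype.card_bool] at h6
    have h7 : (((univ.filter fun v : Fin (n + 1) × Bool =>
        ((v ∈ C ↔ (true, true).1 = true) ∧
          ((v.1, !v.2) ∈ C ↔ (true, true).2 = true))).card : ℕ) : ℝ) ≤ S.card * 2 := by
      exact_mod_cast h6
    linarith

/-- The probability of a box. Proof. `Pb_weight'` with `c = B^K`, `f j v = 1[v is admissible] * B^[v.1 = r]` for mid `j` and `1` otherwise: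
`B^K ≤ B^Lr`. Admissible `v = (y, o)` for the
state `(σ j).1 = [(y, o) ∈ C]`, `(σ j).2 = [(y, !o) ∈ C]`:
`(true, true)`: `y ∈ full C`, so `y ∈ scov σ` (`full C = (scov σ \ X') \ T.image fst`: `r` is not in `scov σ` and `(r, !s) ∉ C`), `≤ 2 c` values, none with label `r`;
`(true, false)`: `(y, o) ∈ T` or `= (r, s)`: weight `≤ N1 + B`; `(false, true)`: `(y, !o) ∈ T` or `= (r, s)`: `≤ N1 + B`;
`(false, false)`: `y ∉ pr C`, `|pr C| ≥ c - N1 + 1`: `≤ 2 (n + 1 + N1 - c)` values, none with label `r`. -/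
theorem r1_box {m N1 K : ℕ} {r : Fin (n + 1)} {s : Bool} {σ : Fin n → Bool × Bool}
    (hr : r ∉ scov σ) {X' : Finset (Fin (n + 1))} (hX : X' ⊆ scov σ) (hX' : X'.card ≤ N1)
    {T : Finset (Node n)} (hT : T.card ≤ N1) (hT' : ∀ ν ∈ T, ν.1 ∈ scov σ) (B : ℝ) (hB : 1 ≤ B)
    (C : Finset (Node n)) (hC : C = mkC r s ((scov σ \ X') \ T.image Prod.fst) T) :
    B ^ K * Pb n (fun ω => K ≤ Lr m ω r ∧ InBox m C σ ω) ≤
      ∏ j ∈ Mid n m, wt ((scov σ).card / ((n : ℝ) + 1)) ((N1 + B) / (2 * ((n : ℝ) + 1)))
        (((n : ℝ) + 1 + N1 - (scov σ).card) / ((n : ℝ) + 1)) (σ j) := by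
  have hn : (0 : ℝ) < (n : ℝ) + 1 := by positivity
  have hB0 : (0 : ℝ) ≤ B := by linarith
  set f : Fin n → Fin (n + 1) × Bool → ℝ := fun j v =>
    if j ∈ Mid n m then
      (if ((v ∈ C ↔ (σ j).1 = true) ∧ ((v.1, !v.2) ∈ C ↔ (σ j).2 = true)) then
        (if v.1 = r then B else 1) else (0 : ℝ)) else 1 with hf
  have hf0 : ∀ j v, 0 ≤ f j v := by
    intro j v
    rw [hf]
    dsimp only
    split_ifs <;> first | exact hB0 | exact zero_le_one | exact le_refl _
  refine le_trans (Pb_weight' _ (B ^ K) f hf0 ?_) ?_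
  · rintro ω ⟨h1, h2⟩
    have e : ∏ j, f j (ω j) = B ^ Lr m ω r := by
      have e1 : ∀ j, f j (ω j) = if j ∈ (Mid n m).filter (fun j => (ω j).1 = r) then B else 1 := by
        intro j
        rw [hf]
        dsimp only
        by_cases hj : j ∈ Mid n m
        · have h3 := h2 j hj
          have h4 : hd ω (j, false) = ω j := by
            unfold hd
            simp
          have h5 : hd ω (j, true) = ((ω j).1, !(ω j).2) := by
            unfold hd
            simp
          rw [h4, h5] at h3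
          rw [if_pos hj, if_pos h3]
          by_cases h6 : (ω j).1 = r
          · rw [if_pos h6, if_pos (mem_filter.2 ⟨hj, h6⟩)]
          · rw [if_neg h6, if_neg (show ¬ j ∈ (Mid n m).filter (fun j => (ω j).1 = r) from
              fun h => h6 (mem_filter.1 h).2)]
        · rw [if_neg hj, if_neg (show ¬ j ∈ (Mid n m).filter (fun j => (ω j).1 = r) from
            fun h => hj (mem_filter.1 h).1)]
      rw [prod_congr rfl fun j _ => e1 j, prod_ite_mem, univ_inter, prod_const]
      rfl
    rw [e]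
    exact pow_le_pow_right₀ hB h1
  · have e2 : ∏ j ∈ Mid n m, wt ((scov σ).card / ((n : ℝ) + 1)) ((N1 + B) / (2 * ((n : ℝ) + 1)))
        (((n : ℝ) + 1 + N1 - (scov σ).card) / ((n : ℝ) + 1)) (σ j) =
        ∏ j, if j ∈ Mid n m then wt ((scov σ).card / ((n : ℝ) + 1))
          ((N1 + B) / (2 * ((n : ℝ) + 1)))
          (((n : ℝ) + 1 + N1 - (scov σ).card) / ((n : ℝ) + 1)) (σ j) else 1 := by
      rw [prod_ite_mem, univ_inter]
    rw [e2]
    refine prod_le_prod (fun j _ => div_nonneg (sum_nonneg fun v _ => hf0 j v) (by positivity)) ?_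
    intro j _
    by_cases hj : j ∈ Mid n m
    · rw [if_pos hj, div_le_iff₀ (by positivity)]
      have h3 := r1_box_sum hr hX hX' hT hT' B hB C hC (σ j)
      rw [mul_comm (2 * ((n : ℝ) + 1))] at h3
      refine le_trans (le_of_eq (sum_congr rfl fun v _ => ?_)) h3
      rw [hf]
      dsimp only
      rw [if_pos hj]
    · rw [if_neg hj, div_le_one (by positivity)]
      have h3 : ∀ v, f j v = 1 := by
        intro v
        rw [hf]
        dsimp only
        rw [if_neg hj]
      rw [sum_congr rfl fun v _ => h3 v, sum_const, card_univ, Fintype.card_prod,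
        Fintype.card_fin, Fintype.card_bool, nsmul_eq_mul]
      push_cast
      linarith

end Pool.Agent.LOI
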