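import Pool.Agent.Lib.LOI.R1Def

set_option autoImplicit false

namespace Pool.Agent.LOI

open Finset
open scoped Classical

variable {n : ℕ}

private theorem R1Data_mem_full {C : Finset (Node n)} {x : Fin (n + 1)} :
    x ∈ full C ↔ ∀ t : Bool, (x, t) ∈ C := by
  unfold full
  rw [mem_filter]
  constructor
  · rintro ⟨-, h1, h2⟩ t
    cases t
    · exact h2
    · exact h1
  · intro h
    exact ⟨mem_univ _, h true, h false⟩

private theorem R1Data_mem_pr {C : Finset (Node n)} {x : Fin (n + 1)} :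
    x ∈ pr C ↔ ∃ t : Bool, (x, t) ∈ C := by
  unfold pr
  rw [mem_image]
  constructor
  · rintro ⟨⟨y, t⟩, h1, rfl⟩
    exact ⟨t, h1⟩
  · rintro ⟨t, h⟩
    exact ⟨(x, t), h, rfl⟩

private theorem R1Data_mem_Cov {m : ℕ} {ω : Om n} {C : Finset (Node n)} {x : Fin (n + 1)} :
    x ∈ Cov m ω C ↔ ∃ h : Half n, h.1 ∈ Mid n m ∧ hd ω h ∈ C ∧ bs h = x := by
  unfold Cov
  rw [mem_image]
  constructor
  · rintro ⟨h, h1, h2⟩
    rw [mem_filter] at h1
    exact ⟨h, h1.2.1, h1.2.2, h2⟩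
  · rintro ⟨h, h1, h2, h3⟩
    exact ⟨h, mem_filter.2 ⟨mem_univ _, h1, h2⟩, h3⟩

/-- The data. Proof. `σ j = (decide (hd ω (j, false) ∈ C), decide (hd ω (j, true) ∈ C))` for mid `j`, `(false, false)` otherwise. `scov σ = Cov m ω C`. `r ∉ scov σ` (`hr`).
`pr C \ {r} ⊆ scov σ` (`cov`), `X' = scov σ \ pr C` (each of its elements is the base of a missed half: `|X'| ≤ N1`), `T = {ν ∈ C : ν.1 ∉ full C, ν.1 ≠ r}`
(`|T| ≤ N1`: one node for each vertex of `(pr C \ full C).erase r`). `full C = (scov σ \ X') \ T.image Prod.fst` (`r ∉ full C` by `nmem`). -/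
theorem r1_data {m N1 : ℕ} {ω : Om n} {r : Fin (n + 1)} {s : Bool} {C : Finset (Node n)}
    (hr : ∀ h : Half n, h.1 ∈ Mid n m → bs h ≠ r) (hC : AClosed m N1 ω r s C) :
    ∃ σ : Fin n → Bool × Bool, OffMid m σ ∧ ∃ X' ⊆ scov σ, X'.card ≤ N1 ∧
      ∃ T : Finset (Node n), T.card ≤ N1 ∧ (∀ ν ∈ T, ν.1 ∈ scov σ) ∧
        C = mkC r s ((scov σ \ X') \ T.image Prod.fst) T ∧ InBox m C σ ω ∧
        (pr C).card + X'.card = (scov σ).card + 1 := by
  set σ : Fin n → Bool × Bool := fun j =>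
    if j ∈ Mid n m then (decide (hd ω (j, false) ∈ C), decide (hd ω (j, true) ∈ C))
    else (false, false) with hσ
  have hσ1 : ∀ j ∈ Mid n m, σ j = (decide (hd ω (j, false) ∈ C), decide (hd ω (j, true) ∈ C)) := by
    intro j hj
    rw [hσ]
    exact if_pos hj
  have hσ0 : ∀ j, j ∉ Mid n m → σ j = (false, false) := by
    intro j hj
    rw [hσ]
    exact if_neg hj
  have hscov : ∀ x, x ∈ scov σ ↔ ∃ h : Half n, h.1 ∈ Mid n m ∧ hd ω h ∈ C ∧ bs h = x := by
    intro x
    rw [mem_scov]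
    constructor
    · rintro ⟨j, hj⟩
      have hm : j ∈ Mid n m := by
        by_contra hcon
        rw [hσ0 j hcon] at hj
        rcases hj with ⟨h1, -⟩ | ⟨h1, -⟩ <;> exact absurd h1 (by decide)
      rw [hσ1 j hm] at hj
      rcases hj with ⟨h1, h2⟩ | ⟨h1, h2⟩
      · exact ⟨(j, false), hm, of_decide_eq_true h1, h2.symm⟩
      · exact ⟨(j, true), hm, of_decide_eq_true h1, h2.symm⟩
    · rintro ⟨⟨j, t⟩, hm, h1, h2⟩
      refine ⟨j, ?_⟩
      rw [hσ1 j hm]
      cases t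
      · exact Or.inl ⟨decide_eq_true h1, h2.symm⟩
      · exact Or.inr ⟨decide_eq_true h1, h2.symm⟩
  have hCov : ∀ x, x ∈ scov σ ↔ x ∈ Cov m ω C := fun x => by rw [hscov, R1Data_mem_Cov]
  have hrs : r ∉ scov σ := by
    rw [hscov]
    rintro ⟨h, h1, -, h3⟩
    exact hr h h1 h3
  have hrf : r ∉ full C := fun h => hC.nmem (R1Data_mem_full.1 h _)
  have hpr : ∀ x ∈ pr C, x ≠ r → x ∈ scov σ := fun x h1 h2 => (hCov x).2 (hC.cov x h1 h2)
  have hrp : r ∈ pr C := R1Data_mem_pr.2 ⟨s, hC.mem⟩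
  set T : Finset (Node n) := C.filter fun ν => ν.1 ∉ full C ∧ ν.1 ≠ r with hT
  have hTm : ∀ ν, ν ∈ T ↔ ν ∈ C ∧ ν.1 ∉ full C ∧ ν.1 ≠ r := fun ν => by rw [hT, mem_filter]
  have hTp : ∀ ν ∈ T, ν.1 ∈ pr C := fun ν hν => R1Data_mem_pr.2 ⟨ν.2, ((hTm ν).1 hν).1⟩
  refine ⟨σ, hσ0, scov σ \ pr C, sdiff_subset, ?_, T, ?_, ?_, ?_, ?_, ?_⟩
  · refine le_trans ?_ hC.miss
    refine le_trans (card_le_card ?_) (card_image_le (f := bs))
    intro x hx
    rw [mem_sdiff, hscov] at hx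
    obtain ⟨⟨h, h1, h2, h3⟩, h4⟩ := hx
    refine mem_image.2 ⟨h, ?_, h3⟩
    unfold missH
    exact mem_filter.2 ⟨mem_univ _, h1, h2, by rwa [h3]⟩
  · refine le_trans ?_ hC.sing
    refine card_le_card_of_injOn Prod.fst ?_ ?_
    · intro ν hν
      have h1 := (hTm ν).1 hν
      exact mem_erase.2 ⟨h1.2.2, mem_sdiff.2 ⟨hTp ν hν, h1.2.1⟩⟩
    · rintro ⟨x, t⟩ h1 ⟨y, u⟩ h2 (h3 : x = y)
      subst h3
      have h1' := (hTm _).1 h1
      have h2' := (hTm _).1 h2
      by_contra hne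
      have htu : t ≠ u := fun h => hne (by rw [h])
      apply h1'.2.1
      rw [R1Data_mem_full]
      intro w
      rcases Bool.eq_or_eq_not w t with h4 | h4
      · rw [h4]
        exact h1'.1
      · have h5 : w = u := by
          rw [h4]
          cases t <;> cases u <;> simp_all
        rw [h5]
        exact h2'.1
  · intro ν hν
    exact hpr _ (hTp ν hν) ((hTm ν).1 hν).2.2
  · have hF : (scov σ \ (scov σ \ pr C)) \ T.image Prod.fst = full C := by
      ext x
      rw [mem_sdiff, mem_sdiff, mem_sdiff]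
      constructor
      · rintro ⟨⟨h1, h2⟩, h3⟩
        have h4 : x ∈ pr C := by
          by_contra hcon
          exact h2 ⟨h1, hcon⟩
        by_contra hcon
        obtain ⟨t, ht⟩ := R1Data_mem_pr.1 h4
        apply h3
        refine mem_image.2 ⟨(x, t), (hTm _).2 ⟨ht, hcon, ?_⟩, rfl⟩
        intro h5
        exact hrs ((show x = r from h5) ▸ h1)
      · intro h
        have h1 : x ≠ r := fun h2 => hrf (h2 ▸ h)
        have h2 : x ∈ pr C := R1Data_mem_pr.2 ⟨true, R1Data_mem_full.1 h true⟩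
        refine ⟨⟨hpr x h2 h1, fun h3 => h3.2 h2⟩, fun h3 => ?_⟩
        obtain ⟨ν, h4, h5⟩ := mem_image.1 h3
        exact ((hTm ν).1 h4).2.1 (h5 ▸ h)
    rw [hF]
    unfold mkC
    ext ⟨x, t⟩
    rw [mem_insert, mem_union, mem_product]
    constructor
    · intro h
      by_cases h1 : x ∈ full C
      · exact Or.inr (Or.inr ⟨h1, mem_univ _⟩)
      · by_cases h2 : x = r
        · left
          subst h2
          have h3 : t = s := by
            by_contra hcon
            apply hC.nmem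
            have h4 : t = !s := by cases t <;> cases s <;> simp_all
            rw [← h4]
            exact h
          rw [h3]
        · exact Or.inr (Or.inl ((hTm _).2 ⟨h, h1, h2⟩))
    · rintro (h | h | h)
      · rw [h]
        exact hC.mem
      · exact ((hTm _).1 h).1
      · exact R1Data_mem_full.1 h.1 t
  · intro j hj
    rw [hσ1 j hj]
    exact ⟨by simp, by simp⟩
  · have h1 : scov σ ∩ pr C = (pr C).erase r := by
      ext x
      rw [mem_inter, mem_erase]
      constructor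
      · rintro ⟨h1, h2⟩
        exact ⟨fun h3 => hrs (h3 ▸ h1), h2⟩
      · rintro ⟨h1, h2⟩
        exact ⟨hpr x h2 h1, h2⟩
    have h2 := card_inter_add_card_sdiff (scov σ) (pr C)
    have h3 := card_erase_add_one hrp
    rw [h1] at h2
    omega

end Pool.Agent.LOI
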