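import Pool.Agent.Lib.LOI.PBase

set_option autoImplicit false

/-!
# Regime 1: the data of an almost closed set
-/

namespace Pool.Agent.LOI

open Finset
open scoped Classical

variable {n : ℕ}

/-- the vertices covered by a sequence of states; `(σ j).1`: the half `(j, false)` has its head in `C`; `(σ j).2`: the half `(j, true)` -/
noncomputable def scov (σ : Fin n → Bool × Bool) : Finset (Fin (n + 1)) :=
  (univ.filter fun j => (σ j).1 = true).image Fin.castSucc ∪
    (univ.filter fun j => (σ j).2 = true).image Fin.succ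

theorem mem_scov {σ : Fin n → Bool × Bool} {x : Fin (n + 1)} :
    x ∈ scov σ ↔ ∃ j, ((σ j).1 = true ∧ x = j.castSucc) ∨ ((σ j).2 = true ∧ x = j.succ) := by
  unfold scov
  rw [mem_union, mem_image, mem_image]
  constructor
  · rintro (⟨j, h1, h2⟩ | ⟨j, h1, h2⟩)
    · exact ⟨j, Or.inl ⟨(mem_filter.1 h1).2, h2.symm⟩⟩
    · exact ⟨j, Or.inr ⟨(mem_filter.1 h1).2, h2.symm⟩⟩
  · rintro ⟨j, (⟨h1, h2⟩ | ⟨h1, h2⟩)⟩
    · exact Or.inl ⟨j, mem_filter.2 ⟨mem_univ _, h1⟩, h2.symm⟩
    · exact Or.inr ⟨j, mem_filter.2 ⟨mem_univ _, h1⟩, h2.symm⟩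

/-- the node set with the full vertices `F`, the single nodes `T` and `(r, s)` -/
noncomputable def mkC (r : Fin (n + 1)) (s : Bool) (F : Finset (Fin (n + 1)))
    (T : Finset (Node n)) : Finset (Node n) :=
  insert (r, s) (T ∪ F ×ˢ (univ : Finset Bool))

/-- the states of the mid edges for `C` are `σ` -/
def InBox (m : ℕ) (C : Finset (Node n)) (σ : Fin n → Bool × Bool) (ω : Om n) : Prop :=
  ∀ j ∈ Mid n m, (hd ω (j, false) ∈ C ↔ (σ j).1 = true) ∧ (hd ω (j, true) ∈ C ↔ (σ j).2 = true)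

/-- weights of the states -/
noncomputable def wt (α β γ : ℝ) : Bool × Bool → ℝ
  | (true, true) => α
  | (false, false) => γ
  | _ => β

/-- no state outside of the mid edges -/
def OffMid (m : ℕ) (σ : Fin n → Bool × Bool) : Prop := ∀ j, j ∉ Mid n m → σ j = (false, false)

end Pool.Agent.LOI
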