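import Pool.Agent.Lib.LOI.R1Data
import Pool.Agent.Lib.LOI.R1Box

set_option autoImplicit false

namespace Pool.Agent.LOI

open Finset
open scoped Classical

variable {n : ℕ}

/-- Proof. A subset with at most `k` elements is the image of a function `Fin k → Option S`; or induction/`sum_choose`. -/
theorem card_small_subsets {α : Type} (S : Finset α) (k : ℕ) :
    (S.powerset.filter fun X => X.card ≤ k).card ≤ (S.card + 1) ^ k := by
  induction k with
  | zero =>
    rw [pow_zero, Finset.card_le_one]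
    intro X hX Y hY
    have hX' := (mem_filter.1 hX).2
    have hY' := (mem_filter.1 hY).2
    rw [card_eq_zero.1 (Nat.le_zero.1 hX'), card_eq_zero.1 (Nat.le_zero.1 hY')]
  | succ k ih =>
    have hsub : (S.powerset.filter fun X => X.card ≤ k + 1) ⊆
        (S.powerset.filter fun X => X.card ≤ k) ∪
          (S ×ˢ (S.powerset.filter fun X => X.card ≤ k)).image (fun p => insert p.1 p.2) := by
      intro X hX
      obtain ⟨h1, h2⟩ := mem_filter.1 hX
      rw [mem_powerset] at h1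
      rw [mem_union]
      by_cases h3 : X.card ≤ k
      · exact Or.inl (mem_filter.2 ⟨mem_powerset.2 h1, h3⟩)
      · right
        have h4 : X.Nonempty := by
          rw [← card_pos]
          omega
        obtain ⟨a, ha⟩ := h4
        refine mem_image.2 ⟨(a, X.erase a), ?_, insert_erase ha⟩
        refine mem_product.2 ⟨h1 ha, mem_filter.2 ⟨mem_powerset.2 ((erase_subset a X).trans h1), ?_⟩⟩
        simp only
        rw [card_erase_of_mem ha]
        omega
    calc (S.powerset.filter fun X => X.card ≤ k + 1).card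
        ≤ _ := card_le_card hsub
      _ ≤ (S.powerset.filter fun X => X.card ≤ k).card +
          ((S ×ˢ (S.powerset.filter fun X => X.card ≤ k)).image (fun p => insert p.1 p.2)).card :=
        card_union_le _ _
      _ ≤ (S.powerset.filter fun X => X.card ≤ k).card +
          S.card * (S.powerset.filter fun X => X.card ≤ k).card := by
        have := card_image_le (s := S ×ˢ (S.powerset.filter fun X => X.card ≤ k))
          (f := fun p => insert p.1 p.2)
        rw [card_product] at this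
        omega
      _ = (S.card + 1) * (S.powerset.filter fun X => X.card ≤ k).card := by ring
      _ ≤ (S.card + 1) * (S.card + 1) ^ k := Nat.mul_le_mul_left _ ih
      _ = (S.card + 1) ^ (k + 1) := by ring

private theorem R1Sum_scov_le (σ : Fin n → Bool × Bool) : (scov σ).card ≤ n + 1 := by
  have h := card_le_univ (scov σ)
  rwa [Fintype.card_fin] at h

private theorem R1Sum_wt_nonneg {α β γ : ℝ} (hα : 0 ≤ α) (hβ : 0 ≤ β) (hγ : 0 ≤ γ)
    (v : Bool × Bool) : 0 ≤ wt α β γ v := by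
  obtain ⟨a, b⟩ := v
  cases a <;> cases b <;> simp only [wt] <;> assumption

/-- `r` is not covered -/
private theorem R1Sum_notMem {m : ℕ} {r : Fin (n + 1)}
    (hr : ∀ h : Half n, h.1 ∈ Mid n m → bs h ≠ r) {σ : Fin n → Bool × Bool}
    (hσ : OffMid m σ) : r ∉ scov σ := by
  intro h
  obtain ⟨j, hj⟩ := mem_scov.1 h
  have hm : j ∈ Mid n m := by
    by_contra hm
    have := hσ j hm
    rw [this] at hj
    simp at hj
  rcases hj with ⟨_, h2⟩ | ⟨_, h2⟩
  · exact hr (j, false) hm (by rw [bs_false, h2])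
  · exact hr (j, true) hm (by rw [bs_true, h2])

/-- Proof. `r1_data`, `Pb_exists` over `σ`, `X'`, `T` (`T ⊆ scov σ ×ˢ univ`), `card_small_subsets`, `r1_box`. `r ∉ scov σ`: vertices of `scov σ` are bases of mid halves.
`c = |scov σ| = |pr C| + |X'| - 1`, so `200 c ≤ n + 1 + 200 N1`. -/
theorem r1_sum {m N1 K : ℕ} {r : Fin (n + 1)} {s : Bool}
    (hr : ∀ h : Half n, h.1 ∈ Mid n m → bs h ≠ r) (B : ℝ) (hB : 1 ≤ B) :
    B ^ K * Pb n (R1 m N1 K r s) ≤
      ∑ c ∈ (range (n + 2)).filter (fun c => 200 * c ≤ n + 1 + 200 * N1),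
        ((c : ℝ) + 1) ^ N1 * (2 * (c : ℝ) + 1) ^ N1 *
        ∑ σ ∈ (univ : Finset (Fin n → Bool × Bool)).filter
            (fun σ => OffMid m σ ∧ (scov σ).card = c),
          ∏ j ∈ Mid n m, wt (c / ((n : ℝ) + 1)) ((N1 + B) / (2 * ((n : ℝ) + 1)))
            (((n : ℝ) + 1 + N1 - c) / ((n : ℝ) + 1)) (σ j) := by
  have hB0 : (0 : ℝ) ≤ B := by linarith
  -- the weight of a state sequence
  let W : (Fin n → Bool × Bool) → ℝ := fun σ =>
    ∏ j ∈ Mid n m, wt ((scov σ).card / ((n : ℝ) + 1)) ((N1 + B) / (2 * ((n : ℝ) + 1)))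
      (((n : ℝ) + 1 + N1 - (scov σ).card) / ((n : ℝ) + 1)) (σ j)
  have hW0 : ∀ σ, 0 ≤ W σ := by
    intro σ
    refine prod_nonneg fun j _ => R1Sum_wt_nonneg (by positivity) (by positivity) ?_ _
    have h1 : ((scov σ).card : ℝ) ≤ (n : ℝ) + 1 := by exact_mod_cast R1Sum_scov_le σ
    have h2 : (0 : ℝ) ≤ N1 := by positivity
    exact div_nonneg (by linarith) (by positivity)
  let SS : Finset (Fin n → Bool × Bool) :=
    univ.filter fun σ => OffMid m σ ∧ 200 * (scov σ).card ≤ n + 1 + 200 * N1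
  let XX : (Fin n → Bool × Bool) → Finset (Finset (Fin (n + 1))) := fun σ =>
    (scov σ).powerset.filter fun X => X.card ≤ N1
  let TT : (Fin n → Bool × Bool) → Finset (Finset (Node n)) := fun σ =>
    (scov σ ×ˢ (univ : Finset Bool)).powerset.filter fun T => T.card ≤ N1
  let ev : (Fin n → Bool × Bool) → Finset (Fin (n + 1)) → Finset (Node n) → Om n → Prop :=
    fun σ X T ω => K ≤ Lr m ω r ∧
      InBox m (mkC r s ((scov σ \ X) \ T.image Prod.fst) T) σ ω
  have hE : Pb n (R1 m N1 K r s) ≤ ∑ σ ∈ SS, ∑ X ∈ XX σ, ∑ T ∈ TT σ, Pb n (ev σ X T) := by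
    refine (Pb_mono (Q := fun ω => ∃ σ ∈ SS, ∃ X ∈ XX σ, ∃ T ∈ TT σ, ev σ X T ω) ?_).trans ?_
    · rintro ω ⟨hK, C, hC, h200⟩
      obtain ⟨σ, hσ, X, hX, hXc, T, hTc, hT, hCe, hbox, hcard⟩ := r1_data hr hC
      refine ⟨σ, mem_filter.2 ⟨mem_univ _, hσ, by omega⟩, X,
        mem_filter.2 ⟨mem_powerset.2 hX, hXc⟩, T, mem_filter.2 ⟨mem_powerset.2 ?_, hTc⟩, hK, ?_⟩
      · intro ν hν
        exact mem_product.2 ⟨hT ν hν, mem_univ _⟩
      · rw [← hCe]
        exact hbox
    · refine (Pb_exists SS _).trans (sum_le_sum fun σ _ => ?_)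
      refine (Pb_exists (XX σ) _).trans (sum_le_sum fun X _ => ?_)
      exact Pb_exists (TT σ) _
  have h1 : B ^ K * Pb n (R1 m N1 K r s) ≤ ∑ σ ∈ SS, ∑ X ∈ XX σ, ∑ T ∈ TT σ, W σ := by
    refine (mul_le_mul_of_nonneg_left hE (pow_nonneg hB0 K)).trans ?_
    rw [mul_sum]
    refine sum_le_sum fun σ hσ => ?_
    rw [mul_sum]
    refine sum_le_sum fun X hX => ?_
    rw [mul_sum]
    refine sum_le_sum fun T hT => ?_
    obtain ⟨_, hσ1, _⟩ := mem_filter.1 hσ
    obtain ⟨hX1, hX2⟩ := mem_filter.1 hX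
    obtain ⟨hT1, hT2⟩ := mem_filter.1 hT
    exact r1_box (R1Sum_notMem hr hσ1) (mem_powerset.1 hX1) hX2 hT2
      (fun ν hν => (mem_product.1 (mem_powerset.1 hT1 hν)).1) B hB _ rfl
  refine h1.trans ?_
  have h2 : ∀ σ ∈ SS, ∑ X ∈ XX σ, ∑ T ∈ TT σ, W σ ≤
      (((scov σ).card : ℝ) + 1) ^ N1 * (2 * ((scov σ).card : ℝ) + 1) ^ N1 * W σ := by
    intro σ _
    rw [sum_const, sum_const, nsmul_eq_mul, nsmul_eq_mul, ← mul_assoc]
    have hx : ((XX σ).card : ℝ) ≤ (((scov σ).card : ℝ) + 1) ^ N1 := by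
      exact_mod_cast card_small_subsets (scov σ) N1
    have ht : ((TT σ).card : ℝ) ≤ (2 * ((scov σ).card : ℝ) + 1) ^ N1 := by
      have := card_small_subsets (scov σ ×ˢ (univ : Finset Bool)) N1
      rw [card_product, card_univ, Fintype.card_bool, mul_comm] at this
      exact_mod_cast this
    exact mul_le_mul_of_nonneg_right (mul_le_mul hx ht (by positivity) (by positivity)) (hW0 σ)
  refine (sum_le_sum h2).trans (le_of_eq ?_)
  have hmaps : ∀ σ ∈ SS, (scov σ).card ∈
      (range (n + 2)).filter (fun c => 200 * c ≤ n + 1 + 200 * N1) := by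
    intro σ hσ
    obtain ⟨_, _, h3⟩ := mem_filter.1 hσ
    exact mem_filter.2 ⟨mem_range.2 (by have := R1Sum_scov_le σ; omega), h3⟩
  rw [← sum_fiberwise_of_maps_to hmaps]
  refine sum_congr rfl fun c hc => ?_
  rw [mul_sum]
  have hset : SS.filter (fun σ => (scov σ).card = c) =
      (univ : Finset (Fin n → Bool × Bool)).filter
        (fun σ => OffMid m σ ∧ (scov σ).card = c) := by
    ext σ
    simp only [SS, mem_filter, mem_univ, true_and]
    constructor
    · rintro ⟨⟨h3, _⟩, h5⟩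
      exact ⟨h3, h5⟩
    · rintro ⟨h3, h5⟩
      refine ⟨⟨h3, ?_⟩, h5⟩
      rw [h5]
      exact (mem_filter.1 hc).2
  rw [hset]
  refine sum_congr rfl fun σ hσ => ?_
  obtain ⟨_, _, h5⟩ := mem_filter.1 hσ
  simp only [W]
  rw [h5]

end Pool.Agent.LOI
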