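import Pool.Agent.Lib.LOI.PBase

set_option autoImplicit false

namespace Pool.Agent.LOI

open Finset
open scoped Classical

variable {n : ℕ}

/-- Proof. `Pb_box`: `j ∈ R`: label in `P`; `j ∈ Mid \ R`: label not in `P`; other `j`: no condition. -/
theorem Rset_prob (m : ℕ) (P : Finset (Fin (n + 1))) (R : Finset (Fin n)) (hR : R ⊆ Mid n m) :
    Pb n (fun ω => Rset m ω P = R) = ((P.card : ℝ) / ((n : ℝ) + 1)) ^ R.card *
      (1 - (P.card : ℝ) / ((n : ℝ) + 1)) ^ ((Mid n m).card - R.card) := by
  have hn : (0 : ℝ) < (n : ℝ) + 1 := by positivity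
  let S : Fin n → Finset (Fin (n + 1) × Bool) := fun j =>
    if j ∈ Mid n m then (if j ∈ R then P ×ˢ univ else Pᶜ ×ˢ univ) else univ
  have h1 : (fun ω : Om n => Rset m ω P = R) = fun ω => ∀ j, ω j ∈ S j := by
    funext ω
    apply propext
    constructor
    · rintro rfl j
      by_cases hM : j ∈ Mid n m
      · by_cases hP : (ω j).1 ∈ P
        · have : j ∈ Rset m ω P := mem_filter.2 ⟨hM, hP⟩
          simp [S, hM, this, hP]
        · have : j ∉ Rset m ω P := fun h => hP (mem_filter.1 h).2
          simp [S, hM, this, hP]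
      · simp [S, hM]
    · intro h
      ext j
      have hj := h j
      by_cases hM : j ∈ Mid n m
      · by_cases hr : j ∈ R
        · have h2 : (ω j).1 ∈ P := by simpa [S, hM, hr] using hj
          simp [Rset, hM, hr, h2]
        · have h2 : (ω j).1 ∉ P := by simpa [S, hM, hr] using hj
          simp [Rset, hr, h2]
      · have : j ∉ R := fun h => hM (hR h)
        simp [Rset, hM, this]
  rw [h1, Pb_box]
  have h2 : ∀ j, ((S j).card : ℝ) / (2 * ((n : ℝ) + 1)) =
      if j ∈ Mid n m then (if j ∈ R then (P.card : ℝ) / ((n : ℝ) + 1)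
        else 1 - (P.card : ℝ) / ((n : ℝ) + 1)) else 1 := by
    intro j
    by_cases hM : j ∈ Mid n m
    · by_cases hr : j ∈ R
      · simp only [S, hM, hr, if_true, card_product, card_univ, Fintype.card_bool]
        push_cast
        field_simp
      · simp only [S, hM, hr, if_true, if_false, card_product, card_univ, Fintype.card_bool,
          card_compl, Fintype.card_fin]
        rw [Nat.cast_mul, Nat.cast_sub (by simpa using card_le_univ P)]
        push_cast
        field_simp
    · simp only [S, hM, if_false, card_univ, Fintype.card_prod, Fintype.card_bool,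
        Fintype.card_fin]
      push_cast
      field_simp
  rw [prod_congr rfl fun j _ => h2 j, ← prod_filter]
  have h3 : (univ.filter fun j => j ∈ Mid n m) = Mid n m := by
    ext j
    simp
  rw [h3, prod_ite, prod_const, prod_const]
  have h4 : ((Mid n m).filter fun j => j ∈ R) = R := by
    rw [filter_mem_eq_inter, inter_eq_right.2 hR]
  have h5 : ((Mid n m).filter fun j => j ∉ R).card = (Mid n m).card - R.card := by
    have h6 : ((Mid n m).filter fun j => j ∉ R) = Mid n m \ R := by
      ext j
      simp
    rw [h6, card_sdiff_of_subset hR]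
  rw [h4, h5]

/-- Proof. Union bound over `P` with `|P| = k` and over `R = Rset m ω P ⊆ Mid n m`; exchange the sums: for fixed `R` the `P` with `|symmDiff P (covE R)| ≤ t` are at
most as many as the sets `D` with at most `t` elements (`P ↦ symmDiff P (covE R)` is injective), and there is none unless `|covE R| ≤ k + t`. -/
theorem r2_sum (m k t : ℕ) :
    Pb n (fun ω => ∃ P : Finset (Fin (n + 1)), P.card = k ∧
      (symmDiff P (covE (Rset m ω P))).card ≤ t) ≤
      (((univ : Finset (Finset (Fin (n + 1)))).filter fun D => D.card ≤ t).card : ℝ) *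
      ∑ R ∈ (Mid n m).powerset.filter (fun R => (covE R).card ≤ k + t),
        ((k : ℝ) / ((n : ℝ) + 1)) ^ R.card *
          (1 - (k : ℝ) / ((n : ℝ) + 1)) ^ ((Mid n m).card - R.card) := by
  have hn : (0 : ℝ) < (n : ℝ) + 1 := by positivity
  rcases lt_or_ge (n + 1) k with hk | hk
  · -- no set has more than `n + 1` elements
    have h1 : Pb n (fun ω => ∃ P : Finset (Fin (n + 1)), P.card = k ∧
        (symmDiff P (covE (Rset m ω P))).card ≤ t) = 0 := by
      have h2 : (fun ω : Om n => ∃ P : Finset (Fin (n + 1)), P.card = k ∧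
          (symmDiff P (covE (Rset m ω P))).card ≤ t) = fun _ => False := by
        funext ω
        apply propext
        constructor
        · rintro ⟨P, hP, -⟩
          have := card_le_univ P
          rw [Fintype.card_fin] at this
          omega
        · exact False.elim
      rw [h2]
      simp [Pb]
    rw [h1]
    have h3 : (Mid n m).powerset.filter (fun R => (covE R).card ≤ k + t) = (Mid n m).powerset := by
      refine filter_true_of_mem fun R _ => ?_
      have := card_le_univ (covE R)
      rw [Fintype.card_fin] at this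
      omega
    rw [h3, sum_pow_mul_eq_add_pow, add_sub_cancel, one_pow, mul_one]
    positivity
  · have hw : ∀ R : Finset (Fin n), 0 ≤ ((k : ℝ) / ((n : ℝ) + 1)) ^ R.card *
        (1 - (k : ℝ) / ((n : ℝ) + 1)) ^ ((Mid n m).card - R.card) := by
      intro R
      have h1 : (k : ℝ) / ((n : ℝ) + 1) ≤ 1 := by
        rw [div_le_one hn]
        exact_mod_cast hk
      have h2 : 0 ≤ 1 - (k : ℝ) / ((n : ℝ) + 1) := by linarith
      positivity
    let Gs : Finset (Fin n) → Finset (Finset (Fin (n + 1))) := fun R =>
      univ.filter fun P => P.card = k ∧ (symmDiff P (covE R)).card ≤ t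
    have hGs : ∀ R, (Gs R).card ≤
        ((univ : Finset (Finset (Fin (n + 1)))).filter fun D => D.card ≤ t).card := by
      intro R
      refine card_le_card_of_injOn (fun P => symmDiff P (covE R)) (fun P hP => ?_)
        (fun P _ Q _ h => symmDiff_left_injective (covE R) h)
      have h1 : P ∈ Gs R := hP
      have h2 := (mem_filter.1 h1).2.2
      exact mem_filter.2 ⟨mem_univ _, h2⟩
    have h1 : Pb n (fun ω => ∃ P : Finset (Fin (n + 1)), P.card = k ∧
        (symmDiff P (covE (Rset m ω P))).card ≤ t) ≤
        Pb n (fun ω => ∃ R ∈ (Mid n m).powerset.filter (fun R => (covE R).card ≤ k + t),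
          ∃ P ∈ Gs R, Rset m ω P = R) := by
      refine Pb_mono fun ω => ?_
      rintro ⟨P, hP, ht⟩
      refine ⟨Rset m ω P, mem_filter.2 ⟨mem_powerset.2 (filter_subset _ _), ?_⟩, P,
        mem_filter.2 ⟨mem_univ _, hP, ht⟩, rfl⟩
      have h2 : covE (Rset m ω P) ⊆ P ∪ symmDiff P (covE (Rset m ω P)) := by
        intro x hx
        by_cases hxP : x ∈ P
        · exact mem_union_left _ hxP
        · exact mem_union_right _ (mem_symmDiff.2 (Or.inr ⟨hx, hxP⟩))
      have h3 := (card_le_card h2).trans (card_union_le _ _)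
      omega
    refine h1.trans ((Pb_exists _ (fun R ω => ∃ P ∈ Gs R, Rset m ω P = R)).trans ?_)
    rw [mul_sum]
    refine sum_le_sum fun R hR => ?_
    refine (Pb_exists (Gs R) (fun P ω => Rset m ω P = R)).trans ?_
    have hRM : R ⊆ Mid n m := mem_powerset.1 (mem_filter.1 hR).1
    have h2 : ∀ P ∈ Gs R, Pb n (fun ω => Rset m ω P = R) = ((k : ℝ) / ((n : ℝ) + 1)) ^ R.card *
        (1 - (k : ℝ) / ((n : ℝ) + 1)) ^ ((Mid n m).card - R.card) := by
      intro P hP
      rw [Rset_prob m P R hRM, (mem_filter.1 hP).2.1]
    rw [sum_congr rfl h2, sum_const, nsmul_eq_mul]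
    exact mul_le_mul_of_nonneg_right (by exact_mod_cast hGs R) (hw R)

end Pool.Agent.LOI
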