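import Pool.Agent.Lib.LOI.PBase

set_option autoImplicit false

namespace Pool.Agent.LOI

open Finset
open scoped Classical

variable {n : ℕ}

private theorem SecM_ind (P : Om n → Prop) [DecidablePred P] :
    ∑ ω : Om n, (if P ω then (1 : ℝ) else 0) = (2 * ((n : ℝ) + 1)) ^ n * Pb n P := by
  have hN : (0 : ℝ) < (2 * ((n : ℝ) + 1)) ^ n := pow_pos (two_pos' n) n
  rw [Pb_eq P, mul_div_cancel₀ _ hN.ne', sum_boole]

/-- Second moment. Proof. `X = ∑_{r ∈ W} 1[A r]`; `E X = w q`, `w = |W|`; `E X^2 ≤ w q + w^2 (1 + η) q^2`; if no `A r` holds then `(X - w q)^2 = (w q)^2`, so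
`Pb ≤ E (X - w q)^2 / (w q)^2 ≤ (w q + η w^2 q^2) / (w q)^2` (`Pb_markov`). -/
theorem second_moment (W : Finset (Fin (n + 1))) (A : Fin (n + 1) → Om n → Prop) (q η : ℝ)
    (hq : 0 < q) (hη : 0 ≤ η) (hW : W.Nonempty) (h1 : ∀ r ∈ W, Pb n (A r) = q)
    (h2 : ∀ r ∈ W, ∀ r' ∈ W, r ≠ r' → Pb n (fun ω => A r ω ∧ A r' ω) ≤ (1 + η) * q ^ 2) :
    Pb n (fun ω => ∀ r ∈ W, ¬ A r ω) ≤ η + 1 / (W.card * q) := by
  have hN : (0 : ℝ) < (2 * ((n : ℝ) + 1)) ^ n := pow_pos (two_pos' n) n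
  have hw : (0 : ℝ) < (W.card : ℝ) := by
    have := hW.card_pos
    exact_mod_cast this
  have hwq : (0 : ℝ) < (W.card : ℝ) * q := mul_pos hw hq
  set X : Om n → ℝ := fun ω => ∑ r ∈ W, (if A r ω then (1 : ℝ) else 0) with hX
  -- first moment
  have e1 : ∑ ω : Om n, X ω = (2 * ((n : ℝ) + 1)) ^ n * (W.card * q) := by
    rw [hX]
    simp only
    rw [sum_comm]
    rw [sum_congr rfl (fun r hr => by rw [SecM_ind (A r), h1 r hr])]
    rw [sum_const, nsmul_eq_mul]
    ring
  -- second moment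
  have e2 : ∑ ω : Om n, X ω ^ 2 ≤
      (2 * ((n : ℝ) + 1)) ^ n * (W.card * q + W.card ^ 2 * ((1 + η) * q ^ 2)) := by
    have s1 : ∀ ω : Om n, X ω ^ 2 =
        ∑ r ∈ W, ∑ r' ∈ W, (if (A r ω ∧ A r' ω) then (1 : ℝ) else 0) := by
      intro ω
      rw [hX]
      simp only
      rw [sq, sum_mul_sum]
      refine sum_congr rfl fun r _ => sum_congr rfl fun r' _ => ?_
      by_cases ha : A r ω <;> by_cases hb : A r' ω <;> simp [ha, hb]
    rw [sum_congr rfl (fun ω _ => s1 ω), sum_comm]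
    have s2 : ∀ r ∈ W, ∑ ω : Om n, ∑ r' ∈ W, (if (A r ω ∧ A r' ω) then (1 : ℝ) else 0) ≤
        (2 * ((n : ℝ) + 1)) ^ n * (q + W.card * ((1 + η) * q ^ 2)) := by
      intro r hr
      rw [sum_comm]
      have s3 : ∀ r' ∈ W, ∑ ω : Om n, (if (A r ω ∧ A r' ω) then (1 : ℝ) else 0) ≤
          (2 * ((n : ℝ) + 1)) ^ n * ((if r = r' then q else 0) + (1 + η) * q ^ 2) := by
        intro r' hr'
        rw [SecM_ind (fun ω => A r ω ∧ A r' ω)]
        refine mul_le_mul_of_nonneg_left ?_ hN.le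
        by_cases h : r = r'
        · subst h
          rw [if_pos rfl]
          have : Pb n (fun ω => A r ω ∧ A r ω) = q := by
            rw [← h1 r hr]
            congr 1
            funext ω
            simp
          rw [this]
          have : 0 ≤ (1 + η) * q ^ 2 := by positivity
          linarith
        · rw [if_neg h, zero_add]
          exact h2 r hr r' hr' h
      refine (sum_le_sum s3).trans (le_of_eq ?_)
      rw [← mul_sum, sum_add_distrib, sum_ite_eq, if_pos hr, sum_const, nsmul_eq_mul]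
    refine (sum_le_sum s2).trans (le_of_eq ?_)
    rw [sum_const, nsmul_eq_mul]
    ring
  -- variance
  have e3 : ∑ ω : Om n, (X ω - W.card * q) ^ 2 ≤
      (2 * ((n : ℝ) + 1)) ^ n * (W.card * q + η * (W.card * q) ^ 2) := by
    have s1 : ∑ ω : Om n, (X ω - W.card * q) ^ 2 =
        ∑ ω : Om n, X ω ^ 2 - 2 * (W.card * q) * ∑ ω : Om n, X ω +
          (2 * ((n : ℝ) + 1)) ^ n * (W.card * q) ^ 2 := by
      have s2 : (2 * ((n : ℝ) + 1)) ^ n * (W.card * q) ^ 2 =
          ∑ ω : Om n, ((W.card : ℝ) * q) ^ 2 := by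
        rw [sum_const, nsmul_eq_mul, card_Om n]
      rw [s2, mul_sum, ← sum_sub_distrib, ← sum_add_distrib]
      refine sum_congr rfl fun ω _ => ?_
      ring
    rw [s1, e1]
    nlinarith [e2]
  have e4 := Pb_markov (n := n) (fun ω => ∀ r ∈ W, ¬ A r ω) (fun ω => (X ω - W.card * q) ^ 2)
    (fun ω => sq_nonneg _) ((W.card * q) ^ 2) (by positivity) (by
      intro ω hω
      have : X ω = 0 := by
        rw [hX]
        simp only
        refine sum_eq_zero fun r hr => ?_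
        rw [if_neg (hω r hr)]
      show (W.card * q) ^ 2 ≤ (X ω - W.card * q) ^ 2
      rw [this]
      apply le_of_eq
      ring)
  refine e4.trans ?_
  rw [div_div, div_le_iff₀ (by positivity)]
  refine e3.trans (le_of_eq ?_)
  field_simp
  ring

end Pool.Agent.LOI
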