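import Mathlib

set_option autoImplicit false

namespace Pool.Agent.LOI

open Finset
open scoped Classical

/-- Sequences with constraints between neighbours: if there are at least `c 0` first entries and for every previous entry at least `c (j + 1)` admissible entries
at the place `j + 1`, there are at least `∏ c j` admissible sequences. Proof. Induction on `k` with `Fin.snocEquiv`/`Fin.snoc` (the admissible sequences of length `k + 2` are
the pairs of an admissible sequence `ω` of length `k + 1` and an admissible entry after `ω (Fin.last k)`). -/
theorem seq_count {α : Type} [Fintype α] (ok0 : α → Prop) (ok : ℕ → α → α → Prop) (c : ℕ → ℕ)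
    (h0 : c 0 ≤ (univ.filter ok0).card)
    (h : ∀ j prev, c (j + 1) ≤ (univ.filter fun v => ok (j + 1) prev v).card) (k : ℕ) :
    ∏ j ∈ range (k + 1), c j ≤ ((univ : Finset (Fin (k + 1) → α)).filter fun ω =>
      ok0 (ω 0) ∧ ∀ i : Fin k, ok (i.val + 1) (ω i.castSucc) (ω i.succ)).card := by
  induction k with
  | zero =>
    have hp : ∏ j ∈ range (0 + 1), c j = c 0 := prod_range_one c
    rw [hp]
    refine h0.trans (card_le_card_of_injOn (fun a _ => a) ?_ ?_)
    · intro a ha
      rw [mem_coe, mem_filter] at ha
      rw [mem_coe, mem_filter]
      exact ⟨mem_univ _, ha.2, fun i => i.elim0⟩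
    · intro a _ b _ hab
      exact congrFun hab 0
  | succ k ih =>
    rw [prod_range_succ]
    set S := (univ : Finset (Fin (k + 1) → α)).filter fun ω =>
      ok0 (ω 0) ∧ ∀ i : Fin k, ok (i.val + 1) (ω i.castSucc) (ω i.succ) with hS
    calc (∏ j ∈ range (k + 1), c j) * c (k + 1) ≤ S.card * c (k + 1) :=
          Nat.mul_le_mul_right _ ih
      _ = ∑ _ω ∈ S, c (k + 1) := by rw [sum_const, smul_eq_mul]
      _ ≤ ∑ ω ∈ S, (univ.filter fun v => ok (k + 1) (ω (Fin.last k)) v).card :=
          sum_le_sum fun ω _ => h k _
      _ = (S.sigma fun ω => univ.filter fun v => ok (k + 1) (ω (Fin.last k)) v).card :=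
          (card_sigma _ _).symm
      _ ≤ _ := by
          refine card_le_card_of_injOn
            (fun p : (_ : Fin (k + 1) → α) × α => (Fin.snoc (α := fun _ => α) p.1 p.2)) ?_ ?_
          · rintro ⟨ω, v⟩ hp
            rw [mem_coe, mem_sigma, hS, mem_filter, mem_filter] at hp
            obtain ⟨⟨-, h1, h2⟩, -, h3⟩ := hp
            rw [mem_coe, mem_filter]
            refine ⟨mem_univ _, ?_, fun i => ?_⟩
            · have h4 : (Fin.snoc (α := fun _ => α) ω v) 0 = ω 0 :=
                Fin.snoc_castSucc (α := fun _ => α) v ω 0
              simp only
              rw [h4]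
              exact h1
            · refine Fin.lastCases ?_ (fun i => ?_) i
              · have h5 : (Fin.snoc (α := fun _ => α) ω v) (Fin.last k).castSucc =
                    ω (Fin.last k) := Fin.snoc_castSucc (α := fun _ => α) v ω _
                have h6 : (Fin.snoc (α := fun _ => α) ω v) (Fin.last k).succ = v := by
                  rw [Fin.succ_last]
                  exact Fin.snoc_last (α := fun _ => α) v ω
                simp only
                rw [h5, h6]
                exact h3
              · have h5 : (Fin.snoc (α := fun _ => α) ω v) i.castSucc.castSucc =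
                    ω i.castSucc := Fin.snoc_castSucc (α := fun _ => α) v ω _
                have h6 : (Fin.snoc (α := fun _ => α) ω v) i.castSucc.succ = ω i.succ := by
                  rw [Fin.succ_castSucc]
                  exact Fin.snoc_castSucc (α := fun _ => α) v ω _
                simp only
                rw [h5, h6]
                exact h2 i
          · rintro ⟨ω, v⟩ _ ⟨ω', v'⟩ _ hab
            simp only at hab
            have h7 : ω = ω' := by
              funext i
              have h8 := congrFun hab i.castSucc
              rwa [Fin.snoc_castSucc (α := fun _ => α) v ω i,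
                Fin.snoc_castSucc (α := fun _ => α) v' ω' i] at h8
            have h9 : v = v' := by
              have h8 := congrFun hab (Fin.last (k + 1))
              rwa [Fin.snoc_last (α := fun _ => α) v ω, Fin.snoc_last (α := fun _ => α) v' ω'] at h8
            subst h7
            subst h9
            rfl

end Pool.Agent.LOI
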