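import Pool.Agent.Lib.LOI.KapIns
import Pool.Agent.Lib.LOI.Spot

set_option autoImplicit false

namespace Pool.Agent.LOI

open Finset
open scoped Classical

variable {n : ℕ}

/-- L3, case D. Proof. `x = bs h`, `y = bs h' = lb h`, `lb h' = x` (`hd_fst`); `x ≠ y` by `hω.1 h`. `S = {x, y}`, `H = {h, h'}`, `k = h'`.
`h.1 ≠ h'.1` since the labels `y, x` differ. `step`: `x ∈ A`, so `y ∉ A`, `A ∪ S = insert y A`, `kap_insert'` with `{h, h'}` (`h`: label
`y`, base in `A`; `h'`: base `y`, label in `A`). -/
theorem spotD {ω : Om n} (hω : Red ω) {t : Bool} {h h' : Half n} (h1 : bs h' = lb ω h)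
    (h2 : hd ω h' = (bs h, t)) : ∃ S H, Spot ω t h S H := by
  have hxy : lb ω h ≠ bs h := hω.1 h
  have hl' : lb ω h' = bs h := by
    rw [← hd_fst, h2]
  have hne : h ≠ h' := by
    intro e
    rw [← e] at h1
    exact hxy h1.symm
  have hedge : h.1 ≠ h'.1 := by
    intro e
    have h3 : lb ω h = lb ω h' := by
      unfold lb
      rw [e]
    rw [hl'] at h3
    exact hxy h3
  have hinj : ∀ k ∈ ({h, h'} : Finset (Half n)), ∀ k' ∈ ({h, h'} : Finset (Half n)),
      k.1 = k'.1 → k = k' := by
    intro k hk k' hk' e
    rw [mem_insert, mem_singleton] at hk hk'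
    rcases hk with rfl | rfl <;> rcases hk' with rfl | rfl
    · rfl
    · exact absurd e hedge
    · exact absurd e.symm hedge
    · rfl
  have hcard : ({h, h'} : Finset (Half n)).card = 2 := card_pair hne
  have hS : ({bs h, lb ω h} : Finset (Fin (n + 1))).card = 2 := card_pair hxy.symm
  refine ⟨{bs h, lb ω h}, {h, h'}, ?_⟩
  refine { mem := mem_insert_self _ _, card_le := by omega, card_eq := by rw [hcard, hS],
           loc := ?_, inj := hinj, hmem := mem_insert_self _ _, huniq := ?_, ex := ?_,
           step := ?_ }
  · intro k hk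
    rw [mem_insert, mem_singleton] at hk
    rcases hk with rfl | rfl
    · exact ⟨mem_insert_self _ _, mem_insert_of_mem (mem_singleton_self _)⟩
    · rw [h1, hl']
      exact ⟨mem_insert_of_mem (mem_singleton_self _), mem_insert_self _ _⟩
  · intro k hk e
    rw [mem_insert, mem_singleton] at hk
    rcases hk with rfl | rfl
    · rfl
    · rw [h1] at e
      exact absurd e hxy
  · refine ⟨h', mem_insert_of_mem (mem_singleton_self _), h2, ?_⟩
    intro k' hk' e
    rw [mem_insert, mem_singleton] at hk'
    rcases hk' with rfl | rfl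
    · exact absurd e hxy
    · rfl
  · intro A hA hSA
    have hy : lb ω h ∉ A := by
      intro hy
      apply hSA
      intro z hz
      rw [mem_insert, mem_singleton] at hz
      rcases hz with rfl | rfl
      · exact hA
      · exact hy
    have hU : A ∪ {bs h, lb ω h} = insert (lb ω h) A := by
      ext z
      simp only [mem_union, mem_insert, mem_singleton]
      constructor
      · rintro (h3 | rfl | rfl)
        · exact Or.inr h3
        · exact Or.inr hA
        · exact Or.inl rfl
      · rintro (rfl | h3)
        · exact Or.inr (Or.inr rfl)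
        · exact Or.inl h3
    have h4 := kap_insert' ω A (lb ω h) hy {h, h'} hinj (by
      intro k hk
      rw [mem_insert, mem_singleton] at hk
      rcases hk with rfl | rfl
      · exact Or.inr ⟨rfl, hA⟩
      · exact Or.inl ⟨by rw [hl']; exact hA, h1⟩)
    rw [hcard] at h4
    rw [hU]
    push_cast at h4
    linarith

end Pool.Agent.LOI
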