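import Pool.Agent.Lib.LOI.Half

/-!
# The units

All proofs: unfold `un`, `unM`; at an inner vertex there are exactly two halves (`exists_other`, `exists_two`); `UReq` says that there is
at most one requirement `(t0, h0)` at the vertex.
-/

set_option autoImplicit false

/-!
# The units

All proofs: unfold `un`, `unM`; at an inner vertex there are exactly two halves (`exists_other`, `exists_two`); `UReq` says that there is
at most one requirement `(t0, h0)` at the vertex.
-/

namespace Pool.Agent.LOI

open Finset
open scoped Classical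

variable {n : ℕ}

private theorem UnB_mid {a b : Fin (n + 1)} {ω : Om n} {h : Half n} (h1 : a < bs h)
    (h2 : bs h < b) (t : Bool) : un a b ω h t = unM ω h t := by
  unfold un
  rw [if_neg (not_lt.2 h1.le), if_neg (ne_of_gt h1), if_pos h2]

theorem un_nonneg (a b : Fin (n + 1)) (ω : Om n) (h : Half n) (t : Bool) : 0 ≤ un a b ω h t := by
  unfold un unM
  split_ifs <;> norm_num

/-- no requirement at the vertex: one unit -/
theorem un_notJ {a b : Fin (n + 1)} {ω : Om n} {h : Half n} (h1 : a < bs h) (h2 : bs h < b)
    (hJ : bs h ∉ Jset ω) (t : Bool) : un a b ω h t = 1 := by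
  rw [mem_Jset] at hJ
  push Not at hJ
  rw [UnB_mid h1 h2]
  unfold unM
  rw [if_neg, if_neg]
  · rintro ⟨t', h', h3, h4⟩
    exact hJ t' h' h3 h4
  · rintro (h3 | ⟨h', -, h3, h4⟩)
    · exact hJ t h rfl h3
    · exact hJ _ h' h3 h4

theorem un_req0 {a b : Fin (n + 1)} {ω : Om n} {h : Half n} (h1 : a < bs h) (h2 : bs h < b)
    {t : Bool} (hr : Req ω t h) : un a b ω h t = 0 := by
  rw [UnB_mid h1 h2]
  unfold unM
  rw [if_pos (Or.inl hr)]

/-- `(t, h')` is the requirement, `h` is the other half: by `UReq` neither `Req ω t h` nor `Req ω (!t) h'` -/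
theorem un_req2 {a b : Fin (n + 1)} {ω : Om n} (hu : UReq ω) {h h' : Half n} (h1 : a < bs h)
    (h2 : bs h < b) {t : Bool} (hr : Req ω t h') (e : bs h' = bs h) (hne : h' ≠ h) :
    un a b ω h t = 2 := by
  rw [UnB_mid h1 h2]
  unfold unM
  rw [if_neg, if_pos ⟨t, h', e, hr⟩]
  rintro (h3 | ⟨h'', -, h3, h4⟩)
  · exact hne (hu t h' t h hr h3 e).2
  · have h5 := (hu t h' (!t) h'' hr h4 (e.trans h3.symm)).1
    cases t <;> simp at h5

private theorem UnB_opp0 {a b : Fin (n + 1)} {ω : Om n} {h h' : Half n} (h1 : a < bs h)
    (h2 : bs h < b) {t : Bool} (hr : Req ω (!t) h') (e : bs h' = bs h) (hne : h' ≠ h) :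
    un a b ω h t = 0 := by
  rw [UnB_mid h1 h2]
  unfold unM
  rw [if_pos (Or.inr ⟨h', hne, e, hr⟩)]

private theorem UnB_opp2 {a b : Fin (n + 1)} {ω : Om n} (hu : UReq ω) {h : Half n} (h1 : a < bs h)
    (h2 : bs h < b) {t : Bool} (hr : Req ω (!t) h) : un a b ω h t = 2 := by
  rw [UnB_mid h1 h2]
  unfold unM
  rw [if_neg, if_pos ⟨!t, h, rfl, hr⟩]
  rintro (h3 | ⟨h'', h5, h3, h4⟩)
  · have h5 := (hu (!t) h t h hr h3 rfl).1
    cases t <;> simp at h5
  · exact h5 (hu (!t) h (!t) h'' hr h4 h3.symm).2.symm

/-- between the roots each half has two units -/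
theorem un_sum_t {a b : Fin (n + 1)} {ω : Om n} (hu : UReq ω) {h : Half n} (h1 : a < bs h)
    (h2 : bs h < b) : un a b ω h true + un a b ω h false = 2 := by
  by_cases hJ : bs h ∈ Jset ω
  · rw [mem_Jset] at hJ
    obtain ⟨t0, h0, e, hr⟩ := hJ
    by_cases h3 : h0 = h
    · subst h3
      cases t0
      · rw [un_req0 h1 h2 hr, UnB_opp2 hu h1 h2 (t := true) (by simpa using hr)]
        norm_num
      · rw [un_req0 h1 h2 hr, UnB_opp2 hu h1 h2 (t := false) (by simpa using hr)]
        norm_num
    · cases t0
      · rw [un_req2 hu h1 h2 hr e h3, UnB_opp0 h1 h2 (t := true) (by simpa using hr) e h3]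
        norm_num
      · rw [un_req2 hu h1 h2 hr e h3, UnB_opp0 h1 h2 (t := false) (by simpa using hr) e h3]
        norm_num
  · rw [un_notJ h1 h2 hJ, un_notJ h1 h2 hJ]
    norm_num

/-- between the roots each node gives two units -/
theorem un_pair {a b : Fin (n + 1)} {ω : Om n} (hu : UReq ω) {h h' : Half n} (h1 : a < bs h)
    (h2 : bs h < b) (e : bs h' = bs h) (hne : h' ≠ h) (t : Bool) :
    un a b ω h t + un a b ω h' t = 2 := by
  have h1' : a < bs h' := by rw [e]; exact h1
  have h2' : bs h' < b := by rw [e]; exact h2
  by_cases hJ : bs h ∈ Jset ω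
  · have hJ' := hJ
    rw [mem_Jset] at hJ
    obtain ⟨t0, h0, e0, hr⟩ := hJ
    obtain ⟨k, hk1, hk2, hk3, hk4⟩ := exists_other h
      (lt_of_le_of_lt (Nat.zero_le _) (Fin.lt_def.1 h1))
      (lt_of_lt_of_le (Fin.lt_def.1 h2) (Nat.lt_succ_iff.1 b.isLt))
    have hk : h' = k := by
      rcases hk4 h' e with h3 | h3
      · exact (hne h3).elim
      · exact h3
    subst hk
    by_cases ht : t0 = t
    · subst ht
      rcases hk4 h0 e0 with h3 | h3
      · subst h3
        rw [un_req0 h1 h2 hr, un_req2 hu h1' h2' hr e.symm hne.symm]
        norm_num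
      · subst h3
        rw [un_req0 h1' h2' hr, un_req2 hu h1 h2 hr e hne]
        norm_num
    · have ht' : t0 = !t := by
        cases t <;> cases t0 <;> simp_all
      subst ht'
      rcases hk4 h0 e0 with h3 | h3
      · subst h3
        rw [UnB_opp2 hu h1 h2 hr, UnB_opp0 h1' h2' hr e.symm hne.symm]
        norm_num
      · subst h3
        rw [UnB_opp2 hu h1' h2' hr, UnB_opp0 h1 h2 hr e hne]
        norm_num
  · have hJ' : bs h' ∉ Jset ω := by rw [e]; exact hJ
    rw [un_notJ h1 h2 hJ, un_notJ h1' h2' hJ']
    norm_num

/-- each edge has four units. Cases: `j.succ ≤ a`; `a ≤ j.castSucc`, `j.succ ≤ b`; `b ≤ j.castSucc`. -/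
theorem un_edge {a b : Fin (n + 1)} (hab : a < b) {ω : Om n} (hu : UReq ω) (j : Fin n) :
    un a b ω (j, false) true + un a b ω (j, false) false +
      (un a b ω (j, true) true + un a b ω (j, true) false) = 4 := by
  have hab' := Fin.lt_def.1 hab
  have hF : un a b ω (j, false) true + un a b ω (j, false) false =
      if j.val < a.val then 4 else if j.val < b.val then 2 else 0 := by
    by_cases c1 : j.val < a.val
    · have c1' : bs ((j, false) : Half n) < a := by rw [bs_false, Fin.lt_def]; simpa using c1
      rw [if_pos c1]
      unfold un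
      rw [if_pos c1', if_pos c1']
      norm_num
    · rw [if_neg c1]
      have c1' : ¬ bs ((j, false) : Half n) < a := by rw [bs_false, Fin.lt_def]; simpa using c1
      by_cases c2 : j.val = a.val
      · have c2' : bs ((j, false) : Half n) = a := by
          rw [bs_false]; ext; simpa using c2
        rw [if_pos (by omega)]
        unfold un
        rw [if_neg c1', if_neg c1', if_pos c2', if_pos c2']
        norm_num
      · by_cases c3 : j.val < b.val
        · rw [if_pos c3]
          refine un_sum_t hu ?_ ?_
          · rw [bs_false, Fin.lt_def]; simp; omega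
          · rw [bs_false, Fin.lt_def]; simpa using c3
        · rw [if_neg c3]
          have c2' : ¬ bs ((j, false) : Half n) = a := by
            rw [bs_false]; intro h; exact c2 (by rw [← h]; simp)
          have c3' : ¬ bs ((j, false) : Half n) < b := by
            rw [bs_false, Fin.lt_def]; simpa using c3
          unfold un
          rw [if_neg c1', if_neg c1', if_neg c2', if_neg c2', if_neg c3', if_neg c3']
          simp
  have hT : un a b ω (j, true) true + un a b ω (j, true) false =
      if j.val < a.val then 0 else if j.val < b.val then 2 else 4 := by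
    by_cases c1 : j.val < a.val
    · rw [if_pos c1]
      by_cases c2 : j.val + 1 < a.val
      · have c2' : bs ((j, true) : Half n) < a := by rw [bs_true, Fin.lt_def]; simpa using c2
        unfold un
        rw [if_pos c2', if_pos c2']
        norm_num
      · have c3' : bs ((j, true) : Half n) = a := by
          rw [bs_true]; ext; simp; omega
        have c2' : ¬ bs ((j, true) : Half n) < a := by rw [c3']; exact lt_irrefl _
        unfold un
        rw [if_neg c2', if_neg c2', if_pos c3', if_pos c3']
        norm_num
    · rw [if_neg c1]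
      have d1 : ¬ bs ((j, true) : Half n) < a := by
        rw [bs_true, Fin.lt_def]; simp; omega
      have d2 : ¬ bs ((j, true) : Half n) = a := by
        rw [bs_true]; intro h; have := congrArg Fin.val h; simp at this; omega
      by_cases c3 : j.val < b.val
      · rw [if_pos c3]
        by_cases c4 : j.val + 1 < b.val
        · refine un_sum_t hu ?_ ?_
          · rw [bs_true, Fin.lt_def]; simp; omega
          · rw [bs_true, Fin.lt_def]; simpa using c4
        · have c5' : bs ((j, true) : Half n) = b := by
            rw [bs_true]; ext; simp; omega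
          have d3 : ¬ bs ((j, true) : Half n) < b := by rw [c5']; exact lt_irrefl _
          unfold un
          rw [if_neg d1, if_neg d1, if_neg d2, if_neg d2, if_neg d3, if_neg d3, if_pos c5']
          norm_num
      · rw [if_neg c3]
        have d3 : ¬ bs ((j, true) : Half n) < b := by
          rw [bs_true, Fin.lt_def]; simp; omega
        have d4 : ¬ bs ((j, true) : Half n) = b := by
          rw [bs_true]; intro h; have := congrArg Fin.val h; simp at this; omega
        unfold un
        rw [if_neg d1, if_neg d1, if_neg d2, if_neg d2, if_neg d3, if_neg d3, if_neg d4]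
        norm_num
  rw [hF, hT]
  split_ifs <;> norm_num

/-- each node gives two units, except the ends of the roots, which give one -/
theorem un_push {a b : Fin (n + 1)} (hab : a < b) {ω : Om n} (hu : UReq ω) (x : Fin (n + 1))
    (t : Bool) : ∑ h ∈ (univ : Finset (Half n)).filter (fun h => bs h = x), un a b ω h t =
      if x = a ∨ x = b then 1 else 2 := by
  have hab' := Fin.lt_def.1 hab
  have hbn : b.val ≤ n := Nat.lt_succ_iff.1 b.isLt
  rcases le_or_gt x a with hxa | hxa
  · have hxa' := Fin.le_def.1 hxa
    have hxn : x.val < n := by omega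
    have hb : bs ((⟨x.val, hxn⟩, false) : Half n) = x := by
      rw [bs_false]; ext; simp
    rw [Finset.sum_eq_single ((⟨x.val, hxn⟩, false) : Half n)]
    · unfold un
      rw [hb]
      rcases lt_or_eq_of_le hxa with h1 | h1
      · have h3 : ¬ (x = a ∨ x = b) := by
          rintro (h2 | h2)
          · exact absurd h2 (ne_of_lt h1)
          · exact absurd h2 (ne_of_lt (lt_trans h1 hab))
        rw [if_pos h1, if_neg h3]
        simp
      · rw [if_neg (by rw [h1]; exact lt_irrefl _), if_pos h1, if_pos (Or.inl h1)]
        simp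
    · intro k hk hne
      rw [mem_filter] at hk
      have hk2 : k.2 = true := by
        by_contra h2
        refine hne (half_ext (hk.2.trans hb.symm) ?_)
        simpa using h2
      unfold un
      rw [hk.2, hk2]
      rcases lt_or_eq_of_le hxa with h1 | h1
      · rw [if_pos h1]
        simp
      · rw [if_neg (by rw [h1]; exact lt_irrefl _), if_pos h1]
        simp
    · intro h1
      exact (h1 (mem_filter.2 ⟨mem_univ _, hb⟩)).elim
  · have hxa' := Fin.lt_def.1 hxa
    rcases le_or_gt b x with hbx | hbx
    · have hbx' := Fin.le_def.1 hbx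
      have hxn := Nat.lt_succ_iff.1 x.isLt
      have hx1 : x.val - 1 < n := by omega
      have hb : bs ((⟨x.val - 1, hx1⟩, true) : Half n) = x := by
        rw [bs_true]; ext; simp; omega
      have e1 : ¬ x < a := not_lt.2 hxa.le
      have e2 : ¬ x = a := ne_of_gt hxa
      have e3 : ¬ x < b := not_lt.2 hbx
      rw [Finset.sum_eq_single ((⟨x.val - 1, hx1⟩, true) : Half n)]
      · unfold un
        rw [hb, if_neg e1, if_neg e2, if_neg e3]
        rcases lt_or_eq_of_le hbx with h1 | h1
        · have h3 : ¬ (x = a ∨ x = b) := by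
            rintro (h2 | h2)
            · exact e2 h2
            · exact absurd h2 (ne_of_gt h1)
          rw [if_neg (ne_of_gt h1), if_neg h3]
          simp
        · rw [if_pos h1.symm, if_pos (Or.inr h1.symm)]
          simp
      · intro k hk hne
        rw [mem_filter] at hk
        have hk2 : k.2 = false := by
          by_contra h2
          refine hne (half_ext (hk.2.trans hb.symm) ?_)
          simpa using h2
        unfold un
        rw [hk.2, hk2, if_neg e1, if_neg e2, if_neg e3]
        simp
      · intro h1
        exact (h1 (mem_filter.2 ⟨mem_univ _, hb⟩)).elim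
    · have hbx' := Fin.lt_def.1 hbx
      obtain ⟨h, h', q1, q2, q3, q4, q5⟩ := exists_two x (by omega) (by omega)
      have hne : h' ≠ h := by
        intro h6
        rw [h6, q1] at q2
        exact absurd q2 (by simp)
      have hf : (univ : Finset (Half n)).filter (fun h => bs h = x) = {h, h'} := by
        ext k
        rw [mem_filter, mem_insert, mem_singleton]
        constructor
        · rintro ⟨-, h6⟩
          exact q5 k h6
        · rintro (h6 | h6)
          · rw [h6]; exact ⟨mem_univ _, q3⟩
          · rw [h6]; exact ⟨mem_univ _, q4⟩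
      rw [hf, sum_pair hne.symm, un_pair hu (by rw [q3]; exact hxa) (by rw [q3]; exact hbx)
        (q4.trans q3.symm) hne, if_neg]
      rintro (h6 | h6)
      · exact absurd h6 (ne_of_gt hxa)
      · exact absurd h6 (ne_of_lt hbx)

end Pool.Agent.LOI
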